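import Pool.Agent.H87.ZI.BasT

/-!
# Hockey stick divergences: elementary facts

For a weight `w ≥ 0`: `0 ≤ (|T i j| - w i)⁺ ≤ |T i j|`, so `0 ≤ Hs T w j ≤ cn T j ≤ 1 + ε`; `Hs` decreases in the
weight. Every term of `Er T w j k` is at most `|T i j| + |T i k|`.

Mass identity: with `U = {i | w i < |T i j|}`: `∑_{i ∈ U} |T i k| = Hs T w k + ∑_{i ∈ U} w i - Er T w j k` (the sum
of `w i` over `U` converges since `w i < |T i j|` there), and for `k = j` the last term is `0`. Subtract.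
-/

namespace Pool.Agent.H87.ZI

variable {T : ℕ → ℕ → ℝ} {ε : ℝ}

theorem Hs_summable (hT : Proj T ε) {w : ℕ → ℝ} (hw : ∀ i, 0 ≤ w i) (j : ℕ) :
    Summable fun i => max (|T i j| - w i) 0 := by
  refine Summable.of_nonneg_of_le (fun i => le_max_right _ _) (fun i => ?_) (hT.summ j)
  exact max_le (by linarith [hw i]) (abs_nonneg _)

theorem Hs_nonneg (T : ℕ → ℕ → ℝ) (w : ℕ → ℝ) (j : ℕ) : 0 ≤ Hs T w j :=
  tsum_nonneg fun _ => le_max_right _ _

theorem Hs_le (hT : Proj T ε) {w : ℕ → ℝ} (hw : ∀ i, 0 ≤ w i) (j : ℕ) : Hs T w j ≤ cn T j :=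
  Summable.tsum_le_tsum (fun i => max_le (by linarith [hw i]) (abs_nonneg _))
    (Hs_summable hT hw j) (hT.summ j)

theorem Hs_abs_le (hT : Proj T ε) {w : ℕ → ℝ} (hw : ∀ i, 0 ≤ w i) (j : ℕ) : |Hs T w j| ≤ 2 := by
  rw [abs_of_nonneg (Hs_nonneg T w j)]
  have h1 := Hs_le hT hw j
  have h2 : cn T j ≤ 1 + ε := hT.norm j
  have h3 := hT.eps1
  linarith

theorem Hs_anti (hT : Proj T ε) {w w' : ℕ → ℝ} (hw : ∀ i, 0 ≤ w i) (h : ∀ i, w i ≤ w' i) (j : ℕ) :
    Hs T w' j ≤ Hs T w j :=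
  Summable.tsum_le_tsum (fun i => max_le_max (by linarith [h i]) le_rfl)
    (Hs_summable hT (fun i => (hw i).trans (h i)) j) (Hs_summable hT hw j)

private theorem bash_min (a w : ℝ) : min a w = a - max (a - w) 0 := by
  rcases le_total a w with h | h
  · rw [min_eq_left h, max_eq_right (by linarith)]; ring
  · rw [min_eq_right h, max_eq_left (by linarith)]; ring

/-- `∑ᵢ min (|T i j|) (w i) = cn T j - Hs T w j` -/
theorem min_sum (hT : Proj T ε) {w : ℕ → ℝ} (hw : ∀ i, 0 ≤ w i) (j : ℕ) :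
    Summable (fun i => min |T i j| (w i)) ∧ ∑' i, min |T i j| (w i) = cn T j - Hs T w j := by
  simp only [bash_min]
  exact ⟨(hT.summ j).sub (Hs_summable hT hw j),
    Summable.tsum_sub (hT.summ j) (Hs_summable hT hw j)⟩

private theorem bash_er_term {w a b : ℝ} (hw : 0 ≤ w) (ha : 0 ≤ a) (hb : 0 ≤ b) :
    0 ≤ (if w < a then max (w - b) 0 else max (b - w) 0) ∧
      (if w < a then max (w - b) 0 else max (b - w) 0) ≤ a + b := by
  split_ifs with h
  · exact ⟨le_max_right _ _, max_le (by linarith) (by linarith)⟩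
  · exact ⟨le_max_right _ _, max_le (by linarith) (by linarith)⟩

theorem Er_summable (hT : Proj T ε) {w : ℕ → ℝ} (hw : ∀ i, 0 ≤ w i) (j k : ℕ) :
    Summable fun i => if w i < |T i j| then max (w i - |T i k|) 0 else max (|T i k| - w i) 0 :=
  Summable.of_nonneg_of_le
    (fun i => (bash_er_term (hw i) (abs_nonneg _) (abs_nonneg _)).1)
    (fun i => (bash_er_term (hw i) (abs_nonneg _) (abs_nonneg _)).2)
    ((hT.summ j).add (hT.summ k))

theorem Er_nonneg (T : ℕ → ℕ → ℝ) (w : ℕ → ℝ) (j k : ℕ) : 0 ≤ Er T w j k := by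
  refine tsum_nonneg fun i => ?_
  split_ifs <;> exact le_max_right _ _

theorem Er_le (hT : Proj T ε) {w : ℕ → ℝ} (hw : ∀ i, 0 ≤ w i) (j k : ℕ) : Er T w j k ≤ 3 := by
  have h1 : Er T w j k ≤ ∑' i, (|T i j| + |T i k|) :=
    Summable.tsum_le_tsum (fun i => (bash_er_term (hw i) (abs_nonneg _) (abs_nonneg _)).2)
      (Er_summable hT hw j k) ((hT.summ j).add (hT.summ k))
  rw [Summable.tsum_add (hT.summ j) (hT.summ k)] at h1
  have h2 := hT.norm j
  have h3 := hT.norm k
  have h4 := hT.eps1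
  linarith

/-- Mass identity. -/
private theorem bash_mass (hT : Proj T ε) {w : ℕ → ℝ} (hw : ∀ i, 0 ≤ w i) (j k : ℕ) :
    ms (fun i => T i k) {i | w i < |T i j|} =
      Hs T w k + (∑' i, ({i | w i < |T i j|} : Set ℕ).indicator w i) - Er T w j k := by
  have hsw : Summable fun i => ({i | w i < |T i j|} : Set ℕ).indicator w i := by
    refine Summable.of_nonneg_of_le (fun i => Set.indicator_nonneg (fun i _ => hw i) i)
      (fun i => ?_) (hT.summ j)
    by_cases h : w i < |T i j|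
    · rw [Set.indicator_of_mem (by exact h)]; exact h.le
    · rw [Set.indicator_of_notMem (by exact h)]; exact abs_nonneg _
  unfold ms Hs Er
  rw [← Summable.tsum_add (Hs_summable hT hw k) hsw,
    ← Summable.tsum_sub ((Hs_summable hT hw k).add hsw) (Er_summable hT hw j k)]
  refine tsum_congr fun i => ?_
  by_cases h : w i < |T i j|
  · rw [Set.indicator_of_mem (by exact h), Set.indicator_of_mem (by exact h), if_pos h]
    rcases le_total (|T i k|) (w i) with h1 | h1
    · rw [max_eq_right (by linarith), max_eq_left (by linarith)]; ring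
    · rw [max_eq_left (by linarith), max_eq_right (by linarith)]; ring
  · rw [Set.indicator_of_notMem (by exact h), Set.indicator_of_notMem (by exact h), if_neg h]
    ring

private theorem bash_er_self (T : ℕ → ℕ → ℝ) {w : ℕ → ℝ} (j : ℕ) : Er T w j j = 0 := by
  have h0 : ∀ i, (if w i < |T i j| then max (w i - |T i j|) 0 else max (|T i j| - w i) 0) = 0 := by
    intro i
    split_ifs with h
    · exact max_eq_right (by linarith)
    · exact max_eq_right (by linarith [not_lt.1 h])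
  unfold Er
  rw [tsum_congr h0, tsum_zero]

/-- The masses of columns `k` and `j` on `U = {i | w i < |T i j|}` differ by at most
`|Hs k - Hs j| + Er j k`. -/
theorem mass_diff (hT : Proj T ε) {w : ℕ → ℝ} (hw : ∀ i, 0 ≤ w i) (j k : ℕ) :
    |ms (fun i => T i k) {i | w i < |T i j|} - ms (fun i => T i j) {i | w i < |T i j|}| ≤
      |Hs T w k - Hs T w j| + Er T w j k := by
  rw [bash_mass hT hw j k, bash_mass hT hw j j, bash_er_self]
  have h1 := Er_nonneg T w j k
  rw [show Hs T w k + (∑' i, ({i | w i < |T i j|} : Set ℕ).indicator w i) - Er T w j k -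
    (Hs T w j + (∑' i, ({i | w i < |T i j|} : Set ℕ).indicator w i) - 0) =
    (Hs T w k - Hs T w j) - Er T w j k by ring]
  refine (abs_sub _ _).trans ?_
  rw [abs_of_nonneg h1]

theorem low_nonneg (T : ℕ → ℕ → ℝ) (x : ℕ → ℝ) (γ : ℝ) (j : ℕ) : 0 ≤ low T x γ j :=
  ms_nonneg _ _

theorem low_mono (hT : Proj T ε) (x : ℕ → ℝ) {γ γ' : ℝ} (h : γ ≤ γ') (j : ℕ) :
    low T x γ j ≤ low T x γ' j := by
  refine ms_mono (hT.summ j) fun i hi => ?_
  exact le_trans hi (mul_le_mul_of_nonneg_right h (abs_nonneg _))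

theorem low_le (hT : Proj T ε) {x : ℕ → ℝ} (hx : St T x) {γ : ℝ} (hγ : 0 ≤ γ) (j : ℕ) :
    low T x γ j ≤ γ := by
  have h1 : low T x γ j ≤ ∑' i, γ * |x i| := by
    refine Summable.tsum_le_tsum (fun i => ?_) (sum_ms (hT.summ j) _) (hx.summ.mul_left γ)
    by_cases h : |T i j| ≤ γ * |x i|
    · rw [Set.indicator_of_mem (by exact h)]; exact h
    · rw [Set.indicator_of_notMem (by exact h)]; positivity
  rw [tsum_mul_left, hx.one, mul_one] at h1
  exact h1

/-- The set where column `j` is at most `γ |x|` and its complement. -/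
theorem low_add (hT : Proj T ε) (x : ℕ → ℝ) (γ : ℝ) (j : ℕ) :
    low T x γ j + ms (fun i => T i j) {i | wt γ x i < |T i j|} = cn T j := by
  have h1 := ms_compl (hT.summ j) {i | |T i j| ≤ γ * |x i|}
  have h2 : ({i | |T i j| ≤ γ * |x i|} : Set ℕ)ᶜ = {i | wt γ x i < |T i j|} := by
    ext i
    simp [wt]
  rw [h2] at h1
  exact h1

theorem mm_anti (hT : Proj T ε) {x : ℕ → ℝ} (hx : St T x) {γ γ' : ℝ} (h0 : 0 ≤ γ) (h : γ ≤ γ') :
    mm T x γ' ≤ mm T x γ := by
  have hw : ∀ i, 0 ≤ wt γ x i := fun i => mul_nonneg h0 (abs_nonneg _)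
  have hw' : ∀ i, 0 ≤ wt γ' x i := fun i => mul_nonneg (h0.trans h) (abs_nonneg _)
  exact av_mono hx.summ (Hs_abs_le hT hw') (Hs_abs_le hT hw) fun j =>
    Hs_anti hT hw (fun i => mul_le_mul_of_nonneg_right h (abs_nonneg _)) j

end Pool.Agent.H87.ZI
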