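import Pool.Agent.H87.ZI.Sgn
import Pool.Agent.H87.ZI.BasH

/-!
# From one-sided comparison of the columns to atoms (Z9, one column)

`s = cn T j ≥ 1 - b`, `b ≤ 1/10`, and `∑ₖ |T k j| ∑ᵢ (|T i j| - |T i k|)⁺ ≤ a`. Since
`∑ᵢ | |T i k| - |T i j| | = 2 ∑ᵢ (|T i j| - |T i k|)⁺ + cn T k - cn T j` and `cn T k - cn T j ≤ ε + b`, the average over `k`
of `∑ᵢ | |T i k| - |T i j| |` is at most `2 a + (1 + ε) (ε + b)`. With `σ = sg` of column `j`:
`|T i k - σ k T i j| ≤ | |T i k| - |T i j| | + (|T i k| - σ i σ k T i k)` for all `i` and all `k` with `T k j ≠ 0`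
(`T i j = σ i |T i j|`, `|σ k| = 1`; if `σ i = ± 1` multiply by `σ i σ k`; if `σ i = 0` then `T i j = 0` and both sides
are `≥ |T i k|`). The average over `k` of the last terms is at most `2 ε` (`sgn_col`). Total at most
`2 a + (1 + ε)(ε + b) + 2 ε ≤ 2 a + 2 b + 4 ε`.
-/

namespace Pool.Agent.H87.ZI

variable {T : ℕ → ℕ → ℝ} {ε : ℝ}

private theorem gb_term (T : ℕ → ℕ → ℝ) (j k : ℕ) (hk : T k j ≠ 0) (i : ℕ) :
    |T i k - sg (T k j) * T i j| ≤
      (2 * max (|T i j| - |T i k|) 0 + (|T i k| - |T i j|)) +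
        (|T i k| - sg (T i j) * sg (T k j) * T i k) := by
  have h1 : sg (T k j) * sg (T k j) = 1 := sg_mul_sg hk
  have hab : |(|T i k| - |T i j|)| = 2 * max (|T i j| - |T i k|) 0 + (|T i k| - |T i j|) := by
    rcases le_total (|T i j|) (|T i k|) with h | h
    · rw [abs_of_nonneg (by linarith), max_eq_right (by linarith)]; ring
    · rw [abs_of_nonpos (by linarith), max_eq_left (by linarith)]; ring
  rw [← hab]
  have hsk : |sg (T k j)| = 1 := by
    rcases sg_cases (T k j) with h | h | h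
    · rw [h.2]; norm_num
    · exact absurd h.1 hk
    · rw [h.2]; norm_num
  by_cases hi : T i j = 0
  · have h0 : sg (T i j) = 0 := by
      rcases sg_cases (T i j) with h | h | h
      · exact absurd hi (ne_of_gt h.1)
      · exact h.2
      · exact absurd hi (ne_of_lt h.1)
    rw [h0, hi]
    simp only [mul_zero, zero_mul, sub_zero, abs_zero, abs_abs]
    have := abs_nonneg (T i k)
    linarith
  · have h2 : sg (T i j) * sg (T i j) = 1 := sg_mul_sg hi
    have hsi : |sg (T i j)| = 1 := by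
      rcases sg_cases (T i j) with h | h | h
      · rw [h.2]; norm_num
      · exact absurd h.1 hi
      · rw [h.2]; norm_num
    have e1 : |T i k - sg (T k j) * T i j| = |(sg (T i j) * sg (T k j) * T i k - |T i j|)| := by
      have e2 : sg (T i j) * sg (T k j) * T i k - |T i j| =
          (sg (T i j) * sg (T k j)) * (T i k - sg (T k j) * T i j) := by
        have e3 := sg_mul_self (T i j)
        calc sg (T i j) * sg (T k j) * T i k - |T i j|
            = sg (T i j) * sg (T k j) * T i k - sg (T i j) * T i j := by rw [e3]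
          _ = sg (T i j) * sg (T k j) * T i k -
                (sg (T k j) * sg (T k j)) * (sg (T i j) * T i j) := by rw [h1]; ring
          _ = _ := by ring
      rw [e2, abs_mul, abs_mul, hsi, hsk]
      ring
    rw [e1]
    have h3 : sg (T i j) * sg (T k j) * T i k ≤ |T i k| := by
      calc sg (T i j) * sg (T k j) * T i k ≤ |sg (T i j) * sg (T k j) * T i k| := le_abs_self _
        _ = |T i k| := by rw [abs_mul, abs_mul, hsi, hsk]; ring
    have h4 : |(sg (T i j) * sg (T k j) * T i k - |T i k|)| =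
        |T i k| - sg (T i j) * sg (T k j) * T i k := by
      rw [abs_of_nonpos (by linarith)]; ring
    calc |(sg (T i j) * sg (T k j) * T i k - |T i j|)|
        ≤ |(sg (T i j) * sg (T k j) * T i k - |T i k|)| + |(|T i k| - |T i j|)| :=
          abs_sub_le _ _ _
      _ = _ := by rw [h4]; ring

private theorem gb_half (hT : Proj T ε) (j k : ℕ) :
    (Summable fun i => max (|T i j| - |T i k|) 0) ∧
      0 ≤ ∑' i, max (|T i j| - |T i k|) 0 ∧ |(∑' i, max (|T i j| - |T i k|) 0)| ≤ 2 :=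
  ⟨Hs_summable hT (w := fun i => |T i k|) (fun _ => abs_nonneg _) j,
    Hs_nonneg T (fun i => |T i k|) j,
    Hs_abs_le hT (w := fun i => |T i k|) (fun _ => abs_nonneg _) j⟩

private theorem gb_L (hT : Proj T ε) (j k : ℕ) :
    (Summable fun i => |T i k - sg (T k j) * T i j|) ∧
      |(∑' i, |T i k - sg (T k j) * T i j|)| ≤ 3 := by
  have hb : ∀ i, |T i k - sg (T k j) * T i j| ≤ |T i k| + |T i j| := fun i => by
    have h1 := abs_sub (T i k) (sg (T k j) * T i j)
    have h2 : |sg (T k j) * T i j| ≤ |T i j| := by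
      rw [abs_mul]
      have := mul_le_mul_of_nonneg_right (abs_sg_le (T k j)) (abs_nonneg (T i j))
      linarith
    linarith
  have hs2 : Summable fun i => |T i k| + |T i j| := (hT.summ k).add (hT.summ j)
  have hs : Summable fun i => |T i k - sg (T k j) * T i j| :=
    Summable.of_nonneg_of_le (fun i => abs_nonneg _) hb hs2
  refine ⟨hs, ?_⟩
  rw [abs_of_nonneg (tsum_nonneg fun i => abs_nonneg _)]
  have h1 : ∑' i, |T i k - sg (T k j) * T i j| ≤ ∑' i, (|T i k| + |T i j|) :=
    hs.tsum_le_tsum hb hs2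
  rw [(hT.summ k).tsum_add (hT.summ j)] at h1
  have := hT.norm k
  have := hT.norm j
  have := hT.eps1
  linarith

theorem atom_of_half (hT : Proj T ε) {j : ℕ} {a b : ℝ} (hb : 0 ≤ b) (hb1 : b ≤ 1 / 10)
    (hs : 1 - b ≤ cn T j) (ha : ∑' k, |T k j| * ∑' i, max (|T i j| - |T i k|) 0 ≤ a) :
    ∑' k, |T k j| * ∑' i, |T i k - sg (T k j) * T i j| ≤ 2 * a + 2 * b + 4 * ε := by
  have hsp : 0 < cn T j := by linarith
  have hε0 := hT.eps0
  have hε1 := hT.eps1
  have hcnj := hT.cn_le j
  set A : ℕ → ℝ := fun k => ∑' i, max (|T i j| - |T i k|) 0 with hA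
  set L : ℕ → ℝ := fun k => ∑' i, |T i k - sg (T k j) * T i j| with hL
  set S : ℕ → ℝ := fun k => ∑' i, (|T i k| - sg (T i j) * sg (T k j) * T i k) with hS
  have hS0 : ∀ k, 0 ≤ S k := fun k => tsum_nonneg fun i => sgn_term_nonneg T (fun i => T i j) i k
  have hSs : ∀ k, Summable fun i => |T i k| - sg (T i j) * sg (T k j) * T i k :=
    fun k => sgn_summable hT (fun i => T i j) k
  have hS3 : ∀ k, |S k| ≤ 3 := fun k => by
    rw [abs_of_nonneg (hS0 k)]
    exact sgn_le hT (fun i => T i j) k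
  have hA0 : ∀ k, 0 ≤ A k := fun k => (gb_half hT j k).2.1
  have hA2 : ∀ k, |A k| ≤ 2 := fun k => (gb_half hT j k).2.2
  have key : ∀ k, T k j ≠ 0 → L k ≤ (2 * A k + (ε + b)) + S k := fun k hk => by
    have hs1 : Summable fun i => 2 * max (|T i j| - |T i k|) 0 := (gb_half hT j k).1.mul_left 2
    have hs2 : Summable fun i => |T i k| - |T i j| := (hT.summ k).sub (hT.summ j)
    have h1 : L k ≤ ∑' i, ((2 * max (|T i j| - |T i k|) 0 + (|T i k| - |T i j|)) +
        (|T i k| - sg (T i j) * sg (T k j) * T i k)) :=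
      (gb_L hT j k).1.tsum_le_tsum (gb_term T j k hk) ((hs1.add hs2).add (hSs k))
    rw [(hs1.add hs2).tsum_add (hSs k), hs1.tsum_add hs2, tsum_mul_left,
      (hT.summ k).tsum_sub (hT.summ j)] at h1
    have h2 : ∑' i, |T i k| ≤ 1 + ε := hT.norm k
    have h3 : 1 - b ≤ ∑' i, |T i j| := hs
    show L k ≤ (2 * (∑' i, max (|T i j| - |T i k|) 0) + (ε + b)) +
      (∑' i, (|T i k| - sg (T i j) * sg (T k j) * T i k))
    linarith
  have hsum := hT.summ j
  have hbd1 : ∀ k, |2 * A k + (ε + b)| ≤ 10 := fun k => by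
    rw [abs_of_nonneg (by linarith [hA0 k])]
    have := (abs_le.mp (hA2 k)).2
    linarith
  have hbd2 : ∀ k, |S k| ≤ 10 := fun k => (hS3 k).trans (by norm_num)
  have hbd3 : ∀ k, |L k| ≤ 20 := fun k => ((gb_L hT j k).2).trans (by norm_num)
  have hbd4 : ∀ k, |(2 * A k + (ε + b)) + S k| ≤ 20 := fun k =>
    (abs_add_le _ _).trans (by linarith [hbd1 k, hbd2 k])
  have m1 : av (fun k => T k j) L ≤ av (fun k => T k j) (fun k => (2 * A k + (ε + b)) + S k) :=
    av_mono' hsum hbd3 hbd4 key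
  rw [av_add hsum hbd1 hbd2, av_add (C := 10) hsum
    (fun k => by rw [abs_mul]; have := hA2 k; rw [abs_two]; linarith)
    (fun k => by rw [abs_of_nonneg (by linarith)]; linarith), av_mul, av_const] at m1
  have hSa : av (fun k => T k j) S ≤ 2 * ε := sgn_col hT hsp
  have hAa : av (fun k => T k j) A ≤ a := ha
  have hc : (ε + b) * (∑' k, |T k j|) ≤ (ε + b) * (1 + ε) :=
    mul_le_mul_of_nonneg_left (hT.norm j) (by linarith)
  have hgoal : av (fun k => T k j) L ≤ 2 * a + 2 * b + 4 * ε := by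
    nlinarith
  exact hgoal

end Pool.Agent.H87.ZI
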