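import Pool.Agent.H87.ZI.BasH

/-!
# Mass at comparable level

`low_ge`: let `Φ = Hs T (γ |x|) j ≤ 19/20` and `|1 - cn T j| ≤ η² ≤ 10⁻⁶`. By `min_sum`:
`∑ᵢ min |T i j| (γ |x i|) = s - Φ ≥ 1/20 - η²`. The `i` with `|T i j| > 40 γ |x i|` contribute
`γ |x i| < |T i j| / 40`, together at most `s / 40`. So the other `i` contribute at least
`1/20 - η² - s/40 ≥ 1/50`, and there the minimum is at most `|T i j|`.

`mass_H`: if `mm T x γ ≤ 9/10` then the average of `1 - Φ` is at least `1/10`; `1 - Φ ≤ 1`, and `1 - Φ ≤ 1/20` off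
`H = {j | Φ j ≤ 19/20}`. So `H` has mass at least `1/20`.
-/

namespace Pool.Agent.H87.ZI

variable {T : ℕ → ℕ → ℝ} {ε : ℝ}

theorem low_ge (hT : Proj T ε) {η : ℝ} (hη : 0 < η) (hη1 : η ≤ 1 / 1000) {x : ℕ → ℝ} {γ : ℝ}
    (hγ : 0 < γ) {j : ℕ} (hs : |1 - cn T j| ≤ η ^ 2) (h : Hs T (wt γ x) j ≤ 19 / 20) :
    1 / 50 ≤ low T x (40 * γ) j := by
  have hw : ∀ i, 0 ≤ wt γ x i := fun i => mul_nonneg hγ.le (abs_nonneg _)
  obtain ⟨hS, hE⟩ := min_sum hT hw j
  have hη2 : η ^ 2 ≤ 1 / 1000000 := by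
    have : η ^ 2 ≤ (1 / 1000) ^ 2 := pow_le_pow_left₀ hη.le hη1 2
    norm_num at this
    linarith
  have hs' := abs_le.1 hs
  have h1 : Summable fun i => {i | |T i j| ≤ 40 * γ * |x i|}.indicator (fun i => |T i j|) i :=
    sum_ms (a := fun i => T i j) (hT.summ j) _
  have h2 : Summable fun i => |T i j| / 40 := (hT.summ j).div_const 40
  have h3 : ∑' i, min |T i j| (wt γ x i) ≤
      ∑' i, ({i | |T i j| ≤ 40 * γ * |x i|}.indicator (fun i => |T i j|) i + |T i j| / 40) := by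
    refine hS.tsum_le_tsum (fun i => ?_) (h1.add h2)
    by_cases hc : |T i j| ≤ 40 * γ * |x i|
    · rw [Set.indicator_of_mem (show i ∈ {i | |T i j| ≤ 40 * γ * |x i|} from hc)]
      have := min_le_left |T i j| (wt γ x i)
      have h4 : 0 ≤ |T i j| := abs_nonneg _
      linarith
    · rw [Set.indicator_of_notMem (show i ∉ {i | |T i j| ≤ 40 * γ * |x i|} from hc)]
      have := min_le_right |T i j| (wt γ x i)
      have h4 : wt γ x i = γ * |x i| := rfl
      push Not at hc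
      linarith
  rw [Summable.tsum_add h1 h2, tsum_div_const] at h3
  have h5 : low T x (40 * γ) j =
      ∑' i, {i | |T i j| ≤ 40 * γ * |x i|}.indicator (fun i => |T i j|) i := rfl
  have h6 : ∑' i, |T i j| = cn T j := rfl
  rw [← h5, h6, hE] at h3
  linarith [hs'.1, hs'.2]

theorem mass_H (hT : Proj T ε) {x : ℕ → ℝ} (hx : St T x) {γ : ℝ} (hγ : 0 < γ)
    (h : mm T x γ ≤ 9 / 10) : 1 / 20 ≤ ms x {j | Hs T (wt γ x) j ≤ 19 / 20} := by
  have hw : ∀ i, 0 ≤ wt γ x i := fun i => mul_nonneg hγ.le (abs_nonneg _)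
  have hb : ∀ j, |Hs T (wt γ x) j| ≤ 2 := Hs_abs_le hT hw
  have h0 : ∀ j, 0 ≤ Hs T (wt γ x) j := Hs_nonneg T _
  have h1 : av x (fun j => 1 - Hs T (wt γ x) j) = 1 - mm T x γ := by
    have := av_sub (f := fun _ => (1 : ℝ)) (g := Hs T (wt γ x)) hx.summ (C := 2)
      (fun _ => by norm_num) hb
    rw [av_const, hx.one] at this
    rw [this]
    unfold mm
    ring
  have h2 := ms_ge (a := x) (f := fun j => 1 - Hs T (wt γ x) j) (C := 3) (t := 1 / 20)
    (u := 1 / 20) hx.summ hx.one (fun j => by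
      have := abs_le.1 (hb j)
      rw [abs_le]
      constructor <;> linarith [this.1, this.2])
    (fun j => by linarith [h0 j]) (by norm_num) (by rw [h1]; linarith)
  refine h2.trans (ms_mono hx.summ fun j hj => ?_)
  have hj' : 1 / 20 < 1 - Hs T (wt γ x) j := hj
  change Hs T (wt γ x) j ≤ 19 / 20
  linarith

end Pool.Agent.H87.ZI
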