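import Pool.Agent.H87.ZI.ZoB

/-!
# Zero-one law (Z6)

`x` a state, `γ > 0`, `w = γ |x|`, `j` outside the exceptional set of `bad_set`. Let `s = cn T j`, `y = ` column `j`
divided by `s`, `U = {i | w i < |T i j|}`, `π = ` mass of column `j` on `U = s - low` (`low_add`). `D = 1.1 η`.

`v = 1_{Uᶜ} y`. Since `T y = y = 1_U y + v`: `T v - (1 - π) y = π y - T (1_U y)` has norm at most `D` (`cut_near`).
`|v k| ≤ (γ / s) |x k|` for all `k`. For `i ∉ J`: `|(T v) i| ≤ ∑ₖ |T i k| |v k| ≤ (γ / s) cc T x i ≤ (2 γ / s) |x i|`. And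
`∑_{i ∈ J} |(T v) i| ≤ ∑_{i ∈ J} ∑ₖ |T i k| |T k j| / s = K (K 1_J) (j) / s ≤ η² / s` (exchange of sums).
So `∑ᵢ ((1 - π) |y i| - (2 γ / s) |x i|)⁺ ≤ D + η² / s`. Multiply by `s`:
`∑ᵢ ((1 - π) |T i j| - 2 γ |x i|)⁺ ≤ s D + η² ≤ 1.15 η`.
`1 - π = 1 - s + low ≥ lam - η² ≥ 0.9 lam` (`lam ≥ 10 η²`). So
`Hs T ((4 γ / lam) |x|) j ≤ ∑ᵢ (|T i j| - (2 γ / (1 - π)) |x i|)⁺ ≤ 1.15 η / (0.9 lam) ≤ 3 η / lam`.
-/

namespace Pool.Agent.H87.ZI

variable {T : ℕ → ℕ → ℝ} {ε : ℝ}

theorem low_imp (hT : Proj T ε) {η : ℝ} (hη : 0 < η) (hη1 : η ≤ 1 / 1000) (hε : ε ≤ η ^ 4)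
    {x : ℕ → ℝ} (hx : St T x) {γ : ℝ} (hγ : 0 < γ) {j : ℕ} (hs : |1 - cn T j| ≤ η ^ 2)
    (hV : Vr T (Hs T (wt γ x)) j ≤ η ^ 2)
    (hg : Kf T (Hs T (wt γ x)) j - Hs T (wt γ x) j + 2 * ε ≤ η ^ 2)
    (hq : Kf T (Kf T ((JJ T x).indicator fun _ => 1)) j ≤ η ^ 2)
    {lam : ℝ} (hl : 10 * η ^ 2 ≤ lam) (hl1 : lam ≤ 1) (hlow : lam ≤ low T x γ j) :
    Hs T (wt (4 * γ / lam) x) j ≤ 3 * η / lam := by
  have hw : ∀ i, 0 ≤ wt γ x i := fun i => mul_nonneg hγ.le (abs_nonneg _)
  have hcut := cut_near hT hη hη1 hε hw hs hV hg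
  have hη2 : η ^ 2 ≤ 1 / 1000 * η := by nlinarith
  have hη0 : 0 < η ^ 2 := by positivity
  have hlam0 : 0 < lam := by linarith
  obtain ⟨hs1, hs2⟩ := abs_le.1 hs
  set s := cn T j with hsd
  have hs0 : 0 < s := by nlinarith
  have hlowadd := low_add hT x γ j
  set U : Set ℕ := {i | wt γ x i < |T i j|} with hU
  set P := ms (fun i => T i j) U with hP
  set y : ℕ → ℝ := fun i => T i j / s with hy
  have hyst : St T y := st_col hT hs0
  have hcol : Summable fun k => |T k j| := hT.summ j
  set A : ℕ → ℝ := U.indicator y with hA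
  have hAle : ∀ k, |A k| ≤ |y k| := by
    intro k
    rw [hA]
    by_cases hk : k ∈ U
    · rw [Set.indicator_of_mem hk]
    · rw [Set.indicator_of_notMem hk, abs_zero]
      exact abs_nonneg _
  have hAs : Summable fun k => |A k| :=
    Summable.of_nonneg_of_le (fun k => abs_nonneg _) hAle hyst.summ
  have hTA : Summable fun i => |Tv T A i| := Tv_summable hT hAs
  set d : ℕ → ℝ := fun i => |Tv T A i - P * y i| with hd
  have hds : Summable d := by
    refine Summable.of_nonneg_of_le (fun i => abs_nonneg _) (fun i => ?_)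
      (hTA.add (hyst.summ.mul_left |P|))
    calc d i ≤ |Tv T A i| + |P * y i| := abs_sub _ _
      _ = |Tv T A i| + |P| * |y i| := by rw [abs_mul]
  have hdle : ∑' i, d i ≤ 11 / 10 * η := hcut
  -- the sequence of the exceptional set
  set q : ℕ → ℝ := fun i => cc T (fun k => T k j) i * (JJ T x).indicator (fun _ => 1) i with hqd
  have hccs : Summable fun i => cc T (fun k => T k j) i := cc_summable hT hcol
  have hq0 : ∀ i, 0 ≤ q i := fun i => mul_nonneg (cc_nonneg T _ i)
    (Set.indicator_nonneg (fun _ _ => zero_le_one) i)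
  have hqs : Summable q := by
    refine Summable.of_nonneg_of_le hq0 (fun i => ?_) hccs
    have h1 : (JJ T x).indicator (fun _ => (1 : ℝ)) i ≤ 1 := by
      by_cases hi : i ∈ JJ T x
      · rw [Set.indicator_of_mem hi]
      · rw [Set.indicator_of_notMem hi]
        exact zero_le_one
    exact mul_le_of_le_one_right (cc_nonneg T _ i) h1
  have hqle : ∑' i, q i ≤ η ^ 2 := by
    have h1 := av_Kf (T := T) hT (x := fun k => T k j)
      (f := (JJ T x).indicator fun _ => (1 : ℝ)) (C := 1) hcol (by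
        intro k
        by_cases hi : k ∈ JJ T x
        · rw [Set.indicator_of_mem hi, abs_one]
        · rw [Set.indicator_of_notMem hi, abs_zero]
          exact zero_le_one)
    rw [← Kf_eq_av] at h1
    rw [hqd, ← h1]
    exact hq
  -- `1 - π`
  have hlow0 : low T x γ j = s - P := by linarith
  have h1P : 9 / 10 * lam ≤ 1 - P := by linarith
  have h1P0 : 0 < 1 - P := by linarith
  -- the main inequality
  have hmain : ∀ i, (1 - P) * |T i j| ≤ s * d i + q i + 2 * γ * |x i| := by
    intro i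
    have hfix : Tv T y i = y i := (hyst.fix i).symm
    have hsub := Tv_sub hT hyst.summ hAs i
    rw [hfix] at hsub
    have hBs : Summable fun k => |y k - A k| := by
      refine Summable.of_nonneg_of_le (fun k => abs_nonneg _) (fun k => ?_) hyst.summ
      rw [hA]
      by_cases hk : k ∈ U
      · rw [Set.indicator_of_mem hk, sub_self, abs_zero]
        exact abs_nonneg _
      · rw [Set.indicator_of_notMem hk, sub_zero]
    have hTB : Summable fun k => |T i k * (y k - A k)| := by
      refine Summable.of_nonneg_of_le (fun k => abs_nonneg _) (fun k => ?_)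
        (hBs.mul_left (1 + ε))
      rw [abs_mul]
      exact mul_le_mul_of_nonneg_right (hT.entry_le i k) (abs_nonneg _)
    have hb : |Tv T (fun k => y k - A k) i| ≤ ∑' k, |T i k * (y k - A k)| := by
      unfold Tv
      have := norm_tsum_le_tsum_norm (f := fun k => T i k * (y k - A k)) hTB
      simpa only [Real.norm_eq_abs] using this
    -- first bound of `s * b`
    have hyk : ∀ k, s * |y k - A k| ≤ γ * |x k| ∧ s * |y k - A k| ≤ |T k j| := by
      intro k
      rw [hA]
      by_cases hk : k ∈ U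
      · rw [Set.indicator_of_mem hk, sub_self, abs_zero, mul_zero]
        exact ⟨mul_nonneg hγ.le (abs_nonneg _), abs_nonneg _⟩
      · rw [Set.indicator_of_notMem hk, sub_zero, hy]
        have h1 : s * |T k j / s| = |T k j| := by
          rw [abs_div, abs_of_pos hs0]
          field_simp
        have h2 : |T k j| ≤ γ * |x k| := by
          by_contra hc
          push Not at hc
          exact hk hc
        simp only
        rw [h1]
        exact ⟨h2, le_refl _⟩
    have hB1 : s * ∑' k, |T i k * (y k - A k)| ≤ γ * cc T x i := by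
      rw [← tsum_mul_left]
      unfold cc
      rw [← tsum_mul_left]
      have hsx : Summable fun k => γ * (|x k| * |T i k|) := by
        refine Summable.mul_left γ ?_
        refine Summable.of_nonneg_of_le (fun k => by positivity) (fun k => ?_)
          (hx.summ.mul_right (1 + ε))
        exact mul_le_mul_of_nonneg_left (hT.entry_le i k) (abs_nonneg _)
      refine Summable.tsum_le_tsum (fun k => ?_) (hTB.mul_left s) hsx
      rw [abs_mul]
      calc s * (|T i k| * |y k - A k|) = |T i k| * (s * |y k - A k|) := by ring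
        _ ≤ |T i k| * (γ * |x k|) := mul_le_mul_of_nonneg_left (hyk k).1 (abs_nonneg _)
        _ = γ * (|x k| * |T i k|) := by ring
    have hB2 : s * ∑' k, |T i k * (y k - A k)| ≤ cc T (fun k => T k j) i := by
      rw [← tsum_mul_left]
      unfold cc
      have hsx : Summable fun k => |T k j| * |T i k| := by
        refine (hT.sum_idem i j).congr fun k => ?_
        ring
      refine Summable.tsum_le_tsum (fun k => ?_) (hTB.mul_left s) hsx
      rw [abs_mul]
      calc s * (|T i k| * |y k - A k|) = |T i k| * (s * |y k - A k|) := by ring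
        _ ≤ |T i k| * |T k j| := mul_le_mul_of_nonneg_left (hyk k).2 (abs_nonneg _)
        _ = |T k j| * |T i k| := by ring
    have hB3 : s * ∑' k, |T i k * (y k - A k)| ≤ q i + 2 * γ * |x i| := by
      by_cases hi : i ∈ JJ T x
      · have h1 : q i = cc T (fun k => T k j) i := by
          rw [hqd]
          simp only
          rw [Set.indicator_of_mem hi, mul_one]
        rw [h1]
        have : 0 ≤ 2 * γ * |x i| := by positivity
        linarith
      · have h1 : cc T x i ≤ 2 * |x i| := by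
          by_contra hc
          push Not at hc
          exact hi hc
        have h2 : γ * cc T x i ≤ γ * (2 * |x i|) := mul_le_mul_of_nonneg_left h1 hγ.le
        have := hq0 i
        linarith
    -- `(1 - P) |y i| ≤ d i + b`
    have h3 : (1 - P) * |y i| ≤ d i + |Tv T (fun k => y k - A k) i| := by
      have h4 : (1 - P) * |y i| = |(1 - P) * y i| := by rw [abs_mul, abs_of_pos h1P0]
      rw [h4]
      have h5 : (1 - P) * y i = (Tv T A i - P * y i) + Tv T (fun k => y k - A k) i := by
        rw [hsub]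
        ring
      rw [h5]
      exact abs_add_le _ _
    have h6 : (1 - P) * |T i j| = s * ((1 - P) * |y i|) := by
      have h1 : s * |y i| = |T i j| := by
        rw [hy]
        simp only
        rw [abs_div, abs_of_pos hs0]
        field_simp
      rw [← h1]
      ring
    rw [h6]
    calc s * ((1 - P) * |y i|) ≤ s * (d i + ∑' k, |T i k * (y k - A k)|) :=
          mul_le_mul_of_nonneg_left (h3.trans (by linarith)) hs0.le
      _ = s * d i + s * ∑' k, |T i k * (y k - A k)| := by ring
      _ ≤ s * d i + q i + 2 * γ * |x i| := by linarith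
  have hd0 : ∀ i, 0 ≤ d i := fun i => abs_nonneg _
  have hterm : ∀ i, max (|T i j| - wt (4 * γ / lam) x i) 0 ≤ (s * d i + q i) / (1 - P) := by
    intro i
    apply max_le
    · rw [le_div_iff₀ h1P0]
      have h1 := hmain i
      have h2 : 2 * γ * |x i| ≤ wt (4 * γ / lam) x i * (1 - P) := by
        unfold wt
        have h3 : 4 * γ / lam * |x i| * (1 - P) = (4 * γ * |x i|) * (1 - P) / lam := by ring
        rw [h3, le_div_iff₀ hlam0]
        have h4 : 0 ≤ 2 * γ * |x i| := by positivity
        nlinarith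
      linarith
    · exact div_nonneg (add_nonneg (mul_nonneg hs0.le (hd0 i)) (hq0 i)) h1P0.le
  have hw' : ∀ i, 0 ≤ wt (4 * γ / lam) x i := fun i => mul_nonneg (by positivity) (abs_nonneg _)
  have hsum1 : Summable fun i => (s * d i + q i) / (1 - P) :=
    ((hds.mul_left s).add hqs).div_const _
  have hfin : Hs T (wt (4 * γ / lam) x) j ≤ ∑' i, (s * d i + q i) / (1 - P) :=
    Summable.tsum_le_tsum hterm (Hs_summable hT hw' j) hsum1
  have heq : ∑' i, (s * d i + q i) / (1 - P) = (s * ∑' i, d i + ∑' i, q i) / (1 - P) := by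
    rw [tsum_div_const, Summable.tsum_add (hds.mul_left s) hqs, tsum_mul_left]
  rw [heq] at hfin
  refine hfin.trans ?_
  have hnum : s * ∑' i, d i + ∑' i, q i ≤ 23 / 20 * η := by
    have h1 : s * ∑' i, d i ≤ s * (11 / 10 * η) := mul_le_mul_of_nonneg_left hdle hs0.le
    have h2 : s ≤ 1 + η ^ 2 := by linarith
    have h3 : s * (11 / 10 * η) ≤ (1 + η ^ 2) * (11 / 10 * η) :=
      mul_le_mul_of_nonneg_right h2 (by linarith)
    nlinarith
  rw [div_le_div_iff₀ h1P0 hlam0]
  have h1 : (s * ∑' i, d i + ∑' i, q i) * lam ≤ 23 / 20 * η * lam :=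
    mul_le_mul_of_nonneg_right hnum hlam0.le
  have h2 : 3 * η * (9 / 10 * lam) ≤ 3 * η * (1 - P) :=
    mul_le_mul_of_nonneg_left h1P (by linarith)
  have h3 : 0 ≤ η * lam := by positivity
  nlinarith

/-- The zero-one law: outside a small exceptional set a column which has mass `1/50` on the set where it is at most
`γ |x|` is, up to `150 η`, at most `200 γ |x|`. -/
theorem zero_one (hT : Proj T ε) {η : ℝ} (hη : 0 < η) (hη1 : η ≤ 1 / 1000) (hε : ε ≤ η ^ 4)
    {x : ℕ → ℝ} (hx : St T x) {γ : ℝ} (hγ : 0 < γ) : ∃ B : Set ℕ, ms x B ≤ 26 * η ^ 2 ∧ ∀ j ∉ B,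
      |1 - cn T j| ≤ η ^ 2 ∧ Vr T (Hs T (wt γ x)) j ≤ η ^ 2 ∧
      (1 / 50 ≤ low T x γ j → Hs T (wt (200 * γ) x) j ≤ 150 * η) := by
  obtain ⟨B, hB1, hB2⟩ := bad_set hT hx hγ.le hη hε
  refine ⟨B, hB1, fun j hj => ?_⟩
  obtain ⟨h1, h2, h3, h4⟩ := hB2 j hj
  refine ⟨h1, h2, fun h5 => ?_⟩
  have h6 : 10 * η ^ 2 ≤ 1 / 50 := by nlinarith
  have h7 := low_imp hT hη hη1 hε hx hγ h1 h2 h3 h4 h6 (by norm_num) h5
  have e1 : 4 * γ / (1 / 50) = 200 * γ := by ring
  have e2 : 3 * η / (1 / 50) = 150 * η := by ring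
  rwa [e1, e2] at h7

end Pool.Agent.H87.ZI
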