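import Pool.Agent.H87.ZI.GridA
import Pool.Agent.H87.ZI.GridB
import Pool.Agent.H87.ZI.ZoC
import Pool.Agent.H87.ZI.LowG

/-!
# Existence of atoms (Z9)

Let `Γ = 100000`, `G = 8000 Γ`, choose `N` with `τ (1 + τ)^N ≥ 2 G`, and `η_1 ≤ 1/1000` so small that for `η ≤ η_1`:
`26 η² + 4 (N + 1) η⁴ / τ ≤ 1/100`, `450 η ≤ τ/4`, `η² ≤ τ/4`.

`H = {j | Hs T (Γ |x|) j ≤ 19/20}` has mass at least `1/20` (`mass_H`). Exceptional sets: that of `zero_one` for
`γ = 40 Γ` (mass at most `26 η²`), and the set where `∑_{m ≤ N} (K Φ_m - Φ_m + 2 ε) > τ`, `Φ_m = Hs T (γ_m |x|)`,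
`γ_m = τ (1 + τ)^m` (mass at most `4 (N + 1) ε / τ` by `av_gap` and `markov`; the summands are nonnegative and at least
`∑ₖ |T k j| Er T (γ_m |x|) j k` by `Hs_Kf`). For `j ∈ H` outside both: `low T x (40 Γ) j ≥ 1/50` (`low_ge`), so
`Hs T (200 · 40 Γ |x|) j ≤ 150 η`, `cn T j ≥ 1 - η²`, and `grid_col` with `κ = 150 η` and `atom_of_half` with
`a = 5 τ + 450 η`, `b = η²` show that `j` is an atom: `2 a + 2 b + 4 ε ≤ 10 τ + 900 η + 2 η² + 4 η⁴ ≤ 20 τ`. The mass of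
these `j` is at least `1/20 - 1/100 = 1/25`.
-/

namespace Pool.Agent.H87.ZI

private theorem at_sum {T : ℕ → ℕ → ℝ} {ε : ℝ} (hT : Proj T ε) {x : ℕ → ℝ} (hx : St T x)
    {Φ : ℕ → ℕ → ℝ} (h0 : ∀ m j, 0 ≤ Φ m j) (h2 : ∀ m j, Φ m j ≤ 2)
    (hK : ∀ m j, Φ m j ≤ Kf T (Φ m) j + 2 * ε) (N : ℕ) :
    (∀ j, 0 ≤ ∑ m ∈ Finset.range N, (Kf T (Φ m) j - Φ m j + 2 * ε)) ∧
    (∀ j, |∑ m ∈ Finset.range N, (Kf T (Φ m) j - Φ m j + 2 * ε)| ≤ N * 5) ∧
    av x (fun j => ∑ m ∈ Finset.range N, (Kf T (Φ m) j - Φ m j + 2 * ε)) ≤ N * (4 * ε) := by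
  have hε0 := hT.eps0
  have hε1 := hT.eps1
  have hterm : ∀ m j, 0 ≤ Kf T (Φ m) j - Φ m j + 2 * ε := fun m j => by
    have := hK m j
    linarith
  have hb : ∀ m j, |Kf T (Φ m) j - Φ m j + 2 * ε| ≤ 5 := fun m j => by
    rw [abs_of_nonneg (hterm m j)]
    have h1 := hT.Kf_bd (f := Φ m) (C := 2)
      (fun k => by rw [abs_of_nonneg (h0 m k)]; exact h2 m k) j
    have h3 := (abs_le.mp h1).2
    have := h0 m j
    nlinarith
  have hnn : ∀ n j, 0 ≤ ∑ m ∈ Finset.range n, (Kf T (Φ m) j - Φ m j + 2 * ε) :=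
    fun n j => Finset.sum_nonneg fun m _ => hterm m j
  have hbd : ∀ n j, |∑ m ∈ Finset.range n, (Kf T (Φ m) j - Φ m j + 2 * ε)| ≤ (n : ℝ) * 5 :=
    fun n j => by
      refine (Finset.abs_sum_le_sum_abs _ _).trans ?_
      refine (Finset.sum_le_sum fun m _ => hb m j).trans ?_
      simp
  refine ⟨hnn N, hbd N, ?_⟩
  induction N with
  | zero =>
    simp [av]
  | succ n ih =>
    have e : (fun j => ∑ m ∈ Finset.range (n + 1), (Kf T (Φ m) j - Φ m j + 2 * ε)) =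
        fun j => (∑ m ∈ Finset.range n, (Kf T (Φ m) j - Φ m j + 2 * ε)) +
          (Kf T (Φ n) j - Φ n j + 2 * ε) := by
      funext j
      rw [Finset.sum_range_succ]
    rw [e, av_add (C := (n : ℝ) * 5 + 5) hx.summ
      (fun j => (hbd n j).trans (by linarith))
      (fun j => (hb n j).trans (by have : (0 : ℝ) ≤ n := Nat.cast_nonneg n; linarith))]
    have h1 := av_gap hT hx (h0 n) (h2 n)
    push_cast
    linarith

theorem atoms {τ : ℝ} (hτ : 0 < τ) (hτ1 : τ ≤ 1 / 100) : ∃ η1 : ℝ, 0 < η1 ∧ ∀ η : ℝ, 0 < η → η ≤ η1 →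
    ∀ (T : ℕ → ℕ → ℝ) (ε : ℝ), Proj T ε → ε ≤ η ^ 4 → ∀ x, St T x → mm T x 100000 ≤ 9 / 10 →
      1 / 25 ≤ ms x {j | Atom T (20 * τ) j} := by
  obtain ⟨N, hN⟩ := pow_unbounded_of_one_lt (2 * (8000 * 100000) / τ) (by linarith : 1 < 1 + τ)
  have hN' : 2 * (200 * (40 * (100000 : ℝ))) ≤ τ * (1 + τ) ^ N := by
    have h1 := (div_lt_iff₀ hτ).mp hN
    nlinarith
  have hNp : (0 : ℝ) < N + 1 := by positivity
  refine ⟨min (1 / 1000) (τ / (1800 * (N + 1))), by positivity, ?_⟩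
  intro η hη hη1 T ε hT hε x hx hmm
  have e1 : η ≤ 1 / 1000 := hη1.trans (min_le_left _ _)
  have e2 : η * (1800 * (N + 1)) ≤ τ := by
    have := hη1.trans (min_le_right _ _)
    exact (le_div_iff₀ (by positivity)).mp this
  have e3 : 1800 * η ≤ τ := by
    have : (0 : ℝ) ≤ N := Nat.cast_nonneg N
    nlinarith
  have e4 : η ^ 2 ≤ 1 / 1000 * η := by nlinarith
  have e4' : η ^ 2 ≤ 1 / 1000000 := by nlinarith
  have e5 : η ^ 4 ≤ η ^ 2 * (1 / 1000000) := by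
    have : η ^ 4 = η ^ 2 * η ^ 2 := by ring
    rw [this]
    exact mul_le_mul_of_nonneg_left e4' (sq_nonneg η)
  have hε0 := hT.eps0
  -- the set H
  have hH := mass_H hT hx (γ := 100000) (by norm_num) hmm
  -- first exceptional set
  obtain ⟨B1, hB1, hB1'⟩ := zero_one hT hη e1 hε hx (γ := 40 * 100000) (by norm_num)
  -- second exceptional set
  set Φ : ℕ → ℕ → ℝ := fun m => Hs T (wt (τ * (1 + τ) ^ m) x) with hΦ
  have hw : ∀ m i, 0 ≤ wt (τ * (1 + τ) ^ m) x i := fun m i => by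
    have : 0 ≤ τ * (1 + τ) ^ m := by positivity
    exact mul_nonneg this (abs_nonneg _)
  have h0 : ∀ m j, 0 ≤ Φ m j := fun m j => Hs_nonneg _ _ _
  have h2 : ∀ m j, Φ m j ≤ 2 := fun m j => (abs_le.mp (Hs_abs_le hT (hw m) j)).2
  have hEr : ∀ m j, Φ m j + ∑' k, |T k j| * Er T (wt (τ * (1 + τ) ^ m) x) j k ≤
      Kf T (Φ m) j + 2 * ε := fun m j => Hs_Kf hT (hw m) j
  have hEr0 : ∀ m j, 0 ≤ ∑' k, |T k j| * Er T (wt (τ * (1 + τ) ^ m) x) j k := fun m j =>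
    tsum_nonneg fun k => mul_nonneg (abs_nonneg _) (Er_nonneg _ _ _ _)
  have hK : ∀ m j, Φ m j ≤ Kf T (Φ m) j + 2 * ε := fun m j => by
    have := hEr m j
    have := hEr0 m j
    linarith
  obtain ⟨s1, s2, s3⟩ := at_sum hT hx h0 h2 hK (N + 1)
  set Ψ : ℕ → ℝ := fun j => ∑ m ∈ Finset.range (N + 1), (Kf T (Φ m) j - Φ m j + 2 * ε) with hΨ
  have hB2 : ms x {j | τ < Ψ j} ≤ av x Ψ / τ := markov hx.summ s2 s1 hτ
  have hB2' : ms x {j | τ < Ψ j} ≤ 1 / 200 := by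
    refine hB2.trans ?_
    rw [div_le_iff₀ hτ]
    push_cast at s3
    have f1 : ((N : ℝ) + 1) * (4 * ε) ≤ ((N : ℝ) + 1) * (4 * η ^ 4) :=
      mul_le_mul_of_nonneg_left (by linarith) hNp.le
    have f2 : η ^ 4 ≤ η * (1 / 1000000) := by
      have : η ^ 2 ≤ η := by linarith
      nlinarith
    have f3 : ((N : ℝ) + 1) * (4 * η ^ 4) ≤ ((N : ℝ) + 1) * (4 * (η * (1 / 1000000))) :=
      mul_le_mul_of_nonneg_left (by linarith) hNp.le
    have f4 : ((N : ℝ) + 1) * (4 * (η * (1 / 1000000))) =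
        (η * (1800 * (N + 1))) * (4 / 1800 / 1000000) := by ring
    have f5 : (η * (1800 * (N + 1))) * (4 / 1800 / 1000000) ≤ τ * (4 / 1800 / 1000000) :=
      mul_le_mul_of_nonneg_right e2 (by norm_num)
    linarith
  -- atoms
  have hsub : {j | Hs T (wt 100000 x) j ≤ 19 / 20} ⊆
      {j | Atom T (20 * τ) j} ∪ (B1 ∪ {j | τ < Ψ j}) := by
    intro j hj
    by_cases hb1 : j ∈ B1
    · exact Or.inr (Or.inl hb1)
    by_cases hb2 : τ < Ψ j
    · exact Or.inr (Or.inr hb2)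
    left
    obtain ⟨g1, g2, g3⟩ := hB1' j hb1
    have hlow := low_ge hT hη e1 (x := x) (γ := 100000) (by norm_num) g1 hj
    have hκ := g3 hlow
    have hE : ∑ m ∈ Finset.range (N + 1),
        ∑' k, |T k j| * Er T (wt (τ * (1 + τ) ^ m) x) j k ≤ τ := by
      refine le_trans (Finset.sum_le_sum fun m _ => ?_) (not_lt.mp hb2)
      have := hEr m j
      show _ ≤ Kf T (Φ m) j - Φ m j + 2 * ε
      linarith
    have hg := grid_col hT hx hτ (by linarith) (G := 200 * (40 * 100000)) (by norm_num) N hN' hκ hE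
    have hcn : 1 - η ^ 2 ≤ cn T j := by
      have := (abs_le.mp g1).2
      linarith
    have hat := atom_of_half hT (sq_nonneg η) (by linarith) hcn hg
    refine ⟨by nlinarith, hat.trans ?_⟩
    nlinarith
  have m1 := ms_mono hx.summ hsub
  have m2 := ms_union_le hx.summ {j | Atom T (20 * τ) j} (B1 ∪ {j | τ < Ψ j})
  have m3 := ms_union_le hx.summ B1 {j | τ < Ψ j}
  linarith

end Pool.Agent.H87.ZI
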