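import Pool.Agent.H87.CS.Geo

/-!
# Part B: a nearly isometric `ℓ₁` basis of the dual

`NL1 e g δ`: `e` is a family in the dual of `X`, with coordinate functionals `g`, such that
`‖u‖ ≤ ∑ |g n u| ≤ (1 + δ) ‖u‖`.
`NSetup`: in addition the identity of `X` factors as `P ∘ J` through `C(K)` with `‖J‖ ≤ 1`, `‖P‖ ≤ 1 + l`.
`NN g u` is the sum of the absolute values of the coordinates.
-/

namespace Pool.Agent.H87.ZI

open Pool.Agent.H87.CS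

/-- The dual of `X` has the basis `e`, which is `(1 + δ)`-equivalent to the unit vector basis of `ℓ₁`. -/
structure NL1 {X : Type} [NormedAddCommGroup X] [NormedSpace ℝ X] {ι : Type}
    (e : ι → (X →L[ℝ] ℝ)) (g : ι → (X →L[ℝ] ℝ) →L[ℝ] ℝ) (δ : ℝ) : Prop where
  d0 : 0 ≤ δ
  norm_e : ∀ n, ‖e n‖ ≤ 1
  summ : ∀ u, Summable fun n => |g n u|
  le : ∀ u, ∑' n, |g n u| ≤ (1 + δ) * ‖u‖
  expand : ∀ (u : X →L[ℝ] ℝ) (x : X), HasSum (fun n => g n u * e n x) (u x)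
  coord_self : ∀ n, g n (e n) = 1
  coord_ne : ∀ m n, m ≠ n → g m (e n) = 0

/-- The identity of `X` factors through `C(K)`, the dual of `X` has a nearly isometric `ℓ₁` basis. -/
structure NSetup {X K : Type} [NormedAddCommGroup X] [NormedSpace ℝ X] [TopologicalSpace K]
    [CompactSpace K] (e : ℕ → (X →L[ℝ] ℝ)) (g : ℕ → (X →L[ℝ] ℝ) →L[ℝ] ℝ)
    (J : X →L[ℝ] C(K, ℝ)) (P : C(K, ℝ) →L[ℝ] X) (l δ : ℝ) : Prop where
  nl : NL1 e g δ
  d1 : δ ≤ 1 / 1000000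
  l0 : 0 ≤ l
  l1 : l ≤ 1 / 1000000
  hJ : ‖J‖ ≤ 1
  hP : ‖P‖ ≤ 1 + l
  PJ : ∀ x, P (J x) = x

/-- The sum of the absolute values of the coordinates. -/
noncomputable def NN {X : Type} [NormedAddCommGroup X] [NormedSpace ℝ X]
    (g : ℕ → (X →L[ℝ] ℝ) →L[ℝ] ℝ) (u : X →L[ℝ] ℝ) : ℝ := ∑' n, |g n u|

end Pool.Agent.H87.ZI
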