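import Pool.Agent.H87.ZI.BTyp

/-!
# Part B: the countable compact space and the partial map (200 lines)

Adapt the proof of `Pool.Agent.H87.CS.exists_geo` in `Pool/Agent/H87/CS/Geo.lean` (the lemmas `geo_sigma_pure`,
`geo_sigma_flip`, `geo_flip_continuous`, `geo_norm_le_iff`, `geo_closed_rel` can be used as they are). Changes:

* `exists_sigma` needs only `|sg i.2 * e i.1 x| ≤ ‖x‖` (`NL1.norm_e`): copy its proof from
  `Pool/Agent/H87/CS/Sig.lean`, it is the lemma `nexists_sigma` here.
* types: `exists_nty`, `nty_same`, `nty_ne` instead of `exists_ty`, `dist_le_of_ty`, `lt_dist_of_ty`; the relation is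
  `‖σ v - σ v'‖ ≤ 1/50`; `π (pure (n, b))` has type `some (n, b)` (`NN g 0 = 0`).
* the closed relation is `{p : K × V | ∃ a ∈ Icc (3/4) (1 + δ), ‖phi J p.1 - a • σ p.2‖ ≤ 1 + δ - a}` (closed by the
  compactness of `Icc (3/4) (1 + δ)` as in `geo_closed_near`); the hypothesis of `exists_map` holds by `nty_scaled`:
  `‖a • σ v - a' • σ v'‖ ≤ (1 + δ - a) + (1 + δ - a')`.
* if `3/4 ≤ g n (phi J t)` then `(t, pure (n, true))` lies in the relation with `a = g n (phi J t)` (`near_e`,
  `coord_phi`), and if `g n (phi J t) ≤ - 3/4` then `(t, pure (n, false))` does, with `a = - g n (phi J t)`.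
-/

namespace Pool.Agent.H87.ZI

open Filter Topology Pool.Agent.H87.CS

variable {X K : Type} [NormedAddCommGroup X] [NormedSpace ℝ X] [TopologicalSpace K]
  [CompactSpace K] [T2Space K] {e : ℕ → (X →L[ℝ] ℝ)} {g : ℕ → (X →L[ℝ] ℝ) →L[ℝ] ℝ}
  {J : X →L[ℝ] C(K, ℝ)} {P : C(K, ℝ) →L[ℝ] X} {l δ : ℝ}

omit [TopologicalSpace K] [CompactSpace K] [T2Space K] in
private theorem nsig_bound (h : NL1 e g δ) (x : X) (i : ℕ × Bool) :
    |sg i.2 * e i.1 x| ≤ ‖x‖ := by
  have h1 : |sg i.2| = 1 := by
    unfold sg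
    split_ifs <;> simp
  rw [abs_mul, h1, one_mul]
  have h2 := (e i.1).le_opNorm x
  have h3 : ‖e i.1‖ * ‖x‖ ≤ 1 * ‖x‖ :=
    mul_le_mul_of_nonneg_right (h.norm_e i.1) (norm_nonneg x)
  rw [one_mul] at h3
  exact h2.trans h3

omit [TopologicalSpace K] [CompactSpace K] [T2Space K] in
theorem nexists_sigma (h : NL1 e g δ) :
    ∃ σ : Ultrafilter (ℕ × Bool) → (X →L[ℝ] ℝ), (∀ x, Continuous fun v => σ v x) ∧
      ∀ (v : Ultrafilter (ℕ × Bool)) (x : X),
        Tendsto (fun i : ℕ × Bool => sg i.2 * e i.1 x) v (𝓝 (σ v x)) := by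
  let F : (x : X) → ℕ × Bool → Set.Icc (-‖x‖) ‖x‖ := fun x i =>
    ⟨sg i.2 * e i.1 x, abs_le.mp (nsig_bound h x i)⟩
  let s : Ultrafilter (ℕ × Bool) → X → ℝ := fun v x => (Ultrafilter.extend (F x) v).1
  have hs : ∀ (v : Ultrafilter (ℕ × Bool)) (x : X),
      Tendsto (fun i : ℕ × Bool => sg i.2 * e i.1 x) v (𝓝 (s v x)) := by
    intro v x
    have h1 : (↑(v.map (F x)) : Filter _) ≤ 𝓝 (Ultrafilter.extend (F x) v) :=
      ultrafilter_extend_eq_iff.mp rfl
    have h2 : Tendsto (F x) v (𝓝 (Ultrafilter.extend (F x) v)) := h1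
    exact (continuous_subtype_val.tendsto _).comp h2
  let L : Ultrafilter (ℕ × Bool) → (X →ₗ[ℝ] ℝ) := fun v =>
    { toFun := s v
      map_add' := fun x y => by
        refine tendsto_nhds_unique (hs v (x + y)) ?_
        have h3 := (hs v x).add (hs v y)
        refine h3.congr fun i => ?_
        rw [map_add]
        ring
      map_smul' := fun c x => by
        refine tendsto_nhds_unique (hs v (c • x)) ?_
        have h3 := (hs v x).const_mul c
        refine h3.congr fun i => ?_
        rw [map_smul, smul_eq_mul]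
        ring }
  refine ⟨fun v => (L v).mkContinuous 1 fun x => ?_, fun x => ?_, hs⟩
  · rw [one_mul, Real.norm_eq_abs]
    exact abs_le.mpr (Ultrafilter.extend (F x) v).2
  · exact continuous_subtype_val.comp (continuous_ultrafilter_extend (F x))

omit [T2Space K] in
private lemma ngeo_closed_near {V : Type} [TopologicalSpace V] {σ : V → (X →L[ℝ] ℝ)}
    (hσ : ∀ x, Continuous fun v => σ v x) (c d : ℝ) :
    IsClosed {p : K × V | ∃ a ∈ Set.Icc c d, ‖phi J p.1 - a • σ p.2‖ ≤ d - a} := by
  have h1 : IsClosed {p : (K × V) × (Set.Icc c d) |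
      ‖phi J p.1.1 - (p.2 : ℝ) • σ p.1.2‖ ≤ d - p.2} := by
    have h2 : {p : (K × V) × (Set.Icc c d) |
        ‖phi J p.1.1 - (p.2 : ℝ) • σ p.1.2‖ ≤ d - p.2} =
        ⋂ x : X, {p : (K × V) × (Set.Icc c d) |
          |J x p.1.1 - p.2 * σ p.1.2 x| ≤ (d - (p.2 : ℝ)) * ‖x‖} := by
      ext p
      simp only [Set.mem_iInter]
      change ‖phi J p.1.1 - (p.2 : ℝ) • σ p.1.2‖ ≤ d - p.2 ↔
        ∀ x, |J x p.1.1 - p.2 * σ p.1.2 x| ≤ (d - (p.2 : ℝ)) * ‖x‖
      rw [geo_norm_le_iff (by linarith [p.2.2.2])]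
      simp [phi]
    rw [h2]
    have h3 : Continuous fun p : (K × V) × (Set.Icc c d) => (p.2 : ℝ) :=
      continuous_subtype_val.comp continuous_snd
    refine isClosed_iInter fun x => isClosed_le ?_ ?_
    · refine Continuous.abs (Continuous.sub ?_ ?_)
      · exact (J x).continuous.comp (continuous_fst.comp continuous_fst)
      · exact h3.mul ((hσ x).comp (continuous_snd.comp continuous_fst))
    · exact (continuous_const.sub h3).mul continuous_const
  have h4 := isClosedMap_fst_of_compactSpace (X := K × V) (Y := Set.Icc c d) _ h1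
  have h5 : {p : K × V | ∃ a ∈ Set.Icc c d, ‖phi J p.1 - a • σ p.2‖ ≤ d - a} =
      Prod.fst '' {p : (K × V) × (Set.Icc c d) |
        ‖phi J p.1.1 - (p.2 : ℝ) • σ p.1.2‖ ≤ d - p.2} := by
    ext p
    constructor
    · rintro ⟨a, ha, h⟩
      exact ⟨(p, ⟨a, ha⟩), h, rfl⟩
    · rintro ⟨⟨p', a⟩, h, rfl⟩
      exact ⟨a, a.2, h⟩
  rw [h5]
  exact h4

private lemma NN_zero' (g : ℕ → (X →L[ℝ] ℝ) →L[ℝ] ℝ) : NN g (0 : X →L[ℝ] ℝ) = 0 := by
  unfold NN
  simp

theorem nexists_geo (S : NSetup e g J P l δ) :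
    ∃ (L : Type) (_ : TopologicalSpace L) (_ : CompactSpace L) (_ : T2Space L)
      (_ : Countable L) (τ : C(L, L)) (p : ℕ → L) (Z : Set K) (q : C(Z, L)),
      GeoData g J (3 / 4) τ p Z q := by
  have hδ : δ ≤ 1 / 100 := by linarith [S.d1]
  have hδ0 := S.nl.d0
  obtain ⟨σ, hσc, hσt⟩ := nexists_sigma S.nl
  have hty0 : ∀ v, ∃ o, NTy e g (σ v) o := fun v => exists_nty S v (hσt v)
  choose ty hty using hty0
  have hpure : ∀ i, σ (pure i) = sg i.2 • e i.1 := geo_sigma_pure hσt
  have hflip : ∀ v : Ultrafilter (ℕ × Bool), σ (v.map geoFlip) = - σ v := geo_sigma_flip hσt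
  have heq : ∀ v v', ty v = ty v' ↔ ‖σ v - σ v'‖ ≤ 1 / 50 := by
    intro v v'
    constructor
    · intro h
      exact nty_same S.nl (hty v) (h ▸ hty v')
    · intro h
      by_contra hne
      exact absurd h (not_le.2 (nty_ne S.nl hδ (hty v) (hty v') hne))
  -- the quotient
  let s : Setoid (Ultrafilter (ℕ × Bool)) := Setoid.ker ty
  have hs : ∀ v v', s v v' ↔ ty v = ty v' := fun v v' => Iff.rfl
  have hscl : IsClosed {p : Ultrafilter (ℕ × Bool) × Ultrafilter (ℕ × Bool) | s p.1 p.2} := by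
    have h1 : {p : Ultrafilter (ℕ × Bool) × Ultrafilter (ℕ × Bool) | s p.1 p.2} =
        {p : Ultrafilter (ℕ × Bool) × Ultrafilter (ℕ × Bool) | ‖σ p.1 - σ p.2‖ ≤ 1 / 50} := by
      ext p
      exact heq p.1 p.2
    rw [h1]
    exact geo_closed_rel hσc (by norm_num)
  have hT2 : T2Space (Quotient s) := t2_quotient s hscl
  have hcount : Countable (Quotient s) := by
    have hinj : Function.Injective (Quotient.lift ty (fun a b h => h) : Quotient s → _) := by
      intro a b
      induction a using Quotient.inductionOn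
      induction b using Quotient.inductionOn
      intro h
      exact Quotient.sound h
    exact hinj.countable
  have hπc : Continuous (fun v : Ultrafilter (ℕ × Bool) => (Quotient.mk s v : Quotient s)) :=
    continuous_quotient_mk'
  let π : C(Ultrafilter (ℕ × Bool), Quotient s) := ⟨fun v => Quotient.mk s v, hπc⟩
  have hπeq : ∀ v v', π v = π v' ↔ ty v = ty v' := by
    intro v v'
    exact Quotient.eq
  have hflipty : ∀ v v', ty v = ty v' → ty (v.map geoFlip) = ty (v'.map geoFlip) := by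
    intro v v' h
    rw [heq, hflip, hflip]
    rw [heq] at h
    have h1 : - σ v - - σ v' = -(σ v - σ v') := by abel
    rw [h1, norm_neg]
    exact h
  let τ : C(Quotient s, Quotient s) :=
    ⟨Quotient.lift (fun v => Quotient.mk s (v.map geoFlip))
      (fun a b h => Quotient.sound (hflipty a b h)),
      Continuous.quotient_lift (hπc.comp geo_flip_continuous) _⟩
  have hτπ : ∀ v, τ (π v) = π (v.map geoFlip) := fun v => rfl
  have hsurj : ∀ a : Quotient s, ∃ v, π v = a := by
    intro a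
    induction a using Quotient.inductionOn with
    | h v => exact ⟨v, rfl⟩
  have hflippure : ∀ i : ℕ × Bool,
      (pure i : Ultrafilter (ℕ × Bool)).map geoFlip = pure (geoFlip i) := by
    intro i
    exact Ultrafilter.map_pure _ _
  -- types of the basis vectors
  have hbt : ∀ i : ℕ × Bool, NTy e g (σ (pure i)) (some i) := by
    intro i
    change NN g (σ (pure i) - sg i.2 • e i.1) ≤ 1 / 100
    rw [hpure, sub_self, NN_zero']
    norm_num
  have hbinj : ∀ i i' : ℕ × Bool, ty (pure i) = ty (pure i') → i = i' := by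
    intro i i' h
    by_contra hne
    rw [heq] at h
    have h1 := nty_ne S.nl hδ (hbt i) (hbt i') (fun h2 => hne (Option.some.inj h2))
    linarith
  -- the closed relation
  obtain ⟨Z, q, hZ, hq⟩ := exists_map
    {p : K × Ultrafilter (ℕ × Bool) | ∃ a ∈ Set.Icc (3 / 4 : ℝ) (1 + δ),
      ‖phi J p.1 - a • σ p.2‖ ≤ 1 + δ - a}
    (ngeo_closed_near hσc (3 / 4) (1 + δ)) π (by
      rintro t v v' ⟨a, ha, h⟩ ⟨a', ha', h'⟩
      rw [hπeq]
      by_contra hne
      have h1 := nty_scaled S.nl hδ (hty v) (hty v') hne ha.1 ha'.1 ha.2 ha'.2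
      have h2 : a • σ v - a' • σ v' = (phi J t - a' • σ v') - (phi J t - a • σ v) := by abel
      have h3 : ‖a • σ v - a' • σ v'‖ ≤ (1 + δ - a') + (1 + δ - a) := by
        rw [h2]
        exact (norm_sub_le _ _).trans (add_le_add h' h)
      linarith)
  refine ⟨Quotient s, inferInstance, inferInstance, hT2, hcount, τ,
    fun n => π (pure (n, true)), Z, q, ?_⟩
  have hτp : ∀ n, τ (π (pure (n, true))) = π (pure (n, false)) := by
    intro n
    rw [hτπ, hflippure]
    rfl
  refine ⟨hZ, ?_, ?_, ?_, ?_, ?_, ?_⟩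
  · intro a
    obtain ⟨v, rfl⟩ := hsurj a
    rw [hτπ, hτπ]
    congr 1
    rw [Ultrafilter.map_map]
    have h1 : geoFlip ∘ geoFlip = id := by
      funext i
      simp [geoFlip]
    rw [h1, Ultrafilter.map_id]
  · have h1 : DenseRange (fun i : ℕ × Bool => π (pure i)) :=
      DenseRange.comp (Function.Surjective.denseRange hsurj) denseRange_pure π.continuous
    have h2 : Set.range (fun i : ℕ × Bool => π (pure i)) =
        Set.range (fun n => π (pure (n, true))) ∪
          Set.range (fun n => τ (π (pure (n, true)))) := by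
      ext a
      constructor
      · rintro ⟨⟨n, b⟩, rfl⟩
        cases b
        · right
          exact ⟨n, hτp n⟩
        · left
          exact ⟨n, rfl⟩
      · rintro (⟨n, rfl⟩ | ⟨n, rfl⟩)
        · exact ⟨(n, true), rfl⟩
        · exact ⟨(n, false), (hτp n).symm⟩
    rw [← h2]
    exact h1.closure_range
  · intro m n h
    have h1 := hbinj _ _ ((hπeq _ _).1 h)
    exact (Prod.mk.inj h1).1
  · intro m n h
    rw [hτp] at h
    have h1 := hbinj _ _ ((hπeq _ _).1 h)
    exact absurd (Prod.mk.inj h1).2 (by simp)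
  · intro n t h
    have h1 := near_e S.nl S.hJ n t
    have h2 := coord_phi S.nl S.hJ n t
    refine hq t (pure (n, true)) ⟨g n (phi J t), ⟨h, (le_abs_self _).trans h2⟩, ?_⟩
    have h4 : |g n (phi J t)| = g n (phi J t) := abs_of_nonneg (by linarith)
    rw [h4] at h1
    rw [hpure]
    simpa [sg] using h1
  · intro n t h
    have h1 := near_e S.nl S.hJ n t
    have h2 := coord_phi S.nl S.hJ n t
    rw [hτp]
    refine hq t (pure (n, false)) ⟨-g n (phi J t), ⟨by linarith, (neg_le_abs _).trans h2⟩, ?_⟩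
    rw [hpure]
    have h3 : (-(g n (phi J t))) • (sg false • e n) = g n (phi J t) • e n := by
      rw [smul_smul]
      simp [sg]
    have h4 : |g n (phi J t)| = -g n (phi J t) := abs_of_nonpos (by linarith)
    change ‖phi J t - (-(g n (phi J t))) • (sg false • e n)‖ ≤ 1 + δ - -(g n (phi J t))
    rw [h3]
    rw [h4] at h1
    exact h1

end Pool.Agent.H87.ZI
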