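import Pool.Agent.H87.ZI.BNN

/-!
# Part B: elements with prescribed values (120 lines)

`exists_values` (Helly's theorem): `M` finite, `|v j| ≤ 1`. Adapt the proof of `Pool.Agent.H87.CS.exists_test` in
`Pool/Agent/H87/CS/Hel.lean`. The map `Φ : x ↦ (e j x)_{j ∈ M}` to `ℝ^M` is onto (the `e j` are linearly
independent by `coord_self`, `coord_ne`), and the image of the ball of radius `2` contains the open cube of radius
`2/(1 + δ)`, in particular the vector `v`. Otherwise the convex set `Φ(ball 0 2)` (open or with nonempty interior) is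
separated from `v`: there is `a ∈ ℝ^M` with `∑ a j v j ≥ ∑ a j e j x` for all `‖x‖ < 2` (`a ≠ 0`), so
`∑ |a j| ≥ ∑ a j v j ≥ 2 ‖∑ a j e j‖ ≥ 2 NN (∑ a j e j) / (1 + δ) = 2 ∑ |a j| / (1 + δ) > ∑ |a j|`, a contradiction.

`exists_seq`: for `n` take `x k` with `e j (x k) = (1 if j = n, 0 otherwise)` for `j ∈ range (k + n + 1)`, `‖x k‖ ≤ 2`.
For every functional `u`, `u (x k) = ∑ⱼ g j u e j (x k)` differs from `g n u` by at most
`2 ∑_{j > k + n} |g j u| → 0`.
-/

namespace Pool.Agent.H87.ZI

open Filter Topology Pool.Agent.H87.CS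

variable {X : Type} [NormedAddCommGroup X] [NormedSpace ℝ X] {e : ℕ → (X →L[ℝ] ℝ)}
  {g : ℕ → (X →L[ℝ] ℝ) →L[ℝ] ℝ} {δ : ℝ}

private theorem bh_coord (h : NL1 e g δ) (M : Finset ℕ) (a : M → ℝ) (k : M) :
    g k (∑ j : M, a j • e j) = a k := by
  rw [map_sum, Finset.sum_eq_single k]
  · rw [map_smul, h.coord_self, smul_eq_mul, mul_one]
  · intro j _ hj
    rw [map_smul, h.coord_ne _ _ (fun hh => hj (Subtype.ext hh.symm)), smul_zero]
  · intro hk
    exact absurd (Finset.mem_univ k) hk

private noncomputable def bhPhi (e : ℕ → (X →L[ℝ] ℝ)) (M : Finset ℕ) : X →L[ℝ] (M → ℝ) :=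
  ContinuousLinearMap.pi fun j : M => e j

private theorem bhPhi_apply (M : Finset ℕ) (x : X) (j : M) : bhPhi e M x j = e j x := rfl

private theorem bh_f (M : Finset ℕ) (f : (M → ℝ) →ₗ[ℝ] ℝ) (x : X) :
    f (bhPhi e M x) = (∑ j : M, f (fun i => if j = i then 1 else 0) • e j : X →L[ℝ] ℝ) x := by
  rw [LinearMap.pi_apply_eq_sum_univ f, ContinuousLinearMap.sum_apply]
  refine Finset.sum_congr rfl fun j _ => ?_
  rw [ContinuousLinearMap.smul_apply, smul_eq_mul, smul_eq_mul, bhPhi_apply, mul_comm]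

private theorem bh_zero (M : Finset ℕ) (f : (M → ℝ) →ₗ[ℝ] ℝ)
    (hf : ∀ j : M, f (fun i => if j = i then 1 else 0) = 0) : f = 0 := by
  refine LinearMap.ext fun v => ?_
  rw [LinearMap.pi_apply_eq_sum_univ f, LinearMap.zero_apply]
  exact Finset.sum_eq_zero fun i _ => by rw [hf i, smul_zero]

private theorem bh_surj (h : NL1 e g δ) (M : Finset ℕ) : Function.Surjective (bhPhi e M) := by
  have hr : LinearMap.range (bhPhi e M : X →ₗ[ℝ] (M → ℝ)) = ⊤ := by
    by_contra hne
    obtain ⟨f, hf, hle⟩ := Submodule.exists_le_ker_of_lt_top _ (lt_top_iff_ne_top.mpr hne)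
    apply hf
    apply bh_zero
    intro k
    have hu : (∑ j : M, f (fun i => if j = i then 1 else 0) • e j : X →L[ℝ] ℝ) = 0 := by
      refine ContinuousLinearMap.ext fun x => ?_
      rw [← bh_f M f x]
      exact hle ⟨x, rfl⟩
    have h1 := bh_coord h M (fun j : M => f (fun i => if j = i then 1 else 0)) k
    rw [hu, map_zero] at h1
    exact h1.symm
  exact LinearMap.range_eq_top.mp hr

theorem exists_values (h : NL1 e g δ) (hδ : δ ≤ 1 / 2) (M : Finset ℕ) (v : ℕ → ℝ)
    (hv : ∀ j ∈ M, |v j| ≤ 1) : ∃ x : X, ‖x‖ ≤ 2 ∧ ∀ j ∈ M, e j x = v j := by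
  have hopen : IsOpen (bhPhi e M '' Metric.ball 0 2) :=
    (bhPhi e M : X →ₗ[ℝ] (M → ℝ)).isOpenMap_of_finiteDimensional (bh_surj h M) _
      Metric.isOpen_ball
  have hconv : Convex ℝ (bhPhi e M '' Metric.ball 0 2) :=
    (convex_ball (0 : X) 2).linear_image (bhPhi e M : X →ₗ[ℝ] (M → ℝ))
  by_cases hmem : (fun j : M => v j) ∈ bhPhi e M '' Metric.ball 0 2
  · obtain ⟨x, hx, hxv⟩ := hmem
    refine ⟨x, ?_, fun j hj => ?_⟩
    · have := mem_ball_zero_iff.mp hx
      exact this.le
    · exact congrFun hxv ⟨j, hj⟩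
  · exfalso
    obtain ⟨f, hf⟩ := geometric_hahn_banach_open_point hconv hopen hmem
    set a : M → ℝ := fun j => (f : (M → ℝ) →ₗ[ℝ] ℝ) (fun i => if j = i then 1 else 0) with ha
    set u : X →L[ℝ] ℝ := ∑ j : M, a j • e j with hu
    have hfu : ∀ x, f (bhPhi e M x) = u x := fun x => bh_f M (f : (M → ℝ) →ₗ[ℝ] ℝ) x
    have hlt : ∀ x : X, ‖x‖ < 2 → u x < f (fun j : M => v j) := fun x hx => by
      rw [← hfu]
      exact hf _ ⟨x, mem_ball_zero_iff.mpr hx, rfl⟩
    have hpos : 0 < f (fun j : M => v j) := by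
      have := hlt 0 (by simp)
      rwa [map_zero] at this
    have hfv : f (fun j : M => v j) ≤ ∑ j : M, |a j| := by
      have e1 : f (fun j : M => v j) = ∑ j : M, v j • a j :=
        LinearMap.pi_apply_eq_sum_univ (f : (M → ℝ) →ₗ[ℝ] ℝ) _
      rw [e1]
      refine Finset.sum_le_sum fun j _ => ?_
      rw [smul_eq_mul]
      calc v j * a j ≤ |v j * a j| := le_abs_self _
        _ = |v j| * |a j| := abs_mul _ _
        _ ≤ 1 * |a j| := mul_le_mul_of_nonneg_right (hv j j.2) (abs_nonneg _)
        _ = |a j| := one_mul _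
    have hsum : ∑ j : M, |a j| ≤ (1 + δ) * ‖u‖ := by
      refine le_trans ?_ (h.le u)
      have e2 : ∑ j : M, |a j| = ∑ j ∈ M, |g j u| := by
        rw [← Finset.sum_coe_sort M (fun j => |g j u|)]
        refine Finset.sum_congr rfl fun j _ => ?_
        rw [hu, bh_coord h M a j]
      rw [e2]
      exact (h.summ u).sum_le_tsum M (fun _ _ => abs_nonneg _)
    have hnorm : ‖u‖ ≤ f (fun j : M => v j) / 2 := by
      refine u.opNorm_le_bound (by positivity) fun x => ?_
      by_cases hx0 : x = 0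
      · simp [hx0]
      have hxp : 0 < ‖x‖ := norm_pos_iff.mpr hx0
      have key : ∀ t : ℝ, 0 < t → t < 2 → t * |u x| ≤ f (fun j : M => v j) * ‖x‖ := by
        intro t ht ht2
        have hn : ∀ s : ℝ, |s| = t / ‖x‖ → s * u x < f (fun j : M => v j) := fun s hs => by
          have := hlt (s • x) (by rw [norm_smul, Real.norm_eq_abs, hs]; field_simp; exact ht2)
          rwa [map_smul, smul_eq_mul] at this
        have h1 := hn (t / ‖x‖) (abs_of_pos (by positivity))
        have h2 := hn (-(t / ‖x‖)) (by rw [abs_neg, abs_of_pos (by positivity)])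
        have h3 : t / ‖x‖ * |u x| ≤ f (fun j : M => v j) := by
          rcases abs_cases (u x) with h4 | h4
          · rw [h4.1]; exact h1.le
          · rw [h4.1]; linarith
        have h5 := mul_le_mul_of_nonneg_right h3 hxp.le
        have h6 : t / ‖x‖ * |u x| * ‖x‖ = t * |u x| := by field_simp
        linarith
      rw [Real.norm_eq_abs]
      have hlim : 2 * |u x| ≤ f (fun j : M => v j) * ‖x‖ := by
        by_contra hcon
        push Not at hcon
        have hux : 0 < |u x| := by
          have : 0 ≤ f (fun j : M => v j) * ‖x‖ := by positivity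
          linarith
        have hq : f (fun j : M => v j) * ‖x‖ / |u x| < 2 := by
          rw [div_lt_iff₀ hux]; exact hcon
        obtain ⟨t, ht1, ht2⟩ := exists_between hq
        have ht0 : 0 < t := lt_of_le_of_lt (by positivity) ht1
        have := key t ht0 ht2
        rw [div_lt_iff₀ hux] at ht1
        linarith
      linarith
    have := h.d0
    nlinarith [norm_nonneg u]

theorem exists_seq (h : NL1 e g δ) (hδ : δ ≤ 1 / 2) (n : ℕ) :
    ∃ x : ℕ → X, (∀ k, ‖x k‖ ≤ 2) ∧ (∀ k, e n (x k) = 1) ∧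
      ∀ u : X →L[ℝ] ℝ, Tendsto (fun k => u (x k)) atTop (𝓝 (g n u)) := by
  have hv : ∀ k, ∀ j ∈ Finset.range (k + n + 1), |(if j = n then (1 : ℝ) else 0)| ≤ 1 := by
    intro k j _
    split_ifs <;> simp
  choose x hx1 hx2 using fun k : ℕ => exists_values h hδ (Finset.range (k + n + 1))
    (fun j => if j = n then (1 : ℝ) else 0) (hv k)
  refine ⟨x, hx1, fun k => ?_, fun u => ?_⟩
  · have := hx2 k n (Finset.mem_range.mpr (by omega))
    simpa using this
  have hxn : ∀ k, e n (x k) = 1 := fun k => by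
    have := hx2 k n (Finset.mem_range.mpr (by omega))
    simpa using this
  have h1 : Tendsto (fun k => ∑' j, g j u * e j (x k)) atTop
      (𝓝 (∑' j, if j = n then g n u else 0)) := by
    refine tendsto_tsum_of_dominated_convergence (bound := fun j => |g j u| * 2)
      ((h.summ u).mul_right 2) (fun j => ?_) (Eventually.of_forall fun k j => ?_)
    · by_cases hj : j = n
      · subst hj
        simp only [if_true, hxn, mul_one]
        exact tendsto_const_nhds
      · rw [if_neg hj]
        refine tendsto_const_nhds.congr' ?_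
        filter_upwards [eventually_ge_atTop j] with k hk
        have h2 := hx2 k j (Finset.mem_range.mpr (by omega))
        rw [h2, if_neg hj, mul_zero]
    · rw [norm_mul]
      refine mul_le_mul_of_nonneg_left ?_ (norm_nonneg _)
      refine ((e j).le_opNorm (x k)).trans ?_
      have h3 := h.norm_e j
      have h4 := hx1 k
      nlinarith [norm_nonneg (x k), norm_nonneg (e j)]
  rw [tsum_ite_eq] at h1
  refine h1.congr (fun k => ?_)
  exact (h.expand u (x k)).tsum_eq

end Pool.Agent.H87.ZI
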