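import Pool.Agent.H87.ZI.BTP

/-!
# Part B: the cube inequality for limits of the basis vectors (120 lines)

`σ x = lim e n x` along the ultrafilter `𝒱`. By `cube`, `|σ (P (J x)³) - (σ x)³| ≤ ω = 200 (l + δ)` for `‖x‖ ≤ 2`, and
`σ = ∑ g j σ e j` with `∑ |g j σ| ≤ 1 + δ` (`‖σ‖ ≤ 1`), so `|σ (P (J x)³) - ∑ g j σ (e j x)³| ≤ (1 + δ) ω`. Hence
`|∑ⱼ g j σ (e j x)³ - (∑ⱼ g j σ e j x)³| ≤ 3 ω` for all `‖x‖ ≤ 2`.

`A` a finite set, `m = ∑_{j ∈ A} |g j σ|`. For a finite set `M ⊇ A` take `x` with `‖x‖ ≤ 2`, `e j x = sign (g j σ)` for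
`j ∈ A`, `e j x = 0` for `j ∈ M ∖ A` (`exists_values`). With the tail `τ = ∑_{j ∉ M} |g j σ|`:
`|∑ g j σ (e j x)³ - m| ≤ 8 τ`, `|∑ g j σ e j x - m| ≤ 2 τ`. Let `M` grow: `|m - m³| ≤ 3 ω`.
-/

namespace Pool.Agent.H87.ZI

open Filter Topology Pool.Agent.H87.CS

variable {X K : Type} [NormedAddCommGroup X] [NormedSpace ℝ X] [TopologicalSpace K]
  [CompactSpace K] [T2Space K] {e : ℕ → (X →L[ℝ] ℝ)} {g : ℕ → (X →L[ℝ] ℝ) →L[ℝ] ℝ}
  {J : X →L[ℝ] C(K, ℝ)} {P : C(K, ℝ) →L[ℝ] X} {l δ : ℝ}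

private theorem blim_tail {c d : ℕ → ℝ} (hc : Summable fun j => |c j|) (M : Finset ℕ) {C : ℝ}
    (h0 : ∀ j ∈ M, d j = 0) (h1 : ∀ j, j ∉ M → |d j| ≤ C * |c j|) :
    |∑' j, d j| ≤ C * (∑' j, |c j| - ∑ j ∈ M, |c j|) := by
  classical
  have e1 : HasSum (fun j => if j ∈ M then |c j| else 0) (∑ j ∈ M, |c j|) := by
    have h : HasSum (fun j => if j ∈ M then |c j| else 0)
        (∑ j ∈ M, (if j ∈ M then |c j| else 0)) :=
      hasSum_sum_of_ne_finset_zero (fun j hj => if_neg hj)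
    have e : ∑ j ∈ M, (if j ∈ M then |c j| else 0) = ∑ j ∈ M, |c j| :=
      Finset.sum_congr rfl fun j hj => if_pos hj
    rwa [e] at h
  have e2 := (hc.hasSum.sub e1).mul_left C
  rw [← Real.norm_eq_abs]
  refine tsum_of_norm_bounded e2 fun j => ?_
  rw [Real.norm_eq_abs]
  by_cases hj : j ∈ M
  · simp only [hj, if_true, sub_self, mul_zero]
    rw [h0 j hj, abs_zero]
  · simp only [hj, if_false, sub_zero]
    exact h1 j hj

private theorem blim_sum {c b : ℕ → ℝ} (hc : Summable fun j => |c j|) {C : ℝ}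
    (hb : ∀ j, |b j| ≤ C) : Summable fun j => c j * b j := by
  refine Summable.of_norm_bounded (hc.mul_right C) fun j => ?_
  rw [Real.norm_eq_abs, abs_mul]
  exact mul_le_mul_of_nonneg_left (hb j) (abs_nonneg _)

private theorem blim_cube {a b : ℝ} (ha : |a| ≤ 2) (hb : |b| ≤ 2) :
    |a ^ 3 - b ^ 3| ≤ 12 * |a - b| := by
  have e : a ^ 3 - b ^ 3 = (a ^ 2 + a * b + b ^ 2) * (a - b) := by ring
  rw [e, abs_mul]
  refine mul_le_mul_of_nonneg_right ?_ (abs_nonneg _)
  have h1 := abs_le.mp ha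
  have h2 := abs_le.mp hb
  rw [abs_le]
  constructor
  · nlinarith [sq_nonneg (a + b), sq_nonneg a, sq_nonneg b]
  · nlinarith [sq_nonneg (a - b), sq_nonneg a, sq_nonneg b]

theorem cube_lim (S : NSetup e g J P l δ) (𝒱 : Ultrafilter ℕ) {σ : X →L[ℝ] ℝ}
    (hσ : ∀ x, Tendsto (fun n => e n x) 𝒱 (𝓝 (σ x))) (A : Finset ℕ) :
    |(∑ j ∈ A, |g j σ|) - (∑ j ∈ A, |g j σ|) ^ 3| ≤ 600 * (l + δ) := by
  classical
  have hd0 := S.nl.d0
  have hd1 := S.d1
  have hl0 := S.l0
  have hl1 := S.l1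
  set ω : ℝ := 200 * (l + δ) with hω
  have hω0 : 0 ≤ ω := by positivity
  have hen : ∀ j (y : X), |e j y| ≤ ‖y‖ := by
    intro j y
    have h := (e j).le_of_opNorm_le (S.nl.norm_e j) y
    rwa [one_mul, Real.norm_eq_abs] at h
  -- the norm of the limit
  have hσn : ‖σ‖ ≤ 1 := by
    refine ContinuousLinearMap.opNorm_le_bound _ zero_le_one fun y => ?_
    rw [one_mul, Real.norm_eq_abs]
    exact le_of_tendsto ((hσ y).abs) (Eventually.of_forall fun n => hen n y)
  have hc : Summable fun j => |g j σ| := S.nl.summ σ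
  have hN : ∑' j, |g j σ| ≤ 1 + δ := by
    have h := S.nl.le σ
    have : (1 + δ) * ‖σ‖ ≤ (1 + δ) * 1 := mul_le_mul_of_nonneg_left hσn (by linarith)
    linarith
  -- the inequality for an element of norm at most two
  have hmain : ∀ x : X, ‖x‖ ≤ 2 →
      |(∑' j, g j σ * (e j x) ^ 3) - (σ x) ^ 3| ≤ 3 * ω := by
    intro x hx
    have hex : ∀ j, |e j x| ≤ 2 := fun j => (hen j x).trans hx
    have h3 : ∀ j, |(e j x) ^ 3| ≤ 8 := by
      intro j
      rw [abs_pow]
      calc |e j x| ^ 3 ≤ 2 ^ 3 := pow_le_pow_left₀ (abs_nonneg _) (hex j) 3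
        _ = 8 := by norm_num
    have hcub : ∀ n, |e n (P (J x ^ 3)) - e n x ^ 3| ≤ ω := fun n => cube S n hx
    have hlim : |σ (P (J x ^ 3)) - (σ x) ^ 3| ≤ ω := by
      have ht : Tendsto (fun n => |e n (P (J x ^ 3)) - e n x ^ 3|) 𝒱
          (𝓝 |σ (P (J x ^ 3)) - (σ x) ^ 3|) := ((hσ _).sub ((hσ x).pow 3)).abs
      exact le_of_tendsto ht (Eventually.of_forall hcub)
    have hs1 : Summable fun j => g j σ * (e j x) ^ 3 := blim_sum hc h3
    have hs2 : HasSum (fun j => g j σ * e j (P (J x ^ 3))) (σ (P (J x ^ 3))) :=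
      S.nl.expand σ _
    have hdiff : |(∑' j, g j σ * (e j x) ^ 3) - σ (P (J x ^ 3))| ≤ (1 + δ) * ω := by
      have hh := hs1.hasSum.sub hs2
      rw [← hh.tsum_eq]
      have hb : ∀ j, ‖g j σ * (e j x) ^ 3 - g j σ * e j (P (J x ^ 3))‖ ≤ |g j σ| * ω := by
        intro j
        rw [← mul_sub, Real.norm_eq_abs, abs_mul, abs_sub_comm]
        exact mul_le_mul_of_nonneg_left (hcub j) (abs_nonneg _)
      have h := tsum_of_norm_bounded (hc.mul_right ω).hasSum hb
      rw [Real.norm_eq_abs, tsum_mul_right] at h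
      exact h.trans (mul_le_mul_of_nonneg_right hN hω0)
    have htri : |(∑' j, g j σ * (e j x) ^ 3) - (σ x) ^ 3| ≤
        |(∑' j, g j σ * (e j x) ^ 3) - σ (P (J x ^ 3))| + |σ (P (J x ^ 3)) - (σ x) ^ 3| :=
      abs_sub_le _ _ _
    have : (1 + δ) * ω ≤ 2 * ω := mul_le_mul_of_nonneg_right (by linarith) hω0
    linarith
  -- the values
  set m : ℝ := ∑ j ∈ A, |g j σ| with hm
  have hm0 : 0 ≤ m := Finset.sum_nonneg fun j _ => abs_nonneg _
  have hm2 : m ≤ 2 := by
    have := hc.sum_le_tsum A (fun j _ => abs_nonneg _)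
    linarith
  have hgoal : |m - m ^ 3| ≤ 3 * ω := by
    refine le_of_forall_pos_le_add fun η hη => ?_
    have hη' : 0 < η / 32 := by positivity
    have ht : Tendsto (fun M : Finset ℕ => ∑ j ∈ M, |g j σ|) atTop (𝓝 (∑' j, |g j σ|)) :=
      hc.hasSum
    obtain ⟨M, hM1, hAM⟩ := ((ht.eventually_const_lt
      (show ∑' j, |g j σ| - η / 32 < ∑' j, |g j σ| by linarith)).and
      (eventually_ge_atTop A)).exists
    set τ : ℝ := ∑' j, |g j σ| - ∑ j ∈ M, |g j σ| with hτ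
    have hτ1 : τ ≤ η / 32 := by rw [hτ]; linarith
    obtain ⟨x, hx, hv⟩ := exists_values S.nl (by linarith) M
      (fun j => if j ∈ A then (if 0 ≤ g j σ then 1 else -1) else 0) (fun j _ => by
        split_ifs <;> simp)
    have hex : ∀ j, |e j x| ≤ 2 := fun j => (hen j x).trans hx
    have h3 : ∀ j, |(e j x) ^ 3| ≤ 8 := by
      intro j
      rw [abs_pow]
      calc |e j x| ^ 3 ≤ 2 ^ 3 := pow_le_pow_left₀ (abs_nonneg _) (hex j) 3
        _ = 8 := by norm_num
    have hA : HasSum (fun j => if j ∈ A then |g j σ| else 0) m := by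
      have h : HasSum (fun j => if j ∈ A then |g j σ| else 0)
          (∑ j ∈ A, (if j ∈ A then |g j σ| else 0)) :=
        hasSum_sum_of_ne_finset_zero (fun j hj => if_neg hj)
      have e : ∑ j ∈ A, (if j ∈ A then |g j σ| else 0) = ∑ j ∈ A, |g j σ| :=
        Finset.sum_congr rfl fun j hj => if_pos hj
      rwa [e] at h
    have hs3 : Summable fun j => g j σ * (e j x) ^ 3 := blim_sum hc h3
    have b1 : |(∑' j, g j σ * (e j x) ^ 3) - m| ≤ 8 * τ := by
      rw [← (hs3.hasSum.sub hA).tsum_eq]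
      refine blim_tail hc M (fun j hj => ?_) (fun j hj => ?_)
      · rw [hv j hj]
        by_cases hjA : j ∈ A
        · simp only [hjA, if_true]
          split_ifs with h0
          · rw [abs_of_nonneg h0]; ring
          · rw [abs_of_neg (not_le.mp h0)]; ring
        · simp only [hjA, if_false]; ring
      · have hjA : j ∉ A := fun h => hj (hAM h)
        simp only [hjA, if_false, sub_zero]
        rw [abs_mul, mul_comm]
        exact mul_le_mul_of_nonneg_right (h3 j) (abs_nonneg _)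
    have b2 : |σ x - m| ≤ 2 * τ := by
      rw [← ((S.nl.expand σ x).sub hA).tsum_eq]
      refine blim_tail hc M (fun j hj => ?_) (fun j hj => ?_)
      · rw [hv j hj]
        by_cases hjA : j ∈ A
        · simp only [hjA, if_true]
          split_ifs with h0
          · rw [abs_of_nonneg h0]; ring
          · rw [abs_of_neg (not_le.mp h0)]; ring
        · simp only [hjA, if_false]; ring
      · have hjA : j ∉ A := fun h => hj (hAM h)
        simp only [hjA, if_false, sub_zero]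
        rw [abs_mul, mul_comm]
        exact mul_le_mul_of_nonneg_right (hex j) (abs_nonneg _)
    have hσx : |σ x| ≤ 2 := by
      have h := σ.le_of_opNorm_le hσn x
      rw [one_mul, Real.norm_eq_abs] at h
      exact h.trans hx
    have b3 : |(σ x) ^ 3 - m ^ 3| ≤ 24 * τ := by
      have h := blim_cube hσx (b := m) (by rw [abs_of_nonneg hm0]; exact hm2)
      linarith
    have b4 := hmain x hx
    have t1 : |m - m ^ 3| ≤ |m - ∑' j, g j σ * (e j x) ^ 3| +
        |(∑' j, g j σ * (e j x) ^ 3) - m ^ 3| := abs_sub_le _ _ _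
    have t2 : |(∑' j, g j σ * (e j x) ^ 3) - m ^ 3| ≤
        |(∑' j, g j σ * (e j x) ^ 3) - (σ x) ^ 3| + |(σ x) ^ 3 - m ^ 3| := abs_sub_le _ _ _
    have t3 := abs_sub_comm m (∑' j, g j σ * (e j x) ^ 3)
    linarith
  have : 3 * ω = 600 * (l + δ) := by rw [hω]; ring
  linarith

end Pool.Agent.H87.ZI
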