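import Pool.Agent.H87.ZI.BStar

/-!
# Part B: the lower estimate (70 lines)

As `Pool.Agent.H87.CS.low` in `Pool/Agent/H87/CS/Low.lean`. Apply `nstar` to `- E y`, `s = 8`,
`M = 8 (1 + δ) - 1 + η`; `G = g n (phi J t)`, `|G| ≤ 1 + δ` (`coord_phi`):

* `3/4 ≤ G`: `E y t = y (p n) ∈ [1 - η, 1]`, so `8 G - E y t ≤ 8 (1 + δ) - (1 - η) = M` and `8 G - E y t ≥ 5 ≥ - M`;
* `G ≤ - 3/4`: `E y t = y (τ (p n)) = - y (p n)`, symmetric;
* otherwise `|E y t| ≤ 1` and `8 · 3/4 + 1 = 7 ≤ M`.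

The result is `- e n (P (E y)) + 8 ≤ (1 + l) (8 (1 + δ) - 1 + η)`, so
`e n (P (E y)) ≥ 1 - 8 (l + δ + l δ) - (1 + l) η ≥ 1 - 16 (l + δ) - 2 η`.
-/

namespace Pool.Agent.H87.ZI

open Pool.Agent.H87.CS

variable {X K : Type} [NormedAddCommGroup X] [NormedSpace ℝ X] [TopologicalSpace K]
  [CompactSpace K] [T2Space K] {e : ℕ → (X →L[ℝ] ℝ)} {g : ℕ → (X →L[ℝ] ℝ) →L[ℝ] ℝ}
  {J : X →L[ℝ] C(K, ℝ)} {P : C(K, ℝ) →L[ℝ] X} {l δ : ℝ} {L : Type} [TopologicalSpace L]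
  [CompactSpace L] {τ : C(L, L)} {p : ℕ → L} {Z : Set K} {q : C(Z, L)}

theorem nlow (S : NSetup e g J P l δ) (G : GeoData g J (3 / 4) τ p Z q)
    (E : C(L, ℝ) →L[ℝ] C(K, ℝ)) (hE : ‖E‖ ≤ 1)
    (hEq : ∀ (y : C(L, ℝ)) (t : K) (h : t ∈ Z), E y t = y (q ⟨t, h⟩)) {y : C(L, ℝ)}
    (hy : y ∈ Odd τ) (hy1 : ‖y‖ ≤ 1) {η : ℝ} (hη : 0 ≤ η) (n : ℕ) (hn : 1 - η ≤ y (p n)) :
    1 - 16 * (l + δ) - 2 * η ≤ e n (P (E y)) := by
  have hyp : y (p n) ≤ 1 := (le_abs_self _).trans ((y.norm_coe_le_norm _).trans hy1)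
  have hδ0 := S.nl.d0
  have hl0 := S.l0
  have hl1 := S.l1
  have key : ∀ t, |(-E y) t + 8 * g n (phi J t)| ≤ 8 * (1 + δ) - 1 + η := by
    intro t
    have hG := abs_le.1 (coord_phi S.nl S.hJ n t)
    change |-(E y t) + 8 * g n (phi J t)| ≤ 8 * (1 + δ) - 1 + η
    rw [abs_le]
    by_cases h1 : 3 / 4 ≤ g n (phi J t)
    · obtain ⟨ht, hq⟩ := G.pos n t h1
      have h2 : E y t = y (p n) := by rw [hEq y t ht, hq]
      rw [h2]
      constructor <;> linarith [hG.1, hG.2]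
    · by_cases h3 : g n (phi J t) ≤ -(3 / 4)
      · obtain ⟨ht, hq⟩ := G.neg n t h3
        have h2 : E y t = -y (p n) := by
          rw [hEq y t ht, hq]
          exact hy (p n)
        rw [h2]
        constructor <;> linarith [hG.1, hG.2]
      · have h4 : |E y t| ≤ 1 := by
          refine ((E y).norm_coe_le_norm t).trans ?_
          refine (E.le_opNorm y).trans ?_
          calc ‖E‖ * ‖y‖ ≤ 1 * 1 := mul_le_mul hE hy1 (norm_nonneg _) zero_le_one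
            _ = 1 := one_mul 1
        have h5 := abs_le.1 h4
        push Not at h1 h3
        constructor <;> linarith [hG.1, hG.2]
  have h6 := nstar S n (-E y) 8 (8 * (1 + δ) - 1 + η) (by linarith) key
  rw [map_neg, map_neg] at h6
  nlinarith [mul_nonneg hl0 hδ0, mul_nonneg hl0 hη, mul_nonneg hδ0 (sub_nonneg.2 hl1),
    mul_nonneg hη (sub_nonneg.2 hl1)]

end Pool.Agent.H87.ZI
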