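import Pool.Agent.H87.ZI.BLow
import Pool.Agent.H87.CS.Sgn
import Pool.Agent.H87.CS.Ext

/-!
# Part B: the isomorphism with the space of odd functions (150 lines)

Adapt the proof of `Pool.Agent.H87.CS.exists_iso_odd` in `Pool/Agent/H87/CS/Sur.lean`, with `κ = 16 (l + δ) ≤ 1/100`,
`c = 3/4`, `nlow` instead of `low`, `NL1.expand`, `NL1.summ`, `NN` instead of `IsL1.expand`, `IsL1.norm`
(`u ≠ 0` implies `NN g u > 0` by `norm_le_NN`), and `‖e n‖ ≤ 1`.

`S y = P (E y)` on `Odd τ`, `E` from `exists_ext`.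
* `(1 - κ) * ‖y‖ ≤ ‖S y‖`: scale to `‖y‖ = 1`; by `exists_large` there is `n` with `1 - η ≤ |y (p n)|`, and for `y` or `- y`
  `nlow` gives `1 - κ - 2 η ≤ |e n (S y)| ≤ ‖S y‖`. Let `η → 0`.
* `S` is onto: its range is closed; otherwise there is `u ≠ 0` in the dual which vanishes on the range.
  `u = ∑ g j u • e j`, take a finite set `M` with `(1 + l) ∑_{j ∉ M} |g j u| < (1 - κ) ∑_{j ∈ M} |g j u|` and `y` from
  `exists_odd` for `a j = g j u`: `u (S y) ≥ (1 - κ) ∑_{j ∈ M} |g j u| - (1 + l) ∑_{j ∉ M} |g j u| > 0` (`nlow` with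
  `η = 0` for `y` or `- y`).
-/

namespace Pool.Agent.H87.ZI

open Pool.Agent.H87.CS

variable {X K : Type} [NormedAddCommGroup X] [NormedSpace ℝ X] [TopologicalSpace K]
  [CompactSpace K] [T2Space K] {e : ℕ → (X →L[ℝ] ℝ)} {g : ℕ → (X →L[ℝ] ℝ) →L[ℝ] ℝ}
  {J : X →L[ℝ] C(K, ℝ)} {P : C(K, ℝ) →L[ℝ] X} {l δ : ℝ} {L : Type} [TopologicalSpace L]
  [CompactSpace L] {τ : C(L, L)} {p : ℕ → L} {Z : Set K} {q : C(Z, L)}

private lemma sur_isClosed_odd' (τ : C(L, L)) : IsClosed (Odd τ : Set C(L, ℝ)) := by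
  have h1 : (Odd τ : Set C(L, ℝ)) = ⋂ a : L, {y : C(L, ℝ) | y (τ a) = - y a} := by
    ext y
    simp only [Set.mem_iInter]
    exact Iff.rfl
  rw [h1]
  refine isClosed_iInter fun a => isClosed_eq ?_ ?_
  · exact continuous_eval_const (τ a)
  · exact (continuous_eval_const a).neg

private lemma nsur_low (S : NSetup e g J P l δ) (G : GeoData g J (3 / 4) τ p Z q)
    (E : C(L, ℝ) →L[ℝ] C(K, ℝ)) (hE : ‖E‖ ≤ 1)
    (hEq : ∀ (y : C(L, ℝ)) (t : K) (h : t ∈ Z), E y t = y (q ⟨t, h⟩)) {y : C(L, ℝ)}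
    (hy : y ∈ Odd τ) (hy1 : ‖y‖ ≤ 1) {η : ℝ} (hη : 0 ≤ η) (n : ℕ) (a : ℝ)
    (ha : a = 1 ∨ a = -1) (hn : 1 - η ≤ a * y (p n)) :
    1 - 16 * (l + δ) - 2 * η ≤ a * e n (P (E y)) := by
  rcases ha with rfl | rfl
  · rw [one_mul] at hn ⊢
    exact nlow S G E hE hEq hy hy1 hη n hn
  · have h1 := nlow S G E hE hEq (y := -y) ((Odd τ).neg_mem hy) (by rwa [norm_neg]) hη n
      (by
        rw [ContinuousMap.neg_apply]
        linarith)
    rw [map_neg, map_neg, map_neg] at h1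
    linarith

private lemma nsur_norm_le (S : NSetup e g J P l δ) (E : C(L, ℝ) →L[ℝ] C(K, ℝ)) (hE : ‖E‖ ≤ 1)
    (y : C(L, ℝ)) : ‖P (E y)‖ ≤ (1 + l) * ‖y‖ := by
  have h0 := S.l0
  have h1 : ‖E y‖ ≤ 1 * ‖y‖ := (E.le_opNorm y).trans (mul_le_mul_of_nonneg_right hE (norm_nonneg y))
  have h2 : ‖P (E y)‖ ≤ (1 + l) * ‖E y‖ :=
    (P.le_opNorm _).trans (mul_le_mul_of_nonneg_right S.hP (norm_nonneg _))
  nlinarith [norm_nonneg (E y)]

private lemma nsur_e_le (S : NSetup e g J P l δ) (n : ℕ) (x : X) : |e n x| ≤ ‖x‖ := by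
  have h1 := (e n).le_opNorm x
  have h2 := mul_le_mul_of_nonneg_right (S.nl.norm_e n) (norm_nonneg x)
  rw [one_mul] at h2
  exact h1.trans h2

private lemma nsur_bound (S : NSetup e g J P l δ) (G : GeoData g J (3 / 4) τ p Z q)
    (E : C(L, ℝ) →L[ℝ] C(K, ℝ)) (hE : ‖E‖ ≤ 1)
    (hEq : ∀ (y : C(L, ℝ)) (t : K) (h : t ∈ Z), E y t = y (q ⟨t, h⟩)) {y : C(L, ℝ)}
    (hy : y ∈ Odd τ) : (1 - 16 * (l + δ)) * ‖y‖ ≤ ‖P (E y)‖ := by
  rcases eq_or_ne y 0 with rfl | hy0
  · simp
  have hpos : 0 < ‖y‖ := norm_pos_iff.2 hy0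
  obtain ⟨κ, hκ⟩ : ∃ κ, κ = 16 * (l + δ) := ⟨_, rfl⟩
  rw [← hκ]
  have hz : ‖y‖⁻¹ • y ∈ Odd τ := (Odd τ).smul_mem _ hy
  have hz1 : ‖‖y‖⁻¹ • y‖ = 1 := by
    rw [norm_smul, norm_inv, norm_norm, inv_mul_cancel₀ hpos.ne']
  have h1 : ∀ η > 0, 1 - κ - 2 * η ≤ ‖P (E (‖y‖⁻¹ • y))‖ := by
    intro η hη
    obtain ⟨n, hn⟩ := exists_large G hz hη
    rw [hz1] at hn
    rcases le_total 0 ((‖y‖⁻¹ • y) (p n)) with h | h
    · rw [abs_of_nonneg h] at hn
      have h2 := nsur_low S G E hE hEq hz hz1.le hη.le n 1 (Or.inl rfl) (by linarith)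
      rw [← hκ] at h2
      have h3 := nsur_e_le S n (P (E (‖y‖⁻¹ • y)))
      linarith [le_abs_self (e n (P (E (‖y‖⁻¹ • y))))]
    · rw [abs_of_nonpos h] at hn
      have h2 := nsur_low S G E hE hEq hz hz1.le hη.le n (-1) (Or.inr rfl) (by linarith)
      rw [← hκ] at h2
      have h3 := nsur_e_le S n (P (E (‖y‖⁻¹ • y)))
      linarith [neg_le_abs (e n (P (E (‖y‖⁻¹ • y))))]
  have h2 : 1 - κ ≤ ‖P (E (‖y‖⁻¹ • y))‖ := by
    refine le_of_forall_pos_le_add fun ζ hζ => ?_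
    have h3 := h1 (ζ / 2) (by positivity)
    linarith
  have h3 : P (E (‖y‖⁻¹ • y)) = ‖y‖⁻¹ • P (E y) := by
    rw [map_smul, map_smul]
  rw [h3, norm_smul, norm_inv, norm_norm] at h2
  rw [inv_mul_eq_div, le_div_iff₀ hpos] at h2
  exact h2

theorem nexists_iso_odd [CompleteSpace X] [T2Space L] [Countable L] (S : NSetup e g J P l δ)
    (G : GeoData g J (3 / 4) τ p Z q) : Nonempty (X ≃L[ℝ] Odd τ) := by
  have : Nonempty L := ⟨p 0⟩
  have hl0 := S.l0
  obtain ⟨E, hE, hEq⟩ := exists_ext G.closed q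
  obtain ⟨κ, hκ⟩ : ∃ κ, κ = 16 * (l + δ) := ⟨_, rfl⟩
  have hκ1 : κ < 1 := by
    rw [hκ]
    linarith [S.d1, S.l1]
  have : CompleteSpace (Odd τ) := (sur_isClosed_odd' τ).completeSpace_coe
  let T : Odd τ →L[ℝ] X := (P.comp E).comp (Odd τ).subtypeL
  have hT : ∀ y : Odd τ, T y = P (E y) := fun _ => rfl
  have hb : ∀ y : Odd τ, (1 - κ) * ‖y‖ ≤ ‖T y‖ := by
    intro y
    rw [hT, hκ]
    exact nsur_bound S G E hE hEq y.2
  have hpos : 0 < 1 - κ := by linarith
  have hanti : AntilipschitzWith (Real.toNNReal (1 - κ)⁻¹) T := by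
    refine ContinuousLinearMap.antilipschitz_of_bound T fun y => ?_
    rw [Real.coe_toNNReal _ (inv_nonneg.2 hpos.le), inv_mul_eq_div, le_div_iff₀ hpos, mul_comm]
    exact hb y
  have hclosed : IsClosed (Set.range T) := hanti.isClosed_range T.uniformContinuous
  have hinj : Function.Injective T := hanti.injective
  have hsurj : Function.Surjective T := by
    by_contra hns
    have hns' : ∃ x, ∀ y, T y ≠ x := by
      unfold Function.Surjective at hns
      push Not at hns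
      exact hns
    obtain ⟨x, hx⟩ := hns'
    have hconv : Convex ℝ (Set.range T) := by
      have h1 : Set.range T = (T.toLinearMap.range : Set X) := rfl
      rw [h1]
      exact Submodule.convex _
    obtain ⟨f, u, hfu, hux⟩ := geometric_hahn_banach_closed_point hconv hclosed
      (show x ∉ Set.range T from fun ⟨y, hy⟩ => hx y hy)
    -- `f` vanishes on the range
    have hf0 : ∀ y : Odd τ, f (T y) = 0 := by
      intro y
      by_contra hne
      have h1 := hfu (T ((u / f (T y)) • y)) ⟨_, rfl⟩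
      rw [map_smul, map_smul, smul_eq_mul, div_mul_cancel₀ _ hne] at h1
      exact lt_irrefl _ h1
    have hu0 : 0 < u := by
      have h1 := hfu (T 0) ⟨_, rfl⟩
      rwa [hf0] at h1
    have hfne : 0 < ‖f‖ := by
      rw [norm_pos_iff]
      rintro rfl
      change u < 0 at hux
      linarith
    -- a finite set carrying most of `f`
    obtain ⟨A, hA⟩ : ∃ A, A = ∑' j, |g j f| := ⟨_, rfl⟩
    have hsum : HasSum (fun j => |g j f|) A := hA ▸ (S.nl.summ f).hasSum
    have hA0 : 0 < A := by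
      have h1 := norm_le_NN S.nl f
      rw [NN, ← hA] at h1
      linarith
    have hev : ∀ᶠ M : Finset ℕ in Filter.atTop,
        (1 + l) * A < (2 + l - κ) * ∑ j ∈ M, |g j f| := by
      have h1 : Filter.Tendsto (fun M : Finset ℕ => (2 + l - κ) * ∑ j ∈ M, |g j f|)
          Filter.atTop (nhds ((2 + l - κ) * A)) := Filter.Tendsto.const_mul _ hsum
      exact h1.eventually_const_lt (by nlinarith)
    obtain ⟨M, hM⟩ := hev.exists
    obtain ⟨y, hy, hy1, hya⟩ := exists_odd G M (fun j => g j f)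
    have hlow : HasSum (fun j => -((1 + l) * |g j f|) + if j ∈ M then (2 + l - κ) * |g j f| else 0)
        (-((1 + l) * A) + ∑ j ∈ M, (2 + l - κ) * |g j f|) := by
      refine HasSum.add (hsum.mul_left _).neg ?_
      have h1 : (∑ j ∈ M, (2 + l - κ) * |g j f|) =
          ∑ j ∈ M, if j ∈ M then (2 + l - κ) * |g j f| else 0 := by
        refine Finset.sum_congr rfl fun j hj => ?_
        rw [if_pos hj]
      rw [h1]
      exact hasSum_sum_of_ne_finset_zero fun j hj => if_neg hj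
    have hPy : ‖P (E y)‖ ≤ 1 + l := by
      have h1 := nsur_norm_le S E hE y
      nlinarith
    have hle : ∀ j, -((1 + l) * |g j f|) + (if j ∈ M then (2 + l - κ) * |g j f| else 0) ≤
        g j f * e j (P (E y)) := by
      intro j
      by_cases hj : j ∈ M
      · rw [if_pos hj]
        obtain ⟨h1, h2⟩ := hya j hj
        rcases lt_trichotomy (g j f) 0 with h | h | h
        · have h3 : y (p j) = -1 := by
            have h4 := h2 h.ne
            rw [abs_of_neg h] at h1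
            nlinarith
          have h4 := nsur_low S G E hE hEq hy hy1 le_rfl j (-1) (Or.inr rfl)
            (by rw [h3]; norm_num)
          rw [← hκ, mul_zero, sub_zero] at h4
          rw [abs_of_neg h]
          nlinarith
        · rw [h]
          simp
        · have h3 : y (p j) = 1 := by
            rw [abs_of_pos h] at h1
            nlinarith
          have h4 := nsur_low S G E hE hEq hy hy1 le_rfl j 1 (Or.inl rfl)
            (by rw [h3]; norm_num)
          rw [← hκ, mul_zero, sub_zero] at h4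
          rw [abs_of_pos h]
          nlinarith
      · rw [if_neg hj, add_zero]
        have h1 : |g j f * e j (P (E y))| ≤ |g j f| * (1 + l) := by
          rw [abs_mul]
          exact mul_le_mul_of_nonneg_left ((nsur_e_le S j _).trans hPy) (abs_nonneg _)
        linarith [neg_abs_le (g j f * e j (P (E y)))]
    have hfin := hasSum_le hle hlow (S.nl.expand f (P (E y)))
    have h0 : f (P (E y)) = 0 := hf0 ⟨y, hy⟩
    rw [h0, ← Finset.mul_sum] at hfin
    linarith
  let B : Odd τ ≃ₗ[ℝ] X := LinearEquiv.ofBijective T.toLinearMap ⟨hinj, hsurj⟩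
  have hAc : Continuous B.symm := by
    have h1 := hanti.to_rightInverse (fun x => B.apply_symm_apply x)
    exact h1.continuous
  exact ⟨⟨B.symm, hAc, T.continuous⟩⟩

end Pool.Agent.H87.ZI
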