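import Pool.Agent.H87.ZI.BGeo
import Pool.Agent.H87.ZI.BSur
import Pool.Agent.H87.CS.OddI

/-!
# Part B: the theorem for a nearly isometric `ℓ₁` basis of the dual
-/

namespace Pool.Agent.H87.ZI

open Pool.Agent.H87.CS

variable {X K : Type} [NormedAddCommGroup X] [NormedSpace ℝ X] [TopologicalSpace K]
  [CompactSpace K] [T2Space K] {e : ℕ → (X →L[ℝ] ℝ)} {g : ℕ → (X →L[ℝ] ℝ) →L[ℝ] ℝ}
  {J : X →L[ℝ] C(K, ℝ)} {P : C(K, ℝ) →L[ℝ] X} {l δ : ℝ}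

theorem part_B [CompleteSpace X] (S : NSetup e g J P l δ) :
    ∃ (L : Type) (_ : TopologicalSpace L) (_ : CompactSpace L) (_ : T2Space L)
      (_ : Countable L), Nonempty (X ≃L[ℝ] C(L, ℝ)) := by
  obtain ⟨L, i1, i2, i3, i4, τ, p, Z, q, G⟩ := nexists_geo S
  obtain ⟨A⟩ := nexists_iso_odd S G
  obtain ⟨L', j1, j2, j3, j4, ⟨B⟩⟩ := odd_iso τ G.inv
  exact ⟨L', j1, j2, j3, j4, ⟨A.trans B⟩⟩

end Pool.Agent.H87.ZI
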