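import Pool.Agent.H87.ZI.BDefs

/-!
# Part B: the norm `NN` (60 lines)

`NN_le` is `NL1.le`. `norm_le_NN`: `|u x| = |∑ g n u e n x| ≤ ∑ |g n u| ‖x‖` (`expand`, `norm_e`). `NN_e_sub`: for
`i ≠ j` the coordinates of `a e i - b e j` are `a`, `-b` and `0`. `NN_sub_coord`: the coordinates of
`u - g n u • e n` are those of `u`, except number `n` which is `0`. `norm_phi`: `‖J‖ ≤ 1`.
-/

namespace Pool.Agent.H87.ZI

open Pool.Agent.H87.CS

variable {X K : Type} [NormedAddCommGroup X] [NormedSpace ℝ X] [TopologicalSpace K]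
  [CompactSpace K] {e : ℕ → (X →L[ℝ] ℝ)} {g : ℕ → (X →L[ℝ] ℝ) →L[ℝ] ℝ}
  {J : X →L[ℝ] C(K, ℝ)} {P : C(K, ℝ) →L[ℝ] X} {l δ : ℝ}

theorem NN_nonneg (g : ℕ → (X →L[ℝ] ℝ) →L[ℝ] ℝ) (u : X →L[ℝ] ℝ) : 0 ≤ NN g u :=
  tsum_nonneg fun _ => abs_nonneg _

theorem norm_le_NN (h : NL1 e g δ) (u : X →L[ℝ] ℝ) : ‖u‖ ≤ NN g u := by
  refine ContinuousLinearMap.opNorm_le_bound _ (NN_nonneg g u) fun x => ?_
  have h1 : ∀ n, ‖g n u * e n x‖ ≤ |g n u| * ‖x‖ := fun n => by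
    rw [norm_mul, Real.norm_eq_abs]
    refine mul_le_mul_of_nonneg_left ?_ (abs_nonneg _)
    refine ((e n).le_opNorm x).trans ?_
    have h2 : ‖e n‖ * ‖x‖ ≤ 1 * ‖x‖ := mul_le_mul_of_nonneg_right (h.norm_e n) (norm_nonneg x)
    linarith
  have h3 : HasSum (fun n => |g n u| * ‖x‖) (NN g u * ‖x‖) := (h.summ u).hasSum.mul_right _
  rw [← (h.expand u x).tsum_eq]
  exact tsum_of_norm_bounded h3 h1

theorem NN_le (h : NL1 e g δ) (u : X →L[ℝ] ℝ) : NN g u ≤ (1 + δ) * ‖u‖ := h.le u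

theorem NN_add (h : NL1 e g δ) (u v : X →L[ℝ] ℝ) : NN g (u + v) ≤ NN g u + NN g v := by
  unfold NN
  rw [← (h.summ u).tsum_add (h.summ v)]
  refine (h.summ (u + v)).tsum_le_tsum (fun n => ?_) ((h.summ u).add (h.summ v))
  rw [map_add]
  exact abs_add_le _ _

theorem NN_smul (g : ℕ → (X →L[ℝ] ℝ) →L[ℝ] ℝ) (a : ℝ) (u : X →L[ℝ] ℝ) :
    NN g (a • u) = |a| * NN g u := by
  unfold NN
  rw [← tsum_mul_left]
  apply tsum_congr
  intro n
  rw [map_smul, smul_eq_mul, abs_mul]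

theorem NN_sub (h : NL1 e g δ) (u v : X →L[ℝ] ℝ) : NN g (u - v) ≤ NN g u + NN g v := by
  have h1 := NN_add h u ((-1 : ℝ) • v)
  rw [NN_smul, abs_neg, abs_one, one_mul] at h1
  have h2 : u - v = u + (-1 : ℝ) • v := by
    ext x
    simp only [sub_apply, add_apply,
      smul_apply, smul_eq_mul]
    ring
  rw [h2]
  exact h1

theorem NN_e (h : NL1 e g δ) (n : ℕ) : NN g (e n) = 1 := by
  unfold NN
  rw [tsum_eq_single n]
  · rw [h.coord_self, abs_one]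
  · intro m hm
    rw [h.coord_ne m n hm, abs_zero]

theorem NN_e_sub (h : NL1 e g δ) {i j : ℕ} (hij : i ≠ j) (a b : ℝ) :
    NN g (a • e i - b • e j) = |a| + |b| := by
  classical
  unfold NN
  rw [tsum_eq_sum (s := {i, j})]
  · rw [Finset.sum_pair hij]
    simp only [map_sub, map_smul, smul_eq_mul]
    rw [h.coord_self, h.coord_self, h.coord_ne i j hij, h.coord_ne j i hij.symm]
    rw [mul_one, mul_zero, mul_one, mul_zero, sub_zero, zero_sub, abs_neg]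
  · intro m hm
    rw [Finset.mem_insert, Finset.mem_singleton, not_or] at hm
    simp only [map_sub, map_smul, smul_eq_mul]
    rw [h.coord_ne m i hm.1, h.coord_ne m j hm.2, mul_zero, mul_zero, sub_zero, abs_zero]

theorem coord_le_NN (h : NL1 e g δ) (n : ℕ) (u : X →L[ℝ] ℝ) : |g n u| ≤ NN g u :=
  (h.summ u).le_tsum n fun _ _ => abs_nonneg _

theorem NN_sub_coord (h : NL1 e g δ) (n : ℕ) (u : X →L[ℝ] ℝ) :
    NN g (u - g n u • e n) = NN g u - |g n u| := by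
  classical
  unfold NN
  rw [(h.summ u).tsum_eq_add_tsum_ite n]
  rw [add_sub_cancel_left]
  apply tsum_congr
  intro m
  simp only [map_sub, map_smul, smul_eq_mul]
  by_cases hm : m = n
  · rw [if_pos hm, hm, h.coord_self, mul_one, sub_self, abs_zero]
  · rw [if_neg hm, h.coord_ne m n hm, mul_zero, sub_zero]

theorem norm_phi (hJ : ‖J‖ ≤ 1) (t : K) : ‖phi J t‖ ≤ 1 := by
  refine ContinuousLinearMap.opNorm_le_bound _ zero_le_one fun x => ?_
  have h1 : ‖(phi J t) x‖ ≤ ‖J x‖ := ContinuousMap.norm_coe_le_norm (J x) t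
  refine h1.trans ((J.le_opNorm x).trans ?_)
  exact mul_le_mul_of_nonneg_right hJ (norm_nonneg x)

/-- `|g n (phi J t)| ≤ 1 + δ`. -/
theorem coord_phi (h : NL1 e g δ) (hJ : ‖J‖ ≤ 1) (n : ℕ) (t : K) : |g n (phi J t)| ≤ 1 + δ := by
  refine (coord_le_NN h n _).trans ((NN_le h _).trans ?_)
  have h1 := norm_phi hJ t
  have h2 := h.d0
  nlinarith

/-- The functional of the point `t` is near `g n (phi J t) • e n`. -/
theorem near_e (h : NL1 e g δ) (hJ : ‖J‖ ≤ 1) (n : ℕ) (t : K) :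
    ‖phi J t - g n (phi J t) • e n‖ ≤ 1 + δ - |g n (phi J t)| := by
  refine (norm_le_NN h _).trans ?_
  rw [NN_sub_coord h]
  have h0 := NN_le h (phi J t)
  have h1 := norm_phi hJ t
  have h2 := h.d0
  nlinarith

end Pool.Agent.H87.ZI
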