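import Mathlib

/-!
# Part B: a lemma on sums (80 lines, Mathlib only)

`a` summable and nonnegative, all finite sums `m = ∑_{j ∈ A} a j` satisfy `m ≤ 11/10` and `|m - m³| ≤ ρ`, `ρ ≤ 1/100`.
If `m ≤ 1/2` then `m - m³ ≥ 3/4 m`, so `m ≤ (4/3) ρ`; if `m ≥ 1/2` then `|m - m³| = m (1 + m) |1 - m| ≥ (3/4) |1 - m|`, so
`|1 - m| ≤ (4/3) ρ`.

If all finite sums are `≤ 1/2` then `∑ a ≤ (4/3) ρ`. Otherwise some finite sum is at least `1 - (4/3) ρ`. If every `a j`
is `≤ 1/2`, hence `≤ (4/3) ρ`, add the elements of this finite set one after the other (induction on finite sets): all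
the partial sums stay `≤ 1/2`, because from a sum `≤ (4/3) ρ` one comes to a sum `≤ (8/3) ρ < 1/2`, which is then again
`≤ (4/3) ρ`: contradiction. So there is `k` with `|1 - a k| ≤ (4/3) ρ`, and for every finite set `A` not containing `k`
`∑_{A} a ≤ 1 + (4/3) ρ - a k ≤ (8/3) ρ`.
-/

namespace Pool.Agent.H87.ZI

theorem small_or {m ρ : ℝ} (h0 : 0 ≤ m) (h1 : |m - m ^ 3| ≤ ρ) :
    m ≤ 1 / 2 → m ≤ 4 / 3 * ρ := by
  intro h2
  have h3 := le_abs_self (m - m ^ 3)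
  nlinarith [mul_nonneg h0 (sub_nonneg.2 h2), mul_nonneg h0 h0,
    mul_nonneg h0 (mul_nonneg (sub_nonneg.2 h2) (add_nonneg h0 (by norm_num : (0 : ℝ) ≤ 1 / 2)))]

theorem large_or {m ρ : ℝ} (h1 : |m - m ^ 3| ≤ ρ) :
    1 / 2 ≤ m → |1 - m| ≤ 4 / 3 * ρ := by
  intro h2
  have e1 : m - m ^ 3 = (m * (1 + m)) * (1 - m) := by ring
  rw [e1, abs_mul] at h1
  have h3 : 3 / 4 ≤ m * (1 + m) := by nlinarith
  have h4 : 3 / 4 ≤ |m * (1 + m)| := h3.trans (le_abs_self _)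
  have h5 := abs_nonneg (1 - m)
  nlinarith [mul_le_mul_of_nonneg_right h4 h5]

theorem seq_dich {a : ℕ → ℝ} (ha : Summable a) (h0 : ∀ j, 0 ≤ a j) {ρ : ℝ} (hρ : ρ ≤ 1 / 100)
    (h1 : ∀ A : Finset ℕ, ∑ j ∈ A, a j ≤ 11 / 10)
    (h : ∀ A : Finset ℕ, |(∑ j ∈ A, a j) - (∑ j ∈ A, a j) ^ 3| ≤ ρ) :
    ∑' j, a j ≤ 2 * ρ ∨ ∃ k, |1 - a k| ≤ 2 * ρ ∧ (∑' j, a j) - a k ≤ 3 * ρ := by
  have hρ0 : 0 ≤ ρ := (abs_nonneg _).trans (h ∅)
  have hS0 : ∀ A : Finset ℕ, 0 ≤ ∑ j ∈ A, a j := fun A => Finset.sum_nonneg fun j _ => h0 j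
  have hsm : ∀ A : Finset ℕ, ∑ j ∈ A, a j ≤ 1 / 2 → ∑ j ∈ A, a j ≤ 4 / 3 * ρ := fun A =>
    small_or (hS0 A) (h A)
  have hlg : ∀ A : Finset ℕ, 1 / 2 ≤ ∑ j ∈ A, a j → |1 - ∑ j ∈ A, a j| ≤ 4 / 3 * ρ := fun A =>
    large_or (h A)
  by_cases hall : ∀ A : Finset ℕ, ∑ j ∈ A, a j ≤ 1 / 2
  · left
    have h2 : ∑' j, a j ≤ 4 / 3 * ρ :=
      ha.tsum_le_of_sum_le fun A => hsm A (hall A)
    linarith
  · right
    by_cases hk : ∀ k, a k ≤ 1 / 2
    · exfalso
      apply hall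
      intro A
      have h3 : ∀ k, a k ≤ 4 / 3 * ρ := fun k => by
        have := hsm {k} (by rw [Finset.sum_singleton]; exact hk k)
        rwa [Finset.sum_singleton] at this
      induction A using Finset.induction_on with
      | empty => rw [Finset.sum_empty]; norm_num
      | insert b A hb ih =>
        rw [Finset.sum_insert hb]
        have h4 := hsm A ih
        have h5 := h3 b
        linarith
    · push Not at hk
      obtain ⟨k, hk⟩ := hk
      have h3 : |1 - a k| ≤ 4 / 3 * ρ := by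
        have := hlg {k} (by rw [Finset.sum_singleton]; exact hk.le)
        rwa [Finset.sum_singleton] at this
      refine ⟨k, by linarith, ?_⟩
      have h4 : ∑' j, a j ≤ 1 + 4 / 3 * ρ := by
        refine ha.tsum_le_of_sum_le fun A => ?_
        have h5 : ∑ j ∈ A, a j ≤ ∑ j ∈ insert k A, a j :=
          Finset.sum_le_sum_of_subset_of_nonneg (Finset.subset_insert _ _) fun j _ _ => h0 j
        have h6 : a k ≤ ∑ j ∈ insert k A, a j :=
          Finset.single_le_sum (f := a) (fun j _ => h0 j) (Finset.mem_insert_self k A)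
        have h7 := hlg (insert k A) (by linarith)
        have h8 := (abs_le.1 h7).1
        linarith
      have h9 := (abs_le.1 h3).2
      linarith

end Pool.Agent.H87.ZI
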