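import Pool.Agent.H87.ZI.BHel
import Pool.Agent.H87.CS.Wnl

/-!
# Part B: the basic inequality (50 lines)

As `Pool.Agent.H87.CS.star` in `Pool/Agent/H87/CS/Str.lean`: `μ = e n ∘ P` has norm at most `1 + l`. Let `x k` be as in
`exists_seq` and `h k = f + s • J (x k)`; then `μ (h k) = e n (P f) + s`, `‖h k‖ ≤ ‖f‖ + 2 |s|`, and
`h k t = f t + s * phi J t (x k) → f t + s * g n (phi J t)`. Apply `le_of_pointwise`.
-/

namespace Pool.Agent.H87.ZI

open Filter Topology Pool.Agent.H87.CS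

variable {X K : Type} [NormedAddCommGroup X] [NormedSpace ℝ X] [TopologicalSpace K]
  [CompactSpace K] [T2Space K] {e : ℕ → (X →L[ℝ] ℝ)} {g : ℕ → (X →L[ℝ] ℝ) →L[ℝ] ℝ}
  {J : X →L[ℝ] C(K, ℝ)} {P : C(K, ℝ) →L[ℝ] X} {l δ : ℝ}

theorem nstar (S : NSetup e g J P l δ) (n : ℕ) (f : C(K, ℝ)) (s M : ℝ) (hM0 : 0 ≤ M)
    (hM : ∀ t, |f t + s * g n (phi J t)| ≤ M) : e n (P f) + s ≤ (1 + l) * M := by
  obtain ⟨x, hx1, hx2, hx3⟩ := exists_seq S.nl (S.d1.trans (by norm_num)) n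
  have hμ : ‖(e n).comp P‖ ≤ 1 + l := by
    refine ((e n).opNorm_comp_le P).trans ?_
    calc ‖e n‖ * ‖P‖ ≤ 1 * (1 + l) :=
          mul_le_mul (S.nl.norm_e n) S.hP (ContinuousLinearMap.opNorm_nonneg _) zero_le_one
      _ = 1 + l := one_mul _
  have h1 := le_of_pointwise ((e n).comp P) (fun k => f + s • J (x k)) (‖f‖ + |s| * 2) M
    (e n (P f) + s) (fun t => f t + s * g n (phi J t)) (fun k => ?_) (fun t => ?_) hM hM0
    (fun k => ?_)
  · exact h1.trans (mul_le_mul_of_nonneg_right hμ hM0)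
  · refine (norm_add_le _ _).trans (add_le_add le_rfl ?_)
    rw [norm_smul, Real.norm_eq_abs]
    refine mul_le_mul_of_nonneg_left ?_ (abs_nonneg s)
    refine (J.le_opNorm (x k)).trans ?_
    calc ‖J‖ * ‖x k‖ ≤ 1 * 2 :=
          mul_le_mul S.hJ (hx1 k) (norm_nonneg _) zero_le_one
      _ = 2 := by norm_num
  · exact tendsto_const_nhds.add ((hx3 (phi J t)).const_mul s)
  · change e n (P (f + s • J (x k))) = e n (P f) + s
    rw [map_add, map_smul, S.PJ, map_add, map_smul, hx2, smul_eq_mul, mul_one]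

end Pool.Agent.H87.ZI
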