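import Pool.Agent.H87.ZI.BStar

/-!
# Part B: cubes (120 lines)

`‖x‖ ≤ 2`, `v = e n x` (`|v| ≤ 2`), `f = (J x)³`. Claim: `|e n (P f) - v³| ≤ 200 (l + δ)`.

Upper estimate: apply `nstar` with `s = 48` and `M = v³ + 24 δ + 48 (1 + δ)` (`M ≥ 40 > 0`). Let `t ∈ K`,
`G = g n (phi J t)`, `|G| = 1 + δ - θ` with `θ ≥ 0` (`coord_phi`). By `near_e`: `(J x) t = G v + ρ`, `|ρ| ≤ 2 θ`.
* `G ≥ 0`: `|(J x) t - v| ≤ |G - 1| |v| + 2 θ ≤ 2 (δ + θ) + 2 θ`, and `|a³ - b³| ≤ 12 |a - b|` for `|a|, |b| ≤ 2`, so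
  `|f t - v³| ≤ 24 δ + 48 θ`; `f t + 48 G ≤ v³ + 24 δ + 48 θ + 48 (1 + δ - θ) = M`, and `f t + 48 G ≥ - 8 ≥ - M`.
* `G < 0`: `|(J x) t + v| ≤ 2 δ + 4 θ`, `|f t + v³| ≤ 24 δ + 48 θ`, so
  `-(f t + 48 G) ≤ v³ + 24 δ + 48 θ + 48 (1 + δ - θ) = M` and `f t + 48 G ≤ 8 ≤ M`.
So `e n (P f) + 48 ≤ (1 + l) (v³ + 24 δ + 48 (1 + δ))`, which gives `e n (P f) ≤ v³ + 200 (l + δ)` (`v³ ≤ 8`, `l ≤ 1`).
Lower estimate: the same for `- x`.
-/

namespace Pool.Agent.H87.ZI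

open Pool.Agent.H87.CS

variable {X K : Type} [NormedAddCommGroup X] [NormedSpace ℝ X] [TopologicalSpace K]
  [CompactSpace K] [T2Space K] {e : ℕ → (X →L[ℝ] ℝ)} {g : ℕ → (X →L[ℝ] ℝ) →L[ℝ] ℝ}
  {J : X →L[ℝ] C(K, ℝ)} {P : C(K, ℝ) →L[ℝ] X} {l δ : ℝ}

private lemma btp_cube {a b c : ℝ} (ha : |a| ≤ 2) (hb : |b| ≤ 2) (h : |a - b| ≤ c) :
    |a ^ 3 - b ^ 3| ≤ 12 * c := by
  have h1 : a ^ 3 - b ^ 3 = (a - b) * (a ^ 2 + a * b + b ^ 2) := by ring
  have h2 : |a ^ 2 + a * b + b ^ 2| ≤ 12 := by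
    obtain ⟨ha1, ha2⟩ := abs_le.1 ha
    obtain ⟨hb1, hb2⟩ := abs_le.1 hb
    apply abs_le.2
    constructor
    · nlinarith [sq_nonneg (a + b), sq_nonneg a, sq_nonneg b]
    · nlinarith [sq_nonneg (a - b), mul_nonneg (sub_nonneg.2 ha2) (by linarith : (0 : ℝ) ≤ a + 2),
        mul_nonneg (sub_nonneg.2 hb2) (by linarith : (0 : ℝ) ≤ b + 2)]
  rw [h1, abs_mul]
  calc |a - b| * |a ^ 2 + a * b + b ^ 2| ≤ c * 12 :=
        mul_le_mul h h2 (abs_nonneg _) ((abs_nonneg _).trans h)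
    _ = 12 * c := by ring

private lemma btp_eight {a : ℝ} (ha : |a| ≤ 2) : -8 ≤ a ^ 3 ∧ a ^ 3 ≤ 8 := by
  have h := btp_cube (b := 0) ha (by simp) (c := |a|) (by simp)
  have h2 : |a ^ 3| ≤ 8 := by
    rw [abs_pow]
    calc |a| ^ 3 ≤ 2 ^ 3 := pow_le_pow_left₀ (abs_nonneg _) ha 3
      _ = 8 := by norm_num
  exact abs_le.1 h2

private lemma btp_upper (S : NSetup e g J P l δ) (n : ℕ) {x : X} (hx : ‖x‖ ≤ 2) :
    e n (P (J x ^ 3)) ≤ e n x ^ 3 + 200 * (l + δ) := by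
  have hd0 := S.nl.d0
  have hd1 := S.d1
  have hl0 := S.l0
  have hl1 := S.l1
  set v := e n x with hv
  have hv2 : |v| ≤ 2 := by
    calc |v| = ‖e n x‖ := (Real.norm_eq_abs _).symm
      _ ≤ ‖e n‖ * ‖x‖ := (e n).le_opNorm x
      _ ≤ 1 * 2 := mul_le_mul (S.nl.norm_e n) hx (norm_nonneg _) zero_le_one
      _ = 2 := by norm_num
  obtain ⟨hv3, hv4⟩ := btp_eight hv2
  have hJx : ∀ t, |J x t| ≤ 2 := by
    intro t
    calc |J x t| = ‖J x t‖ := (Real.norm_eq_abs _).symm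
      _ ≤ ‖J x‖ := ContinuousMap.norm_coe_le_norm _ t
      _ ≤ ‖J‖ * ‖x‖ := J.le_opNorm x
      _ ≤ 1 * 2 := mul_le_mul S.hJ hx (norm_nonneg _) zero_le_one
      _ = 2 := by norm_num
  have hM0 : (0 : ℝ) ≤ v ^ 3 + 24 * δ + 48 * (1 + δ) := by linarith
  have key := nstar S n (J x ^ 3) 48 (v ^ 3 + 24 * δ + 48 * (1 + δ)) hM0 (by
    intro t
    rw [ContinuousMap.pow_apply]
    set G := g n (phi J t) with hG
    have hG1 := coord_phi S.nl S.hJ n t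
    rw [← hG] at hG1
    have hnear := near_e S.nl S.hJ n t
    rw [← hG] at hnear
    have h1 : |J x t - G * v| ≤ (1 + δ - |G|) * 2 := by
      have h2 : J x t - G * v = (phi J t - G • e n) x := by
        simp [phi, hv]
      rw [h2, ← Real.norm_eq_abs]
      exact ((phi J t - G • e n).le_opNorm x).trans
        (mul_le_mul hnear hx (norm_nonneg _) (by linarith))
    obtain ⟨ha1, ha2⟩ := btp_eight (hJx t)
    rcases le_or_gt 0 G with hG0 | hG0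
    · rw [abs_of_nonneg hG0] at h1 hG1
      have h3 : |J x t - v| ≤ 2 * δ + 4 * (1 + δ - G) := by
        have h4 : J x t - v = (J x t - G * v) + (G - 1) * v := by ring
        have h5 : |G - 1| ≤ δ + (1 + δ - G) := abs_le.2 ⟨by linarith, by linarith⟩
        rw [h4]
        calc |J x t - G * v + (G - 1) * v| ≤ |J x t - G * v| + |(G - 1) * v| := abs_add_le _ _
          _ ≤ (1 + δ - G) * 2 + (δ + (1 + δ - G)) * 2 := by
            rw [abs_mul]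
            exact add_le_add h1 (mul_le_mul h5 hv2 (abs_nonneg _) (by linarith))
          _ = 2 * δ + 4 * (1 + δ - G) := by ring
      have h6 := btp_cube (hJx t) hv2 h3
      obtain ⟨h7, h8⟩ := abs_le.1 h6
      apply abs_le.2
      constructor
      · linarith
      · linarith
    · rw [abs_of_neg hG0] at h1 hG1
      have h3 : |J x t - (-v)| ≤ 2 * δ + 4 * (1 + δ + G) := by
        have h4 : J x t - (-v) = (J x t - G * v) + (G + 1) * v := by ring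
        have h5 : |G + 1| ≤ δ + (1 + δ + G) := abs_le.2 ⟨by linarith, by linarith⟩
        rw [h4]
        calc |J x t - G * v + (G + 1) * v| ≤ |J x t - G * v| + |(G + 1) * v| := abs_add_le _ _
          _ ≤ (1 + δ - -G) * 2 + (δ + (1 + δ + G)) * 2 := by
            rw [abs_mul]
            exact add_le_add h1 (mul_le_mul h5 hv2 (abs_nonneg _) (by linarith))
          _ = 2 * δ + 4 * (1 + δ + G) := by ring
      have h6 := btp_cube (hJx t) (by rwa [abs_neg]) h3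
      have h9 : (-v) ^ 3 = -v ^ 3 := by ring
      rw [h9] at h6
      obtain ⟨h7, h8⟩ := abs_le.1 h6
      apply abs_le.2
      constructor
      · linarith
      · linarith)
  nlinarith [mul_nonneg hl0 (by linarith : (0 : ℝ) ≤ 57 - (v ^ 3 + 24 * δ + 48 * (1 + δ)))]

theorem cube (S : NSetup e g J P l δ) (n : ℕ) {x : X} (hx : ‖x‖ ≤ 2) :
    |e n (P (J x ^ 3)) - e n x ^ 3| ≤ 200 * (l + δ) := by
  have h1 := btp_upper S n hx
  have h2 := btp_upper S n (x := -x) (by rwa [norm_neg])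
  have h3 : J (-x) ^ 3 = -(J x ^ 3) := by
    rw [map_neg]
    exact Odd.neg_pow (by decide) _
  rw [h3, map_neg, map_neg, map_neg] at h2
  have h4 : (-e n x) ^ 3 = -(e n x ^ 3) := by ring
  rw [h4] at h2
  exact abs_le.2 ⟨by linarith, by linarith⟩

end Pool.Agent.H87.ZI
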