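import Pool.Agent.H87.ZI.BLim
import Pool.Agent.H87.ZI.BSeq

/-!
# Part B: the types of the limits (150 lines)

`r = 1/100`. `NTy e g s o`: `NN g s ≤ r` for `o = none`, `NN g (s - sg i.2 • e i.1) ≤ r` for `o = some i`.

* `nty_lim`: for a limit `σ` of `e n` along an ultrafilter on `ℕ`: `cube_lim` and `seq_dich` with `ρ = 600 (l + δ)`
  `≤ 1200/1000000` (`5 ρ ≤ r`); in the second case with `ε` the sign of `g k σ`,
  `NN g (σ - ε • e k) = |g k σ - ε| + (NN g σ - |g k σ|) ≤ 2 ρ + 3 ρ`.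
* `exists_nty`: `v` is an ultrafilter on `ℕ × Bool`, one of the sets `{i | i.2 = true}`, `{i | i.2 = false}` is in `v`; put
  `𝒱 = v.map Prod.fst`; then `σ` or `- σ` is the limit of `e n` along `𝒱` (compare `Pool.Agent.H87.CS.exists_ty` in
  `Pool/Agent/H87/CS/Typ.lean`).
* `nty_same`: triangle inequality (`norm_le_NN`).
* `nty_ne`: `NN` of the difference is at least `2 - 2 r` (both not `none`: `NN (± e i ∓' e j) = 2`, also for `i = j` with
  opposite signs) or `1 - 2 r` (one of them `none`), and `NN ≤ (1 + δ) ‖·‖`.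
* `nty_scaled`: `NN g (a • s - a' • s') ≥ (a + a') (1 - r)` if both types are not `none`, and
  `≥ a (1 - r) - a' r` if the second type is `none` (symmetric in the other case); with `3/4 ≤ a, a'` this is
  `> (1 + δ) (2 (1 + δ) - a - a')`: `(a + a') (2 + δ - r) ≥ 1.5 · 1.99`, respectively
  `a (2 + δ - r) + a' (1 + δ - r) ≥ 0.75 · 2.98 > 2 (1 + δ)²`.
-/

namespace Pool.Agent.H87.ZI

open Filter Topology Pool.Agent.H87.CS

variable {X K : Type} [NormedAddCommGroup X] [NormedSpace ℝ X] [TopologicalSpace K]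
  [CompactSpace K] [T2Space K] {e : ℕ → (X →L[ℝ] ℝ)} {g : ℕ → (X →L[ℝ] ℝ) →L[ℝ] ℝ}
  {J : X →L[ℝ] C(K, ℝ)} {P : C(K, ℝ) →L[ℝ] X} {l δ : ℝ}

/-- The type of a functional: small, or near `± e i`. -/
def NTy (e : ℕ → (X →L[ℝ] ℝ)) (g : ℕ → (X →L[ℝ] ℝ) →L[ℝ] ℝ) (s : X →L[ℝ] ℝ) :
    Option (ℕ × Bool) → Prop
  | none => NN g s ≤ 1 / 100
  | some i => NN g (s - sg i.2 • e i.1) ≤ 1 / 100

private theorem btyp_sg (b : Bool) : |sg b| = 1 := by
  cases b
  · rw [show sg false = -1 from rfl]; norm_num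
  · rw [show sg true = 1 from rfl]; norm_num

private theorem btyp_neg (g : ℕ → (X →L[ℝ] ℝ) →L[ℝ] ℝ) (u : X →L[ℝ] ℝ) :
    NN g (-u) = NN g u := by
  unfold NN
  simp only [map_neg, abs_neg]

private theorem btyp_lim (S : NSetup e g J P l δ) (𝒱 : Ultrafilter ℕ) {σ : X →L[ℝ] ℝ}
    (hσ : ∀ x, Tendsto (fun n => e n x) 𝒱 (𝓝 (σ x))) : ∃ o, NTy e g σ o := by
  have hd0 := S.nl.d0
  have hd1 := S.d1
  have hl0 := S.l0
  have hl1 := S.l1
  have hσn : ‖σ‖ ≤ 1 := by
    refine ContinuousLinearMap.opNorm_le_bound _ zero_le_one fun y => ?_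
    rw [one_mul, Real.norm_eq_abs]
    refine le_of_tendsto ((hσ y).abs) (Eventually.of_forall fun n => ?_)
    have h := (e n).le_of_opNorm_le (S.nl.norm_e n) y
    rwa [one_mul, Real.norm_eq_abs] at h
  have hc : Summable fun j => |g j σ| := S.nl.summ σ
  have hN : ∑' j, |g j σ| ≤ 1 + δ := by
    have h := S.nl.le σ
    have : (1 + δ) * ‖σ‖ ≤ (1 + δ) * 1 := mul_le_mul_of_nonneg_left hσn (by linarith)
    linarith
  have h := seq_dich hc (fun j => abs_nonneg _) (ρ := 600 * (l + δ)) (by linarith)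
    (fun A => (hc.sum_le_tsum A (fun j _ => abs_nonneg _)).trans (by linarith))
    (cube_lim S 𝒱 hσ)
  rcases h with h | ⟨k, h1, h2⟩
  · refine ⟨none, ?_⟩
    change NN g σ ≤ 1 / 100
    unfold NN
    linarith
  · have key : ∀ ε : ℝ, |g k σ - ε| = |1 - abs (g k σ)| → NN g (σ - ε • e k) ≤ 1 / 100 := by
      intro ε hε
      have h3 : σ - ε • e k = (σ - g k σ • e k) + (g k σ - ε) • e k := by
        ext x
        change σ x - ε * e k x = (σ x - g k σ * e k x) + (g k σ - ε) * e k x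
        ring
      rw [h3]
      have h4 := NN_add S.nl (σ - g k σ • e k) ((g k σ - ε) • e k)
      rw [NN_sub_coord S.nl, NN_smul, NN_e S.nl, mul_one, hε] at h4
      have h5 : NN g σ - |g k σ| ≤ 3 * (600 * (l + δ)) := h2
      linarith
    rcases le_total 0 (g k σ) with h0 | h0
    · refine ⟨some (k, true), key (sg true) ?_⟩
      rw [show sg true = 1 from rfl, abs_of_nonneg h0, abs_sub_comm]
    · refine ⟨some (k, false), key (sg false) ?_⟩
      rw [show sg false = -1 from rfl, abs_of_nonpos h0]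
      congr 1
      ring

theorem exists_nty (S : NSetup e g J P l δ) {σ : X →L[ℝ] ℝ} (v : Ultrafilter (ℕ × Bool))
    (hσ : ∀ x, Tendsto (fun i : ℕ × Bool => sg i.2 * e i.1 x) v (𝓝 (σ x))) :
    ∃ o, NTy e g σ o := by
  rcases Ultrafilter.em v (fun i : ℕ × Bool => i.2 = true) with h | h
  · refine btyp_lim S (v.map Prod.fst) (σ := σ) fun x => ?_
    rw [Ultrafilter.coe_map, tendsto_map'_iff]
    refine (hσ x).congr' ?_
    filter_upwards [h] with i hi
    rw [hi, show sg true = 1 from rfl, one_mul]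
    rfl
  · obtain ⟨o, ho⟩ := btyp_lim S (v.map Prod.fst) (σ := -σ) fun x => by
      rw [Ultrafilter.coe_map, tendsto_map'_iff]
      refine ((hσ x).neg).congr' ?_
      filter_upwards [h] with i hi
      have h2 : i.2 = false := by simpa using hi
      rw [h2, show sg false = -1 from rfl]
      simp
    cases o with
    | none =>
      refine ⟨none, ?_⟩
      have h1 : NN g (-σ) ≤ 1 / 100 := ho
      rw [btyp_neg] at h1
      exact h1
    | some i =>
      rcases i with ⟨k, b⟩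
      refine ⟨some (k, !b), ?_⟩
      have h1 : NN g (-σ - sg b • e k) ≤ 1 / 100 := ho
      change NN g (σ - sg (!b) • e k) ≤ 1 / 100
      have h2 : sg (!b) = - sg b := by
        cases b
        · change (1 : ℝ) = - -1
          norm_num
        · rfl
      have h3 : σ - sg (!b) • e k = -(-σ - sg b • e k) := by
        rw [h2]
        ext x
        change σ x - (-sg b) * e k x = -(-σ x - sg b * e k x)
        ring
      rw [h3, btyp_neg]
      exact h1

theorem nty_same (h : NL1 e g δ) {s s' : X →L[ℝ] ℝ} {o : Option (ℕ × Bool)} (hs : NTy e g s o)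
    (hs' : NTy e g s' o) : ‖s - s'‖ ≤ 1 / 50 := by
  refine (norm_le_NN h _).trans ?_
  cases o with
  | none =>
    have h1 : NN g s ≤ 1 / 100 := hs
    have h2 : NN g s' ≤ 1 / 100 := hs'
    have h3 := NN_sub h s s'
    linarith
  | some i =>
    have h1 : NN g (s - sg i.2 • e i.1) ≤ 1 / 100 := hs
    have h2 : NN g (s' - sg i.2 • e i.1) ≤ 1 / 100 := hs'
    have h3 := NN_sub h (s - sg i.2 • e i.1) (s' - sg i.2 • e i.1)
    rw [sub_sub_sub_cancel_right] at h3
    linarith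

private theorem btyp_pair (h : NL1 e g δ) {i i' : ℕ × Bool} (hne : i ≠ i') {a a' : ℝ}
    (ha : 0 ≤ a) (ha' : 0 ≤ a') :
    NN g (a • (sg i.2 • e i.1) - a' • (sg i'.2 • e i'.1)) = a + a' := by
  rw [smul_smul, smul_smul]
  by_cases h1 : i.1 = i'.1
  · have h2 : i.2 ≠ i'.2 := fun h => hne (Prod.ext h1 h)
    have h5 : sg i'.2 = - sg i.2 := by
      rcases i with ⟨n, b⟩
      rcases i' with ⟨n', b'⟩
      cases b <;> cases b'
      · exact absurd rfl h2
      · change (1 : ℝ) = - -1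
        norm_num
      · rfl
      · exact absurd rfl h2
    rw [← h1, h5]
    have h6 : (a * sg i.2) • e i.1 - (a' * -sg i.2) • e i.1 = ((a + a') * sg i.2) • e i.1 := by
      ext x
      change (a * sg i.2) * e i.1 x - (a' * -sg i.2) * e i.1 x = ((a + a') * sg i.2) * e i.1 x
      ring
    rw [h6, NN_smul, NN_e h, mul_one, abs_mul, btyp_sg, mul_one,
      abs_of_nonneg (add_nonneg ha ha')]
  · rw [NN_e_sub h h1, abs_mul, abs_mul, btyp_sg, btyp_sg, mul_one, mul_one, abs_of_nonneg ha,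
      abs_of_nonneg ha']

private theorem btyp_none (h : NL1 e g δ) {s s' : X →L[ℝ] ℝ} {i : ℕ × Bool}
    (hs : NN g s ≤ 1 / 100) (hs' : NN g (s' - sg i.2 • e i.1) ≤ 1 / 100) {a a' : ℝ}
    (ha : 0 ≤ a) (ha' : 0 ≤ a') :
    a' * (99 / 100) - a * (1 / 100) ≤ NN g (a • s - a' • s') := by
  have h1 : (99 : ℝ) / 100 ≤ NN g s' := by
    have h2 := NN_sub h s' (s' - sg i.2 • e i.1)
    rw [sub_sub_cancel, NN_smul, btyp_sg, NN_e h] at h2
    linarith
  have h3 := NN_sub h (a • s) (a • s - a' • s')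
  rw [sub_sub_cancel, NN_smul, NN_smul, abs_of_nonneg ha, abs_of_nonneg ha'] at h3
  have h4 : a' * (99 / 100) ≤ a' * NN g s' := mul_le_mul_of_nonneg_left h1 ha'
  have h5 : a * NN g s ≤ a * (1 / 100) := mul_le_mul_of_nonneg_left hs ha
  linarith

private theorem btyp_some (h : NL1 e g δ) {s s' : X →L[ℝ] ℝ} {i i' : ℕ × Bool}
    (hne : i ≠ i') (hs : NN g (s - sg i.2 • e i.1) ≤ 1 / 100)
    (hs' : NN g (s' - sg i'.2 • e i'.1) ≤ 1 / 100) {a a' : ℝ}
    (ha : 0 ≤ a) (ha' : 0 ≤ a') :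
    (a + a') * (99 / 100) ≤ NN g (a • s - a' • s') := by
  have h1 := btyp_pair h hne ha ha'
  have h2 : a • (sg i.2 • e i.1) - a' • (sg i'.2 • e i'.1) =
      (a • s - a' • s') - (a • (s - sg i.2 • e i.1) - a' • (s' - sg i'.2 • e i'.1)) := by
    rw [smul_sub, smul_sub]
    abel
  have h3 := NN_sub h (a • s - a' • s')
    (a • (s - sg i.2 • e i.1) - a' • (s' - sg i'.2 • e i'.1))
  rw [← h2, h1] at h3
  have h4 := NN_sub h (a • (s - sg i.2 • e i.1)) (a' • (s' - sg i'.2 • e i'.1))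
  rw [NN_smul, NN_smul, abs_of_nonneg ha, abs_of_nonneg ha'] at h4
  have h5 := mul_le_mul_of_nonneg_left hs ha
  have h6 := mul_le_mul_of_nonneg_left hs' ha'
  linarith

private theorem btyp_swap (g : ℕ → (X →L[ℝ] ℝ) →L[ℝ] ℝ) (u v : X →L[ℝ] ℝ) :
    NN g (u - v) = NN g (v - u) := by
  rw [← btyp_neg g (v - u), neg_sub]

/-- The three cases at once. -/
private theorem btyp_low (h : NL1 e g δ) {s s' : X →L[ℝ] ℝ} {o o' : Option (ℕ × Bool)}
    (hs : NTy e g s o) (hs' : NTy e g s' o') (hne : o ≠ o') {a a' : ℝ}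
    (ha : 0 ≤ a) (ha' : 0 ≤ a') :
    min (a' * (99 / 100) - a * (1 / 100)) (a * (99 / 100) - a' * (1 / 100)) ≤
      NN g (a • s - a' • s') := by
  cases o with
  | none =>
    cases o' with
    | none => exact absurd rfl hne
    | some i' => exact (min_le_left _ _).trans (btyp_none h hs hs' ha ha')
  | some i =>
    cases o' with
    | none =>
      rw [btyp_swap g]
      exact (min_le_right _ _).trans (btyp_none h hs' hs ha' ha)
    | some i' =>
      refine (min_le_left _ _).trans (le_trans ?_ (btyp_some h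
        (fun hh => hne (congrArg some hh)) hs hs' ha ha'))
      linarith

theorem nty_ne (h : NL1 e g δ) (hδ : δ ≤ 1 / 100) {s s' : X →L[ℝ] ℝ} {o o' : Option (ℕ × Bool)}
    (hs : NTy e g s o) (hs' : NTy e g s' o') (hne : o ≠ o') : 1 / 50 < ‖s - s'‖ := by
  have h1 := btyp_low h hs hs' hne (a := 1) (a' := 1) zero_le_one zero_le_one
  rw [min_self, one_smul, one_smul] at h1
  have h2 := NN_le h (s - s')
  have h3 := h.d0
  by_contra hcon
  push Not at hcon
  have h4 : (1 + δ) * ‖s - s'‖ ≤ (1 + 1 / 100) * (1 / 50) :=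
    mul_le_mul (by linarith) hcon (norm_nonneg _) (by norm_num)
  linarith

theorem nty_scaled (h : NL1 e g δ) (hδ : δ ≤ 1 / 100) {s s' : X →L[ℝ] ℝ}
    {o o' : Option (ℕ × Bool)} (hs : NTy e g s o) (hs' : NTy e g s' o') (hne : o ≠ o') {a a' : ℝ}
    (ha : 3 / 4 ≤ a) (ha' : 3 / 4 ≤ a') (ha1 : a ≤ 1 + δ) (ha1' : a' ≤ 1 + δ) :
    2 * (1 + δ) - a - a' < ‖a • s - a' • s'‖ := by
  have h1 := btyp_low h hs hs' hne (a := a) (a' := a') (by linarith) (by linarith)
  have h2 := NN_le h (a • s - a' • s')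
  have h3 := h.d0
  by_contra hcon
  push Not at hcon
  have h4 : (1 + δ) * ‖a • s - a' • s'‖ ≤ (1 + 1 / 100) * (2 * (1 + δ) - a - a') :=
    mul_le_mul (by linarith) hcon (norm_nonneg _) (by norm_num)
  rcases min_le_iff.1 (h1.trans (h2.trans h4)) with h5 | h5 <;> linarith

end Pool.Agent.H87.ZI
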