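import Pool.Agent.H87.ZI.Defs

/-!
# Averages and masses

Elementary facts on `av` and `ms` for a summable sequence `a` and bounded functions. Everything follows from
`Summable.of_norm_bounded` (bound `|a j| * f j` by `C * |a j|`), `Summable.tsum_le_tsum`, `Summable.tsum_add`,
`tsum_mul_left`; `av_cs` is the inequality of Cauchy and Schwarz, in the form
`2 t |f| ≤ t² + f²`, that is: `2 t av |f| ≤ t² ∑|a| + av f²` for `t = √(av f²)` (with `∑ |a| ≤ A`, `0 < A`), or
`Real.inner_le_Lp_mul_Lq_tsum_of_nonneg`.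
-/

namespace Pool.Agent.H87.ZI

theorem sum_av {a f : ℕ → ℝ} {C : ℝ} (ha : Summable fun j => |a j|) (hf : ∀ j, |f j| ≤ C) :
    Summable fun j => |a j| * f j := by
  refine Summable.of_norm_bounded (ha.mul_left C) fun j => ?_
  rw [Real.norm_eq_abs, abs_mul, abs_abs, mul_comm]
  exact mul_le_mul_of_nonneg_right (hf j) (abs_nonneg _)

theorem av_mono {a f g : ℕ → ℝ} {C : ℝ} (ha : Summable fun j => |a j|) (hf : ∀ j, |f j| ≤ C)
    (hg : ∀ j, |g j| ≤ C) (h : ∀ j, f j ≤ g j) : av a f ≤ av a g :=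
  Summable.tsum_le_tsum (fun j => mul_le_mul_of_nonneg_left (h j) (abs_nonneg _))
    (sum_av ha hf) (sum_av ha hg)

/-- Only the `j` with `a j ≠ 0` matter. -/
theorem av_mono' {a f g : ℕ → ℝ} {C : ℝ} (ha : Summable fun j => |a j|) (hf : ∀ j, |f j| ≤ C)
    (hg : ∀ j, |g j| ≤ C) (h : ∀ j, a j ≠ 0 → f j ≤ g j) : av a f ≤ av a g := by
  refine Summable.tsum_le_tsum (fun j => ?_) (sum_av ha hf) (sum_av ha hg)
  by_cases h0 : a j = 0
  · simp [h0]
  · exact mul_le_mul_of_nonneg_left (h j h0) (abs_nonneg _)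

theorem av_add {a f g : ℕ → ℝ} {C : ℝ} (ha : Summable fun j => |a j|) (hf : ∀ j, |f j| ≤ C)
    (hg : ∀ j, |g j| ≤ C) : av a (fun j => f j + g j) = av a f + av a g := by
  unfold av
  rw [← Summable.tsum_add (sum_av ha hf) (sum_av ha hg)]
  exact tsum_congr fun j => by ring

theorem av_sub {a f g : ℕ → ℝ} {C : ℝ} (ha : Summable fun j => |a j|) (hf : ∀ j, |f j| ≤ C)
    (hg : ∀ j, |g j| ≤ C) : av a (fun j => f j - g j) = av a f - av a g := by
  unfold av
  rw [← Summable.tsum_sub (sum_av ha hf) (sum_av ha hg)]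
  exact tsum_congr fun j => by ring

theorem av_mul {a : ℕ → ℝ} (f : ℕ → ℝ) (c : ℝ) : av a (fun j => c * f j) = c * av a f := by
  unfold av
  rw [← tsum_mul_left]
  exact tsum_congr fun j => by ring

theorem av_const {a : ℕ → ℝ} (c : ℝ) : av a (fun _ => c) = c * ∑' j, |a j| := by
  unfold av
  rw [← tsum_mul_left]
  exact tsum_congr fun j => by ring

theorem av_nonneg {a f : ℕ → ℝ} (hf : ∀ j, 0 ≤ f j) : 0 ≤ av a f :=
  tsum_nonneg fun j => mul_nonneg (abs_nonneg _) (hf j)

theorem av_le_of_le {a f : ℕ → ℝ} {C c : ℝ} (ha : Summable fun j => |a j|) (hf : ∀ j, |f j| ≤ C)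
    (h : ∀ j, f j ≤ c) : av a f ≤ c * ∑' j, |a j| := by
  rw [← av_const]
  exact av_mono (C := max C |c|) ha (fun j => (hf j).trans (le_max_left _ _))
    (fun _ => le_max_right _ _) h

theorem av_abs_le {a f : ℕ → ℝ} {C : ℝ} (ha : Summable fun j => |a j|) (hf : ∀ j, |f j| ≤ C) :
    |av a f| ≤ C * ∑' j, |a j| := by
  rw [abs_le]
  constructor
  · have h1 := av_le_of_le (a := a) (f := fun j => -1 * f j) (C := C) (c := C) ha
      (fun j => by rw [abs_mul, abs_neg, abs_one, one_mul]; exact hf j)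
      (fun j => by linarith [neg_le_of_abs_le (hf j)])
    rw [av_mul] at h1
    linarith
  · exact av_le_of_le ha hf fun j => (le_abs_self _).trans (hf j)

private theorem bas_cs_aux {V A X : ℝ} (hV : 0 ≤ V) (hA : 0 ≤ A)
    (h : ∀ t : ℝ, 0 < t → 2 * t * X ≤ t ^ 2 * A + V) : X ≤ √(A * V) := by
  by_contra hlt
  push Not at hlt
  have hs : 0 ≤ √(A * V) := Real.sqrt_nonneg _
  have hX : 0 < X := lt_of_le_of_lt hs hlt
  have hsq : A * V < X ^ 2 := by
    have h1 : √(A * V) ^ 2 = A * V := Real.sq_sqrt (mul_nonneg hA hV)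
    nlinarith
  rcases eq_or_lt_of_le hA with hA0 | hA0
  · rw [← hA0] at h
    have h2 := h ((V + 1) / X) (by positivity)
    have h3 : 2 * ((V + 1) / X) * X = 2 * (V + 1) := by field_simp
    rw [h3] at h2
    linarith
  · have h2 := h (X / A) (by positivity)
    have h3 : 2 * (X / A) * X - (X / A) ^ 2 * A = X ^ 2 / A := by field_simp; ring
    have h4 : X ^ 2 / A ≤ V := by linarith
    rw [div_le_iff₀ hA0] at h4
    linarith

theorem av_cs {a f : ℕ → ℝ} {C A : ℝ} (ha : Summable fun j => |a j|) (hA : ∑' j, |a j| ≤ A)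
    (hf : ∀ j, |f j| ≤ C) : av a (fun j => |f j|) ≤ √(A * av a (fun j => f j ^ 2)) := by
  have hA0 : 0 ≤ A := (tsum_nonneg fun j => abs_nonneg _).trans hA
  have hC : 0 ≤ C := (abs_nonneg _).trans (hf 0)
  refine bas_cs_aux (av_nonneg fun j => sq_nonneg _) hA0 fun t ht => ?_
  have hf2 : ∀ j, |f j ^ 2| ≤ max (2 * t * C) (max (C ^ 2) (t ^ 2)) := fun j => by
    rw [abs_of_nonneg (sq_nonneg _)]
    refine le_trans ?_ ((le_max_left _ _).trans (le_max_right _ _))
    rw [← sq_abs]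
    exact pow_le_pow_left₀ (abs_nonneg _) (hf j) 2
  have hft : ∀ j, |2 * t * (|f j|)| ≤ max (2 * t * C) (max (C ^ 2) (t ^ 2)) := fun j => by
    refine le_trans ?_ (le_max_left _ _)
    rw [abs_mul, abs_abs, abs_of_pos (by positivity)]
    exact mul_le_mul_of_nonneg_left (hf j) (by positivity)
  have hc : ∀ _ : ℕ, |t ^ 2| ≤ max (2 * t * C) (max (C ^ 2) (t ^ 2)) := fun _ => by
    rw [abs_of_nonneg (sq_nonneg _)]
    exact (le_max_right _ _).trans (le_max_right _ _)
  have h1 : av a (fun j => 2 * t * |f j|) ≤ av a (fun j => t ^ 2 + f j ^ 2) := by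
    refine Summable.tsum_le_tsum (fun j => ?_) (sum_av ha hft) ?_
    · refine mul_le_mul_of_nonneg_left ?_ (abs_nonneg _)
      have := sq_abs (f j)
      nlinarith [sq_nonneg (t - |f j|)]
    · have := (sum_av ha hc).add (sum_av ha hf2)
      refine this.congr fun j => ?_
      ring
  rw [av_add ha hc hf2, av_const, av_mul] at h1
  have : t ^ 2 * ∑' j, |a j| ≤ t ^ 2 * A := mul_le_mul_of_nonneg_left hA (sq_nonneg _)
  linarith

theorem sum_ms {a : ℕ → ℝ} (ha : Summable fun j => |a j|) (B : Set ℕ) :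
    Summable fun j => B.indicator (fun j => |a j|) j := ha.indicator B

theorem ms_nonneg (a : ℕ → ℝ) (B : Set ℕ) : 0 ≤ ms a B :=
  tsum_nonneg fun _ => Set.indicator_nonneg (fun _ _ => abs_nonneg _) _

theorem ms_mono {a : ℕ → ℝ} (ha : Summable fun j => |a j|) {A B : Set ℕ} (h : A ⊆ B) :
    ms a A ≤ ms a B :=
  Summable.tsum_le_tsum
    (fun _ => Set.indicator_le_indicator_of_subset h (fun _ => abs_nonneg _) _)
    (sum_ms ha A) (sum_ms ha B)

theorem ms_le {a : ℕ → ℝ} (ha : Summable fun j => |a j|) (B : Set ℕ) : ms a B ≤ ∑' j, |a j| := by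
  refine Summable.tsum_le_tsum (fun j => ?_) (sum_ms ha B) ha
  exact Set.indicator_le_self' (fun _ _ => abs_nonneg _) j

theorem ms_compl {a : ℕ → ℝ} (ha : Summable fun j => |a j|) (B : Set ℕ) :
    ms a B + ms a Bᶜ = ∑' j, |a j| := by
  unfold ms
  rw [← Summable.tsum_add (sum_ms ha B) (sum_ms ha Bᶜ)]
  refine tsum_congr fun j => ?_
  exact congrFun (Set.indicator_self_add_compl B fun j => |a j|) j

theorem ms_union_le {a : ℕ → ℝ} (ha : Summable fun j => |a j|) (A B : Set ℕ) :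
    ms a (A ∪ B) ≤ ms a A + ms a B := by
  unfold ms
  rw [← Summable.tsum_add (sum_ms ha A) (sum_ms ha B)]
  refine Summable.tsum_le_tsum (fun j => ?_) (sum_ms ha _) ((sum_ms ha A).add (sum_ms ha B))
  have := abs_nonneg (a j)
  by_cases h1 : j ∈ A <;> by_cases h2 : j ∈ B <;> simp [h1, h2]

/-- The mass of a set is the average of its indicator function. -/
theorem av_ind (a : ℕ → ℝ) (B : Set ℕ) : av a (B.indicator fun _ => 1) = ms a B := by
  refine tsum_congr fun j => ?_
  by_cases h : j ∈ B <;> simp [h]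

theorem ms_smul (a : ℕ → ℝ) (c : ℝ) (B : Set ℕ) : ms (fun j => a j / c) B = ms a B / |c| := by
  unfold ms
  rw [← tsum_div_const]
  refine tsum_congr fun j => ?_
  by_cases h : j ∈ B <;> simp [h, abs_div]

theorem exists_of_ms_lt {a : ℕ → ℝ} (ha : Summable fun j => |a j|) {A B : Set ℕ}
    (h : ms a B < ms a A) : ∃ j ∈ A, j ∉ B := by
  by_contra hcon
  push Not at hcon
  exact absurd (ms_mono ha (fun j hj => hcon j hj)) (not_le.2 h)

/-- Markov's inequality. -/
theorem markov {a f : ℕ → ℝ} {C c : ℝ} (ha : Summable fun j => |a j|) (hf : ∀ j, |f j| ≤ C)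
    (hf0 : ∀ j, 0 ≤ f j) (hc : 0 < c) : ms a {j | c < f j} ≤ av a f / c := by
  rw [le_div_iff₀ hc]
  unfold ms av
  rw [← tsum_mul_right]
  refine Summable.tsum_le_tsum (fun j => ?_) ((sum_ms ha _).mul_right c) (sum_av ha hf)
  by_cases h : c < f j
  · simp only [Set.mem_ofPred_eq, h, Set.indicator_of_mem]
    exact mul_le_mul_of_nonneg_left h.le (abs_nonneg _)
  · simp only [Set.mem_ofPred_eq, h, not_false_eq_true, Set.indicator_of_notMem, zero_mul]
    exact mul_nonneg (abs_nonneg _) (hf0 j)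

/-- If the average of `f ≤ 1` is at least `t + u` and `f ≤ u` off `H`, then `H` has mass at least `t`. -/
theorem ms_ge {a f : ℕ → ℝ} {C t u : ℝ} (ha : Summable fun j => |a j|) (ha1 : ∑' j, |a j| = 1)
    (hf : ∀ j, |f j| ≤ C) (hf1 : ∀ j, f j ≤ 1) (hu : 0 ≤ u) (h : t + u ≤ av a f) :
    t ≤ ms a {j | u < f j} := by
  have h1 : av a f ≤ ms a {j | u < f j} + u * ∑' j, |a j| := by
    unfold ms av
    rw [← tsum_mul_left, ← Summable.tsum_add (sum_ms ha _) (ha.mul_left u)]
    refine Summable.tsum_le_tsum (fun j => ?_) (sum_av ha hf)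
      ((sum_ms ha _).add (ha.mul_left u))
    have h0 := abs_nonneg (a j)
    by_cases h : u < f j
    · simp only [Set.mem_ofPred_eq, h, Set.indicator_of_mem]
      have := mul_le_mul_of_nonneg_left (hf1 j) h0
      have := mul_nonneg hu h0
      linarith
    · simp only [Set.mem_ofPred_eq, h, not_false_eq_true, Set.indicator_of_notMem, zero_add]
      rw [mul_comm]
      exact mul_le_mul_of_nonneg_right (not_lt.1 h) h0
  rw [ha1] at h1
  linarith

end Pool.Agent.H87.ZI
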