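import Pool.Agent.H87.ZI.Bas

/-!
# Averages against the columns of a projection

`cc T x k = ∑ⱼ |x j| |T k j|`. For a state `x`: `|x k| ≤ cc T x k` (since `x k = ∑ⱼ T k j x j`),
`∑ₖ cc T x k = ∑ⱼ |x j| cn T j ≤ 1 + ε` (exchange of sums: the double series `|x j| |T k j|` is summable over
`ℕ × ℕ` because for fixed `j` the sum over `k` is `|x j| cn T j ≤ (1 + ε) |x j|`), and for bounded `f`
`av x (Kf T f) = ∑ₖ cc T x k * f k`.
-/

namespace Pool.Agent.H87.ZI

variable {T : ℕ → ℕ → ℝ} {ε : ℝ}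

theorem Proj.cn_nonneg (hT : Proj T ε) (j : ℕ) : 0 ≤ cn T j := by
  exact tsum_nonneg fun _ => abs_nonneg _

theorem Proj.cn_le (hT : Proj T ε) (j : ℕ) : cn T j ≤ 1 + ε := hT.norm j

theorem Proj.entry_le (hT : Proj T ε) (i j : ℕ) : |T i j| ≤ 1 + ε := by
  exact le_trans ((hT.summ j).le_tsum i fun _ _ => abs_nonneg _) (hT.norm j)

theorem Proj.sum_idem (hT : Proj T ε) (i j : ℕ) : Summable fun k => |T i k| * |T k j| := by
  refine Summable.of_nonneg_of_le (fun k => mul_nonneg (abs_nonneg _) (abs_nonneg _)) (fun k => ?_)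
    ((hT.summ j).mul_left (1 + ε))
  exact mul_le_mul_of_nonneg_right (hT.entry_le i k) (abs_nonneg _)

theorem Proj.abs_idem_le (hT : Proj T ε) (i j : ℕ) : |T i j| ≤ ∑' k, |T i k| * |T k j| := by
  have h := hT.sum_idem i j
  rw [hT.idem i j]
  have h2 : (fun k => ‖T i k * T k j‖) = fun k => |T i k| * |T k j| := by
    funext k
    rw [Real.norm_eq_abs, abs_mul]
  have h1 : Summable fun k => ‖T i k * T k j‖ := by rw [h2]; exact h
  have h3 := norm_tsum_le_tsum_norm h1
  rw [h2, Real.norm_eq_abs] at h3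
  exact h3

theorem Proj.Kf_bd (hT : Proj T ε) {f : ℕ → ℝ} {C : ℝ} (hf : ∀ k, |f k| ≤ C) (j : ℕ) :
    |Kf T f j| ≤ (1 + ε) * C := by
  have hC : 0 ≤ C := (abs_nonneg _).trans (hf 0)
  have hs : Summable fun k => |T k j| * C := (hT.summ j).mul_right C
  have h2 : ∀ k, ‖|T k j| * f k‖ ≤ |T k j| * C := by
    intro k
    rw [Real.norm_eq_abs, abs_mul, abs_abs]
    exact mul_le_mul_of_nonneg_left (hf k) (abs_nonneg _)
  have h1 : Summable fun k => ‖|T k j| * f k‖ :=
    Summable.of_nonneg_of_le (fun _ => norm_nonneg _) h2 hs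
  have h3 := norm_tsum_le_tsum_norm h1
  rw [Real.norm_eq_abs] at h3
  unfold Kf
  calc |∑' k, |T k j| * f k| ≤ ∑' k, ‖|T k j| * f k‖ := h3
    _ ≤ ∑' k, |T k j| * C := h1.tsum_le_tsum h2 hs
    _ = (∑' k, |T k j|) * C := tsum_mul_right
    _ ≤ (1 + ε) * C := mul_le_mul_of_nonneg_right (hT.norm j) hC

theorem Kf_eq_av (T : ℕ → ℕ → ℝ) (f : ℕ → ℝ) (j : ℕ) : Kf T f j = av (fun k => T k j) f := rfl

private theorem BasT_row (hT : Proj T ε) {v : ℕ → ℝ} (hv : Summable fun j => |v j|) (i : ℕ) :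
    Summable fun j => |v j| * |T i j| := by
  refine Summable.of_nonneg_of_le (fun j => mul_nonneg (abs_nonneg _) (abs_nonneg _)) (fun j => ?_)
    (hv.mul_right (1 + ε))
  exact mul_le_mul_of_nonneg_left (hT.entry_le i j) (abs_nonneg _)

private theorem BasT_rowT (hT : Proj T ε) {v : ℕ → ℝ} (hv : Summable fun j => |v j|) (i : ℕ) :
    Summable fun k => T i k * v k := by
  refine Summable.of_norm_bounded (BasT_row hT hv i) fun k => ?_
  rw [Real.norm_eq_abs, abs_mul, mul_comm]

private theorem BasT_abs {g h : ℕ → ℝ} {a : ℝ} (hs : Summable g) (he : ∀ j, |h j| = g j)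
    (ha : a = ∑' j, h j) : |a| ≤ ∑' j, g j := by
  have h2 : (fun j => ‖h j‖) = g := by
    funext j
    rw [Real.norm_eq_abs, he]
  have h1 : Summable fun j => ‖h j‖ := by rw [h2]; exact hs
  have h3 := norm_tsum_le_tsum_norm h1
  rw [h2, Real.norm_eq_abs, ← ha] at h3
  exact h3

/-- The double series behind `av x (Kf T f)`. -/
theorem sum_double (hT : Proj T ε) {x : ℕ → ℝ} (hx : Summable fun j => |x j|) {F : ℕ × ℕ → ℝ} {C : ℝ}
    (hF : ∀ p, |F p| ≤ C) : Summable fun p : ℕ × ℕ => |x p.1| * |T p.2 p.1| * F p := by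
  have hC : 0 ≤ C := (abs_nonneg _).trans (hF (0, 0))
  have h0 : Summable fun p : ℕ × ℕ => |x p.1| * |T p.2 p.1| := by
    rw [summable_prod_of_nonneg (fun p => mul_nonneg (abs_nonneg _) (abs_nonneg _))]
    refine ⟨fun j => ?_, ?_⟩
    · show Summable fun k => |x j| * |T k j|
      exact (hT.summ j).mul_left _
    show Summable fun j => ∑' k, |x j| * |T k j|
    have h1 : (fun j => ∑' k, |x j| * |T k j|) = fun j => |x j| * cn T j := by
      funext j
      exact tsum_mul_left
    rw [h1]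
    refine Summable.of_nonneg_of_le (fun j => mul_nonneg (abs_nonneg _) (hT.cn_nonneg j))
      (fun j => ?_) (hx.mul_right (1 + ε))
    exact mul_le_mul_of_nonneg_left (hT.cn_le j) (abs_nonneg _)
  refine Summable.of_norm_bounded (h0.mul_right C) fun p => ?_
  rw [Real.norm_eq_abs, abs_mul, abs_mul, abs_abs, abs_abs]
  exact mul_le_mul_of_nonneg_left (hF p) (mul_nonneg (abs_nonneg _) (abs_nonneg _))

/-- Exchange of the two sums. -/
theorem tsum_swap (hT : Proj T ε) {x : ℕ → ℝ} (hx : Summable fun j => |x j|) {F : ℕ → ℕ → ℝ} {C : ℝ}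
    (hF : ∀ j k, |F j k| ≤ C) : (∑' j, ∑' k, |x j| * |T k j| * F j k) =
      ∑' k, ∑' j, |x j| * |T k j| * F j k := by
  have h := sum_double hT hx (F := fun p => F p.1 p.2) (C := C) fun p => hF p.1 p.2
  exact Summable.tsum_comm (f := fun k j => |x j| * |T k j| * F j k) (by
    have := h.prod_symm
    exact this)

theorem cc_summable (hT : Proj T ε) {x : ℕ → ℝ} (hx : Summable fun j => |x j|) :
    Summable fun k => cc T x k := by
  have h := sum_double hT hx (F := fun _ => 1) (C := 1) fun p => by simp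
  have h1 := h.prod_symm.prod
  refine h1.congr fun k => ?_
  unfold cc
  refine tsum_congr fun j => ?_
  simp [Prod.swap]

theorem cc_nonneg (T : ℕ → ℕ → ℝ) (x : ℕ → ℝ) (k : ℕ) : 0 ≤ cc T x k := by
  exact tsum_nonneg fun _ => mul_nonneg (abs_nonneg _) (abs_nonneg _)

theorem cc_sum (hT : Proj T ε) {x : ℕ → ℝ} (hx : Summable fun j => |x j|) :
    ∑' k, cc T x k = ∑' j, |x j| * cn T j := by
  have h := tsum_swap hT hx (F := fun _ _ => 1) (C := 1) fun _ _ => by simp
  simp only [mul_one] at h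
  unfold cc
  rw [← h]
  exact tsum_congr fun j => tsum_mul_left

theorem cc_sum_le (hT : Proj T ε) {x : ℕ → ℝ} (hx : St T x) : ∑' k, cc T x k ≤ 1 + ε := by
  rw [cc_sum hT hx.summ]
  have h1 : Summable fun j => |x j| * (1 + ε) := hx.summ.mul_right _
  have h2 : ∀ j, |x j| * cn T j ≤ |x j| * (1 + ε) := fun j =>
    mul_le_mul_of_nonneg_left (hT.cn_le j) (abs_nonneg _)
  have h3 : Summable fun j => |x j| * cn T j :=
    Summable.of_nonneg_of_le (fun j => mul_nonneg (abs_nonneg _) (hT.cn_nonneg j)) h2 h1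
  calc ∑' j, |x j| * cn T j ≤ ∑' j, |x j| * (1 + ε) := h3.tsum_le_tsum h2 h1
    _ = (∑' j, |x j|) * (1 + ε) := tsum_mul_right
    _ = 1 + ε := by rw [hx.one, one_mul]

theorem cc_ge (hT : Proj T ε) {x : ℕ → ℝ} (hx : St T x) (k : ℕ) : |x k| ≤ cc T x k := by
  have h0 : Summable fun j => |x j| * |T k j| := BasT_row hT hx.summ k
  exact BasT_abs h0 (fun j => by rw [abs_mul, mul_comm]) (hx.fix k)

theorem av_Kf (hT : Proj T ε) {x f : ℕ → ℝ} {C : ℝ} (hx : Summable fun j => |x j|)
    (hf : ∀ k, |f k| ≤ C) : av x (Kf T f) = ∑' k, cc T x k * f k := by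
  have h := tsum_swap hT hx (F := fun _ k => f k) (C := C) fun _ k => hf k
  have h1 : av x (Kf T f) = ∑' j, ∑' k, |x j| * |T k j| * f k := by
    unfold av Kf
    refine tsum_congr fun j => ?_
    rw [← tsum_mul_left]
    exact tsum_congr fun k => by ring
  rw [h1, h]
  refine tsum_congr fun k => ?_
  unfold cc
  exact tsum_mul_right

theorem Tv_summable (hT : Proj T ε) {v : ℕ → ℝ} (hv : Summable fun j => |v j|) :
    Summable fun i => |Tv T v i| := by
  refine Summable.of_nonneg_of_le (fun _ => abs_nonneg _) (fun i => ?_) (cc_summable hT hv)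
  exact BasT_abs (BasT_row hT hv i) (fun j => by rw [abs_mul, mul_comm]) rfl

theorem Tv_norm (hT : Proj T ε) {v : ℕ → ℝ} (hv : Summable fun j => |v j|) :
    ∑' i, |Tv T v i| ≤ (1 + ε) * ∑' j, |v j| := by
  have h0 : ∀ i, |Tv T v i| ≤ cc T v i := fun i =>
    BasT_abs (BasT_row hT hv i) (fun j => by rw [abs_mul, mul_comm]) rfl
  have h1 : Summable fun j => |v j| * (1 + ε) := hv.mul_right _
  have h2 : ∀ j, |v j| * cn T j ≤ |v j| * (1 + ε) := fun j =>
    mul_le_mul_of_nonneg_left (hT.cn_le j) (abs_nonneg _)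
  have h3 : Summable fun j => |v j| * cn T j :=
    Summable.of_nonneg_of_le (fun j => mul_nonneg (abs_nonneg _) (hT.cn_nonneg j)) h2 h1
  calc ∑' i, |Tv T v i| ≤ ∑' i, cc T v i := (Tv_summable hT hv).tsum_le_tsum h0 (cc_summable hT hv)
    _ = ∑' j, |v j| * cn T j := cc_sum hT hv
    _ ≤ ∑' j, |v j| * (1 + ε) := h3.tsum_le_tsum h2 h1
    _ = (∑' j, |v j|) * (1 + ε) := tsum_mul_right
    _ = (1 + ε) * ∑' j, |v j| := mul_comm _ _

theorem Tv_sub (hT : Proj T ε) {v w : ℕ → ℝ} (hv : Summable fun j => |v j|)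
    (hw : Summable fun j => |w j|) (i : ℕ) : Tv T (fun k => v k - w k) i = Tv T v i - Tv T w i := by
  unfold Tv
  rw [← Summable.tsum_sub (BasT_rowT hT hv i) (BasT_rowT hT hw i)]
  exact tsum_congr fun k => by ring

/-- `T (T v) = T v`. -/
theorem Tv_Tv (hT : Proj T ε) {v : ℕ → ℝ} (hv : Summable fun j => |v j|) (i : ℕ) :
    Tv T (Tv T v) i = Tv T v i := by
  have h := tsum_swap hT hv (F := fun l k => sg (v l) * sg (T k l) * T i k) (C := 1 + ε)
    fun l k => by
      rw [abs_mul, abs_mul]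
      have h1 := abs_sg_le (v l)
      have h2 := abs_sg_le (T k l)
      have h3 := hT.entry_le i k
      calc |sg (v l)| * |sg (T k l)| * |T i k| ≤ 1 * 1 * (1 + ε) := by
            gcongr
        _ = 1 + ε := by ring
  have e1 : ∀ k l, |v l| * |T k l| * (sg (v l) * sg (T k l) * T i k) =
      T i k * (T k l * v l) := by
    intro k l
    have a1 := sg_mul_abs (v l)
    have a2 := sg_mul_abs (T k l)
    calc |v l| * |T k l| * (sg (v l) * sg (T k l) * T i k) =
        (sg (v l) * |v l|) * (sg (T k l) * |T k l|) * T i k := by ring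
      _ = T i k * (T k l * v l) := by rw [a1, a2]; ring
  simp only [e1] at h
  unfold Tv
  have h4 : (∑' k, T i k * ∑' l, T k l * v l) = ∑' k, ∑' l, T i k * (T k l * v l) :=
    tsum_congr fun k => tsum_mul_left.symm
  rw [h4, ← h]
  refine tsum_congr fun l => ?_
  have h5 : (∑' k, T i k * (T k l * v l)) = ∑' k, (T i k * T k l) * v l :=
    tsum_congr fun k => by ring
  rw [h5, tsum_mul_right, ← hT.idem i l]

/-- A nonzero column, divided by its norm, is a state. -/
theorem st_col (hT : Proj T ε) {j : ℕ} (hj : 0 < cn T j) : St T (fun i => T i j / cn T j) := by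
  have hs : Summable fun i => |T i j / cn T j| := by
    have h1 : (fun i => |T i j / cn T j|) = fun i => |T i j| / cn T j := by
      funext i
      rw [abs_div, abs_of_pos hj]
    rw [h1]
    exact (hT.summ j).div_const _
  refine ⟨hs, ?_, fun i => ?_⟩
  · have h1 : (∑' i, |T i j / cn T j|) = ∑' i, |T i j| / cn T j :=
      tsum_congr fun i => by rw [abs_div, abs_of_pos hj]
    rw [h1, tsum_div_const]
    exact div_self hj.ne'
  · have h1 : (∑' k, T i k * (T k j / cn T j)) = ∑' k, T i k * T k j / cn T j :=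
      tsum_congr fun k => by ring
    show T i j / cn T j = ∑' k, T i k * (T k j / cn T j)
    rw [h1, tsum_div_const, ← hT.idem i j]

/-- A nonzero fixed vector, divided by its norm, is a state. -/
theorem st_vec {y : ℕ → ℝ} (hy : Summable fun j => |y j|) (hf : ∀ i, y i = ∑' k, T i k * y k)
    (h0 : 0 < ∑' j, |y j|) : St T (fun i => y i / ∑' j, |y j|) := by
  set n := ∑' j, |y j| with hn
  have hs : Summable fun i => |y i / n| := by
    have h1 : (fun i => |y i / n|) = fun i => |y i| / n := by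
      funext i
      rw [abs_div, abs_of_pos h0]
    rw [h1]
    exact hy.div_const _
  refine ⟨hs, ?_, fun i => ?_⟩
  · have h1 : (∑' i, |y i / n|) = ∑' i, |y i| / n :=
      tsum_congr fun i => by rw [abs_div, abs_of_pos h0]
    rw [h1, tsum_div_const]
    exact div_self h0.ne'
  · have h1 : (∑' k, T i k * (y k / n)) = ∑' k, T i k * y k / n :=
      tsum_congr fun k => by ring
    show y i / n = ∑' k, T i k * (y k / n)
    rw [h1, tsum_div_const, ← hf i]

end Pool.Agent.H87.ZI
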