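import Pool.Agent.H87.ZI.BasT

/-!
# Lower estimate for the centres (Z14 (i))

`α` summable, supported on `C`, `y = ∑_c α c p_c` (absolutely convergent). For `c ∈ C`:
`∑_{i ∈ D_c} |y i| ≥ |α c| ms (p_c) D_c - ∑_{c' ≠ c} |α c'| ms (p_c') D_c`. Sum over `c ∈ C`, the `D_c` are disjoint:
`∑ᵢ |y i| ≥ ∑_c |α c| (ms (p_c) D_c - ∑_{c' ≠ c, c' ∈ C} ms (p_c) D_c') ≥ ∑_c |α c| (2 ms (p_c) D_c - cn T c)`
`≥ (2 (1 - r) - (1 + ε)) ∑ |α c| ≥ (1 - 3 r) ∑ |α c|` (`ε ≤ r`).

An equivalent way which avoids the double sums over clusters: let `φ` be the function on `ℕ` with values in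
`{-1, 0, 1}` equal, on `D_c`, to `i ↦ sg (α c) sg (T i c)`, and `0` off the union of the clusters. Then
`∑ᵢ |y i| ≥ ∑ᵢ φ i y i = ∑_c α c ∑ᵢ φ i T i c` and
`sg (α c) ∑ᵢ φ i T i c ≥ ms (p_c) D_c - ∑_{i ∉ D_c} |T i c| = 2 ms (p_c) D_c - cn T c`.
-/

namespace Pool.Agent.H87.ZI

variable {T : ℕ → ℕ → ℝ} {ε : ℝ}

theorem lower (hT : Proj T ε) {δ r : ℝ} (hr : 0 < r) (hr1 : r ≤ 1 / 100) (hε : ε ≤ r) {C : Set ℕ}
    (hC : Clus T δ r C) {α : ℕ → ℝ} (hα : Summable fun c => |α c|) (hs : ∀ c, c ∉ C → α c = 0) :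
    (1 - 3 * r) * ∑' c, |α c| ≤ ∑' i, |∑' c, α c * T i c| := by
  classical
  -- the centre of a point
  set cf : ℕ → ℕ := fun i => if h : ∃ c, c ∈ C ∧ i ∈ Dc T r c then h.choose else 0 with hcf
  have hcf1 : ∀ c ∈ C, ∀ i ∈ Dc T r c, cf i = c := by
    intro c hc i hi
    have h : ∃ c, c ∈ C ∧ i ∈ Dc T r c := ⟨c, hc, hi⟩
    have h1 : cf i = h.choose := by
      rw [hcf]
      simp only
      rw [dif_pos h]
    rw [h1]
    by_contra hne
    exact Set.disjoint_left.1 (hC.disj _ h.choose_spec.1 c hc hne) h.choose_spec.2 hi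
  set φ : ℕ → ℝ := fun i => sg (α (cf i)) * sg (T i (cf i)) with hφ
  have hφ1 : ∀ i, |φ i| ≤ 1 := by
    intro i
    rw [hφ]
    simp only
    rw [abs_mul]
    exact mul_le_one₀ (abs_sg_le _) (abs_nonneg _) (abs_sg_le _)
  have hcol := hT.summ
  -- the estimate for one centre
  have hone : ∀ c, (1 - 3 * r) * |α c| ≤ ∑' i, α c * T i c * φ i := by
    intro c
    by_cases hα0 : α c = 0
    · rw [hα0]
      simp
    have hcC : c ∈ C := by
      by_contra h
      exact hα0 (hs c h)
    have hsum1 : Summable fun i => (Dc T r c).indicator (fun i => |T i c|) i :=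
      sum_ms (a := fun i => T i c) (hcol c) _
    have hsum2 : Summable fun i => |α c| * (2 * (Dc T r c).indicator (fun i => |T i c|) i - |T i c|) :=
      ((hsum1.mul_left 2).sub (hcol c)).mul_left _
    have hsum3 : Summable fun i => α c * T i c * φ i := by
      refine Summable.of_norm_bounded (g := fun i => |α c| * |T i c|) ((hcol c).mul_left _) fun i => ?_
      rw [Real.norm_eq_abs, abs_mul, abs_mul]
      have h0 : 0 ≤ |α c| * |T i c| := mul_nonneg (abs_nonneg _) (abs_nonneg _)
      have h1 := hφ1 i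
      nlinarith
    have hle : ∀ i, |α c| * (2 * (Dc T r c).indicator (fun i => |T i c|) i - |T i c|) ≤
        α c * T i c * φ i := by
      intro i
      by_cases hi : i ∈ Dc T r c
      · rw [Set.indicator_of_mem hi]
        have h1 : φ i = sg (α c) * sg (T i c) := by
          rw [hφ]
          simp only
          rw [hcf1 c hcC i hi]
        have h2 : α c * T i c * φ i = |α c| * |T i c| := by
          rw [h1, ← sg_mul_self (α c), ← sg_mul_self (T i c)]
          ring
        rw [h2]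
        exact le_of_eq (by ring)
      · rw [Set.indicator_of_notMem hi]
        have h1 : |α c * T i c * φ i| ≤ |α c| * |T i c| := by
          rw [abs_mul, abs_mul]
          have h0 : 0 ≤ |α c| * |T i c| := mul_nonneg (abs_nonneg _) (abs_nonneg _)
          have h1 := hφ1 i
          nlinarith
        have h2 := (abs_le.1 h1).1
        linarith
    refine le_trans ?_ (hsum2.tsum_le_tsum hle hsum3)
    rw [tsum_mul_left, mul_comm]
    refine mul_le_mul_of_nonneg_left ?_ (abs_nonneg _)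
    rw [(hsum1.mul_left 2).tsum_sub (hcol c), tsum_mul_left]
    have h1 := hC.mass c hcC
    unfold ms at h1
    have h2 := hT.norm c
    linarith
  -- exchange of the sums
  have hF : ∀ j k, |sg (α j) * sg (T k j) * φ k| ≤ 1 := by
    intro j k
    rw [abs_mul, abs_mul]
    exact mul_le_one₀ (mul_le_one₀ (abs_sg_le _) (abs_nonneg _) (abs_sg_le _)) (abs_nonneg _)
      (hφ1 k)
  have hswap := tsum_swap hT hα (F := fun j k => sg (α j) * sg (T k j) * φ k) hF
  have hpt : ∀ j k, |α j| * |T k j| * (sg (α j) * sg (T k j) * φ k) = α j * T k j * φ k := by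
    intro j k
    have h1 := sg_mul_abs (α j)
    have h2 := sg_mul_abs (T k j)
    calc |α j| * |T k j| * (sg (α j) * sg (T k j) * φ k)
        = (sg (α j) * |α j|) * (sg (T k j) * |T k j|) * φ k := by ring
      _ = α j * T k j * φ k := by rw [h1, h2]
  simp only [hpt] at hswap
  have hdouble := sum_double hT hα (F := fun p : ℕ × ℕ => sg (α p.1) * sg (T p.2 p.1) * φ p.2)
    (C := 1) (fun p => hF p.1 p.2)
  simp only [hpt] at hdouble
  have houter : Summable fun c => ∑' i, α c * T i c * φ i := hdouble.prod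
  have h1 : (1 - 3 * r) * ∑' c, |α c| ≤ ∑' c, ∑' i, α c * T i c * φ i := by
    rw [← tsum_mul_left]
    exact (hα.mul_left _).tsum_le_tsum hone houter
  rw [hswap] at h1
  refine h1.trans ?_
  have hTv := Tv_summable hT hα
  have hy : ∀ k, ∑' c, α c * T k c = Tv T α k := by
    intro k
    unfold Tv
    exact tsum_congr fun c => mul_comm _ _
  have h2 : ∀ k, ∑' c, α c * T k c * φ k = Tv T α k * φ k := by
    intro k
    rw [tsum_mul_right, hy]
  simp only [h2, hy]
  have h3 : ∀ k, Tv T α k * φ k ≤ |Tv T α k| := by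
    intro k
    have h4 : |Tv T α k * φ k| ≤ |Tv T α k| := by
      rw [abs_mul]
      have h5 := hφ1 k
      have h6 := abs_nonneg (Tv T α k)
      nlinarith
    exact (le_abs_self _).trans h4
  refine Summable.tsum_le_tsum h3 ?_ hTv
  refine Summable.of_norm_bounded (g := fun k => |Tv T α k|) hTv fun k => ?_
  rw [Real.norm_eq_abs, abs_mul]
  have h5 := hφ1 k
  have h6 := abs_nonneg (Tv T α k)
  nlinarith

end Pool.Agent.H87.ZI
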