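import Pool.Agent.H87.ZI.Near

/-!
# Approximation by the centres (Z14 (ii))

`step`: let `y` be summable, `T y = y`, `Y = ∑ |y i| > 0` (the case `Y = 0` is trivial). `x = y / Y` is a state
(`st_vec`); let `B` be its exceptional set, and for `j ∉ B` choose `c_j ∈ C`, `θ_j` by the hypothesis and `near_centre`.
`α c = ∑_{j ∉ B, c_j = c} θ_j y j`. Then `∑ |α c| ≤ (1 + ε) Y ≤ (1 + r) Y`, and, since `y = ∑ⱼ y j p_j`,
`y - ∑_c α c p_c = ∑_{j ∈ B} y j p_j + ∑_{j ∉ B} y j (p_j - θ_j p_{c_j})` has norm at most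
`(1 + ε) r Y + 8 r Y ≤ 10 r Y`.
-/

namespace Pool.Agent.H87.ZI

variable {T : ℕ → ℕ → ℝ} {ε : ℝ}

theorem step_swap {g : ℕ → ℕ → ℝ} (hg : ∀ j i, 0 ≤ g j i) (h1 : ∀ j, Summable (g j))
    {b : ℕ → ℝ} (hb : Summable b) (h2 : ∀ j, ∑' i, g j i ≤ b j) :
    (∀ i, Summable fun j => g j i) ∧ (Summable fun i => ∑' j, g j i) ∧
      ∑' i, ∑' j, g j i = ∑' j, ∑' i, g j i := by
  have hs : Summable (fun p : ℕ × ℕ => g p.1 p.2) := by
    rw [summable_prod_of_nonneg (fun p => hg p.1 p.2)]
    exact ⟨h1, Summable.of_nonneg_of_le (fun j => tsum_nonneg (hg j)) h2 hb⟩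
  have hs' : Summable (fun p : ℕ × ℕ => g p.2 p.1) :=
    (Equiv.prodComm ℕ ℕ).summable_iff.mpr hs
  exact ⟨fun i => hs'.prod_factor i, hs'.prod, Summable.tsum_comm (f := g) hs⟩

/-- The total mass of the fibres of `φ`. -/
theorem step_fibre {b : ℕ → ℝ} (hb : Summable fun j => |b j|) (φ : ℕ → ℕ) :
    (∀ c, Summable fun j => if φ j = c then |b j| else 0) ∧
      (Summable fun c => |∑' j, if φ j = c then b j else 0|) ∧
      ∑' c, |∑' j, if φ j = c then b j else 0| ≤ ∑' j, |b j| := by
  have hg : ∀ j c, 0 ≤ (if φ j = c then |b j| else 0) := fun j c => by split_ifs <;> positivity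
  have e1 : ∀ j, HasSum (fun c => if φ j = c then |b j| else 0) |b j| := by
    intro j
    have h := hasSum_ite_eq (φ j) (|b j|)
    have : (fun c => if φ j = c then |b j| else 0) = fun c => if c = φ j then |b j| else 0 := by
      funext c
      simp only [eq_comm]
    rw [this]
    exact h
  obtain ⟨s1, s2, s3⟩ := step_swap (g := fun j c => if φ j = c then |b j| else 0) hg
    (fun j => (e1 j).summable) hb (fun j => ((e1 j).tsum_eq).le)
  have hle : ∀ c, |∑' j, if φ j = c then b j else 0| ≤ ∑' j, if φ j = c then |b j| else 0 := by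
    intro c
    have h1 : Summable fun j => ‖(if φ j = c then b j else 0 : ℝ)‖ := by
      refine (s1 c).congr fun j => ?_
      split_ifs <;> simp
    have h2 := norm_tsum_le_tsum_norm h1
    rw [Real.norm_eq_abs] at h2
    refine h2.trans (le_of_eq ?_)
    refine tsum_congr fun j => ?_
    split_ifs <;> simp
  refine ⟨s1, Summable.of_nonneg_of_le (fun c => abs_nonneg _) hle s2, ?_⟩
  calc ∑' c, |∑' j, if φ j = c then b j else 0| ≤ ∑' c, ∑' j, (if φ j = c then |b j| else 0) :=
        Summable.tsum_le_tsum hle (Summable.of_nonneg_of_le (fun c => abs_nonneg _) hle s2) s2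
    _ = ∑' j, ∑' c, (if φ j = c then |b j| else 0) := s3
    _ = ∑' j, |b j| := tsum_congr fun j => (e1 j).tsum_eq

/-- Regrouping `∑ⱼ b j f (φ j)` by the value of `φ`. -/
theorem step_regroup {b : ℕ → ℝ} (hb : Summable fun j => |b j|) (φ : ℕ → ℕ) {f : ℕ → ℝ} {K : ℝ}
    (hf : ∀ c, |f c| ≤ K) :
    ∑' c, (∑' j, if φ j = c then b j else 0) * f c = ∑' j, b j * f (φ j) := by
  have hK : 0 ≤ K := (abs_nonneg _).trans (hf 0)
  have e1 : ∀ j, HasSum (fun c => if φ j = c then b j * f c else 0) (b j * f (φ j)) := by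
    intro j
    have h := hasSum_ite_eq (φ j) (b j * f (φ j))
    have : (fun c => if φ j = c then b j * f c else 0) =
        fun c => if c = φ j then b j * f (φ j) else 0 := by
      funext c
      by_cases hc : φ j = c
      · subst hc; simp
      · rw [if_neg hc, if_neg (fun h => hc h.symm)]
    rw [this]
    exact h
  have e2 : ∀ j, HasSum (fun c => |if φ j = c then b j * f c else 0|) |b j * f (φ j)| := by
    intro j
    have h := hasSum_ite_eq (φ j) (|b j * f (φ j)|)
    have : (fun c => |if φ j = c then b j * f c else 0|) =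
        fun c => if c = φ j then |b j * f (φ j)| else 0 := by
      funext c
      by_cases hc : φ j = c
      · subst hc; simp
      · rw [if_neg hc, if_neg (fun h => hc h.symm), abs_zero]
    rw [this]
    exact h
  have hs : Summable (fun p : ℕ × ℕ => if φ p.1 = p.2 then b p.1 * f p.2 else 0) := by
    refine Summable.of_norm ?_
    rw [summable_prod_of_nonneg (fun p => norm_nonneg _)]
    refine ⟨fun j => (e2 j).summable, ?_⟩
    refine Summable.of_nonneg_of_le (fun j => tsum_nonneg fun c => norm_nonneg _) (fun j => ?_)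
      (hb.mul_right K)
    have : ∑' c, ‖(if φ j = c then b j * f c else 0 : ℝ)‖ = |b j * f (φ j)| := (e2 j).tsum_eq
    show ∑' c, ‖(if φ j = c then b j * f c else 0 : ℝ)‖ ≤ |b j| * K
    rw [this, abs_mul]
    exact mul_le_mul_of_nonneg_left (hf _) (abs_nonneg _)
  have h3 : ∑' c, ∑' j, (if φ j = c then b j * f c else 0) = ∑' j, ∑' c, (if φ j = c then b j * f c else 0) :=
    Summable.tsum_comm (f := fun j c => if φ j = c then b j * f c else 0) hs
  have h4 : ∀ c, (∑' j, if φ j = c then b j else 0) * f c = ∑' j, (if φ j = c then b j * f c else 0) := by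
    intro c
    rw [← tsum_mul_right]
    refine tsum_congr fun j => ?_
    split_ifs <;> simp
  rw [tsum_congr h4, h3]
  exact tsum_congr fun j => (e1 j).tsum_eq

theorem step (hT : Proj T ε) {r : ℝ} (hr : 0 < r) (hr1 : r ≤ 1 / 1000) (hε : ε ≤ r) {C : Set ℕ}
    (h : ∀ x, St T x → ∃ B : Set ℕ, ms x B ≤ r ∧
      ∀ j ∉ B, ∃ c ∈ C, 1 - 5 * r ≤ ms (fun i => T i j) (Dc T r c))
    {y : ℕ → ℝ} (hy : Summable fun i => |y i|) (hf : ∀ i, y i = ∑' k, T i k * y k) :
    ∃ α : ℕ → ℝ, (∀ c, c ∉ C → α c = 0) ∧ (Summable fun c => |α c|) ∧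
      ∑' c, |α c| ≤ (1 + r) * ∑' i, |y i| ∧
      ∑' i, |y i - ∑' c, α c * T i c| ≤ 10 * r * ∑' i, |y i| := by
  classical
  have hε0 := hT.eps0
  have hY0 : 0 ≤ ∑' i, |y i| := tsum_nonneg fun i => abs_nonneg _
  rcases hY0.eq_or_lt with hY | hY
  · have hy0 : ∀ i, y i = 0 := by
      intro i
      have h1 : |y i| ≤ ∑' i, |y i| := hy.le_tsum i fun j _ => abs_nonneg _
      have h2 := abs_nonneg (y i)
      exact abs_eq_zero.mp (le_antisymm (by linarith) h2)
    refine ⟨fun _ => 0, fun _ _ => rfl, by simp, ?_, ?_⟩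
    · rw [← hY]; simp
    · rw [← hY]; simp [hy0]
  obtain ⟨B, hB, hj⟩ := h _ (st_vec hy hf hY)
  rw [ms_smul, abs_of_pos hY, div_le_iff₀ hY] at hB
  have hex : ∀ j, ∃ p : ℕ × ℝ, (j ∉ B → p.1 ∈ C ∧ |p.2| ≤ 1 + ε ∧
      ∑' i, |T i j - p.2 * T i p.1| ≤ 8 * r) ∧ (j ∈ B → p.2 = 0) := by
    intro j
    by_cases hjB : j ∈ B
    · exact ⟨(0, 0), fun hn => absurd hjB hn, fun _ => rfl⟩
    · obtain ⟨c, hc, hm⟩ := hj j hjB
      obtain ⟨θ, h1, h2⟩ := near_centre hT hr (by linarith) hε hm
      exact ⟨(c, θ), fun _ => ⟨hc, h1, h2⟩, fun hn => absurd hn hjB⟩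
  choose P hP hP0 using hex
  set φ : ℕ → ℕ := fun j => (P j).1 with hφ
  set θ : ℕ → ℝ := fun j => (P j).2 with hθ
  have hθ1 : ∀ j, |θ j| ≤ 1 + ε := by
    intro j
    by_cases hjB : j ∈ B
    · have : θ j = 0 := hP0 j hjB
      rw [this, abs_zero]; linarith
    · exact (hP j hjB).2.1
  set b : ℕ → ℝ := fun j => θ j * y j with hbdef
  have hble : ∀ j, |b j| ≤ (1 + ε) * |y j| := by
    intro j
    rw [hbdef]
    simp only [abs_mul]
    exact mul_le_mul_of_nonneg_right (hθ1 j) (abs_nonneg _)
  have hbs : Summable fun j => |b j| :=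
    Summable.of_nonneg_of_le (fun j => abs_nonneg _) hble (hy.mul_left _)
  obtain ⟨f1, f2, f3⟩ := step_fibre hbs φ
  refine ⟨fun c => ∑' j, if φ j = c then b j else 0, ?_, f2, ?_, ?_⟩
  · intro c hc
    have : ∀ j, (if φ j = c then b j else 0) = 0 := by
      intro j
      split_ifs with hjc
      · by_cases hjB : j ∈ B
        · have : θ j = 0 := hP0 j hjB
          rw [hbdef]; simp only [this, zero_mul]
        · exact absurd (hjc ▸ (hP j hjB).1) hc
      · rfl
    show (∑' j, if φ j = c then b j else 0) = 0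
    rw [tsum_congr this, tsum_zero]
  · refine f3.trans ?_
    calc ∑' j, |b j| ≤ ∑' j, (1 + ε) * |y j| := Summable.tsum_le_tsum hble hbs (hy.mul_left _)
      _ = (1 + ε) * ∑' j, |y j| := tsum_mul_left
      _ ≤ (1 + r) * ∑' j, |y j| := mul_le_mul_of_nonneg_right (by linarith) hY0
  · -- the error
    have hTs : ∀ j, Summable fun i => |T i j| := hT.summ
    have hcn : ∀ j, ∑' i, |T i j| ≤ 1 + ε := hT.norm
    have hTy : ∀ i, Summable fun k => T i k * y k := by
      intro i
      refine Summable.of_norm_bounded (hy.mul_left (1 + ε)) fun k => ?_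
      rw [Real.norm_eq_abs, abs_mul]
      exact mul_le_mul_of_nonneg_right (hT.entry_le i k) (abs_nonneg _)
    have hTb : ∀ i, Summable fun j => b j * T i (φ j) := by
      intro i
      refine Summable.of_norm_bounded (hbs.mul_right (1 + ε)) fun k => ?_
      rw [Real.norm_eq_abs, abs_mul]
      exact mul_le_mul_of_nonneg_left (hT.entry_le i _) (abs_nonneg _)
    have hds : ∀ j, Summable fun i => |T i j - θ j * T i (φ j)| := by
      intro j
      have h1 : Summable fun i => |T i j| + |θ j| * |T i (φ j)| :=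
        (hTs j).add ((hTs (φ j)).mul_left _)
      refine Summable.of_nonneg_of_le (fun i => abs_nonneg _) (fun i => ?_) h1
      rw [← abs_mul]
      exact abs_sub _ _
    have hN : ∀ j, ∑' i, |y j| * |T i j - θ j * T i (φ j)| ≤
        8 * r * |y j| + (1 + ε) * B.indicator (fun j => |y j|) j := by
      intro j
      rw [tsum_mul_left]
      by_cases hjB : j ∈ B
      · have h0 : θ j = 0 := hP0 j hjB
        rw [Set.indicator_of_mem hjB]
        have h1 : ∑' i, |T i j - θ j * T i (φ j)| ≤ 1 + ε := by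
          simp only [h0, zero_mul, sub_zero]
          exact hcn j
        have h2 : |y j| * ∑' i, |T i j - θ j * T i (φ j)| ≤ |y j| * (1 + ε) :=
          mul_le_mul_of_nonneg_left h1 (abs_nonneg _)
        have h3 : 0 ≤ 8 * r * |y j| := by positivity
        linarith
      · rw [Set.indicator_of_notMem hjB]
        have h1 : ∑' i, |T i j - θ j * T i (φ j)| ≤ 8 * r := (hP j hjB).2.2
        have h2 : |y j| * ∑' i, |T i j - θ j * T i (φ j)| ≤ |y j| * (8 * r) :=
          mul_le_mul_of_nonneg_left h1 (abs_nonneg _)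
        linarith
    have hind : Summable fun j => B.indicator (fun j => |y j|) j := sum_ms hy B
    have hbd : Summable fun j => 8 * r * |y j| + (1 + ε) * B.indicator (fun j => |y j|) j :=
      (hy.mul_left _).add (hind.mul_left _)
    obtain ⟨t1, t2, t3⟩ := step_swap (g := fun j i => |y j| * |T i j - θ j * T i (φ j)|)
      (fun j i => mul_nonneg (abs_nonneg _) (abs_nonneg _)) (fun j => (hds j).mul_left _) hbd hN
    have hpt : ∀ i, |y i - ∑' c, (∑' j, if φ j = c then b j else 0) * T i c| ≤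
        ∑' j, |y j| * |T i j - θ j * T i (φ j)| := by
      intro i
      have e : y i - ∑' c, (∑' j, if φ j = c then b j else 0) * T i c =
          ∑' j, y j * (T i j - θ j * T i (φ j)) := by
        rw [step_regroup hbs φ (f := fun c => T i c) (fun c => hT.entry_le i c)]
        conv_lhs => rw [hf i]
        rw [← Summable.tsum_sub (hTy i) (hTb i)]
        refine tsum_congr fun j => ?_
        rw [hbdef]
        ring
      rw [e]
      have h1 : Summable fun j => ‖y j * (T i j - θ j * T i (φ j))‖ := by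
        refine (t1 i).congr fun j => ?_
        rw [Real.norm_eq_abs, abs_mul]
      have h2 := norm_tsum_le_tsum_norm h1
      rw [Real.norm_eq_abs] at h2
      refine h2.trans (le_of_eq (tsum_congr fun j => ?_))
      rw [Real.norm_eq_abs, abs_mul]
    have hs1 : Summable fun i => |y i - ∑' c, (∑' j, if φ j = c then b j else 0) * T i c| :=
      Summable.of_nonneg_of_le (fun i => abs_nonneg _) hpt t2
    calc ∑' i, |y i - ∑' c, (∑' j, if φ j = c then b j else 0) * T i c|
        ≤ ∑' i, ∑' j, |y j| * |T i j - θ j * T i (φ j)| := Summable.tsum_le_tsum hpt hs1 t2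
      _ = ∑' j, ∑' i, |y j| * |T i j - θ j * T i (φ j)| := t3
      _ ≤ ∑' j, (8 * r * |y j| + (1 + ε) * B.indicator (fun j => |y j|) j) := by
          refine Summable.tsum_le_tsum hN ?_ hbd
          exact Summable.of_nonneg_of_le (fun j => tsum_nonneg fun i =>
            mul_nonneg (abs_nonneg _) (abs_nonneg _)) hN hbd
      _ = 8 * r * ∑' j, |y j| + (1 + ε) * ms y B := by
          rw [Summable.tsum_add (hy.mul_left _) (hind.mul_left _), tsum_mul_left, tsum_mul_left]
          rfl
      _ ≤ 10 * r * ∑' i, |y i| := by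
          have h1 : (1 + ε) * ms y B ≤ (1 + ε) * (r * ∑' i, |y i|) :=
            mul_le_mul_of_nonneg_left hB (by linarith)
          have h2 : 0 ≤ (1 - ε) * (r * ∑' i, |y i|) := by
            have : ε ≤ 1 := by linarith
            have : 0 ≤ 1 - ε := by linarith
            positivity
          nlinarith

end Pool.Agent.H87.ZI
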