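import Pool.Agent.H87.ZI.BiB

/-!
# Iteration (Z14 (ii))

Apply `step` to `y_0 = y`, `y_{n+1} = y_n - ∑_c α_n c p_c`: again summable and fixed by `T` (`T p_c = p_c` by `idem`,
exchange of sums; the columns are bounded by `1 + ε` in norm, so `i ↦ ∑_c α c T i c` is summable), and
`|y_n| ≤ (10 r)^n |y|`. `α c = ∑ₙ α_n c` converges absolutely, `∑ |α c| ≤ (1 + r) |y| / (1 - 10 r) ≤ (1 + 12 r) |y|` for
`r ≤ 1/1000`, and `y i = ∑_c α c T i c` for all `i` (the partial sums differ from `y i` by `y_n i → 0`).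
-/

namespace Pool.Agent.H87.ZI

variable {T : ℕ → ℕ → ℝ} {ε : ℝ}

private theorem sumF (hT : Proj T ε) {α : ℕ → ℝ} (hα : Summable fun c => |α c|) :
    Summable fun p : ℕ × ℕ => |α p.1| * |T p.2 p.1| := by
  rw [summable_prod_of_nonneg (fun p => by positivity)]
  refine ⟨fun c => (hT.summ c).mul_left |α c|, ?_⟩
  refine Summable.of_nonneg_of_le (fun c => tsum_nonneg fun i => by positivity) (fun c => ?_)
    (hα.mul_right (1 + ε))
  change ∑' i, |α c| * |T i c| ≤ |α c| * (1 + ε)
  rw [tsum_mul_left]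
  exact mul_le_mul_of_nonneg_left (hT.norm c) (abs_nonneg _)

private theorem sumFi (hT : Proj T ε) {α : ℕ → ℝ} (hα : Summable fun c => |α c|) (i : ℕ) :
    Summable fun c => |α c| * |T i c| :=
  Summable.of_nonneg_of_le (fun c => by positivity)
    (fun c => mul_le_mul_of_nonneg_left (hT.entry_le i c) (abs_nonneg _)) (hα.mul_right (1 + ε))

private theorem sumFs (hT : Proj T ε) {α : ℕ → ℝ} (hα : Summable fun c => |α c|) (i : ℕ) :
    Summable fun c => α c * T i c := by
  refine Summable.of_norm ?_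
  simpa [abs_mul] using sumFi hT hα i

private theorem abs_z_le (hT : Proj T ε) {α : ℕ → ℝ} (hα : Summable fun c => |α c|) (i : ℕ) :
    |∑' c, α c * T i c| ≤ ∑' c, |α c| * |T i c| := by
  have h1 : Summable fun c => ‖α c * T i c‖ := by simpa [abs_mul] using sumFi hT hα i
  have h2 := norm_tsum_le_tsum_norm h1
  simpa [abs_mul] using h2

private theorem sum_z (hT : Proj T ε) {α : ℕ → ℝ} (hα : Summable fun c => |α c|) :
    Summable fun i => |∑' c, α c * T i c| := by
  have h1 : Summable fun p : ℕ × ℕ => |α p.2| * |T p.1 p.2| := (sumF hT hα).prod_symm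
  have h2 : Summable fun i => ∑' c, |α c| * |T i c| := h1.prod
  exact Summable.of_nonneg_of_le (fun i => abs_nonneg _) (fun i => abs_z_le hT hα i) h2

private theorem sumTy (hT : Proj T ε) {y : ℕ → ℝ} (hy : Summable fun i => |y i|) (i : ℕ) :
    Summable fun k => T i k * y k := by
  refine Summable.of_norm_bounded (g := fun k => (1 + ε) * |y k|) (hy.mul_left _) (fun k => ?_)
  rw [Real.norm_eq_abs, abs_mul]
  exact mul_le_mul_of_nonneg_right (hT.entry_le i k) (abs_nonneg _)

private theorem fix_z (hT : Proj T ε) {α : ℕ → ℝ} (hα : Summable fun c => |α c|) (i : ℕ) :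
    ∑' c, α c * T i c = ∑' k, T i k * ∑' c, α c * T k c := by
  have h1 : Summable (Function.uncurry fun k c : ℕ => T i k * (α c * T k c)) := by
    have h2 : Summable fun p : ℕ × ℕ => |α p.2| * |T p.1 p.2| := (sumF hT hα).prod_symm
    refine Summable.of_norm_bounded (g := fun p : ℕ × ℕ => (1 + ε) * (|α p.2| * |T p.1 p.2|))
      (h2.mul_left _) (fun p => ?_)
    rw [Real.norm_eq_abs]
    change |T i p.1 * (α p.2 * T p.1 p.2)| ≤ _
    rw [abs_mul, abs_mul]
    exact mul_le_mul_of_nonneg_right (hT.entry_le i p.1) (by positivity)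
  calc ∑' c, α c * T i c = ∑' c, ∑' k, T i k * (α c * T k c) := by
        refine tsum_congr fun c => ?_
        have h3 : ∀ k, T i k * (α c * T k c) = α c * (T i k * T k c) := fun k => by ring
        simp only [h3]
        rw [tsum_mul_left, ← hT.idem i c]
    _ = ∑' k, ∑' c, T i k * (α c * T k c) := Summable.tsum_comm h1
    _ = ∑' k, T i k * ∑' c, α c * T k c := by
        refine tsum_congr fun k => ?_
        rw [tsum_mul_left]

/-- Vectors of `ℓ₁` fixed by `T`. -/
private def Fx (T : ℕ → ℕ → ℝ) : Type :=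
  {y : ℕ → ℝ // (Summable fun i => |y i|) ∧ ∀ i, y i = ∑' k, T i k * y k}

private theorem next_mem (hT : Proj T ε) {y α : ℕ → ℝ} (hy : Summable fun i => |y i|)
    (hf : ∀ i, y i = ∑' k, T i k * y k) (hα : Summable fun c => |α c|) :
    (Summable fun i => |y i - ∑' c, α c * T i c|) ∧
      ∀ i, y i - ∑' c, α c * T i c = ∑' k, T i k * (y k - ∑' c, α c * T k c) := by
  constructor
  · exact Summable.of_nonneg_of_le (fun i => abs_nonneg _) (fun i => abs_sub _ _)
      (hy.add (sum_z hT hα))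
  · intro i
    have h1 := sumTy hT hy i
    have h2 := sumTy hT (sum_z hT hα) i
    simp only [mul_sub]
    rw [h1.tsum_sub h2, ← hf i, ← fix_z hT hα i]

theorem iter (hT : Proj T ε) {r : ℝ} (hr : 0 < r) (hr1 : r ≤ 1 / 1000) (hε : ε ≤ r) {C : Set ℕ}
    (h : ∀ x, St T x → ∃ B : Set ℕ, ms x B ≤ r ∧
      ∀ j ∉ B, ∃ c ∈ C, 1 - 5 * r ≤ ms (fun i => T i j) (Dc T r c))
    {y : ℕ → ℝ} (hy : Summable fun i => |y i|) (hf : ∀ i, y i = ∑' k, T i k * y k) :
    ∃ α : ℕ → ℝ, (∀ c, c ∉ C → α c = 0) ∧ (Summable fun c => |α c|) ∧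
      ∑' c, |α c| ≤ (1 + 12 * r) * ∑' i, |y i| ∧ ∀ i, y i = ∑' c, α c * T i c := by
  have hε1 : ε ≤ 1 / 1000 := hT.eps1
  have hε0 : 0 ≤ ε := hT.eps0
  have hstep : ∀ y : Fx T, ∃ α : ℕ → ℝ, (∀ c, c ∉ C → α c = 0) ∧ (Summable fun c => |α c|) ∧
      ∑' c, |α c| ≤ (1 + r) * ∑' i, |y.1 i| ∧
      ∑' i, |y.1 i - ∑' c, α c * T i c| ≤ 10 * r * ∑' i, |y.1 i| := fun y =>
    step hT hr hr1 hε h y.2.1 y.2.2
  choose A hA0 hAs hA1 hA2 using hstep
  let nx : Fx T → Fx T := fun z =>
    ⟨fun i => z.1 i - ∑' c, A z c * T i c, next_mem hT z.2.1 z.2.2 (hAs z)⟩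
  let Y : ℕ → Fx T := fun n => nx^[n] ⟨y, hy, hf⟩
  have hY0 : (Y 0).1 = y := rfl
  have hYs : ∀ n i, (Y (n + 1)).1 i = (Y n).1 i - ∑' c, A (Y n) c * T i c := by
    intro n i
    have h1 : Y (n + 1) = nx (Y n) := Function.iterate_succ_apply' nx n _
    rw [h1]
  set S : ℝ := ∑' i, |y i| with hS
  have hS0 : 0 ≤ S := tsum_nonneg fun i => abs_nonneg _
  have hYn : ∀ n, ∑' i, |(Y n).1 i| ≤ (10 * r) ^ n * S := by
    intro n
    induction n with
    | zero => rw [hY0, pow_zero, one_mul]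
    | succ n ih =>
      simp only [hYs n]
      calc ∑' i, |(Y n).1 i - ∑' c, A (Y n) c * T i c| ≤ 10 * r * ∑' i, |(Y n).1 i| := hA2 (Y n)
        _ ≤ 10 * r * ((10 * r) ^ n * S) := mul_le_mul_of_nonneg_left ih (by linarith)
        _ = (10 * r) ^ (n + 1) * S := by ring
  have hAn : ∀ n, ∑' c, |A (Y n) c| ≤ (1 + r) * ((10 * r) ^ n * S) := fun n =>
    (hA1 (Y n)).trans (mul_le_mul_of_nonneg_left (hYn n) (by linarith))
  have hr10 : 10 * r < 1 := by linarith
  have hgeo : Summable fun n : ℕ => (1 + r) * ((10 * r) ^ n * S) :=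
    ((summable_geometric_of_lt_one (by linarith) hr10).mul_right S).mul_left (1 + r)
  have hdbl : Summable fun p : ℕ × ℕ => |A (Y p.1) p.2| := by
    rw [summable_prod_of_nonneg (fun p => abs_nonneg _)]
    exact ⟨fun n => hAs (Y n), Summable.of_nonneg_of_le
      (fun n => tsum_nonneg fun c => abs_nonneg _) hAn hgeo⟩
  have hdbl' : Summable fun p : ℕ × ℕ => |A (Y p.2) p.1| := hdbl.prod_symm
  have hcol : ∀ c, Summable fun n => |A (Y n) c| := fun c => hdbl'.prod_factor c
  have hcols : ∀ c, Summable fun n => A (Y n) c := fun c => Summable.of_norm (hcol c)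
  have hsumabs : Summable fun c => ∑' n, |A (Y n) c| := hdbl'.prod
  have hle : ∀ c, |∑' n, A (Y n) c| ≤ ∑' n, |A (Y n) c| := fun c => by
    have h1 := norm_tsum_le_tsum_norm (f := fun n => A (Y n) c) (hcol c)
    simpa only [Real.norm_eq_abs] using h1
  have hα : Summable fun c => |∑' n, A (Y n) c| :=
    Summable.of_nonneg_of_le (fun c => abs_nonneg _) hle hsumabs
  refine ⟨fun c => ∑' n, A (Y n) c, ?_, hα, ?_, ?_⟩
  · intro c hc
    simp [hA0 _ c hc]
  · calc ∑' c, |∑' n, A (Y n) c| ≤ ∑' c, ∑' n, |A (Y n) c| := hα.tsum_le_tsum hle hsumabs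
      _ = ∑' n, ∑' c, |A (Y n) c| := by
          have h1 : Summable (Function.uncurry fun n c : ℕ => |A (Y n) c|) := hdbl
          exact Summable.tsum_comm h1
      _ ≤ ∑' n : ℕ, (1 + r) * ((10 * r) ^ n * S) := hdbl.prod.tsum_le_tsum hAn hgeo
      _ = (1 + r) * ((1 - 10 * r)⁻¹ * S) := by
          rw [tsum_mul_left, tsum_mul_right, tsum_geometric_of_lt_one (by linarith) hr10]
      _ ≤ (1 + 12 * r) * S := by
          rw [← mul_assoc]
          refine mul_le_mul_of_nonneg_right ?_ hS0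
          rw [← div_eq_mul_inv, div_le_iff₀ (by linarith)]
          nlinarith
  · intro i
    have hterm : ∀ n, |∑' c, A (Y n) c * T i c| ≤ (1 + ε) * ((1 + r) * ((10 * r) ^ n * S)) := by
      intro n
      calc |∑' c, A (Y n) c * T i c| ≤ ∑' c, |A (Y n) c| * |T i c| := abs_z_le hT (hAs _) i
        _ ≤ ∑' c, |A (Y n) c| * (1 + ε) :=
            (sumFi hT (hAs _) i).tsum_le_tsum
              (fun c => mul_le_mul_of_nonneg_left (hT.entry_le i c) (abs_nonneg _))
              ((hAs _).mul_right _)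
        _ = (1 + ε) * ∑' c, |A (Y n) c| := by rw [tsum_mul_right, mul_comm]
        _ ≤ (1 + ε) * ((1 + r) * ((10 * r) ^ n * S)) :=
            mul_le_mul_of_nonneg_left (hAn n) (by linarith)
    have hsz : Summable fun n => ∑' c, A (Y n) c * T i c :=
      Summable.of_norm_bounded (hgeo.mul_left (1 + ε)) hterm
    have hpart : ∀ N, ∑ n ∈ Finset.range N, ∑' c, A (Y n) c * T i c = y i - (Y N).1 i := by
      intro N
      induction N with
      | zero => rw [Finset.sum_range_zero, hY0, sub_self]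
      | succ N ih => rw [Finset.sum_range_succ, ih, hYs N i]; ring
    have hlim0 : Filter.Tendsto (fun N => (Y N).1 i) Filter.atTop (nhds 0) := by
      have h1 : Filter.Tendsto (fun N : ℕ => (10 * r) ^ N * S) Filter.atTop (nhds 0) := by
        have h2 := (tendsto_pow_atTop_nhds_zero_of_lt_one (by linarith) hr10).mul_const S
        rwa [zero_mul] at h2
      refine squeeze_zero_norm (fun N => ?_) h1
      exact ((Y N).2.1.le_tsum i (fun j _ => abs_nonneg _)).trans (hYn N)
    have hlim : Filter.Tendsto (fun N => ∑ n ∈ Finset.range N, ∑' c, A (Y n) c * T i c)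
        Filter.atTop (nhds (y i)) := by
      simp only [hpart]
      have h1 := hlim0.const_sub (y i)
      rwa [sub_zero] at h1
    have hy1 : ∑' n, ∑' c, A (Y n) c * T i c = y i :=
      tendsto_nhds_unique hsz.hasSum.tendsto_sum_nat hlim
    rw [← hy1]
    have hcomm : Summable (Function.uncurry fun n c : ℕ => A (Y n) c * T i c) := by
      refine Summable.of_norm_bounded (g := fun p : ℕ × ℕ => |A (Y p.1) p.2| * (1 + ε))
        (hdbl.mul_right _) (fun p => ?_)
      rw [Real.norm_eq_abs]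
      change |A (Y p.1) p.2 * T i p.2| ≤ _
      rw [abs_mul]
      exact mul_le_mul_of_nonneg_left (hT.entry_le i p.2) (abs_nonneg _)
    rw [← Summable.tsum_comm hcomm]
    refine tsum_congr fun c => ?_
    rw [tsum_mul_right]

end Pool.Agent.H87.ZI
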