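import Pool.Agent.H87.ZI.BasH

/-!
# The hockey stick inequality (Z3)

`K Hs(j) = ∑ₖ |T k j| ∑ᵢ (|T i k| - w i)⁺ = ∑ᵢ ∑ₖ |T k j| (|T i k| - w i)⁺` (exchange of sums, all terms are
nonnegative and bounded by `|T k j| |T i k|`). Let `U = {i | w i < |T i j|}`, `s = cn T j`.

For `i ∈ U`: `(a - w)⁺ = (a - w) + (w - a)⁺`, so
`∑ₖ |T k j| (|T i k| - w i)⁺ = ∑ₖ |T k j| |T i k| - s w i + ∑ₖ |T k j| (w i - |T i k|)⁺`, and
`∑ₖ |T k j| |T i k| ≥ |T i j|` (`Proj.abs_idem_le`). Moreover
`|T i j| - s w i ≥ (|T i j| - w i) - ε w i` and `∑_{i ∈ U} ε w i ≤ ε s ≤ 2 ε` (`w i < |T i j|` on `U`), while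
`∑_{i ∈ U} (|T i j| - w i) = Hs T w j`.

For `i ∉ U` keep `∑ₖ |T k j| (|T i k| - w i)⁺` (the term of `Er`).

Sum over `i` and exchange the sums again: `K Hs(j) ≥ Hs(j) - 2 ε + ∑ₖ |T k j| Er(j, k)`.
-/

namespace Pool.Agent.H87.ZI

variable {T : ℕ → ℕ → ℝ} {ε : ℝ}

private theorem hsk_pt (a w : ℝ) (P : Prop) [Decidable P] :
    (if P then a else 0) =
      max (a - w) 0 + (if P then w else 0) - (if P then max (w - a) 0 else max (a - w) 0) := by
  by_cases h : P
  · simp only [h, if_true]
    rcases le_total a w with h1 | h1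
    · rw [max_eq_right (by linarith), max_eq_left (by linarith)]; ring
    · rw [max_eq_left (by linarith), max_eq_right (by linarith)]; ring
  · simp only [h, if_false]; ring

private theorem hsk_W (hT : Proj T ε) {w : ℕ → ℝ} (hw : ∀ i, 0 ≤ w i) (j : ℕ) :
    Summable fun i => if w i < |T i j| then w i else 0 := by
  refine Summable.of_nonneg_of_le (fun i => ?_) (fun i => ?_) (hT.summ j)
  · split_ifs
    · exact hw i
    · exact le_rfl
  · split_ifs with h
    · exact h.le
    · exact abs_nonneg _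

private theorem hsk_mass (hT : Proj T ε) {w : ℕ → ℝ} (hw : ∀ i, 0 ≤ w i) (j k : ℕ) :
    ∑' i, (if w i < |T i j| then |T i k| else 0) =
      Hs T w k + (∑' i, if w i < |T i j| then w i else 0) - Er T w j k := by
  have h1 := Hs_summable hT hw k
  have h2 := hsk_W hT hw j
  have h3 := Er_summable hT hw j k
  unfold Hs Er
  rw [← h1.tsum_add h2, ← (h1.add h2).tsum_sub h3]
  exact tsum_congr fun i => hsk_pt _ _ _

private theorem hsk_self (T : ℕ → ℕ → ℝ) (w : ℕ → ℝ) (j : ℕ) : Er T w j j = 0 := by
  unfold Er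
  have : (fun i => if w i < |T i j| then max (w i - |T i j|) 0 else max (|T i j| - w i) 0) =
      fun _ => (0 : ℝ) := by
    funext i
    split_ifs with h
    · exact max_eq_right (by linarith)
    · exact max_eq_right (by linarith [not_lt.mp h])
  rw [this, tsum_zero]

theorem Hs_Kf (hT : Proj T ε) {w : ℕ → ℝ} (hw : ∀ i, 0 ≤ w i) (j : ℕ) :
    Hs T w j + ∑' k, |T k j| * Er T w j k ≤ Kf T (Hs T w) j + 2 * ε := by
  have hx : Summable fun k => |T k j| := hT.summ j
  set W : ℝ := ∑' i, if w i < |T i j| then w i else 0 with hW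
  have hW0 : 0 ≤ W := tsum_nonneg fun i => by
    split_ifs
    · exact hw i
    · exact le_rfl
  have hW1 : W ≤ cn T j := by
    unfold cn
    refine (hsk_W hT hw j).tsum_le_tsum (fun i => ?_) (hT.summ j)
    split_ifs with h
    · exact h.le
    · exact abs_nonneg _
  have hF : ∀ p : ℕ × ℕ, |(if w p.2 < |T p.2 j| then (1 : ℝ) else 0)| ≤ 1 := by
    intro p
    split_ifs <;> norm_num
  have hsw := tsum_swap hT hx (F := fun _ i => if w i < |T i j| then (1 : ℝ) else 0) (C := 1)
    (fun k i => hF (k, i))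
  have hL : (∑' k, ∑' i, |T k j| * |T i k| * (if w i < |T i j| then (1 : ℝ) else 0)) =
      Kf T (Hs T w) j + cn T j * W - ∑' k, |T k j| * Er T w j k := by
    have e1 : ∀ k, ∑' i, |T k j| * |T i k| * (if w i < |T i j| then (1 : ℝ) else 0) =
        |T k j| * Hs T w k + |T k j| * W - |T k j| * Er T w j k := by
      intro k
      have : ∀ i, |T k j| * |T i k| * (if w i < |T i j| then (1 : ℝ) else 0) =
          |T k j| * (if w i < |T i j| then |T i k| else 0) := by
        intro i
        split_ifs <;> ring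
      rw [tsum_congr this, tsum_mul_left, hsk_mass hT hw j k]
      ring
    have s1 : Summable fun k => |T k j| * Hs T w k := sum_av hx (fun k => Hs_abs_le hT hw k)
    have s2 : Summable fun k => |T k j| * W := hx.mul_right W
    have s3 : Summable fun k => |T k j| * Er T w j k :=
      sum_av hx (C := 3) (fun k => by
        rw [abs_of_nonneg (Er_nonneg T w j k)]
        exact Er_le hT hw j k)
    rw [tsum_congr e1, (s1.add s2).tsum_sub s3, s1.tsum_add s2, tsum_mul_right]
    rfl
  have hsd := sum_double hT hx (F := fun p : ℕ × ℕ => if w p.2 < |T p.2 j| then (1 : ℝ) else 0)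
    (C := 1) hF
  have hsR : Summable fun i => ∑' k, |T k j| * |T i k| * (if w i < |T i j| then (1 : ℝ) else 0) :=
    hsd.prod_symm.prod
  have hR : Hs T w j + W ≤
      ∑' i, ∑' k, |T k j| * |T i k| * (if w i < |T i j| then (1 : ℝ) else 0) := by
    have e := hsk_mass hT hw j j
    rw [hsk_self, sub_zero] at e
    rw [← e]
    refine Summable.tsum_le_tsum (fun i => ?_) ?_ hsR
    · by_cases h : w i < |T i j|
      · simp only [h, if_true, mul_one]
        refine (hT.abs_idem_le i j).trans_eq ?_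
        exact tsum_congr fun k => mul_comm _ _
      · simp only [h, if_false, mul_zero, tsum_zero]
        exact le_rfl
    · refine Summable.of_nonneg_of_le (fun i => ?_) (fun i => ?_) (hT.summ j)
      · split_ifs
        · exact abs_nonneg _
        · exact le_rfl
      · split_ifs with h
        · exact le_rfl
        · exact abs_nonneg _
  have key : Hs T w j + W ≤ Kf T (Hs T w) j + cn T j * W - ∑' k, |T k j| * Er T w j k := by
    rw [← hL]
    exact hR.trans_eq hsw.symm
  have hc := hT.cn_le j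
  have h0 := hT.eps0
  have h1 := hT.eps1
  have hcW : cn T j * W ≤ (1 + ε) * W := mul_le_mul_of_nonneg_right hc hW0
  have hW2 : W ≤ 2 := by linarith
  have : ε * W ≤ ε * 2 := mul_le_mul_of_nonneg_left hW2 h0
  nlinarith

end Pool.Agent.H87.ZI
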