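import Pool.Agent.H87.ZI.NI
import Pool.Agent.H87.ZI.HsK

/-!
# Bootstrap, one column (Z8, parts (c) and (d))

`x` a state, `s = cn T j`, `|1 - s| ≤ η² ≤ 10⁻⁶`, `y = ` column `j` divided by `s` (a state), `a > 0`,
`low T x a j < 1/50`, `γ ≥ 10`, `w = (γ/2) a |x|`, `Φ = Hs T w`, `Vr T Φ j ≤ η²`, and `mm T y γ > 9/10`. Claim: `Φ(j) ≥ 4/5`.

(c) `B = {i | |T i j| ≤ a |x i|}` has mass `low T x a j < 1/50` under column `j`. For `i ∉ B`:
`w i = (γ/2) a |x i| ≤ (γ/2) |T i j| ≤ γ |y i|` (`s ≤ 2`). So for every `k`: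
`Φ k ≥ ∑_{i ∉ B} (|T i k| - γ |y i|)⁺ ≥ Hs T (γ |y|) k - (K 1_B)(k)` (for `i ∈ B` the term is at most `|T i k|`). Hence
`av y Φ ≥ 9/10 - av y (K 1_B) ≥ 9/10 - ms y B - ε` (`inv`), `ms y B = low / s ≤ 0.0201`: `av y Φ ≥ 0.87`.
(d) `av y |Φ - Φ j| = (1/s) ∑ₖ |T k j| |Φ k - Φ j| ≤ (1/s) √((1 + ε) η²) ≤ 1.01 η ≤ 0.01` (`Vr_cs`). So
`Φ j ≥ 0.87 - 0.02`.
-/

namespace Pool.Agent.H87.ZI

variable {T : ℕ → ℕ → ℝ} {ε : ℝ}

private theorem bootA_pt {T : ℕ → ℕ → ℝ} {x : ℕ → ℝ} {γ a s : ℝ} (hγ : 10 ≤ γ) (ha : 0 < a)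
    (hs0 : 0 < s) (hs2 : s ≤ 2) (j k i : ℕ) :
    max (|T i k| - wt γ (fun i => T i j / s) i) 0 ≤
      max (|T i k| - wt (γ / 2 * a) x i) 0 +
        {i | |T i j| ≤ a * |x i|}.indicator (fun i => |T i k|) i := by
  have hv0 : 0 ≤ wt γ (fun i => T i j / s) i := by
    unfold wt
    positivity
  by_cases hi : i ∈ {i | |T i j| ≤ a * |x i|}
  · rw [Set.indicator_of_mem hi]
    have h1 : max (|T i k| - wt γ (fun i => T i j / s) i) 0 ≤ |T i k| :=
      max_le (by linarith) (abs_nonneg _)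
    have h2 : 0 ≤ max (|T i k| - wt (γ / 2 * a) x i) 0 := le_max_right _ _
    linarith
  · rw [Set.indicator_of_notMem hi, add_zero]
    have hi' : a * |x i| < |T i j| := not_le.mp hi
    have h1 : wt (γ / 2 * a) x i ≤ wt γ (fun i => T i j / s) i := by
      unfold wt
      rw [abs_div, abs_of_pos hs0]
      have h3 : |T i j| / 2 ≤ |T i j| / s :=
        div_le_div_of_nonneg_left (abs_nonneg _) hs0 hs2
      calc γ / 2 * a * |x i| = γ / 2 * (a * |x i|) := by ring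
        _ ≤ γ / 2 * |T i j| := mul_le_mul_of_nonneg_left hi'.le (by linarith)
        _ = γ * (|T i j| / 2) := by ring
        _ ≤ γ * (|T i j| / s) := mul_le_mul_of_nonneg_left h3 (by linarith)
    exact max_le_max (by linarith) le_rfl

theorem boot_col (hT : Proj T ε) {η : ℝ} (hη : 0 < η) (hη1 : η ≤ 1 / 1000) (hε : ε ≤ η ^ 4)
    {x : ℕ → ℝ} (hx : St T x) {γ a : ℝ} (hγ : 10 ≤ γ) (ha : 0 < a) {j : ℕ}
    (hs : |1 - cn T j| ≤ η ^ 2) (hlow : low T x a j < 1 / 50)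
    (hV : Vr T (Hs T (wt (γ / 2 * a) x)) j ≤ η ^ 2)
    (hm : 9 / 10 < mm T (fun i => T i j / cn T j) γ) :
    4 / 5 ≤ Hs T (wt (γ / 2 * a) x) j := by
  have hε0 : 0 ≤ ε := hT.eps0
  have hη2 : η ^ 2 ≤ 1 / 1000000 := by nlinarith
  have hη4 : η ^ 4 ≤ 1 / 1000000 := by
    have h1 : η ^ 4 = η ^ 2 * η ^ 2 := by ring
    rw [h1]
    nlinarith [sq_nonneg η]
  have hsb := abs_le.mp hs
  have hs1 : 1 - 1 / 1000000 ≤ cn T j := by linarith [hsb.2]
  have hs2 : cn T j ≤ 2 := by linarith [hsb.1]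
  have hs0 : 0 < cn T j := by linarith
  have hy : St T (fun i => T i j / cn T j) := st_col hT hs0
  have hw0 : ∀ i, 0 ≤ wt (γ / 2 * a) x i := fun i => by
    unfold wt
    have : 0 ≤ γ := by linarith
    positivity
  have hv0 : ∀ i, 0 ≤ wt γ (fun i => T i j / cn T j) i := fun i => by
    unfold wt
    have : 0 ≤ γ := by linarith
    positivity
  have hk : ∀ k, Hs T (wt γ (fun i => T i j / cn T j)) k ≤ Hs T (wt (γ / 2 * a) x) k +
      Kf T ({i | |T i j| ≤ a * |x i|}.indicator fun _ => 1) k := by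
    intro k
    rw [Kf_eq_av, av_ind]
    have hS1 := Hs_summable hT hw0 k
    have hS2 := sum_ms (hT.summ k) {i | |T i j| ≤ a * |x i|}
    have hS3 := Hs_summable hT hv0 k
    have h1 := hS3.tsum_le_tsum (fun i => bootA_pt (T := T) (x := x) hγ ha hs0 hs2 j k i)
      (hS1.add hS2)
    rw [hS1.tsum_add hS2] at h1
    exact h1
  have hf1 : ∀ k, |({i | |T i j| ≤ a * |x i|}.indicator fun _ => (1 : ℝ)) k| ≤ 1 := by
    intro k
    by_cases hk : k ∈ {i | |T i j| ≤ a * |x i|}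
    · rw [Set.indicator_of_mem hk]; norm_num
    · rw [Set.indicator_of_notMem hk]; norm_num
  have hKf : ∀ k, |Kf T ({i | |T i j| ≤ a * |x i|}.indicator fun _ => (1 : ℝ)) k| ≤ 2 := by
    intro k
    have := hT.Kf_bd hf1 k
    have := hT.eps1
    linarith
  have hw2 : ∀ k, |Hs T (wt (γ / 2 * a) x) k| ≤ 2 := fun k => Hs_abs_le hT hw0 k
  have hv2 : ∀ k, |Hs T (wt γ (fun i => T i j / cn T j)) k| ≤ 4 := fun k =>
    (Hs_abs_le hT hv0 k).trans (by norm_num)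
  have hsum4 : ∀ k, |Hs T (wt (γ / 2 * a) x) k +
      Kf T ({i | |T i j| ≤ a * |x i|}.indicator fun _ => (1 : ℝ)) k| ≤ 4 := fun k =>
    (abs_add_le _ _).trans (by linarith [hw2 k, hKf k])
  have h1 : mm T (fun i => T i j / cn T j) γ ≤
      av (fun i => T i j / cn T j) (Hs T (wt (γ / 2 * a) x)) +
      av (fun i => T i j / cn T j) (Kf T ({i | |T i j| ≤ a * |x i|}.indicator fun _ => (1 : ℝ))) := by
    rw [← av_add hy.summ hw2 hKf]
    exact av_mono hy.summ hv2 hsum4 hk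
  have h2 := abs_le.mp (inv hT hy hf1)
  have h3 : av (fun i => T i j / cn T j) ({i | |T i j| ≤ a * |x i|}.indicator fun _ => (1 : ℝ)) =
      low T x a j / cn T j := by
    rw [av_ind, ms_smul, abs_of_pos hs0]
    rfl
  have h4 : low T x a j / cn T j ≤ 21 / 1000 := by
    rw [div_le_iff₀ hs0]
    linarith
  have h5 : 87 / 100 ≤ av (fun i => T i j / cn T j) (Hs T (wt (γ / 2 * a) x)) := by
    have := h2.2
    rw [h3] at this
    linarith
  -- the difference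
  have hPhi0 : ∀ k, 0 ≤ Hs T (wt (γ / 2 * a) x) k := fun k => Hs_nonneg T _ k
  have hPhi2 : ∀ k, Hs T (wt (γ / 2 * a) x) k ≤ 2 := fun k => (abs_le.mp (hw2 k)).2
  have h6 := Vr_cs hT hPhi0 hPhi2 j hV
  have h7 : √((1 + ε) * η ^ 2) ≤ 2 / 1000 := by
    apply Real.sqrt_le_iff.mpr
    refine ⟨by norm_num, ?_⟩
    nlinarith [sq_nonneg η]
  have hd : ∀ k, |(fun k => Hs T (wt (γ / 2 * a) x) k - Hs T (wt (γ / 2 * a) x) j) k| ≤ 4 := by
    intro k
    have e1 := abs_le.mp (hw2 k)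
    have e2 := abs_le.mp (hw2 j)
    exact abs_le.mpr ⟨by show _ ≤ _ - _; linarith [e1.1, e2.2], by show _ - _ ≤ _; linarith [e1.2, e2.1]⟩
  have h8 : av (fun i => T i j / cn T j)
      (fun k => |Hs T (wt (γ / 2 * a) x) k - Hs T (wt (γ / 2 * a) x) j|) =
      (∑' k, |T k j| * |Hs T (wt (γ / 2 * a) x) k - Hs T (wt (γ / 2 * a) x) j|) / cn T j := by
    unfold av
    rw [← tsum_div_const]
    apply tsum_congr
    intro k
    rw [abs_div, abs_of_pos hs0]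
    ring
  have h9 : av (fun i => T i j / cn T j)
      (fun k => Hs T (wt (γ / 2 * a) x) k - Hs T (wt (γ / 2 * a) x) j) ≤
      av (fun i => T i j / cn T j)
      (fun k => |Hs T (wt (γ / 2 * a) x) k - Hs T (wt (γ / 2 * a) x) j|) := by
    apply av_mono hy.summ hd (C := 4)
    · intro k
      rw [abs_abs]
      exact hd k
    · intro k
      exact le_abs_self _
  have h10 : av (fun i => T i j / cn T j)
      (fun k => Hs T (wt (γ / 2 * a) x) k - Hs T (wt (γ / 2 * a) x) j) =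
      av (fun i => T i j / cn T j) (Hs T (wt (γ / 2 * a) x)) - Hs T (wt (γ / 2 * a) x) j := by
    have e1 := av_sub (g := fun _ => Hs T (wt (γ / 2 * a) x) j) hy.summ hw2 (fun _ => hw2 j)
    rw [av_const, hy.one, mul_one] at e1
    exact e1
  have h11 : (∑' k, |T k j| * |Hs T (wt (γ / 2 * a) x) k - Hs T (wt (γ / 2 * a) x) j|) / cn T j ≤
      3 / 1000 := by
    rw [div_le_iff₀ hs0]
    linarith
  linarith

end Pool.Agent.H87.ZI
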