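import Pool.Agent.H87.ZI.BootA
import Pool.Agent.H87.ZI.ZoC
import Pool.Agent.H87.ZI.LowG

/-!
# The bootstrap (Z8)

`Q` a set of states as in `Cls`, `γ ≥ 10⁵`, `mm T y γ > 9/10` for all `y ∈ Q`. Claim: `mm T x (2 γ) > 9/10` for all `x ∈ Q`.

Suppose `x ∈ Q` and `mm T x (2 γ) ≤ 9/10`. Put `g = √(γ/2) ≥ 200` and `γ_m = g ^ m / 100` for `m = 0, …, 5`.
`H = {j | Hs T (2 γ |x|) j ≤ 19/20}` has mass at least `1/20` (`mass_H`). The exceptional sets of `zero_one` for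
`γ_1, …, γ_5` have total mass at most `130 η² < 1/100`, and the set `B0` of `Cls.step` has mass at most `1/40`; so by
`exists_of_ms_lt` there is `j ∈ H` outside all of them. Let `low_m = low T x γ_m j`.
(a) `low_0 ≤ γ_0 = 1/100 < 1/50` (`low_le`).
(b) `low_4 ≥ 1/50` by `low_ge` (with `2 γ`) and `low_mono`: `γ_4 = γ²/400 ≥ 80 γ`.
So there is `m ∈ {0, 1, 2, 3}` with `low_m < 1/50 ≤ low_{m+1}`. By `zero_one` for `γ_{m+1}`:
`Hs T (200 γ_{m+1} |x|) j ≤ 150 η ≤ 0.15`, and `200 γ_{m+1} ≤ g γ_{m+1} = γ_{m+2}`, so `Hs T (γ_{m+2} |x|) j ≤ 0.15`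
(`Hs_anti`). On the other hand `γ_{m+2} = (γ/2) γ_m`, and `boot_col` with `a = γ_m` gives `Hs T (γ_{m+2} |x|) j ≥ 4/5`.
-/

namespace Pool.Agent.H87.ZI

variable {T : ℕ → ℕ → ℝ} {ε : ℝ}

theorem boot (hT : Proj T ε) {η : ℝ} (hη : 0 < η) (hη1 : η ≤ 1 / 1000) (hε : ε ≤ η ^ 4)
    {Q : Set (ℕ → ℝ)} (hQ : Cls T Q) {γ : ℝ} (hγ : 100000 ≤ γ) (h : ∀ y ∈ Q, 9 / 10 < mm T y γ) :
    ∀ x ∈ Q, 9 / 10 < mm T x (2 * γ) := by
  intro x hxQ
  by_contra hcon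
  rw [not_lt] at hcon
  have hx := hQ.st x hxQ
  obtain ⟨B0, hB0, hstep⟩ := hQ.step x hxQ
  have hγ0 : 0 < γ := by linarith
  obtain ⟨g, hg⟩ : ∃ g : ℝ, g = √(γ / 2) := ⟨_, rfl⟩
  have hg2 : g ^ 2 = γ / 2 := by
    rw [hg]
    exact Real.sq_sqrt (by linarith)
  have hg200 : 200 ≤ g := by
    rw [hg]
    apply Real.le_sqrt_of_sq_le
    linarith
  have hg0 : 0 < g := by linarith
  obtain ⟨c, hc⟩ : ∃ c : ℕ → ℝ, c = fun m => g ^ m / 100 := ⟨_, rfl⟩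
  have hc0 : ∀ m, 0 < c m := fun m => by
    rw [hc]
    positivity
  have hcs : ∀ m, c (m + 1) = g * c m := fun m => by
    rw [hc]
    simp only [pow_succ]
    ring
  have hcs2 : ∀ m, c (m + 2) = γ / 2 * c m := fun m => by
    rw [hcs, hcs, ← hg2]
    ring
  choose B hB hB' using fun m => zero_one hT hη hη1 hε hx (hc0 m)
  have hH := mass_H hT hx (γ := 2 * γ) (by linarith) hcon
  have hη2 : η ^ 2 ≤ 1 / 1000000 := by nlinarith
  have hbad : ms x (B0 ∪ (B 1 ∪ (B 2 ∪ (B 3 ∪ (B 4 ∪ B 5))))) <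
      ms x {j | Hs T (wt (2 * γ) x) j ≤ 19 / 20} := by
    have b1 := ms_union_le hx.summ B0 (B 1 ∪ (B 2 ∪ (B 3 ∪ (B 4 ∪ B 5))))
    have b2 := ms_union_le hx.summ (B 1) (B 2 ∪ (B 3 ∪ (B 4 ∪ B 5)))
    have b3 := ms_union_le hx.summ (B 2) (B 3 ∪ (B 4 ∪ B 5))
    have b4 := ms_union_le hx.summ (B 3) (B 4 ∪ B 5)
    have b5 := ms_union_le hx.summ (B 4) (B 5)
    have c1 := hB 1
    have c2 := hB 2
    have c3 := hB 3
    have c4 := hB 4
    have c5 := hB 5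
    linarith
  obtain ⟨j, hjH, hjB⟩ := exists_of_ms_lt hx.summ hbad
  simp only [Set.mem_union, not_or] at hjB
  obtain ⟨hj0, hj1, hj2, hj3, hj4, hj5⟩ := hjB
  have hjH' : Hs T (wt (2 * γ) x) j ≤ 19 / 20 := hjH
  obtain ⟨hcn, hcol⟩ := hstep j hj0
  have hmcol := h _ hcol
  have hs : |1 - cn T j| ≤ η ^ 2 := (hB' 1 j hj1).1
  have hlow0 : low T x (c 0) j < 1 / 50 := by
    refine lt_of_le_of_lt (low_le hT hx (hc0 0).le j) ?_
    rw [hc]
    norm_num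
  have hlow4 : 1 / 50 ≤ low T x (c 4) j := by
    refine (low_ge hT hη hη1 (γ := 2 * γ) (by linarith) hs hjH').trans (low_mono hT x ?_ j)
    rw [show (4 : ℕ) = 2 + 2 from rfl, hcs2 2, show (2 : ℕ) = 0 + 2 from rfl, hcs2 0, hc]
    norm_num
    nlinarith
  -- one step
  have hone : ∀ m, (1 / 50 ≤ low T x (c (m + 1)) j → Hs T (wt (200 * c (m + 1)) x) j ≤ 150 * η) →
      Vr T (Hs T (wt (c (m + 2)) x)) j ≤ η ^ 2 → low T x (c m) j < 1 / 50 →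
      low T x (c (m + 1)) j < 1 / 50 := by
    intro m h1 h2 h3
    by_contra h4
    rw [not_lt] at h4
    have h5 := h1 h4
    have h6 : Hs T (wt (c (m + 2)) x) j ≤ 150 * η := by
      refine (Hs_anti hT (w := wt (200 * c (m + 1)) x) (fun i => ?_) (fun i => ?_) j).trans h5
      · change 0 ≤ 200 * c (m + 1) * |x i|
        have := hc0 (m + 1)
        positivity
      · change 200 * c (m + 1) * |x i| ≤ c (m + 2) * |x i|
        apply mul_le_mul_of_nonneg_right _ (abs_nonneg _)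
        rw [hcs (m + 1)]
        exact mul_le_mul_of_nonneg_right hg200 (hc0 (m + 1)).le
    rw [hcs2 m] at h2 h6
    have h7 := boot_col hT hη hη1 hε hx (by linarith) (hc0 m) hs h3 h2 hmcol
    linarith
  have hlow1 := hone 0 (hB' 1 j hj1).2.2 (hB' 2 j hj2).2.1 hlow0
  have hlow2 := hone 1 (hB' 2 j hj2).2.2 (hB' 3 j hj3).2.1 hlow1
  have hlow3 := hone 2 (hB' 3 j hj3).2.2 (hB' 4 j hj4).2.1 hlow2
  have hlow4' := hone 3 (hB' 4 j hj4).2.2 (hB' 5 j hj5).2.1 hlow3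
  have e4 : c (3 + 1) = c 4 := rfl
  rw [e4] at hlow4'
  linarith

/-- A nonempty set `Q` contains a state whose columns are not much larger than the state. -/
theorem boot_exists (hT : Proj T ε) {η : ℝ} (hη : 0 < η) (hη1 : η ≤ 1 / 1000) (hε : ε ≤ η ^ 4)
    {Q : Set (ℕ → ℝ)} (hQ : Cls T Q) (hne : Q.Nonempty)
    (hlim : ∀ x, St T x → ∃ γ0 : ℝ, 0 < γ0 ∧ ∀ γ, γ0 ≤ γ → mm T x γ ≤ 1 / 2) :
    ∃ x ∈ Q, mm T x 100000 ≤ 9 / 10 := by
  by_contra hcon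
  push Not at hcon
  have hall : ∀ n : ℕ, ∀ x ∈ Q, 9 / 10 < mm T x (2 ^ n * 100000) := by
    intro n
    induction n with
    | zero =>
      intro x hx
      rw [pow_zero, one_mul]
      exact hcon x hx
    | succ n ih =>
      have h1 : (100000 : ℝ) ≤ 2 ^ n * 100000 := by
        have : (1 : ℝ) ≤ 2 ^ n := one_le_pow₀ (by norm_num)
        linarith
      have h2 := boot hT hη hη1 hε hQ h1 ih
      intro x hx
      have h3 := h2 x hx
      have h4 : 2 * (2 ^ n * 100000 : ℝ) = 2 ^ (n + 1) * 100000 := by ring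
      rw [h4] at h3
      exact h3
  obtain ⟨x, hx⟩ := hne
  obtain ⟨γ0, _, hγ⟩ := hlim x (hQ.st x hx)
  obtain ⟨n, hn⟩ := pow_unbounded_of_one_lt γ0 (show (1 : ℝ) < 2 by norm_num)
  have h1 := hγ (2 ^ n * 100000) (by nlinarith [pow_pos (show (0 : ℝ) < 2 by norm_num) n])
  have h2 := hall n x hx
  linarith

end Pool.Agent.H87.ZI
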