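import Pool.Agent.H87.ZI.Ov

/-!
# Clusters of atoms (Z11)

`0 < r ≤ 1/100`, `δ = r²/27`, `ε ≤ δ/100`. By Zorn's lemma (or `exists_maximal` for sets of natural numbers: the union
of a chain of such sets is such a set) there is a maximal set `C` of atoms (`Atom T δ`) with pairwise overlap
`∑ᵢ min |T i c| |T i c'| < 1/4`.

`disj`: if `l ∈ D_c ∩ D_c'` then `∑ᵢ | |T i c| - |T i c'| | ≤ 2 r`, so the overlap is
`(cn T c + cn T c' - ∑ᵢ | |T i c| - |T i c'| |)/2 ≥ 1 - δ - r > 1/4` (`min a b = (a + b - |a - b|)/2`).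
`cover`: an atom `j` either lies in `C` (then `j ∈ D_j`, `e = 1`), or has overlap at least `1/4` with some `c ∈ C` by
maximality, and `overlap` gives `∑ᵢ |T i j - e T i c| ≤ 27 δ = r² ≤ r`.
`mass`: `∑ₗ |T l c| ∑ᵢ |T i l - sg (T l c) T i c| ≤ δ`, so by Markov's inequality the `l` with
`∑ᵢ |T i l - sg (T l c) T i c| > r` have mass at most `δ / r = r/27` under column `c`; the other `l` with `T l c ≠ 0` lie
in `D_c`. So the mass of `D_c` is at least `cn T c - r/27 ≥ 1 - δ - r/27 ≥ 1 - r`.
`massD`: for `l ∈ D_c`: `∑_{i ∈ D_c} |T i l| ≥ ∑_{i ∈ D_c} |T i c| - r ≥ 1 - 2 r`.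
-/

namespace Pool.Agent.H87.ZI

variable {T : ℕ → ℕ → ℝ} {ε : ℝ}

private theorem summ_diff (hT : Proj T ε) {e : ℝ} (he : |e| ≤ 1) (l c : ℕ) :
    Summable fun i => |T i l - e * T i c| := by
  refine Summable.of_nonneg_of_le (fun i => abs_nonneg _) (fun i => ?_) ((hT.summ l).add (hT.summ c))
  calc |T i l - e * T i c| ≤ |T i l| + |e * T i c| := abs_sub _ _
    _ = |T i l| + |e| * |T i c| := by rw [abs_mul]
    _ ≤ |T i l| + 1 * |T i c| := by gcongr
    _ = |T i l| + |T i c| := by rw [one_mul]

private theorem abs_pm {e : ℝ} (he : e = 1 ∨ e = -1) : |e| = 1 := by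
  rcases he with h | h <;> simp [h]

private theorem summ_min (hT : Proj T ε) (c c' : ℕ) : Summable fun i => min |T i c| |T i c'| :=
  Summable.of_nonneg_of_le (fun _ => le_min (abs_nonneg _) (abs_nonneg _)) (fun _ => min_le_left _ _)
    (hT.summ c)

private theorem overlap_ge (hT : Proj T ε) {r δ : ℝ} {c c' l : ℕ} (hc : 1 - δ ≤ cn T c)
    (hc' : 1 - δ ≤ cn T c') (hl : l ∈ Dc T r c) (hl' : l ∈ Dc T r c') :
    1 - δ - r ≤ ∑' i, min |T i c| |T i c'| := by
  obtain ⟨e, he, h1⟩ := hl
  obtain ⟨e', he', h1'⟩ := hl'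
  have hs1 := summ_diff hT (abs_pm he).le l c
  have hs2 := summ_diff hT (abs_pm he').le l c'
  have hsm := summ_min hT c c'
  have hpt : ∀ i, |T i c| + |T i c'| ≤ 2 * min |T i c| |T i c'| +
      (|T i l - e * T i c| + |T i l - e' * T i c'|) := by
    intro i
    have a1 : |(|T i l| - |T i c|)| ≤ |T i l - e * T i c| := by
      have := abs_abs_sub_abs_le_abs_sub (T i l) (e * T i c)
      rwa [abs_mul, abs_pm he, one_mul] at this
    have a2 : |(|T i l| - |T i c'|)| ≤ |T i l - e' * T i c'| := by
      have := abs_abs_sub_abs_le_abs_sub (T i l) (e' * T i c')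
      rwa [abs_mul, abs_pm he', one_mul] at this
    have b1 := abs_le.1 a1
    have b2 := abs_le.1 a2
    rcases le_total |T i c| |T i c'| with h | h
    · rw [min_eq_left h]; linarith [b1.1, b1.2, b2.1, b2.2]
    · rw [min_eq_right h]; linarith [b1.1, b1.2, b2.1, b2.2]
  have hsum := Summable.tsum_le_tsum hpt ((hT.summ c).add (hT.summ c'))
    ((hsm.mul_left 2).add (hs1.add hs2))
  rw [Summable.tsum_add (hT.summ c) (hT.summ c'), Summable.tsum_add (hsm.mul_left 2) (hs1.add hs2),
    Summable.tsum_add hs1 hs2, tsum_mul_left] at hsum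
  unfold cn at hc hc'
  linarith

private theorem mass_ge (hT : Proj T ε) {r δ : ℝ} (hr : 0 < r) {c : ℕ} (hc : Atom T δ c) :
    1 - δ - δ / r ≤ ms (fun i => T i c) (Dc T r c) := by
  obtain ⟨h1, h2⟩ := hc
  set f : ℕ → ℝ := fun k => ∑' i, |T i k - sg (T k c) * T i c| with hf
  have hε0 := hT.eps0
  have hf0 : ∀ k, 0 ≤ f k := fun k => tsum_nonneg fun i => abs_nonneg _
  have hfb : ∀ k, |f k| ≤ (1 + ε) + (1 + ε) := by
    intro k
    rw [abs_of_nonneg (hf0 k)]
    calc f k ≤ ∑' i, (|T i k| + |T i c|) := by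
          refine Summable.tsum_le_tsum (fun i => ?_) (summ_diff hT (abs_sg_le _) k c)
            ((hT.summ k).add (hT.summ c))
          calc |T i k - sg (T k c) * T i c| ≤ |T i k| + |sg (T k c) * T i c| := abs_sub _ _
            _ = |T i k| + |sg (T k c)| * |T i c| := by rw [abs_mul]
            _ ≤ |T i k| + 1 * |T i c| := by
              have := abs_sg_le (T k c)
              gcongr
            _ = |T i k| + |T i c| := by rw [one_mul]
      _ = ∑' i, |T i k| + ∑' i, |T i c| := Summable.tsum_add (hT.summ k) (hT.summ c)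
      _ ≤ (1 + ε) + (1 + ε) := add_le_add (hT.norm k) (hT.norm c)
  have hav : av (fun k => T k c) f ≤ δ := h2
  have hmk := markov (a := fun k => T k c) (f := f) (hT.summ c) hfb hf0 hr
  have hmk' : ms (fun k => T k c) {k | r < f k} ≤ δ / r :=
    hmk.trans (div_le_div_of_nonneg_right hav hr.le)
  have hco := ms_compl (a := fun k => T k c) (hT.summ c) {k | r < f k}
  have hle : ms (fun k => T k c) {k | r < f k}ᶜ ≤ ms (fun k => T k c) (Dc T r c) := by
    unfold ms
    refine Summable.tsum_le_tsum (fun k => ?_) (sum_ms (a := fun k => T k c) (hT.summ c) _)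
      (sum_ms (a := fun k => T k c) (hT.summ c) _)
    by_cases hk : k ∈ {k | r < f k}ᶜ
    · by_cases h0 : T k c = 0
      · have hz : |T k c| = 0 := by rw [h0, abs_zero]
        simp only [Set.indicator, hz, ite_self, le_refl]
      · have hkD : k ∈ Dc T r c := by
          refine ⟨sg (T k c), ?_, ?_⟩
          · rcases sg_cases (T k c) with h | h | h
            · exact Or.inl h.2
            · exact absurd h.1 h0
            · exact Or.inr h.2
          · have : ¬ r < f k := hk
            exact not_lt.1 this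
        rw [Set.indicator_of_mem hk, Set.indicator_of_mem hkD]
    · rw [Set.indicator_of_notMem hk]
      exact Set.indicator_nonneg (fun i _ => abs_nonneg _) k
  have hcn : ∑' j, |T j c| = cn T c := rfl
  have hco' : ms (fun k => T k c) {k | r < f k} + ms (fun k => T k c) {k | r < f k}ᶜ = cn T c := hco
  linarith

private theorem massD_ge (hT : Proj T ε) {r m : ℝ} {c l : ℕ} {D : Set ℕ}
    (hc : m ≤ ms (fun i => T i c) D) (hl : l ∈ Dc T r c) : m - r ≤ ms (fun i => T i l) D := by
  obtain ⟨e, he, h1⟩ := hl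
  have hs1 := summ_diff hT (abs_pm he).le l c
  have hs2 := sum_ms (a := fun i => T i l) (hT.summ l) D
  have hs3 := sum_ms (a := fun i => T i c) (hT.summ c) D
  have hpt : ∀ i, D.indicator (fun i => |T i c|) i ≤ D.indicator (fun i => |T i l|) i +
      |T i l - e * T i c| := by
    intro i
    by_cases hi : i ∈ D
    · rw [Set.indicator_of_mem hi, Set.indicator_of_mem hi]
      have a1 : |(|T i l| - |T i c|)| ≤ |T i l - e * T i c| := by
        have := abs_abs_sub_abs_le_abs_sub (T i l) (e * T i c)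
        rwa [abs_mul, abs_pm he, one_mul] at this
      have b1 := abs_le.1 a1
      linarith [b1.1]
    · rw [Set.indicator_of_notMem hi, Set.indicator_of_notMem hi, zero_add]
      exact abs_nonneg _
  have hsum := Summable.tsum_le_tsum hpt hs3 (hs2.add hs1)
  rw [Summable.tsum_add hs2 hs1] at hsum
  unfold ms at hc ⊢
  linarith

theorem exists_clus (hT : Proj T ε) {r : ℝ} (hr : 0 < r) (hr1 : r ≤ 1 / 100)
    (hε : ε ≤ r ^ 2 / 27 / 100) : ∃ C : Set ℕ, Clus T (r ^ 2 / 27) r C := by
  have hr2 : r ^ 2 ≤ r * (1 / 100) := by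
    rw [pow_two]
    exact mul_le_mul_of_nonneg_left hr1 hr.le
  have hr20 : 0 < r ^ 2 := by positivity
  set S : Set (Set ℕ) := {C | (∀ c ∈ C, Atom T (r ^ 2 / 27) c) ∧
    ∀ c ∈ C, ∀ c' ∈ C, c ≠ c' → ∑' i, min |T i c| |T i c'| < 1 / 4} with hS
  obtain ⟨C, hC⟩ : ∃ C, Maximal (· ∈ S) C := by
    refine zorn_subset S ?_
    intro ch hch hchain
    refine ⟨⋃₀ ch, ⟨?_, ?_⟩, fun s hs => Set.subset_sUnion_of_mem hs⟩
    · rintro c ⟨s, hs, hc⟩
      exact (hch hs).1 c hc
    · rintro c ⟨s, hs, hc⟩ c' ⟨s', hs', hc'⟩ hne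
      rcases hchain.total hs hs' with h | h
      · exact (hch hs').2 c (h hc) c' hc' hne
      · exact (hch hs).2 c hc c' (h hc') hne
  have hCS : C ∈ S := hC.prop
  have hmass : ∀ c ∈ C, 1 - r ≤ ms (fun i => T i c) (Dc T r c) := by
    intro c hc
    have h1 := mass_ge hT hr (hCS.1 c hc)
    have h2 : r ^ 2 / 27 / r = r / 27 := by field_simp
    rw [h2] at h1
    linarith
  refine ⟨C, ⟨hCS.1, ?_, ?_, hmass, ?_⟩⟩
  · intro c hc c' hc' hne
    rw [Set.disjoint_left]
    intro l hl hl'
    have h1 := overlap_ge hT (hCS.1 c hc).1 (hCS.1 c' hc').1 hl hl'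
    have h2 := hCS.2 c hc c' hc' hne
    linarith
  · intro j hj
    by_cases hjC : j ∈ C
    · refine ⟨j, hjC, 1, Or.inl rfl, ?_⟩
      have h0 : (fun i => |T i j - 1 * T i j|) = fun _ => (0 : ℝ) := by
        funext i
        rw [one_mul, sub_self, abs_zero]
      rw [h0, tsum_zero]
      exact hr.le
    · by_contra hcon
      push Not at hcon
      have hov : ∀ c ∈ C, ∑' i, min |T i j| |T i c| < 1 / 4 := by
        intro c hc
        by_contra hge
        rw [not_lt] at hge
        obtain ⟨e, he, h1⟩ := overlap hT hε (by positivity) (by linarith) hj (hCS.1 c hc) hge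
        exact hcon c hc ⟨e, he, h1.trans (by linarith)⟩
      have hins : insert j C ∈ S := by
        refine ⟨?_, ?_⟩
        · intro c hc
          rcases Set.mem_insert_iff.1 hc with h | h
          · rw [h]; exact hj
          · exact hCS.1 c h
        · intro c hc c' hc' hne
          rcases Set.mem_insert_iff.1 hc with h | h
          · rcases Set.mem_insert_iff.1 hc' with h' | h'
            · exact absurd (h.trans h'.symm) hne
            · rw [h]; exact hov c' h'
          · rcases Set.mem_insert_iff.1 hc' with h' | h'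
            · rw [h']
              have := hov c h
              rw [show (fun i => min |T i c| |T i j|) = fun i => min |T i j| |T i c| from
                funext fun i => min_comm _ _]
              exact this
            · exact hCS.2 c h c' h' hne
      exact hjC (hC.le_of_ge hins (Set.subset_insert j C) (Set.mem_insert j C))
  · intro c hc l hl
    have h1 := massD_ge hT (hmass c hc) hl
    linarith

end Pool.Agent.H87.ZI
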