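import Mathlib

/-!
# Projections of norm `1 + ε` on `ℓ₁`: definitions

`T` is an infinite real matrix; column number `j` is `fun i => T i j`, its norm is `cn T j`.
`Proj T ε`: `T` is the matrix of a projection of norm at most `1 + ε` on `ℓ₁`.
`St T x`: `x` is a state, that is a vector of norm one with `T x = x`.
`av a f` is the sum of `|a j| f j`, `ms a B` the sum of `|a j|` over `j ∈ B`, `Kf T f j` the average of `f` against
the absolute value of column `j`.
`Hs T w j` is the hockey stick divergence of column `j` over the weight `w`.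
-/

namespace Pool.Agent.H87.ZI

/-- `T` is the matrix of a projection of norm at most `1 + ε` on `ℓ₁`. -/
structure Proj (T : ℕ → ℕ → ℝ) (ε : ℝ) : Prop where
  eps0 : 0 ≤ ε
  eps1 : ε ≤ 1 / 1000
  summ : ∀ j, Summable fun i => |T i j|
  norm : ∀ j, ∑' i, |T i j| ≤ 1 + ε
  idem : ∀ i j, T i j = ∑' k, T i k * T k j

/-- A state: a vector of norm one fixed by `T`. -/
structure St (T : ℕ → ℕ → ℝ) (x : ℕ → ℝ) : Prop where
  summ : Summable fun i => |x i|
  one : ∑' i, |x i| = 1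
  fix : ∀ i, x i = ∑' k, T i k * x k

/-- The norm of column number `j`. -/
noncomputable def cn (T : ℕ → ℕ → ℝ) (j : ℕ) : ℝ := ∑' i, |T i j|

/-- The vector `T v`. -/
noncomputable def Tv (T : ℕ → ℕ → ℝ) (v : ℕ → ℝ) (i : ℕ) : ℝ := ∑' k, T i k * v k

/-- The average of `f` against `|a|`. -/
noncomputable def av (a f : ℕ → ℝ) : ℝ := ∑' j, |a j| * f j

/-- The average of `f` against the absolute value of column number `j`. -/
noncomputable def Kf (T : ℕ → ℕ → ℝ) (f : ℕ → ℝ) (j : ℕ) : ℝ := ∑' k, |T k j| * f k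

/-- The mass of the set `B` under `|a|`. -/
noncomputable def ms (a : ℕ → ℝ) (B : Set ℕ) : ℝ := ∑' j, B.indicator (fun j => |a j|) j

/-- The sum of `|x j| |T i j|` over `j`. -/
noncomputable def cc (T : ℕ → ℕ → ℝ) (x : ℕ → ℝ) (i : ℕ) : ℝ := ∑' j, |x j| * |T i j|

/-- The hockey stick divergence of column number `j` over the weight `w`. -/
noncomputable def Hs (T : ℕ → ℕ → ℝ) (w : ℕ → ℝ) (j : ℕ) : ℝ := ∑' i, max (|T i j| - w i) 0

/-- The weight `γ |x|`. -/
def wt (γ : ℝ) (x : ℕ → ℝ) : ℕ → ℝ := fun i => γ * |x i|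

/-- The average of the hockey stick divergence of the columns over `γ |x|`. -/
noncomputable def mm (T : ℕ → ℕ → ℝ) (x : ℕ → ℝ) (γ : ℝ) : ℝ := av x (Hs T (wt γ x))

/-- The variance of `f` around `f j` under column number `j`. -/
noncomputable def Vr (T : ℕ → ℕ → ℝ) (f : ℕ → ℝ) (j : ℕ) : ℝ := ∑' k, |T k j| * (f k - f j) ^ 2

/-- The defect of `Hs`: the sum of `(w i - |T i k|)⁺` over the `i` with `w i < |T i j|` and of
`(|T i k| - w i)⁺` over the other `i`. -/
noncomputable def Er (T : ℕ → ℕ → ℝ) (w : ℕ → ℝ) (j k : ℕ) : ℝ :=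
  ∑' i, if w i < |T i j| then max (w i - |T i k|) 0 else max (|T i k| - w i) 0

/-- The mass of column number `j` on the set where it is at most `γ |x|`. -/
noncomputable def low (T : ℕ → ℕ → ℝ) (x : ℕ → ℝ) (γ : ℝ) (j : ℕ) : ℝ :=
  ms (fun i => T i j) {i | |T i j| ≤ γ * |x i|}

/-- The sign of a real number, as a real number. -/
noncomputable def sg (a : ℝ) : ℝ := ((SignType.sign a : SignType) : ℝ)

theorem sg_mul_abs (a : ℝ) : sg a * |a| = a := sign_mul_abs a

theorem sg_mul_self (a : ℝ) : sg a * a = |a| := sign_mul_self a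

theorem sg_cases (a : ℝ) : (0 < a ∧ sg a = 1) ∨ (a = 0 ∧ sg a = 0) ∨ (a < 0 ∧ sg a = -1) := by
  rcases lt_trichotomy a 0 with h | h | h
  · right; right
    exact ⟨h, by simp [sg, h]⟩
  · right; left
    exact ⟨h, by simp [sg, h]⟩
  · left
    exact ⟨h, by simp [sg, h]⟩

theorem abs_sg_le (a : ℝ) : |sg a| ≤ 1 := by
  rcases sg_cases a with h | h | h <;> rw [h.2] <;> norm_num

theorem sg_mul_sg {a : ℝ} (h : a ≠ 0) : sg a * sg a = 1 := by
  rcases sg_cases a with h' | h' | h'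
  · rw [h'.2]; norm_num
  · exact absurd h'.1 h
  · rw [h'.2]; norm_num

/-- Column `j` is an atom: its norm is at least `1 - δ` and on average, against `|T k j|`, column `k` is within `δ`
of `± ` column `j`. -/
def Atom (T : ℕ → ℕ → ℝ) (δ : ℝ) (j : ℕ) : Prop :=
  1 - δ ≤ cn T j ∧ ∑' k, |T k j| * ∑' i, |T i k - sg (T k j) * T i j| ≤ δ

/-- The cluster of `c`: the columns which are within `r` of `±` column `c`. -/
def Dc (T : ℕ → ℕ → ℝ) (r : ℝ) (c : ℕ) : Set ℕ :=
  {l | ∃ e : ℝ, (e = 1 ∨ e = -1) ∧ ∑' i, |T i l - e * T i c| ≤ r}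

/-- `C` is a set of centres of disjoint clusters which contain all atoms. -/
structure Clus (T : ℕ → ℕ → ℝ) (δ r : ℝ) (C : Set ℕ) : Prop where
  atom : ∀ c ∈ C, Atom T δ c
  disj : ∀ c ∈ C, ∀ c' ∈ C, c ≠ c' → Disjoint (Dc T r c) (Dc T r c')
  cover : ∀ j, Atom T δ j → ∃ c ∈ C, j ∈ Dc T r c
  mass : ∀ c ∈ C, 1 - r ≤ ms (fun i => T i c) (Dc T r c)
  massD : ∀ c ∈ C, ∀ l ∈ Dc T r c, 1 - 2 * r ≤ ms (fun i => T i l) (Dc T r c)

/-- The largest mass of column `j` in a cluster. -/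
noncomputable def Sf (T : ℕ → ℕ → ℝ) (r : ℝ) (C : Set ℕ) (j : ℕ) : ℝ :=
  ⨆ c : C, ms (fun i => T i j) (Dc T r c)

/-- `Q` is a set of states such that from every state of `Q` one stays in `Q` off a set of small mass. -/
structure Cls (T : ℕ → ℕ → ℝ) (Q : Set (ℕ → ℝ)) : Prop where
  st : ∀ x ∈ Q, St T x
  step : ∀ x ∈ Q, ∃ B : Set ℕ, ms x B ≤ 1 / 40 ∧ ∀ j ∉ B, 0 < cn T j ∧ (fun i => T i j / cn T j) ∈ Q

end Pool.Agent.H87.ZI
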