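import Pool.Agent.H87.ZI.Inv

/-!
# Nearly invariant functions (Z2)

`0 ≤ Φ ≤ 2` and `Φ ≤ K Φ + 2 ε` pointwise. Expand the square:
`V(j) = K(Φ²)(j) - 2 Φ(j) KΦ(j) + Φ(j)² cn T j`. Here `av x (K (Φ²)) ≤ av x (Φ²) + 4 ε` (`inv` with `C = 4`),
`- 2 Φ KΦ ≤ - 2 Φ (Φ - 2 ε) ≤ - 2 Φ² + 8 ε`, and `Φ² cn ≤ Φ² (1 + ε) ≤ Φ² + 4 ε`. The sum of the three averages is at
most `16 ε`.

The gap `KΦ - Φ + 2 ε` is nonnegative with average at most `2 ε + 2 ε` (`inv` with `C = 2`).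
-/

namespace Pool.Agent.H87.ZI

variable {T : ℕ → ℕ → ℝ} {ε : ℝ}

theorem Vr_nonneg (T : ℕ → ℕ → ℝ) (f : ℕ → ℝ) (j : ℕ) : 0 ≤ Vr T f j :=
  tsum_nonneg fun _ => mul_nonneg (abs_nonneg _) (sq_nonneg _)

private theorem NI_sq {Φ : ℕ → ℝ} (h0 : ∀ j, 0 ≤ Φ j) (h2 : ∀ j, Φ j ≤ 2) (j k : ℕ) :
    |(Φ k - Φ j) ^ 2| ≤ 4 := by
  rw [abs_of_nonneg (sq_nonneg _)]
  have h1 := h0 j
  have h3 := h0 k
  have h4 := h2 j
  have h5 := h2 k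
  have h6 : |Φ k - Φ j| ≤ 2 := by
    rw [abs_le]
    constructor <;> linarith
  calc (Φ k - Φ j) ^ 2 = |Φ k - Φ j| ^ 2 := (sq_abs _).symm
    _ ≤ 2 ^ 2 := pow_le_pow_left₀ (abs_nonneg _) h6 2
    _ = 4 := by norm_num

private theorem NI_bd {Φ : ℕ → ℝ} (h0 : ∀ j, 0 ≤ Φ j) (h2 : ∀ j, Φ j ≤ 2) (j : ℕ) :
    |Φ j| ≤ 2 := by
  rw [abs_of_nonneg (h0 j)]
  exact h2 j

private theorem NI_bd2 {Φ : ℕ → ℝ} (h0 : ∀ j, 0 ≤ Φ j) (h2 : ∀ j, Φ j ≤ 2) (j : ℕ) :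
    |Φ j ^ 2| ≤ 4 := by
  rw [abs_of_nonneg (sq_nonneg _)]
  calc Φ j ^ 2 ≤ 2 ^ 2 := pow_le_pow_left₀ (h0 j) (h2 j) 2
    _ = 4 := by norm_num

theorem Vr_le (hT : Proj T ε) {Φ : ℕ → ℝ} (h0 : ∀ j, 0 ≤ Φ j) (h2 : ∀ j, Φ j ≤ 2) (j : ℕ) :
    Vr T Φ j ≤ 5 := by
  have h1 : Vr T Φ j = av (fun k => T k j) (fun k => (Φ k - Φ j) ^ 2) := rfl
  have h3 := (le_abs_self _).trans
    (av_abs_le (a := fun k => T k j) (f := fun k => (Φ k - Φ j) ^ 2) (hT.summ j)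
      (fun k => NI_sq h0 h2 j k))
  rw [h1]
  have h4 := hT.norm j
  have h5 := hT.eps1
  linarith

/-- The expansion of the variance. -/
private theorem NI_expand (hT : Proj T ε) {Φ : ℕ → ℝ} (h0 : ∀ j, 0 ≤ Φ j) (h2 : ∀ j, Φ j ≤ 2)
    (j : ℕ) : Vr T Φ j = Kf T (fun k => Φ k ^ 2) j - 2 * Φ j * Kf T Φ j + Φ j ^ 2 * cn T j := by
  have s1 : Summable fun k => |T k j| * Φ k ^ 2 :=
    sum_av (a := fun k => T k j) (f := fun k => Φ k ^ 2) (hT.summ j) (fun k => NI_bd2 h0 h2 k)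
  have s2 : Summable fun k => |T k j| * Φ k :=
    sum_av (a := fun k => T k j) (f := Φ) (hT.summ j) (fun k => NI_bd h0 h2 k)
  unfold Vr Kf cn
  rw [← tsum_mul_left, ← tsum_mul_left, ← s1.tsum_sub (s2.mul_left _),
    ← (s1.sub (s2.mul_left _)).tsum_add ((hT.summ j).mul_left _)]
  exact tsum_congr fun k => by ring

theorem av_Vr (hT : Proj T ε) {x Φ : ℕ → ℝ} (hx : St T x) (h0 : ∀ j, 0 ≤ Φ j) (h2 : ∀ j, Φ j ≤ 2)
    (hK : ∀ j, Φ j ≤ Kf T Φ j + 2 * ε) : av x (Vr T Φ) ≤ 16 * ε := by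
  have he0 := hT.eps0
  have he1 := hT.eps1
  have hKf : ∀ j, |Kf T (fun k => Φ k ^ 2) j| ≤ 5 := by
    intro j
    have h1 := hT.Kf_bd (f := fun k => Φ k ^ 2) (fun k => NI_bd2 h0 h2 k) j
    linarith
  have hPhi : ∀ j, |Φ j ^ 2| ≤ 5 := fun j => (NI_bd2 h0 h2 j).trans (by norm_num)
  have hcst : ∀ _ : ℕ, |12 * ε| ≤ 5 := by
    intro _
    rw [abs_of_nonneg (by linarith)]
    linarith
  have hsub : ∀ j, |Kf T (fun k => Φ k ^ 2) j - Φ j ^ 2| ≤ 10 := by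
    intro j
    have h3 := abs_sub (Kf T (fun k => Φ k ^ 2) j) (Φ j ^ 2)
    have h4 := hKf j
    have h5 := hPhi j
    linarith
  have hcst' : ∀ _ : ℕ, |12 * ε| ≤ 10 := fun j => (hcst j).trans (by norm_num)
  have hadd : ∀ j, |(Kf T (fun k => Φ k ^ 2) j - Φ j ^ 2) + 12 * ε| ≤ 20 := by
    intro j
    have h3 := abs_add_le (Kf T (fun k => Φ k ^ 2) j - Φ j ^ 2) (12 * ε)
    have h4 := hsub j
    have h5 := hcst' j
    linarith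
  have h3 : av x (Vr T Φ) ≤
      av x (fun j => (Kf T (fun k => Φ k ^ 2) j - Φ j ^ 2) + 12 * ε) := by
    apply av_mono (C := 20) hx.summ _ hadd
    · intro j
      rw [NI_expand hT h0 h2 j]
      have h4 : 2 * Φ j * (Φ j - 2 * ε) ≤ 2 * Φ j * Kf T Φ j :=
        mul_le_mul_of_nonneg_left (by linarith [hK j]) (by linarith [h0 j])
      have h5 : Φ j ^ 2 * cn T j ≤ Φ j ^ 2 * (1 + ε) :=
        mul_le_mul_of_nonneg_left (hT.cn_le j) (sq_nonneg _)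
      have h6 : Φ j ^ 2 * ε ≤ 4 * ε :=
        mul_le_mul_of_nonneg_right ((le_abs_self _).trans (NI_bd2 h0 h2 j)) he0
      have h7 : Φ j * ε ≤ 2 * ε := mul_le_mul_of_nonneg_right (h2 j) he0
      nlinarith
    · intro j
      rw [abs_of_nonneg (Vr_nonneg T Φ j)]
      exact (Vr_le hT h0 h2 j).trans (by norm_num)
  refine h3.trans ?_
  rw [av_add (C := 10) (f := fun j => Kf T (fun k => Φ k ^ 2) j - Φ j ^ 2) (g := fun _ => 12 * ε)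
      hx.summ hsub hcst',
    av_sub (C := 5) (f := Kf T (fun k => Φ k ^ 2)) (g := fun j => Φ j ^ 2) hx.summ hKf hPhi,
    av_const, hx.one]
  have h8 := (le_abs_self _).trans (inv hT hx (f := fun k => Φ k ^ 2)
    (fun k => NI_bd2 h0 h2 k))
  linarith

theorem av_gap (hT : Proj T ε) {x Φ : ℕ → ℝ} (hx : St T x) (h0 : ∀ j, 0 ≤ Φ j) (h2 : ∀ j, Φ j ≤ 2) :
    av x (fun j => Kf T Φ j - Φ j + 2 * ε) ≤ 4 * ε := by
  have he0 := hT.eps0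
  have he1 := hT.eps1
  have hKf : ∀ j, |Kf T Φ j| ≤ 3 := by
    intro j
    have h1 := hT.Kf_bd (f := Φ) (fun k => NI_bd h0 h2 k) j
    linarith
  have hPhi : ∀ j, |Φ j| ≤ 3 := fun j => (NI_bd h0 h2 j).trans (by norm_num)
  have hsub : ∀ j, |Kf T Φ j - Φ j| ≤ 6 := by
    intro j
    have h3 := abs_sub (Kf T Φ j) (Φ j)
    have h4 := hKf j
    have h5 := hPhi j
    linarith
  have hcst : ∀ _ : ℕ, |2 * ε| ≤ 6 := by
    intro _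
    rw [abs_of_nonneg (by linarith)]
    linarith
  rw [av_add (C := 6) (f := fun j => Kf T Φ j - Φ j) (g := fun _ => 2 * ε) hx.summ hsub hcst,
    av_sub (C := 3) (f := Kf T Φ) (g := Φ) hx.summ hKf hPhi, av_const, hx.one]
  have h8 := (le_abs_self _).trans (inv hT hx (f := Φ) (fun k => NI_bd h0 h2 k))
  linarith

/-- Cauchy and Schwarz under column `j`: if `Vr T Φ j ≤ v` then the average of `|Φ k - Φ j|` is at most
`√((1 + ε) v)`. -/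
theorem Vr_cs (hT : Proj T ε) {Φ : ℕ → ℝ} (h0 : ∀ j, 0 ≤ Φ j) (h2 : ∀ j, Φ j ≤ 2) (j : ℕ) {v : ℝ}
    (hv : Vr T Φ j ≤ v) : ∑' k, |T k j| * |Φ k - Φ j| ≤ √((1 + ε) * v) := by
  have he0 := hT.eps0
  have hb : ∀ k, |Φ k - Φ j| ≤ 2 := by
    intro k
    have h1 := h0 j
    have h3 := h0 k
    have h4 := h2 j
    have h5 := h2 k
    rw [abs_le]
    constructor <;> linarith
  have h1 := av_cs (a := fun k => T k j) (f := fun k => Φ k - Φ j) (hT.summ j) (hT.norm j) hb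
  refine h1.trans (Real.sqrt_le_sqrt ?_)
  exact mul_le_mul_of_nonneg_left hv (by linarith)

end Pool.Agent.H87.ZI
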