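import Pool.Agent.H87.ZI.SfB
import Pool.Agent.H87.ZI.NI

/-!
# Dichotomy (Z12)

`S = Sf T r C`, `0 < r ≤ 1/100`, `0 < η < r/2`, `η ≤ 1/1000`, `ε ≤ η⁴`. `S` satisfies the hypotheses of `av_Vr` (`Sf_sub`,
`Sf_nonneg`, `Sf_le`). Let `B` be the set where `Vr T S > η³` or `|1 - cn| > η`: mass at most
`16 ε/η³ + 2 ε/η ≤ 18 η` (`av_Vr`, `inv_cn`, `markov`, `ms_union_le`).

Let `j ∉ B` and `η < S j < 1 - 4 r`. There is `c ∈ C` with `ms (column j) D_c > η` (`Sf_ex`); for `k ∈ D_c`,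
`S k - S j ≥ 1 - 2 r - S j ≥ 2 r` (`Sf_D`), so `Vr T S j ≥ ∑_{k ∈ D_c} |T k j| (2 r)² > 4 η r² > η³`: contradiction.

The last assertion: `∑ₖ |T k j| |S k - S j| ≤ √((1 + ε) η³) ≤ η` (`Vr_cs`), so
`K S (j) ≤ cn T j S j + η ≤ …`; we state it as `∑ₖ |T k j| |S k - S j| ≤ η`.
-/

namespace Pool.Agent.H87.ZI

variable {T : ℕ → ℕ → ℝ} {ε : ℝ} {δ r : ℝ} {C : Set ℕ}

theorem dich (hT : Proj T ε) (hC : Clus T δ r C) (hr : 0 < r) (hr1 : r ≤ 1 / 100) {η : ℝ} (hη : 0 < η)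
    (hη1 : η ≤ 1 / 1000) (hηr : η < r / 2) (hε : ε ≤ η ^ 4) {x : ℕ → ℝ} (hx : St T x) :
    ∃ B : Set ℕ, ms x B ≤ 20 * η ∧ ∀ j ∉ B, |1 - cn T j| ≤ η ∧
      (Sf T r C j ≤ η ∨ 1 - 4 * r ≤ Sf T r C j) ∧
      ∑' k, |T k j| * |Sf T r C k - Sf T r C j| ≤ η := by
  have he0 := hT.eps0
  have he1 := hT.eps1
  have h0 : ∀ j, 0 ≤ Sf T r C j := Sf_nonneg T r C
  have h1 : ∀ j, Sf T r C j ≤ 1 + ε := Sf_le hT r C
  have h2 : ∀ j, Sf T r C j ≤ 2 := fun j => (h1 j).trans (by linarith)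
  have hV : av x (Vr T (Sf T r C)) ≤ 16 * ε :=
    av_Vr hT hx h0 h2 (fun j => (Sf_sub hT r C j).trans (by linarith))
  have hVbd : ∀ j, |Vr T (Sf T r C) j| ≤ 5 := fun j => by
    rw [abs_of_nonneg (Vr_nonneg T _ j)]
    exact Vr_le hT h0 h2 j
  have hη3 : 0 < η ^ 3 := by positivity
  have m1 : ms x {j | η ^ 3 < Vr T (Sf T r C) j} ≤ av x (Vr T (Sf T r C)) / η ^ 3 :=
    markov hx.summ hVbd (Vr_nonneg T _) hη3
  have m1' : ms x {j | η ^ 3 < Vr T (Sf T r C) j} ≤ 16 * η := by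
    refine m1.trans ?_
    rw [div_le_iff₀ hη3]
    nlinarith
  have hcbd : ∀ j, |(fun j => |1 - cn T j|) j| ≤ 2 := fun j => by
    change |(|1 - cn T j|)| ≤ 2
    rw [abs_abs, abs_le]
    have a1 := hT.cn_nonneg j
    have a2 := hT.cn_le j
    constructor <;> linarith
  have m2 : ms x {j | η < |1 - cn T j|} ≤ av x (fun j => |1 - cn T j|) / η :=
    markov hx.summ hcbd (fun j => abs_nonneg _) hη
  have m2' : ms x {j | η < |1 - cn T j|} ≤ 2 * η := by
    refine m2.trans ?_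
    rw [div_le_iff₀ hη]
    have a1 := inv_cn hT hx
    have a2 : η ^ 4 ≤ η * η := by
      have b1 : η ^ 2 ≤ 1 := by nlinarith
      have b2 : η ^ 4 = η * η * η ^ 2 := by ring
      rw [b2]
      have b3 : 0 ≤ η * η := by positivity
      nlinarith
    nlinarith
  refine ⟨{j | η ^ 3 < Vr T (Sf T r C) j} ∪ {j | η < |1 - cn T j|}, ?_, ?_⟩
  · refine (ms_union_le hx.summ _ _).trans ?_
    linarith
  intro j hj
  rw [Set.mem_union, not_or] at hj
  have hVj : Vr T (Sf T r C) j ≤ η ^ 3 := not_lt.1 hj.1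
  have hcj : |1 - cn T j| ≤ η := not_lt.1 hj.2
  refine ⟨hcj, ?_, ?_⟩
  · by_contra hcon
    rw [not_or, not_le, not_le] at hcon
    obtain ⟨hS1, hS2⟩ := hcon
    obtain ⟨c, hc, hcm⟩ := Sf_ex hη.le hS1
    have key : 4 * r ^ 2 * ms (fun i => T i j) (Dc T r c) ≤ Vr T (Sf T r C) j := by
      rw [← av_ind, ← av_mul]
      change av (fun i => T i j) (fun k => 4 * r ^ 2 * (Dc T r c).indicator (fun _ => 1) k) ≤
        av (fun i => T i j) (fun k => (Sf T r C k - Sf T r C j) ^ 2)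
      refine av_mono (C := 5) (hT.summ j) (fun k => ?_) (fun k => ?_) (fun k => ?_)
      · have a1 : 0 ≤ (Dc T r c).indicator (fun _ => (1 : ℝ)) k :=
          Set.indicator_nonneg (fun _ _ => zero_le_one) k
        have a2 : (Dc T r c).indicator (fun _ => (1 : ℝ)) k ≤ 1 :=
          Set.indicator_apply_le' (fun _ => le_rfl) (fun _ => zero_le_one)
        have a3 : 4 * r ^ 2 ≤ 1 := by nlinarith
        have a4 : 0 ≤ 4 * r ^ 2 := by positivity
        rw [abs_of_nonneg (mul_nonneg a4 a1)]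
        nlinarith
      · have a1 := h0 k
        have a2 := h0 j
        have a3 := h1 k
        have a4 := h1 j
        rw [abs_of_nonneg (sq_nonneg _)]
        nlinarith [mul_nonneg a1 a2]
      · by_cases hk : k ∈ Dc T r c
        · rw [Set.indicator_of_mem hk, mul_one]
          have a1 := Sf_D hT hC hc hk
          have a2 : 2 * r ≤ Sf T r C k - Sf T r C j := by linarith
          nlinarith
        · rw [Set.indicator_of_notMem hk, mul_zero]
          exact sq_nonneg _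
    have a1 : η ^ 3 ≤ 4 * r ^ 2 * η := by
      have b1 : η * η ≤ (r / 2) * (r / 2) := mul_le_mul hηr.le hηr.le hη.le (by positivity)
      have b2 : η ^ 3 = (η * η) * η := by ring
      rw [b2]
      have b3 : (η * η) * η ≤ ((r / 2) * (r / 2)) * η := mul_le_mul_of_nonneg_right b1 hη.le
      have b4 : 0 ≤ r * r * η := by positivity
      nlinarith
    have a2 : 4 * r ^ 2 * η < 4 * r ^ 2 * ms (fun i => T i j) (Dc T r c) :=
      mul_lt_mul_of_pos_left hcm (by positivity)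
    linarith
  · refine (Vr_cs hT h0 h2 j hVj).trans ?_
    have a1 : (1 + ε) * η ^ 3 ≤ η ^ 2 := by
      have b1 : (1 + ε) * η ≤ 1 := by nlinarith
      have b2 : (1 + ε) * η ^ 3 = ((1 + ε) * η) * η ^ 2 := by ring
      rw [b2]
      have b3 : 0 ≤ η ^ 2 := by positivity
      nlinarith
    calc √((1 + ε) * η ^ 3) ≤ √(η ^ 2) := Real.sqrt_le_sqrt a1
      _ = η := Real.sqrt_sq hη.le

end Pool.Agent.H87.ZI
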