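import Pool.Agent.H87.ZI.BasT

/-!
# Invariance of the average (Z1)

`x` a state, `|f| ≤ C`. By `av_Kf`, `av x (Kf T f) - av x f = ∑ₖ (cc T x k - |x k|) f k`, where
`cc T x k - |x k| ≥ 0` (`cc_ge`) and the sum over `k` is at most `(1 + ε) - 1 = ε` (`cc_sum_le`). So the difference is
at most `C ε` in absolute value.

For `f = 1`: `∑ₖ cc T x k = ∑ⱼ |x j| cn T j ≥ 1` (`cc_sum`, `cc_ge`), so the average of `1 + ε - cn T j ≥ 0` is at most
`ε`, and `|1 - cn T j| ≤ (1 + ε - cn T j) + ε`.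

`sum_ccJ`: for `J = {k | 2 |x k| < cc T x k}`: `∑_{k ∈ J} cc T x k ≤ 2 ε`, since `cc ≤ 2 (cc - |x|)` on `J`.
-/

namespace Pool.Agent.H87.ZI

variable {T : ℕ → ℕ → ℝ} {ε : ℝ}

theorem inv (hT : Proj T ε) {x f : ℕ → ℝ} (hx : St T x) {C : ℝ} (hf : ∀ k, |f k| ≤ C) :
    |av x (Kf T f) - av x f| ≤ ε * C := by
  have hC : 0 ≤ C := (abs_nonneg (f 0)).trans (hf 0)
  rw [av_Kf hT hx.summ hf]
  have h1 : Summable fun k => cc T x k * f k := by
    apply Summable.of_norm_bounded ((cc_summable hT hx.summ).mul_right C)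
    intro k
    rw [norm_mul, Real.norm_eq_abs, Real.norm_eq_abs, abs_of_nonneg (cc_nonneg T x k)]
    exact mul_le_mul_of_nonneg_left (hf k) (cc_nonneg T x k)
  have h2 : Summable fun k => |x k| * f k := sum_av hx.summ hf
  have h3 : ∑' k, cc T x k * f k - av x f = ∑' k, (cc T x k - |x k|) * f k := by
    unfold av
    rw [← h1.tsum_sub h2]
    exact tsum_congr fun k => by ring
  rw [h3]
  have h4 : Summable fun k => (cc T x k - |x k|) * C :=
    ((cc_summable hT hx.summ).sub hx.summ).mul_right C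
  have h5 : ‖∑' k, (cc T x k - |x k|) * f k‖ ≤ ∑' k, (cc T x k - |x k|) * C := by
    apply tsum_of_norm_bounded h4.hasSum
    intro k
    have h6 : 0 ≤ cc T x k - |x k| := sub_nonneg.2 (cc_ge hT hx k)
    rw [norm_mul, Real.norm_eq_abs, Real.norm_eq_abs, abs_of_nonneg h6]
    exact mul_le_mul_of_nonneg_left (hf k) h6
  rw [Real.norm_eq_abs] at h5
  refine h5.trans ?_
  rw [tsum_mul_right, (cc_summable hT hx.summ).tsum_sub hx.summ, hx.one]
  have := cc_sum_le hT hx
  exact mul_le_mul_of_nonneg_right (by linarith) hC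

theorem inv_cn (hT : Proj T ε) {x : ℕ → ℝ} (hx : St T x) :
    av x (fun j => |1 - cn T j|) ≤ 2 * ε := by
  have he0 := hT.eps0
  have he1 := hT.eps1
  have hb1 : ∀ j, |(|1 - cn T j| : ℝ)| ≤ 3 := by
    intro j
    rw [abs_abs, abs_le]
    have h1 := hT.cn_nonneg j
    have h2 := hT.cn_le j
    constructor <;> linarith
  have hb2 : ∀ j, |(1 + 2 * ε) - cn T j| ≤ 3 := by
    intro j
    rw [abs_le]
    have h1 := hT.cn_nonneg j
    have h2 := hT.cn_le j
    constructor <;> linarith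
  have h1 : av x (fun j => |1 - cn T j|) ≤ av x (fun j => (1 + 2 * ε) - cn T j) := by
    apply av_mono hx.summ hb1 hb2
    intro j
    rw [abs_le]
    have h1 := hT.cn_nonneg j
    have h2 := hT.cn_le j
    constructor <;> linarith
  refine h1.trans ?_
  have hc : ∀ j, |cn T j| ≤ 3 := by
    intro j
    rw [abs_of_nonneg (hT.cn_nonneg j)]
    have h2 := hT.cn_le j
    linarith
  have hc' : ∀ _ : ℕ, |1 + 2 * ε| ≤ 3 := by
    intro _
    rw [abs_of_nonneg (by linarith)]
    linarith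
  rw [av_sub (f := fun _ => 1 + 2 * ε) (g := cn T) hx.summ hc' hc, av_const, hx.one]
  have h3 : av x (cn T) = ∑' k, cc T x k := (cc_sum hT hx.summ).symm
  rw [h3]
  have h4 : ∑' k, |x k| ≤ ∑' k, cc T x k :=
    hx.summ.tsum_le_tsum (cc_ge hT hx) (cc_summable hT hx.summ)
  rw [hx.one] at h4
  linarith

theorem sum_ccJ (hT : Proj T ε) {x : ℕ → ℝ} (hx : St T x) :
    ∑' k, {k | 2 * |x k| < cc T x k}.indicator (fun k => cc T x k) k ≤ 2 * ε := by
  have h1 : Summable fun k => 2 * (cc T x k - |x k|) :=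
    ((cc_summable hT hx.summ).sub hx.summ).mul_left 2
  have h2 : Summable ({k | 2 * |x k| < cc T x k}.indicator (fun k => cc T x k)) :=
    (cc_summable hT hx.summ).indicator _
  have h3 : ∑' k, {k | 2 * |x k| < cc T x k}.indicator (fun k => cc T x k) k ≤
      ∑' k, 2 * (cc T x k - |x k|) := by
    apply h2.tsum_le_tsum _ h1
    intro k
    have h6 : 0 ≤ cc T x k - |x k| := sub_nonneg.2 (cc_ge hT hx k)
    by_cases hk : 2 * |x k| < cc T x k
    · rw [Set.indicator_of_mem (show k ∈ {k | 2 * |x k| < cc T x k} from hk)]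
      linarith
    · rw [Set.indicator_of_notMem (show k ∉ {k | 2 * |x k| < cc T x k} from hk)]
      linarith
  refine h3.trans ?_
  rw [tsum_mul_left, (cc_summable hT hx.summ).tsum_sub hx.summ, hx.one]
  have := cc_sum_le hT hx
  linarith

end Pool.Agent.H87.ZI
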