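import Pool.Agent.H87.ZI.BasH
import Pool.Agent.H87.ZI.Inv

/-!
# The limit for large ratios (Z7)

`x` a state. Choose a finite set `M` of indices with `∑_{i ∉ M} |x i| ≤ ε + 1/8`, in fact with
`∑_{i ∉ M} |x i| ≤ 1/8`, and drop from `M` the indices with `x i = 0` (the sum does not change). By exchange of sums
`mm T x γ = ∑ᵢ ∑ⱼ |x j| (|T i j| - γ |x i|)⁺`. For `i ∉ M` the inner sum is at most `cc T x i`, and
`∑_{i ∉ M} cc T x i ≤ ∑_{i ∉ M} |x i| + ε ≤ 1/8 + ε` (`cc_ge`, `cc_sum_le`). For `i ∈ M` the inner sum is `0` as soon as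
`γ |x i| ≥ 2`, because `|T i j| ≤ 1 + ε ≤ 2`; this holds for all `i ∈ M` when `γ` is large.
-/

namespace Pool.Agent.H87.ZI

variable {T : ℕ → ℕ → ℝ} {ε : ℝ}

theorem lim (hT : Proj T ε) {x : ℕ → ℝ} (hx : St T x) :
    ∃ γ0 : ℝ, 0 < γ0 ∧ ∀ γ, γ0 ≤ γ → mm T x γ ≤ 1 / 2 := by
  classical
  obtain ⟨M, hM⟩ : ∃ M : Finset ℕ, (7 / 8 : ℝ) < ∑ i ∈ M, |x i| := by
    have h1 : HasSum (fun i => |x i|) 1 := by
      rw [← hx.one]
      exact hx.summ.hasSum
    exact (h1.eventually (lt_mem_nhds (by norm_num : (7 / 8 : ℝ) < 1))).exists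
  have hM' : ∑ i ∈ M.filter (fun i => x i ≠ 0), |x i| = ∑ i ∈ M, |x i| := by
    rw [Finset.sum_filter]
    refine Finset.sum_congr rfl (fun i _ => ?_)
    by_cases h : x i = 0
    · simp [h]
    · simp [h]
  set M' := M.filter (fun i => x i ≠ 0) with hM'def
  have hsn : ∀ i ∈ M', 0 ≤ 2 / |x i| := fun i _ => by positivity
  refine ⟨1 + ∑ i ∈ M', 2 / |x i|, by linarith [Finset.sum_nonneg hsn], ?_⟩
  intro γ hγ
  have hγ0 : 0 ≤ γ := by linarith [Finset.sum_nonneg hsn]
  have hbig : ∀ i ∈ M', 2 ≤ γ * |x i| := by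
    intro i hi
    have hxi : 0 < |x i| := by
      rw [hM'def, Finset.mem_filter] at hi
      exact abs_pos.2 hi.2
    have h1 : 2 / |x i| ≤ γ := by
      have h2 := Finset.single_le_sum hsn hi
      linarith
    rwa [div_le_iff₀ hxi] at h1
  have hw : ∀ i, 0 ≤ wt γ x i := fun i => mul_nonneg hγ0 (abs_nonneg _)
  -- the double series
  set f : ℕ → ℕ → ℝ := fun j i => |x j| * max (|T i j| - wt γ x i) 0 with hf
  have hf0 : ∀ j i, 0 ≤ f j i := fun j i => mul_nonneg (abs_nonneg _) (le_max_right _ _)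
  have hmax : ∀ j i, max (|T i j| - wt γ x i) 0 ≤ |T i j| := by
    intro j i
    exact max_le (by linarith [hw i]) (abs_nonneg _)
  have hfle : ∀ j i, f j i ≤ |x j| * |T i j| := fun j i =>
    mul_le_mul_of_nonneg_left (hmax j i) (abs_nonneg _)
  have hsum : Summable (Function.uncurry f) := by
    have h1 := sum_double hT hx.summ (F := fun _ => (1 : ℝ)) (C := 1) (fun _ => by norm_num)
    refine Summable.of_nonneg_of_le (fun p => hf0 p.1 p.2) (fun p => ?_) h1
    rw [mul_one]
    exact hfle p.1 p.2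
  have hswap : (∑' i, ∑' j, f j i) = ∑' j, ∑' i, f j i := hsum.tsum_comm
  have hmm : mm T x γ = ∑' i, ∑' j, f j i := by
    rw [hswap]
    unfold mm av Hs
    refine tsum_congr (fun j => ?_)
    rw [← tsum_mul_left]
  have hsg : Summable fun i => ∑' j, f j i := (hsum.prod_symm).prod
  have hfi : ∀ i, Summable fun j => f j i := fun i => (hsum.prod_symm).prod_factor i
  have hci : ∀ i, Summable fun j => |x j| * |T i j| := by
    intro i
    refine Summable.of_nonneg_of_le (fun j => by positivity) (fun j => ?_)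
      (hx.summ.mul_right (1 + ε))
    exact mul_le_mul_of_nonneg_left (hT.entry_le i j) (abs_nonneg _)
  have hg1 : ∀ i, ∑' j, f j i ≤ cc T x i := by
    intro i
    unfold cc
    exact (hfi i).tsum_le_tsum (fun j => hfle j i) (hci i)
  have hg0 : ∀ i ∈ M', ∑' j, f j i = 0 := by
    intro i hi
    have h1 : ∀ j, f j i = 0 := by
      intro j
      have h2 : |T i j| - wt γ x i ≤ 0 := by
        have h3 := hT.entry_le i j
        have h4 := hbig i hi
        have h5 := hT.eps1
        change |T i j| - γ * |x i| ≤ 0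
        linarith
      simp only [hf, max_eq_right h2, mul_zero]
    simp only [h1, tsum_zero]
  have hcs := cc_summable hT hx.summ
  have hi1 : Summable fun i => if i ∈ M' then cc T x i else 0 :=
    summable_of_ne_finset_zero (s := M') (fun i hi => if_neg hi)
  have hi2 : ∑' i, (if i ∈ M' then cc T x i else 0) = ∑ i ∈ M', cc T x i := by
    rw [tsum_eq_sum (s := M') (fun i hi => if_neg hi)]
    exact Finset.sum_congr rfl (fun i hi => if_pos hi)
  have htot : ∑ i ∈ M', cc T x i + ∑' i, ∑' j, f j i ≤ ∑' i, cc T x i := by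
    rw [← hi2, ← hi1.tsum_add hsg]
    refine (hi1.add hsg).tsum_le_tsum (fun i => ?_) hcs
    by_cases hi : i ∈ M'
    · rw [if_pos hi, hg0 i hi, add_zero]
    · rw [if_neg hi, zero_add]
      exact hg1 i
  have h6 : ∑ i ∈ M', |x i| ≤ ∑ i ∈ M', cc T x i :=
    Finset.sum_le_sum (fun i _ => cc_ge hT hx i)
  have h7 := cc_sum_le hT hx
  have h8 := hT.eps1
  rw [hmm]
  linarith

end Pool.Agent.H87.ZI
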