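import Pool.Agent.H87.ZI.Dich
import Pool.Agent.H87.ZI.BootB
import Pool.Agent.H87.ZI.Lim
import Pool.Agent.H87.ZI.At
import Pool.Agent.H87.ZI.ClA

/-!
# Exhaustion (Z13)

`0 < r ≤ 1/100`, `δ = r²/27`, `τ = δ/20`. Take `η > 0` with `η ≤ 1/10000`, `η < r/40` and `η ≤ η_1` of `atoms`, and
`ε_0 = min (η⁴) (δ/100)` (and `≤ 1/1000`). Let `C` be as in `exists_clus`, `S = Sf T r C`.

`Q = {y | St T y ∧ av y S ≤ 1/100}`. `Cls T Q`: for `x ∈ Q` take `B0 = B ∪ {j | 1 - 4 r - 1/100 < S j}` with `B` of `dich`: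
mass at most `20 η + (1/100)/(0.95) ≤ 1/40` (`markov`). For `j ∉ B0`: `S j ≤ η` by the dichotomy, `cn T j ≥ 1 - η > 0`, and
for `y = ` column `j` divided by `cn T j` (a state by `st_col`): `av y S ≤ S j + (1/cn T j) ∑ₖ |T k j| |S k - S j|
≤ η + 2 η ≤ 1/100`.

`Q` is empty: otherwise by `boot_exists` (with `lim`) there is `x ∈ Q` with `mm T x 100000 ≤ 9/10`, by `atoms` the atoms
have mass at least `1/25` under `x`, and `S ≥ 1 - 2 r ≥ 0.98` on atoms (`Sf_atom`), so `av x S ≥ 0.98/25 > 1/100`.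

Now let `x` be any state and `B` the set of `dich` (mass at most `20 η ≤ r`). For `j ∉ B`: if `S j ≤ η`, then the state
`y = ` column `j` divided by `cn T j` lies in `Q` (as above), impossible. So `S j ≥ 1 - 4 r`, and there is `c ∈ C` with
`ms (column j) D_c ≥ 1 - 5 r` (`Sf_ex`).
-/

namespace Pool.Agent.H87.ZI

private theorem Exh_av {T : ℕ → ℕ → ℝ} {ε : ℝ} (hT : Proj T ε) (r : ℝ) (C : Set ℕ) {η : ℝ}
    (hη1 : η ≤ 1 / 10000) {j : ℕ} (hc : |1 - cn T j| ≤ η) (hS : Sf T r C j ≤ η)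
    (hd : ∑' k, |T k j| * |Sf T r C k - Sf T r C j| ≤ η) :
    0 < cn T j ∧ St T (fun i => T i j / cn T j) ∧
      av (fun i => T i j / cn T j) (Sf T r C) ≤ 1 / 100 := by
  have he1 := hT.eps1
  have hcn : 1 - η ≤ cn T j := by
    have := (abs_le.1 hc).2
    linarith
  have hcn0 : 0 < cn T j := by linarith
  refine ⟨hcn0, st_col hT hcn0, ?_⟩
  have h0 : ∀ k, 0 ≤ Sf T r C k := Sf_nonneg T r C
  have h1 : ∀ k, Sf T r C k ≤ 1 + ε := Sf_le hT r C
  have hb : ∀ k, |Sf T r C k| ≤ 4 := fun k => by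
    rw [abs_of_nonneg (h0 k)]
    linarith [h1 k]
  have e1 : av (fun i => T i j / cn T j) (Sf T r C) = av (fun i => T i j) (Sf T r C) / cn T j := by
    unfold av
    rw [← tsum_div_const]
    apply tsum_congr
    intro k
    rw [abs_div, abs_of_pos hcn0]
    ring
  rw [e1, div_le_iff₀ hcn0]
  have hb1 : ∀ k : ℕ, |(fun _ : ℕ => Sf T r C j) k| ≤ 4 := fun k => hb j
  have hb2 : ∀ k : ℕ, |(fun k : ℕ => |Sf T r C k - Sf T r C j|) k| ≤ 4 := fun k => by
    change |(|Sf T r C k - Sf T r C j|)| ≤ 4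
    rw [abs_abs, abs_le]
    have a1 := h0 k
    have a2 := h0 j
    have a3 := h1 k
    have a4 := h1 j
    constructor <;> linarith
  have e2 : av (fun i => T i j) (Sf T r C) ≤
      av (fun i => T i j) (fun k => Sf T r C j + |Sf T r C k - Sf T r C j|) := by
    refine av_mono (C := 8) (hT.summ j) (fun k => (hb k).trans (by norm_num)) (fun k => ?_)
      (fun k => ?_)
    · have a1 : |Sf T r C j| ≤ 4 := hb1 k
      have a2 : |(|Sf T r C k - Sf T r C j|)| ≤ 4 := hb2 k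
      exact (abs_add_le _ _).trans (by linarith)
    · have := le_abs_self (Sf T r C k - Sf T r C j)
      linarith
  have e3 := av_add (hT.summ j) hb1 hb2
  have e4 : av (fun i => T i j) (fun _ : ℕ => Sf T r C j) = Sf T r C j * cn T j := av_const _
  have e5 : av (fun i => T i j) (fun k => |Sf T r C k - Sf T r C j|) ≤ η := hd
  have e6 : Sf T r C j * cn T j ≤ η * cn T j := mul_le_mul_of_nonneg_right hS hcn0.le
  have e7 : av (fun i => T i j) (fun k => Sf T r C j + |Sf T r C k - Sf T r C j|) ≤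
      η * cn T j + η := by
    have e8 : av (fun i => T i j) (fun k => Sf T r C j + |Sf T r C k - Sf T r C j|) =
      av (fun i => T i j) (fun _ : ℕ => Sf T r C j) +
        av (fun i => T i j) (fun k => |Sf T r C k - Sf T r C j|) := e3
    rw [e8, e4]
    linarith
  have hη0 : 0 ≤ η := (abs_nonneg _).trans hc
  nlinarith

theorem exhaust {r : ℝ} (hr : 0 < r) (hr1 : r ≤ 1 / 100) : ∃ ε0 : ℝ, 0 < ε0 ∧ ε0 ≤ r ∧
    ∀ (T : ℕ → ℕ → ℝ) (ε : ℝ), Proj T ε → ε ≤ ε0 → ∃ C : Set ℕ, Clus T (r ^ 2 / 27) r C ∧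
      ∀ x, St T x → ∃ B : Set ℕ, ms x B ≤ r ∧
        ∀ j ∉ B, ∃ c ∈ C, 1 - 5 * r ≤ ms (fun i => T i j) (Dc T r c) := by
  obtain ⟨τ, hτ⟩ : ∃ τ : ℝ, τ = r ^ 2 / 27 / 20 := ⟨_, rfl⟩
  have hτ0 : 0 < τ := by
    rw [hτ]
    positivity
  have hτ1 : τ ≤ 1 / 100 := by
    rw [hτ]
    nlinarith
  have h20 : 20 * τ = r ^ 2 / 27 := by
    rw [hτ]
    ring
  obtain ⟨η1, hη1, hat⟩ := atoms hτ0 hτ1
  obtain ⟨η, hη⟩ : ∃ η : ℝ, η = min (min (1 / 10000) (r / 50)) η1 := ⟨_, rfl⟩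
  have hη0 : 0 < η := by
    rw [hη]
    exact lt_min (lt_min (by norm_num) (by positivity)) hη1
  have hηa : η ≤ 1 / 10000 := by
    rw [hη]
    exact (min_le_left _ _).trans (min_le_left _ _)
  have hηb : η ≤ r / 50 := by
    rw [hη]
    exact (min_le_left _ _).trans (min_le_right _ _)
  have hηc : η ≤ η1 := by
    rw [hη]
    exact min_le_right _ _
  have hη4 : η ^ 4 ≤ η := by
    have b1 : η ^ 3 ≤ 1 := pow_le_one₀ hη0.le (by linarith)
    have b2 : η ^ 4 = η * η ^ 3 := by ring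
    rw [b2]
    nlinarith
  refine ⟨min (η ^ 4) (r ^ 2 / 27 / 100), lt_min (by positivity) (by positivity), ?_, ?_⟩
  · refine (min_le_left _ _).trans ?_
    linarith
  intro T ε hT hε
  have hε4 : ε ≤ η ^ 4 := hε.trans (min_le_left _ _)
  have hεr : ε ≤ r ^ 2 / 27 / 100 := hε.trans (min_le_right _ _)
  obtain ⟨C, hC⟩ := exists_clus hT hr hr1 hεr
  refine ⟨C, hC, ?_⟩
  have h0 : ∀ k, 0 ≤ Sf T r C k := Sf_nonneg T r C
  have h1 : ∀ k, Sf T r C k ≤ 1 + ε := Sf_le hT r C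
  have he1 := hT.eps1
  have hb : ∀ k, |Sf T r C k| ≤ 2 := fun k => by
    rw [abs_of_nonneg (h0 k)]
    linarith [h1 k]
  have hη' : η ≤ 1 / 1000 := by linarith
  have hηr : η < r / 2 := by linarith
  obtain ⟨Q, hQ⟩ : ∃ Q : Set (ℕ → ℝ), Q = {y | St T y ∧ av y (Sf T r C) ≤ 1 / 100} := ⟨_, rfl⟩
  have hCls : Cls T Q := by
    refine ⟨fun x hx => ?_, fun x hx => ?_⟩
    · rw [hQ] at hx
      exact hx.1
    · rw [hQ] at hx
      obtain ⟨B, hB, hB'⟩ := dich hT hC hr hr1 hη0 hη' hηr hε4 hx.1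
      have m1 : ms x {j | 95 / 100 < Sf T r C j} ≤ av x (Sf T r C) / (95 / 100) :=
        markov hx.1.summ hb h0 (by norm_num)
      refine ⟨B ∪ {j | 95 / 100 < Sf T r C j}, ?_, ?_⟩
      · refine (ms_union_le hx.1.summ _ _).trans ?_
        have m2 : av x (Sf T r C) / (95 / 100) ≤ (1 / 100) / (95 / 100) :=
          div_le_div_of_nonneg_right hx.2 (by norm_num)
        norm_num at m2
        linarith
      · intro j hj
        rw [Set.mem_union, not_or] at hj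
        obtain ⟨hcj, hdj, hvj⟩ := hB' j hj.1
        have hSj : Sf T r C j ≤ 95 / 100 := not_lt.1 hj.2
        have hSη : Sf T r C j ≤ η := by
          rcases hdj with h | h
          · exact h
          · exfalso
            linarith
        obtain ⟨a1, a2, a3⟩ := Exh_av hT r C hηa hcj hSη hvj
        refine ⟨a1, ?_⟩
        rw [hQ]
        exact ⟨a2, a3⟩
  have hempty : ¬ Q.Nonempty := by
    intro hne
    obtain ⟨x, hxQ, hxm⟩ := boot_exists hT hη0 hη' hε4 hCls hne (fun x hx => lim hT hx)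
    rw [hQ] at hxQ
    have a1 := hat η hη0 hηc T ε hT hε4 x hxQ.1 hxm
    rw [h20] at a1
    have a2 : ms x {j | Atom T (r ^ 2 / 27) j} ≤ ms x {j | 1 / 2 < Sf T r C j} := by
      refine ms_mono hxQ.1.summ fun j hj => ?_
      have := Sf_atom hT hC hj
      change 1 / 2 < Sf T r C j
      linarith
    have a3 : ms x {j | 1 / 2 < Sf T r C j} ≤ av x (Sf T r C) / (1 / 2) :=
      markov hxQ.1.summ hb h0 (by norm_num)
    have a4 : av x (Sf T r C) / (1 / 2) ≤ (1 / 100) / (1 / 2) :=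
      div_le_div_of_nonneg_right hxQ.2 (by norm_num)
    norm_num at a4
    linarith
  intro x hx
  obtain ⟨B, hB, hB'⟩ := dich hT hC hr hr1 hη0 hη' hηr hε4 hx
  refine ⟨B, by linarith, ?_⟩
  intro j hj
  obtain ⟨hcj, hdj, hvj⟩ := hB' j hj
  rcases hdj with h | h
  · exfalso
    apply hempty
    obtain ⟨a1, a2, a3⟩ := Exh_av hT r C hηa hcj h hvj
    refine ⟨fun i => T i j / cn T j, ?_⟩
    rw [hQ]
    exact ⟨a2, a3⟩
  · obtain ⟨c, hc, hcm⟩ := Sf_ex (T := T) (r := r) (C := C) (t := 1 - 5 * r) (by linarith) (j := j)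
      (by linarith)
    exact ⟨c, hc, hcm.le⟩

end Pool.Agent.H87.ZI
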