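import Pool.Agent.H87.CS.Defs

/-!
# Part F: cells (80 lines)

The dual is separable and not empty: let `s n = TopologicalSpace.denseSeq _ n`. The sets
`F n = {t | ‖phi J t - s n‖ ≤ θ/2}` are closed: `‖u‖ ≤ M` iff `|u x| ≤ M ‖x‖` for all `x` (`ContinuousLinearMap.opNorm_le_iff`
or `geo_norm_le_iff`), and `t ↦ phi J t x = J x t` is continuous; they cover `K`. `D = disjointed F` (`disjointed`,
`disjoint_disjointed`, `iUnion_disjointed`, `MeasurableSet.disjointed`). If `D n` is not empty choose `t n ∈ D n` and put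
`b n = phi J (t n)`, otherwise `b n = 0`. `‖phi J t‖ ≤ 1` because `‖J‖ ≤ 1`. For `t ∈ D n ⊆ F n`:
`‖phi J t - b n‖ ≤ θ/2 + θ/2`.
-/

namespace Pool.Agent.H87.ZI

open Pool.Agent.H87.CS

private theorem FCell_phi {X K : Type} [NormedAddCommGroup X] [NormedSpace ℝ X] [TopologicalSpace K]
    [CompactSpace K] (J : X →L[ℝ] C(K, ℝ)) (t : K) (x : X) : phi J t x = J x t := rfl

private theorem FCell_norm {X K : Type} [NormedAddCommGroup X] [NormedSpace ℝ X]
    [TopologicalSpace K] [CompactSpace K] (J : X →L[ℝ] C(K, ℝ)) (hJ : ‖J‖ ≤ 1) (t : K) :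
    ‖phi J t‖ ≤ 1 := by
  refine ContinuousLinearMap.opNorm_le_bound _ zero_le_one fun x => ?_
  rw [FCell_phi]
  calc ‖J x t‖ ≤ ‖J x‖ := (J x).norm_coe_le_norm t
    _ ≤ ‖J‖ * ‖x‖ := J.le_opNorm x
    _ ≤ 1 * ‖x‖ := mul_le_mul_of_nonneg_right hJ (norm_nonneg x)

private theorem FCell_closed {X K : Type} [NormedAddCommGroup X] [NormedSpace ℝ X]
    [TopologicalSpace K] [CompactSpace K] (J : X →L[ℝ] C(K, ℝ)) (s : X →L[ℝ] ℝ) {M : ℝ}
    (hM : 0 ≤ M) : IsClosed {t : K | ‖phi J t - s‖ ≤ M} := by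
  have h : {t : K | ‖phi J t - s‖ ≤ M} = ⋂ x : X, {t : K | ‖J x t - s x‖ ≤ M * ‖x‖} := by
    ext t
    simp only [Set.mem_iInter]
    constructor
    · intro ht x
      have h1 := ContinuousLinearMap.le_opNorm (phi J t - s) x
      have h2 : (phi J t - s) x = J x t - s x := rfl
      rw [h2] at h1
      exact h1.trans (mul_le_mul_of_nonneg_right ht (norm_nonneg x))
    · intro ht
      refine ContinuousLinearMap.opNorm_le_bound _ hM fun x => ?_
      exact ht x
  rw [h]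
  refine isClosed_iInter fun x => ?_
  refine isClosed_le ?_ continuous_const
  exact ((J x).continuous.sub continuous_const).norm

theorem exists_cells {X K : Type} [NormedAddCommGroup X] [NormedSpace ℝ X] [TopologicalSpace K]
    [CompactSpace K] [MeasurableSpace K] [BorelSpace K]
    (hsep : TopologicalSpace.SeparableSpace (X →L[ℝ] ℝ)) (J : X →L[ℝ] C(K, ℝ)) (hJ : ‖J‖ ≤ 1)
    {θ : ℝ} (hθ : 0 < θ) : ∃ (D : ℕ → Set K) (b : ℕ → (X →L[ℝ] ℝ)),
      (∀ n, MeasurableSet (D n)) ∧ (∀ m n, m ≠ n → Disjoint (D m) (D n)) ∧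
      (∀ t, ∃ n, t ∈ D n) ∧ (∀ n, ‖b n‖ ≤ 1) ∧ ∀ n, ∀ t ∈ D n, ‖phi J t - b n‖ ≤ θ := by
  classical
  have : Nonempty (X →L[ℝ] ℝ) := ⟨0⟩
  let s : ℕ → (X →L[ℝ] ℝ) := TopologicalSpace.denseSeq (X →L[ℝ] ℝ)
  have hs : DenseRange s := TopologicalSpace.denseRange_denseSeq _
  let F : ℕ → Set K := fun n => {t : K | ‖phi J t - s n‖ ≤ θ / 2}
  have hF : ∀ n, MeasurableSet (F n) := fun n =>
    (FCell_closed J (s n) (by linarith)).measurableSet
  have hcov : ∀ t : K, ∃ n, t ∈ F n := by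
    intro t
    obtain ⟨n, hn⟩ := hs.exists_dist_lt (phi J t) (half_pos hθ)
    exact ⟨n, by
      show ‖phi J t - s n‖ ≤ θ / 2
      rw [← dist_eq_norm]
      exact hn.le⟩
  let D : ℕ → Set K := disjointed F
  have hDF : ∀ n, D n ⊆ F n := fun n => disjointed_subset F n
  let b : ℕ → (X →L[ℝ] ℝ) := fun n => if h : (D n).Nonempty then phi J h.some else 0
  refine ⟨D, b, fun n => MeasurableSet.disjointed hF n, fun m n hmn => disjoint_disjointed F hmn,
    fun t => ?_, fun n => ?_, fun n t ht => ?_⟩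
  · have h1 : (⋃ n, D n) = ⋃ n, F n := iUnion_disjointed
    have h2 : t ∈ ⋃ n, F n := Set.mem_iUnion.2 (hcov t)
    rw [← h1] at h2
    exact Set.mem_iUnion.1 h2
  · by_cases h : (D n).Nonempty
    · have hb : b n = phi J h.some := dif_pos h
      rw [hb]
      exact FCell_norm J hJ _
    · have hb : b n = 0 := dif_neg h
      rw [hb, norm_zero]
      exact zero_le_one
  · have h : (D n).Nonempty := ⟨t, ht⟩
    have hb : b n = phi J h.some := dif_pos h
    rw [hb]
    have h1 : ‖phi J t - s n‖ ≤ θ / 2 := hDF n ht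
    have h2 : ‖phi J h.some - s n‖ ≤ θ / 2 := hDF n h.some_mem
    calc ‖phi J t - phi J h.some‖ = ‖(phi J t - s n) - (phi J h.some - s n)‖ := by
          congr 1; abel
      _ ≤ ‖phi J t - s n‖ + ‖phi J h.some - s n‖ := norm_sub_le _ _
      _ ≤ θ / 2 + θ / 2 := add_le_add h1 h2
      _ = θ := by ring

end Pool.Agent.H87.ZI
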