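import Mathlib

/-!
# Part F: density of the continuous functions (50 lines, Mathlib only)

`h` is bounded and measurable, hence integrable for the finite measure `μ`, which is weakly regular (an instance for
finite inner regular measures on compact Hausdorff spaces). By
`MeasureTheory.Integrable.exists_boundedContinuous_integral_sub_le` there is a bounded continuous `f₀` with
`∫ |h - f₀| ≤ ε`. Put `f = max (-M) (min M f₀)`: `|h - f| ≤ |h - f₀|` pointwise because `|h| ≤ M`. (If `K` is empty,
everything is trivial; otherwise `0 ≤ M`.)
-/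

namespace Pool.Agent.H87.ZI

open MeasureTheory

theorem exists_dense {K : Type} [TopologicalSpace K] [CompactSpace K] [T2Space K]
    [MeasurableSpace K] [BorelSpace K] (μ : Measure K) (h1 : IsFiniteMeasure μ)
    (h2 : μ.InnerRegular) {h : K → ℝ} (hm : Measurable h) {M : ℝ} (hM : ∀ t, |h t| ≤ M) {ε : ℝ}
    (hε : 0 < ε) : ∃ f : C(K, ℝ), (∀ t, |f t| ≤ M) ∧ ∫ t, |h t - f t| ∂μ ≤ ε := by
  have hint : Integrable h μ :=
    Integrable.of_bound hm.aestronglyMeasurable M (Filter.Eventually.of_forall fun t => hM t)
  obtain ⟨g, hg, hgi⟩ := hint.exists_boundedContinuous_integral_sub_le hε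
  refine ⟨⟨fun t => max (-M) (min M (g t)), by fun_prop⟩, fun t => ?_, ?_⟩
  · have hM0 : 0 ≤ M := (abs_nonneg _).trans (hM t)
    show |max (-M) (min M (g t))| ≤ M
    exact abs_le.2 ⟨le_max_left _ _, max_le (by linarith) (min_le_left _ _)⟩
  · refine le_trans ?_ hg
    have hb : ∀ t, |h t - max (-M) (min M (g t))| ≤ ‖h t - g t‖ := by
      intro t
      rw [Real.norm_eq_abs]
      obtain ⟨h3, h4⟩ := abs_le.1 (hM t)
      rcases le_total M (g t) with h5 | h5
      · rw [min_eq_left h5, max_eq_right (by linarith), abs_of_nonpos (by linarith),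
          abs_of_nonpos (by linarith)]
        linarith
      · rw [min_eq_right h5]
        rcases le_total (-M) (g t) with h6 | h6
        · rw [max_eq_right h6]
        · rw [max_eq_left h6, abs_of_nonneg (by linarith), abs_of_nonneg (by linarith)]
          linarith
    refine integral_mono_of_nonneg (Filter.Eventually.of_forall fun t => abs_nonneg _)
      (hint.sub hgi).norm (Filter.Eventually.of_forall hb)

end Pool.Agent.H87.ZI
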