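import Pool.Agent.H87.ZI.FRie
import Pool.Agent.H87.ZI.FDen

/-!
# Part F: extension of functionals on `C(K)` to bounded Borel functions (150 lines)

For every `Λ` choose measures `μ₁, μ₂` by `signed_riesz_reg` and put `H Λ h = ∫ h dμ₁ - ∫ h dμ₂`.

`cont` is the choice. `fsum`, `sub`, `lim`: linearity of the integral, dominated convergence (all functions are bounded,
the measures are finite). `add`: let `(μ₁, μ₂)`, `(μ₁', μ₂')`, `(ν₁, ν₂)` be the measures of `Λ`, `Λ'`, `Λ + Λ'`, and let `μ` be the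
sum of the six measures (finite and inner regular). For `ε > 0` take `f` from `exists_dense` for `μ`: then
`|H Λ h - Λ f| ≤ ∫ |h - f| dμ₁ + ∫ |h - f| dμ₂ ≤ 2 ε`, and the same for `Λ'` and `Λ + Λ'`; since
`(Λ + Λ') f = Λ f + Λ' f` the difference of the two sides is at most `6 ε`. `smul`: in the same way. `bd`: with
`μ = μ₁ + μ₂`: `|H Λ h| ≤ |Λ f| + 2 ε ≤ ‖Λ‖ M + 2 ε`.
-/

namespace Pool.Agent.H87.ZI

open MeasureTheory Filter Topology

/-- `H` extends the functionals on `C(K)` to the bounded Borel functions. -/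
structure BExt (K : Type) [TopologicalSpace K] [CompactSpace K] [MeasurableSpace K]
    (H : (C(K, ℝ) →L[ℝ] ℝ) → (K → ℝ) → ℝ) : Prop where
  cont : ∀ (Λ : C(K, ℝ) →L[ℝ] ℝ) (f : C(K, ℝ)), H Λ (fun t => f t) = Λ f
  add : ∀ (Λ Λ' : C(K, ℝ) →L[ℝ] ℝ) (h : K → ℝ) (M : ℝ), Measurable h → (∀ t, |h t| ≤ M) →
    H (Λ + Λ') h = H Λ h + H Λ' h
  smul : ∀ (c : ℝ) (Λ : C(K, ℝ) →L[ℝ] ℝ) (h : K → ℝ) (M : ℝ), Measurable h → (∀ t, |h t| ≤ M) →
    H (c • Λ) h = c * H Λ h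
  bd : ∀ (Λ : C(K, ℝ) →L[ℝ] ℝ) (h : K → ℝ) (M : ℝ), 0 ≤ M → Measurable h → (∀ t, |h t| ≤ M) →
    |H Λ h| ≤ ‖Λ‖ * M
  sub : ∀ (Λ : C(K, ℝ) →L[ℝ] ℝ) (h h' : K → ℝ) (M : ℝ), Measurable h → Measurable h' →
    (∀ t, |h t| ≤ M) → (∀ t, |h' t| ≤ M) → H Λ (fun t => h t - h' t) = H Λ h - H Λ h'
  fsum : ∀ (Λ : C(K, ℝ) →L[ℝ] ℝ) (s : Finset ℕ) (a : ℕ → ℝ) (D : ℕ → Set K),
    (∀ n, MeasurableSet (D n)) → H Λ (fun t => ∑ n ∈ s, a n * (D n).indicator (fun _ => 1) t) =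
      ∑ n ∈ s, a n * H Λ ((D n).indicator fun _ => 1)
  lim : ∀ (Λ : C(K, ℝ) →L[ℝ] ℝ) (h : ℕ → K → ℝ) (h' : K → ℝ) (M : ℝ), (∀ n, Measurable (h n)) →
    (∀ n t, |h n t| ≤ M) → (∀ t, Tendsto (fun n => h n t) atTop (𝓝 (h' t))) →
    Tendsto (fun n => H Λ (h n)) atTop (𝓝 (H Λ h'))

private theorem fx_int {K : Type} [MeasurableSpace K] (μ : Measure K) [IsFiniteMeasure μ]
    {h : K → ℝ} (hm : Measurable h) {M : ℝ} (hM : ∀ t, |h t| ≤ M) : Integrable h μ :=
  Integrable.of_bound hm.aestronglyMeasurable M (Filter.Eventually.of_forall fun t => hM t)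

private theorem fx_near {K : Type} [TopologicalSpace K] [CompactSpace K] [MeasurableSpace K]
    [BorelSpace K] (μ ν : Measure K) [IsFiniteMeasure μ] [IsFiniteMeasure ν] (hle : μ ≤ ν)
    {h : K → ℝ} (hm : Measurable h) {M : ℝ} (hM : ∀ t, |h t| ≤ M) (f : C(K, ℝ)) {ε : ℝ}
    (hf : ∫ t, |h t - f t| ∂ν ≤ ε) : |(∫ t, h t ∂μ) - ∫ t, f t ∂μ| ≤ ε := by
  have hfm : Measurable fun t => f t := (map_continuous f).measurable
  have hfb : ∀ t, |f t| ≤ ‖f‖ := fun t => f.norm_coe_le_norm t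
  have hd : Measurable fun t => h t - f t := hm.sub hfm
  have hdb : ∀ t, |h t - f t| ≤ M + ‖f‖ := fun t =>
    (abs_sub _ _).trans (add_le_add (hM t) (hfb t))
  rw [← integral_sub (fx_int μ hm hM) (fx_int μ hfm hfb)]
  refine (abs_integral_le_integral_abs).trans ?_
  refine le_trans ?_ hf
  exact integral_mono_measure hle (Filter.Eventually.of_forall fun t => abs_nonneg _)
    (fx_int ν hd hdb).abs

theorem exists_bext (K : Type) [TopologicalSpace K] [CompactSpace K] [T2Space K]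
    [MeasurableSpace K] [BorelSpace K] : ∃ H : (C(K, ℝ) →L[ℝ] ℝ) → (K → ℝ) → ℝ, BExt K H := by
  choose m1 m2 hf1 hf2 hr1 hr2 hΛ using fun Λ : C(K, ℝ) →L[ℝ] ℝ => signed_riesz_reg Λ
  have near : ∀ (Λ : C(K, ℝ) →L[ℝ] ℝ) (μ : Measure K), IsFiniteMeasure μ → m1 Λ ≤ μ → m2 Λ ≤ μ →
      ∀ (h : K → ℝ) (M : ℝ), Measurable h → (∀ t, |h t| ≤ M) → ∀ (f : C(K, ℝ)) (ε : ℝ),
      ∫ t, |h t - f t| ∂μ ≤ ε → |((∫ t, h t ∂(m1 Λ)) - ∫ t, h t ∂(m2 Λ)) - Λ f| ≤ 2 * ε := by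
    intro Λ μ _ h1 h2 h M hm hM f ε hf
    have e1 := fx_near (m1 Λ) μ h1 hm hM f hf
    have e2 := fx_near (m2 Λ) μ h2 hm hM f hf
    rw [hΛ Λ f]
    have e3 : ((∫ t, h t ∂(m1 Λ)) - ∫ t, h t ∂(m2 Λ)) - ((∫ t, f t ∂(m1 Λ)) - ∫ t, f t ∂(m2 Λ)) =
        ((∫ t, h t ∂(m1 Λ)) - ∫ t, f t ∂(m1 Λ)) - ((∫ t, h t ∂(m2 Λ)) - ∫ t, f t ∂(m2 Λ)) := by ring
    rw [e3]
    exact (abs_sub _ _).trans (by linarith)
  refine ⟨fun Λ h => (∫ t, h t ∂(m1 Λ)) - ∫ t, h t ∂(m2 Λ), ?_, ?_, ?_, ?_, ?_, ?_, ?_⟩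
  · intro Λ f
    exact (hΛ Λ f).symm
  · intro Λ Λ' h M hm hM
    refine eq_of_forall_dist_le fun ε hε => ?_
    obtain ⟨f, hfM, hf⟩ := exists_dense
      (m1 Λ + m2 Λ + (m1 Λ' + m2 Λ') + (m1 (Λ + Λ') + m2 (Λ + Λ'))) inferInstance inferInstance
      hm hM (ε := ε / 6) (by positivity)
    have n1 := near Λ _ inferInstance
      (Measure.le_add_right (Measure.le_add_right (Measure.le_add_right le_rfl)))
      (Measure.le_add_right (Measure.le_add_right (Measure.le_add_left le_rfl))) h M hm hM f _ hf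
    have n2 := near Λ' _ inferInstance
      (Measure.le_add_right (Measure.le_add_left (Measure.le_add_right le_rfl)))
      (Measure.le_add_right (Measure.le_add_left (Measure.le_add_left le_rfl))) h M hm hM f _ hf
    have n3 := near (Λ + Λ') _ inferInstance
      (Measure.le_add_left (Measure.le_add_right le_rfl))
      (Measure.le_add_left (Measure.le_add_left le_rfl)) h M hm hM f _ hf
    rw [ContinuousLinearMap.add_apply] at n3
    rw [Real.dist_eq]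
    rw [abs_le] at n1 n2 n3 ⊢
    constructor
    · linarith [n1.1, n1.2, n2.1, n2.2, n3.1, n3.2]
    · linarith [n1.1, n1.2, n2.1, n2.2, n3.1, n3.2]
  · intro c Λ h M hm hM
    refine eq_of_forall_dist_le fun ε hε => ?_
    have hcp : 0 < 2 * (1 + |c|) := by positivity
    obtain ⟨f, hfM, hf⟩ := exists_dense
      (m1 Λ + m2 Λ + (m1 (c • Λ) + m2 (c • Λ))) inferInstance inferInstance
      hm hM (ε := ε / (2 * (1 + |c|))) (by positivity)
    have n1 := near Λ _ inferInstance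
      (Measure.le_add_right (Measure.le_add_right le_rfl))
      (Measure.le_add_right (Measure.le_add_left le_rfl)) h M hm hM f _ hf
    have n3 := near (c • Λ) _ inferInstance
      (Measure.le_add_left (Measure.le_add_right le_rfl))
      (Measure.le_add_left (Measure.le_add_left le_rfl)) h M hm hM f _ hf
    rw [ContinuousLinearMap.smul_apply, smul_eq_mul] at n3
    rw [Real.dist_eq]
    have e1 : ((∫ t, h t ∂(m1 (c • Λ))) - ∫ t, h t ∂(m2 (c • Λ))) -
        c * ((∫ t, h t ∂(m1 Λ)) - ∫ t, h t ∂(m2 Λ)) =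
        (((∫ t, h t ∂(m1 (c • Λ))) - ∫ t, h t ∂(m2 (c • Λ))) - c * Λ f) -
          c * (((∫ t, h t ∂(m1 Λ)) - ∫ t, h t ∂(m2 Λ)) - Λ f) := by ring
    have e2 := mul_le_mul_of_nonneg_left n1 (abs_nonneg c)
    have e3 : 2 * (ε / (2 * (1 + |c|))) + |c| * (2 * (ε / (2 * (1 + |c|)))) = ε := by
      field_simp
    calc |((∫ t, h t ∂(m1 (c • Λ))) - ∫ t, h t ∂(m2 (c • Λ))) -
        c * ((∫ t, h t ∂(m1 Λ)) - ∫ t, h t ∂(m2 Λ))|
        ≤ 2 * (ε / (2 * (1 + |c|))) + |c| * (2 * (ε / (2 * (1 + |c|)))) := by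
          rw [e1]
          refine (abs_sub _ _).trans ?_
          rw [abs_mul]
          exact add_le_add n3 e2
      _ = ε := e3
  · intro Λ h M hM0 hm hM
    refine le_of_forall_pos_le_add fun ε hε => ?_
    obtain ⟨f, hfM, hf⟩ := exists_dense (m1 Λ + m2 Λ) inferInstance inferInstance
      hm hM (ε := ε / 2) (by positivity)
    have n1 := near Λ _ inferInstance (Measure.le_add_right le_rfl) (Measure.le_add_left le_rfl)
      h M hm hM f _ hf
    have e1 : |Λ f| ≤ ‖Λ‖ * M := by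
      refine (Λ.le_opNorm f).trans ?_
      exact mul_le_mul_of_nonneg_left ((ContinuousMap.norm_le _ hM0).mpr hfM) (norm_nonneg _)
    have e2 := abs_sub_abs_le_abs_sub ((∫ t, h t ∂(m1 Λ)) - ∫ t, h t ∂(m2 Λ)) (Λ f)
    show |(∫ t, h t ∂(m1 Λ)) - ∫ t, h t ∂(m2 Λ)| ≤ _
    linarith
  · intro Λ h h' M hm hm' hM hM'
    show (∫ t, (h t - h' t) ∂(m1 Λ)) - ∫ t, (h t - h' t) ∂(m2 Λ) = _
    rw [integral_sub (fx_int _ hm hM) (fx_int _ hm' hM'),
      integral_sub (fx_int _ hm hM) (fx_int _ hm' hM')]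
    ring
  · intro Λ s a D hD
    have hi : ∀ n, ∀ μ : Measure K, IsFiniteMeasure μ →
        Integrable (fun t => a n * (D n).indicator (fun _ => (1 : ℝ)) t) μ := fun n μ _ => by
      refine Integrable.const_mul (fx_int μ (measurable_const.indicator (hD n)) (M := 1) fun t => ?_) _
      by_cases ht : t ∈ D n
      · simp [ht]
      · simp [ht]
    have hs : ∀ μ : Measure K, IsFiniteMeasure μ →
        ∫ t, ∑ n ∈ s, a n * (D n).indicator (fun _ => (1 : ℝ)) t ∂μ =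
          ∑ n ∈ s, a n * ∫ t, (D n).indicator (fun _ => (1 : ℝ)) t ∂μ := fun μ hμ => by
      rw [integral_finset_sum s fun n _ => hi n μ hμ]
      exact Finset.sum_congr rfl fun n _ => integral_const_mul _ _
    show (∫ t, ∑ n ∈ s, a n * (D n).indicator (fun _ => (1 : ℝ)) t ∂(m1 Λ)) -
      ∫ t, ∑ n ∈ s, a n * (D n).indicator (fun _ => (1 : ℝ)) t ∂(m2 Λ) = _
    rw [hs _ (hf1 Λ), hs _ (hf2 Λ), ← Finset.sum_sub_distrib]
    exact Finset.sum_congr rfl fun n _ => by ring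
  · intro Λ h h' M hm hM hlim
    refine Tendsto.sub ?_ ?_
    · exact tendsto_integral_of_dominated_convergence (fun _ => M)
        (fun n => (hm n).aestronglyMeasurable) (integrable_const M)
        (fun n => Filter.Eventually.of_forall fun t => hM n t)
        (Filter.Eventually.of_forall hlim)
    · exact tendsto_integral_of_dominated_convergence (fun _ => M)
        (fun n => (hm n).aestronglyMeasurable) (integrable_const M)
        (fun n => Filter.Eventually.of_forall fun t => hM n t)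
        (Filter.Eventually.of_forall hlim)

end Pool.Agent.H87.ZI
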