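import Pool.Agent.H87.ZI.FExt
import Pool.Agent.H87.ZI.FCell

/-!
# Part F: approximate factorisation of the dual through `ℓ₁` (150 lines)

Give `K` its Borel sets. `H` from `exists_bext`, `D`, `b` from `exists_cells`. For `u` in the dual let
`Λ = u.comp P`, `‖Λ‖ ≤ (1 + l) ‖u‖`, and `A u n = H Λ (1_{D n})`; `A` is linear by `BExt.add`, `BExt.smul`.

* `∑_{n < N} |A u n| = H Λ (∑_{n < N} a n 1_{D n})` with `a n = sign (A u n)` (`fsum`); the function is bounded by `1` as the
  `D n` are disjoint, so by `bd` this is at most `‖Λ‖ ≤ (1 + l) ‖u‖`. So `∑ |A u n|` converges and is at most that.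
* Let `x ∈ X`. `u x = u (P (J x)) = Λ (J x) = H Λ (J x)` (`cont`). The functions
  `h N t = ∑_{n < N} 1_{D n} t * (J x t - b n x)` are bounded by `θ ‖x‖` (the `D n` are disjoint, on `D n`
  `|J x t - b n x| = |(phi J t - b n) x| ≤ θ ‖x‖`) and converge pointwise to `h t = J x t - ∑ₙ 1_{D n} t * b n x`
  (for each `t` only one term is not zero, and it is constant for large `N`). Put
  `k N t = ∑_{n < N} b n x 1_{D n} t` (bounded by `‖x‖`), converging pointwise to `k = J x - h`. By `lim` and `fsum`,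
  `H Λ k = lim ∑_{n < N} b n x A u n = ∑' n, A u n * b n x`, and `H Λ (J x) - H Λ k = H Λ (J x - k)` (`sub`), where
  `|J x - k| ≤ θ ‖x‖` pointwise. So `|u x - ∑' n, A u n * b n x| ≤ ‖Λ‖ θ ‖x‖` (`bd`).
-/

namespace Pool.Agent.H87.ZI

open Pool.Agent.H87.CS

open MeasureTheory Filter Topology

theorem exists_fac {X K : Type} [NormedAddCommGroup X] [NormedSpace ℝ X] [TopologicalSpace K]
    [CompactSpace K] [T2Space K] (hsep : TopologicalSpace.SeparableSpace (X →L[ℝ] ℝ))
    (J : X →L[ℝ] C(K, ℝ)) (P : C(K, ℝ) →L[ℝ] X) (hJ : ‖J‖ ≤ 1) {l : ℝ} (hl : 0 ≤ l)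
    (hP : ‖P‖ ≤ 1 + l) (hPJ : ∀ x, P (J x) = x) {θ : ℝ} (hθ : 0 < θ) :
    ∃ (A : (X →L[ℝ] ℝ) →ₗ[ℝ] (ℕ → ℝ)) (b : ℕ → (X →L[ℝ] ℝ)), (∀ n, ‖b n‖ ≤ 1) ∧
      (∀ u, Summable fun n => |A u n|) ∧ (∀ u, ∑' n, |A u n| ≤ (1 + l) * ‖u‖) ∧
      ∀ u x, |u x - ∑' n, A u n * b n x| ≤ θ * (1 + l) * ‖u‖ * ‖x‖ := by
  classical
  let _ : MeasurableSpace K := borel K
  have _ : BorelSpace K := ⟨rfl⟩
  obtain ⟨H, hH⟩ := exists_bext K
  obtain ⟨D, b, hDm, hDd, hDc, hb, hDb⟩ := exists_cells hsep J hJ hθ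
  have hImeas : ∀ n, Measurable ((D n).indicator fun _ => (1 : ℝ)) := fun n =>
    measurable_const.indicator (hDm n)
  have hIbd : ∀ n t, |(D n).indicator (fun _ => (1 : ℝ)) t| ≤ 1 := by
    intro n t
    by_cases h : t ∈ D n
    · simp [Set.indicator_of_mem h]
    · simp [Set.indicator_of_notMem h]
  choose m hm using hDc
  have hI : ∀ n t, (D n).indicator (fun _ => (1 : ℝ)) t = if m t = n then 1 else 0 := by
    intro n t
    by_cases h : m t = n
    · rw [if_pos h]
      exact Set.indicator_of_mem (h ▸ hm t) _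
    · rw [if_neg h]
      refine Set.indicator_of_notMem ?_ _
      intro hn
      exact Set.disjoint_left.1 (hDd (m t) n h) (hm t) hn
  have hsum : ∀ (s : Finset ℕ) (c : ℕ → ℝ) (t : K),
      ∑ n ∈ s, c n * (D n).indicator (fun _ => (1 : ℝ)) t = if m t ∈ s then c (m t) else 0 := by
    intro s c t
    have h1 : ∀ n ∈ s, c n * (D n).indicator (fun _ => (1 : ℝ)) t =
        if m t = n then c n else 0 := by
      intro n _
      rw [hI n t]
      by_cases h : m t = n
      · simp [h]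
      · simp [h]
    rw [Finset.sum_congr rfl h1, Finset.sum_ite_eq]
  have hsmeas : ∀ (s : Finset ℕ) (c : ℕ → ℝ),
      Measurable (fun t => ∑ n ∈ s, c n * (D n).indicator (fun _ => (1 : ℝ)) t) := by
    intro s c
    exact Finset.measurable_fun_sum s fun n _ => (hImeas n).const_mul (c n)
  have hsbd : ∀ (s : Finset ℕ) (c : ℕ → ℝ) (M : ℝ), 0 ≤ M → (∀ n, |c n| ≤ M) → ∀ t,
      |∑ n ∈ s, c n * (D n).indicator (fun _ => (1 : ℝ)) t| ≤ M := by
    intro s c M hM hc t
    rw [hsum s c t]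
    by_cases h : m t ∈ s
    · rw [if_pos h]
      exact hc _
    · rw [if_neg h]
      simpa using hM
  have hΛ : ∀ u : X →L[ℝ] ℝ, ‖u.comp P‖ ≤ (1 + l) * ‖u‖ := by
    intro u
    calc ‖u.comp P‖ ≤ ‖u‖ * ‖P‖ := u.opNorm_comp_le P
      _ ≤ ‖u‖ * (1 + l) := mul_le_mul_of_nonneg_left hP (norm_nonneg u)
      _ = (1 + l) * ‖u‖ := mul_comm _ _
  let A : (X →L[ℝ] ℝ) →ₗ[ℝ] (ℕ → ℝ) :=
    { toFun := fun u n => H (u.comp P) ((D n).indicator fun _ => 1)
      map_add' := by
        intro u v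
        funext n
        have h1 : (u + v).comp P = u.comp P + v.comp P := by
          ext f
          rfl
        simp only [h1, Pi.add_apply]
        exact hH.add _ _ _ 1 (hImeas n) (hIbd n)
      map_smul' := by
        intro c u
        funext n
        have h1 : (c • u).comp P = c • u.comp P := by
          ext f
          rfl
        simp only [h1, Pi.smul_apply, RingHom.id_apply, smul_eq_mul]
        exact hH.smul _ _ _ 1 (hImeas n) (hIbd n) }
  have hA : ∀ u n, A u n = H (u.comp P) ((D n).indicator fun _ => 1) := fun _ _ => rfl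
  have hbound : ∀ (u : X →L[ℝ] ℝ) (s : Finset ℕ), ∑ n ∈ s, |A u n| ≤ (1 + l) * ‖u‖ := by
    intro u s
    have h1 : ∑ n ∈ s, |A u n| =
        H (u.comp P) (fun t => ∑ n ∈ s, (SignType.sign (A u n) : ℝ) *
          (D n).indicator (fun _ => 1) t) := by
      rw [hH.fsum (u.comp P) s (fun n => (SignType.sign (A u n) : ℝ)) D hDm]
      refine Finset.sum_congr rfl fun n _ => ?_
      rw [← hA u n]
      exact (sign_mul_self (A u n)).symm
    have h2 : ∀ n, |((SignType.sign (A u n) : SignType) : ℝ)| ≤ 1 := by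
      intro n
      rcases lt_trichotomy (A u n) 0 with h | h | h
      · simp [h]
      · simp [h]
      · simp [h]
    rw [h1]
    refine (le_abs_self _).trans ?_
    refine (hH.bd (u.comp P) _ 1 zero_le_one (hsmeas s _)
      (hsbd s _ 1 zero_le_one h2)).trans ?_
    rw [mul_one]
    exact hΛ u
  have hsummable : ∀ u : X →L[ℝ] ℝ, Summable fun n => |A u n| := by
    intro u
    exact summable_of_sum_le (fun n => abs_nonneg _) (hbound u)
  refine ⟨A, b, hb, hsummable, ?_, ?_⟩
  · intro u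
    exact (hsummable u).tsum_le_of_sum_le (hbound u)
  · intro u x
    have hbx : ∀ n, |b n x| ≤ ‖x‖ := by
      intro n
      calc |b n x| = ‖b n x‖ := rfl
        _ ≤ ‖b n‖ * ‖x‖ := (b n).le_opNorm x
        _ ≤ 1 * ‖x‖ := mul_le_mul_of_nonneg_right (hb n) (norm_nonneg x)
        _ = ‖x‖ := one_mul _
    have hux : u x = H (u.comp P) (fun t => J x t) := by
      rw [hH.cont (u.comp P) (J x)]
      change u x = u (P (J x))
      rw [hPJ x]
    -- the limit function
    have hkt : ∀ t, Tendsto (fun N => ∑ n ∈ Finset.range N, b n x *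
        (D n).indicator (fun _ => (1 : ℝ)) t) atTop (𝓝 (b (m t) x)) := by
      intro t
      refine tendsto_const_nhds.congr' ?_
      filter_upwards [eventually_gt_atTop (m t)] with N hN
      rw [hsum (Finset.range N) (fun n => b n x) t, if_pos (Finset.mem_range.2 hN)]
    have hkm : Measurable (fun t => b (m t) x) := by
      refine measurable_of_tendsto_metrizable (fun N => hsmeas (Finset.range N) fun n => b n x) ?_
      rw [tendsto_pi_nhds]
      exact hkt
    have hlim := hH.lim (u.comp P)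
      (fun N t => ∑ n ∈ Finset.range N, b n x * (D n).indicator (fun _ => (1 : ℝ)) t)
      (fun t => b (m t) x) ‖x‖ (fun N => hsmeas (Finset.range N) fun n => b n x)
      (fun N t => hsbd (Finset.range N) (fun n => b n x) ‖x‖ (norm_nonneg x) hbx t) hkt
    have hlim2 : Tendsto (fun N => ∑ n ∈ Finset.range N, A u n * b n x) atTop
        (𝓝 (H (u.comp P) fun t => b (m t) x)) := by
      refine hlim.congr fun N => ?_
      rw [hH.fsum (u.comp P) (Finset.range N) (fun n => b n x) D hDm]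
      refine Finset.sum_congr rfl fun n _ => ?_
      rw [hA u n, mul_comm]
    have hs2 : Summable fun n => A u n * b n x := by
      refine Summable.of_norm_bounded (g := fun n => |A u n| * ‖x‖) ((hsummable u).mul_right _) ?_
      intro n
      rw [norm_mul]
      exact mul_le_mul_of_nonneg_left (hbx n) (norm_nonneg _)
    have hk : H (u.comp P) (fun t => b (m t) x) = ∑' n, A u n * b n x :=
      tendsto_nhds_unique hlim2 hs2.hasSum.tendsto_sum_nat
    have hJx : ∀ t, |J x t| ≤ ‖x‖ := by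
      intro t
      calc |J x t| = ‖J x t‖ := rfl
        _ ≤ ‖J x‖ := (J x).norm_coe_le_norm t
        _ ≤ ‖J‖ * ‖x‖ := J.le_opNorm x
        _ ≤ 1 * ‖x‖ := mul_le_mul_of_nonneg_right hJ (norm_nonneg x)
        _ = ‖x‖ := one_mul _
    have hJm : Measurable fun t => J x t := (J x).continuous.measurable
    rw [hux, ← hk, ← hH.sub (u.comp P) (fun t => J x t) (fun t => b (m t) x) ‖x‖ hJm hkm hJx
      (fun t => hbx (m t))]
    have hdiff : ∀ t, |J x t - b (m t) x| ≤ θ * ‖x‖ := by
      intro t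
      have h1 : J x t - b (m t) x = (phi J t - b (m t)) x := rfl
      rw [h1]
      calc |(phi J t - b (m t)) x| = ‖(phi J t - b (m t)) x‖ := rfl
        _ ≤ ‖phi J t - b (m t)‖ * ‖x‖ := (phi J t - b (m t)).le_opNorm x
        _ ≤ θ * ‖x‖ := mul_le_mul_of_nonneg_right (hDb (m t) t (hm t)) (norm_nonneg x)
    have hθx : 0 ≤ θ * ‖x‖ := mul_nonneg hθ.le (norm_nonneg x)
    calc |H (u.comp P) (fun t => J x t - b (m t) x)|
        ≤ ‖u.comp P‖ * (θ * ‖x‖) := hH.bd (u.comp P) _ _ hθx (hJm.sub hkm) hdiff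
      _ ≤ ((1 + l) * ‖u‖) * (θ * ‖x‖) := mul_le_mul_of_nonneg_right (hΛ u) hθx
      _ = θ * (1 + l) * ‖u‖ * ‖x‖ := by ring

end Pool.Agent.H87.ZI
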