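import Mathlib

/-!
# Part F: completeness, the finite dimensional case (80 lines, Mathlib only)

`complete_of_PJ`: if `x n` is a Cauchy sequence then `J (x n)` is one, it converges to some `f`, and
`x n = P (J (x n)) → P f`.

`fin_case`: the functionals separate the points of `X` (Hahn-Banach), so `X` embeds linearly into the dual of the finite
dimensional space `X →L[ℝ] ℝ`; hence `X` is finite dimensional, of dimension `n`, and
`X ≃L[ℝ] (Fin n → ℝ) ≃L[ℝ] C(Fin n, ℝ)` (`Fin n` is discrete and compact; every linear equivalence between finite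
dimensional normed spaces is continuous, `LinearEquiv.toContinuousLinearEquiv`).
-/

namespace Pool.Agent.H87.ZI

theorem complete_of_PJ {X K : Type} [NormedAddCommGroup X] [NormedSpace ℝ X] [TopologicalSpace K]
    [CompactSpace K] (J : X →L[ℝ] C(K, ℝ)) (P : C(K, ℝ) →L[ℝ] X) (hPJ : ∀ x, P (J x) = x) :
    CompleteSpace X := by
  refine Metric.complete_of_cauchySeq_tendsto fun u hu => ?_
  have h1 : CauchySeq fun n => J (u n) := J.uniformContinuous.comp_cauchySeq hu
  obtain ⟨f, hf⟩ := cauchySeq_tendsto_of_complete h1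
  refine ⟨P f, ?_⟩
  have h2 := (P.continuous.tendsto f).comp hf
  refine h2.congr fun n => ?_
  exact hPJ (u n)

theorem fin_case {X : Type} [NormedAddCommGroup X] [NormedSpace ℝ X]
    (h : FiniteDimensional ℝ (X →L[ℝ] ℝ)) :
    ∃ (L : Type) (_ : TopologicalSpace L) (_ : CompactSpace L) (_ : T2Space L)
      (_ : Countable L), Nonempty (X ≃L[ℝ] C(L, ℝ)) := by
  let φ : X →ₗ[ℝ] ((X →L[ℝ] ℝ) →ₗ[ℝ] ℝ) :=
    { toFun := fun x =>
        { toFun := fun u => u x
          map_add' := fun _ _ => rfl
          map_smul' := fun _ _ => rfl }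
      map_add' := fun x y => by
        ext u
        exact u.map_add x y
      map_smul' := fun c x => by
        ext u
        exact u.map_smul c x }
  have hφ : Function.Injective φ := by
    rw [← LinearMap.ker_eq_bot, LinearMap.ker_eq_bot']
    intro x hx
    refine SeparatingDual.eq_zero_of_forall_dual_eq_zero (R := ℝ) fun u => ?_
    exact congrArg (fun m : (X →L[ℝ] ℝ) →ₗ[ℝ] ℝ => m u) hx
  have hX : FiniteDimensional ℝ X := FiniteDimensional.of_injective φ hφ
  let e : C(Fin (Module.finrank ℝ X), ℝ) ≃ₗ[ℝ] (Fin (Module.finrank ℝ X) → ℝ) :=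
    { ContinuousMap.equivFnOfDiscrete with
      map_add' := fun _ _ => rfl
      map_smul' := fun _ _ => rfl }
  have hC : FiniteDimensional ℝ C(Fin (Module.finrank ℝ X), ℝ) := e.symm.finiteDimensional
  have hr : Module.finrank ℝ X = Module.finrank ℝ C(Fin (Module.finrank ℝ X), ℝ) := by
    rw [e.finrank_eq, Module.finrank_fin_fun]
  exact ⟨Fin (Module.finrank ℝ X), inferInstance, inferInstance, inferInstance, inferInstance,
    ⟨(LinearEquiv.ofFinrankEq _ _ hr).toContinuousLinearEquiv⟩⟩

end Pool.Agent.H87.ZI
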