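import Pool.Agent.H87.ZI.Defs

/-!
# Part F: the matrix of the projection (60 lines)

`T i j = A (b j) i`. The columns are summable with norm at most `(1 + ε) ‖b j‖ ≤ 1 + ε`. For fixed `i` the map
`u ↦ A u i` is a continuous linear functional (`|A u i| ≤ (1 + ε) ‖u‖`); apply it to `u = ∑ A u k • b k`:
`A u i = ∑ₖ A u k * A (b k) i`. For `u = b j` this is `idem`.
-/

namespace Pool.Agent.H87.ZI

/-- The coordinate number `i` of `A` as a continuous linear functional. -/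
noncomputable def cf {E : Type} [NormedAddCommGroup E] [NormedSpace ℝ E]
    (A : E →ₗ[ℝ] (ℕ → ℝ)) {ε : ℝ}
    (hA : ∀ u, Summable fun n => |A u n|) (hc : ∀ u, ∑' n, |A u n| ≤ (1 + ε) * ‖u‖) (i : ℕ) :
    E →L[ℝ] ℝ :=
  LinearMap.mkContinuous ((LinearMap.proj i).comp A) (1 + ε) fun u => by
    refine le_trans ?_ (hc u)
    exact (hA u).le_tsum i fun j _ => abs_nonneg _

theorem cf_apply {E : Type} [NormedAddCommGroup E] [NormedSpace ℝ E]
    (A : E →ₗ[ℝ] (ℕ → ℝ)) {ε : ℝ}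
    (hA : ∀ u, Summable fun n => |A u n|) (hc : ∀ u, ∑' n, |A u n| ≤ (1 + ε) * ‖u‖) (i : ℕ)
    (u : E) : cf A hA hc i u = A u i := rfl

theorem fix_of_fac {E : Type} [NormedAddCommGroup E] [NormedSpace ℝ E]
    (A : E →ₗ[ℝ] (ℕ → ℝ)) (b : ℕ → E) {ε : ℝ}
    (hA : ∀ u, Summable fun n => |A u n|) (hc : ∀ u, ∑' n, |A u n| ≤ (1 + ε) * ‖u‖)
    (h : ∀ u, HasSum (fun n => A u n • b n) u) (u : E) (i : ℕ) :
    A u i = ∑' k, A (b k) i * A u k := by
  have h1 := (h u).mapL (cf A hA hc i)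
  rw [cf_apply] at h1
  rw [← h1.tsum_eq]
  refine tsum_congr fun k => ?_
  rw [map_smul, cf_apply, smul_eq_mul, mul_comm]

theorem proj_of_fac {E : Type} [NormedAddCommGroup E] [NormedSpace ℝ E]
    (A : E →ₗ[ℝ] (ℕ → ℝ)) (b : ℕ → E) {ε : ℝ} (h0 : 0 ≤ ε) (h1 : ε ≤ 1 / 1000)
    (hb : ∀ n, ‖b n‖ ≤ 1) (hA : ∀ u, Summable fun n => |A u n|)
    (hc : ∀ u, ∑' n, |A u n| ≤ (1 + ε) * ‖u‖) (h : ∀ u, HasSum (fun n => A u n • b n) u) :
    Proj (fun i j => A (b j) i) ε where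
  eps0 := h0
  eps1 := h1
  summ := fun j => hA (b j)
  norm := fun j => by
    refine (hc (b j)).trans ?_
    nlinarith [hb j, norm_nonneg (b j)]
  idem := fun i j => fix_of_fac A b hA hc h (b j) i

end Pool.Agent.H87.ZI
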