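import Pool.Agent.H87.ZI.FMat

/-!
# Part F: the basis (150 lines)

`T i j = A (b j) i` and `C` as in `zippin` (the conclusions are the hypotheses `hlow`, `hexp` here).

For `u ∈ E` let `y = A u`: it is summable with `T y = y` (`fix_of_fac`), so by `hexp` there is `α` supported on `C`, with
`∑ |α c| ≤ m ∑ |y i| ≤ m (1 + ε) ‖u‖` and `y i = ∑_c α c A (b c) i`. It is unique by `hlow`: if `α`, `α'` both work then
`0 < κ`, `κ ∑ |α c - α' c| ≤ ∑ᵢ |∑_c (α c - α' c) T i c| = 0`. So `g c u = α c` is linear in `u`, bounded by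
`m (1 + ε) ‖u‖`: a continuous linear functional. For `u = b c'` (`c' ∈ C`) the sequence `α c = (1 if c = c', 0 otherwise)`
works. Finally `v = ∑_{c ∈ C} α c • b c` converges absolutely in `E` (`‖b c‖ ≤ 1`), `A` is continuous, so
`A v i = ∑_c α c A (b c) i = A u i` for all `i`, and `v = ∑ A v n • b n = ∑ A u n • b n = u`.
-/

namespace Pool.Agent.H87.ZI

theorem summable_mul_bd {E : Type} [NormedAddCommGroup E] [NormedSpace ℝ E]
    (A : E →ₗ[ℝ] (ℕ → ℝ)) (b : ℕ → E) {ε : ℝ} (h0 : 0 ≤ ε)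
    (hb : ∀ n, ‖b n‖ ≤ 1) (hA : ∀ u, Summable fun n => |A u n|)
    (hc : ∀ u, ∑' n, |A u n| ≤ (1 + ε) * ‖u‖) {α : ℕ → ℝ} (hα : Summable fun c => |α c|) (i : ℕ) :
    Summable fun c => α c * A (b c) i := by
  refine Summable.of_norm_bounded (hα.mul_right (1 + ε)) fun c => ?_
  rw [Real.norm_eq_abs, abs_mul]
  refine mul_le_mul_of_nonneg_left ?_ (abs_nonneg _)
  refine ((hA (b c)).le_tsum i fun j _ => abs_nonneg _).trans ((hc (b c)).trans ?_)
  nlinarith [hb c, norm_nonneg (b c)]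

theorem uniq_coef {E : Type} [NormedAddCommGroup E] [NormedSpace ℝ E]
    (A : E →ₗ[ℝ] (ℕ → ℝ)) (b : ℕ → E) {ε κ : ℝ} (h0 : 0 ≤ ε) (hκ : 0 < κ)
    (hb : ∀ n, ‖b n‖ ≤ 1) (hA : ∀ u, Summable fun n => |A u n|)
    (hc : ∀ u, ∑' n, |A u n| ≤ (1 + ε) * ‖u‖)
    (C : Set ℕ)
    (hlow : ∀ α : ℕ → ℝ, (Summable fun c => |α c|) → (∀ c, c ∉ C → α c = 0) →
      κ * ∑' c, |α c| ≤ ∑' i, |∑' c, α c * A (b c) i|) {α β : ℕ → ℝ}
    (hα : Summable fun c => |α c|) (hβ : Summable fun c => |β c|) (hα0 : ∀ c, c ∉ C → α c = 0)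
    (hβ0 : ∀ c, c ∉ C → β c = 0)
    (h : ∀ i, ∑' c, α c * A (b c) i = ∑' c, β c * A (b c) i) : α = β := by
  have hs : Summable fun c => |α c - β c| := by
    refine Summable.of_nonneg_of_le (fun c => abs_nonneg _) (fun c => ?_) (hα.add hβ)
    exact abs_sub _ _
  have h1 := hlow (fun c => α c - β c) hs fun c hc' => by
    rw [hα0 c hc', hβ0 c hc', sub_zero]
  have h2 : ∀ i, ∑' c, (α c - β c) * A (b c) i = 0 := fun i => by
    have e : (fun c => (α c - β c) * A (b c) i) = fun c => α c * A (b c) i - β c * A (b c) i := by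
      funext c
      ring
    rw [e, (summable_mul_bd A b h0 hb hA hc hα i).tsum_sub (summable_mul_bd A b h0 hb hA hc hβ i),
      h i, sub_self]
  have h3 : ∑' i, |∑' c, (α c - β c) * A (b c) i| = 0 := by
    simp_rw [h2]
    simp
  rw [h3] at h1
  have h4 : ∑' c, |α c - β c| ≤ 0 := by
    by_contra hcon
    push Not at hcon
    exact absurd (mul_pos hκ hcon) (not_lt.2 h1)
  funext c
  have h5 : |α c - β c| ≤ 0 := (hs.le_tsum c fun j _ => abs_nonneg _).trans h4
  have h6 := abs_nonpos_iff.1 h5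
  linarith

theorem tsum_abs_sub {C : Set ℕ} {α : ℕ → ℝ} (hα0 : ∀ c, c ∉ C → α c = 0) :
    ∑' c : C, |α c| = ∑' c, |α c| := by
  refine tsum_subtype_eq_of_support_subset (f := fun c => |α c|) fun c hc => ?_
  by_contra h
  exact hc (by simp [hα0 c h])

theorem exists_basis {E : Type} [NormedAddCommGroup E] [NormedSpace ℝ E] [CompleteSpace E]
    (A : E →ₗ[ℝ] (ℕ → ℝ)) (b : ℕ → E) {ε κ m : ℝ} (h0 : 0 ≤ ε) (hκ : 0 < κ) (hm : 0 ≤ m)
    (hb : ∀ n, ‖b n‖ ≤ 1) (hA : ∀ u, Summable fun n => |A u n|)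
    (hc : ∀ u, ∑' n, |A u n| ≤ (1 + ε) * ‖u‖) (h : ∀ u, HasSum (fun n => A u n • b n) u)
    (C : Set ℕ)
    (hlow : ∀ α : ℕ → ℝ, (Summable fun c => |α c|) → (∀ c, c ∉ C → α c = 0) →
      κ * ∑' c, |α c| ≤ ∑' i, |∑' c, α c * A (b c) i|)
    (hexp : ∀ y : ℕ → ℝ, (Summable fun i => |y i|) → (∀ i, y i = ∑' k, A (b k) i * y k) →
      ∃ α : ℕ → ℝ, (∀ c, c ∉ C → α c = 0) ∧ (Summable fun c => |α c|) ∧
        ∑' c, |α c| ≤ m * ∑' i, |y i| ∧ ∀ i, y i = ∑' c, α c * A (b c) i) :
    ∃ g : C → (E →L[ℝ] ℝ), (∀ u, Summable fun c => |g c u|) ∧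
      (∀ u, ∑' c, |g c u| ≤ m * ((1 + ε) * ‖u‖)) ∧ (∀ u, HasSum (fun c : C => g c u • b c) u) ∧
      (∀ c : C, g c (b c) = 1) ∧ ∀ c c' : C, c ≠ c' → g c (b c') = 0 := by
  have hfix := fix_of_fac A b hA hc h
  choose α hα0 hαs hαn hαe using fun u => hexp (A u) (hA u) (hfix u)
  have hun : ∀ {β γ : ℕ → ℝ}, (Summable fun c => |β c|) → (Summable fun c => |γ c|) →
      (∀ c, c ∉ C → β c = 0) → (∀ c, c ∉ C → γ c = 0) →
      (∀ i, ∑' c, β c * A (b c) i = ∑' c, γ c * A (b c) i) → β = γ := fun h1 h2 h3 h4 h5 =>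
    uniq_coef A b h0 hκ hb hA hc C hlow h1 h2 h3 h4 h5
  have hsm : ∀ {β : ℕ → ℝ}, (Summable fun c => |β c|) → ∀ i, Summable fun c => β c * A (b c) i :=
    fun hβ i => summable_mul_bd A b h0 hb hA hc hβ i
  have hαb : ∀ u, ∑' c, |α u c| ≤ m * ((1 + ε) * ‖u‖) := fun u =>
    (hαn u).trans (mul_le_mul_of_nonneg_left (hc u) hm)
  have hadd : ∀ u v, α (u + v) = fun c => α u c + α v c := fun u v => by
    have hs : Summable fun c => |α u c + α v c| :=
      Summable.of_nonneg_of_le (fun c => abs_nonneg _) (fun c => abs_add_le _ _)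
        ((hαs u).add (hαs v))
    refine hun (hαs _) hs (hα0 _) (fun c hc' => by rw [hα0 u c hc', hα0 v c hc', add_zero])
      fun i => ?_
    rw [← hαe]
    have e : (fun c => (α u c + α v c) * A (b c) i) =
        fun c => α u c * A (b c) i + α v c * A (b c) i := by
      funext c
      ring
    rw [e, (hsm (hαs u) i).tsum_add (hsm (hαs v) i), ← hαe, ← hαe, map_add]
    rfl
  have hsmul : ∀ (r : ℝ) u, α (r • u) = fun c => r * α u c := fun r u => by
    have hs : Summable fun c => |r * α u c| := by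
      simp_rw [abs_mul]
      exact (hαs u).mul_left _
    refine hun (hαs _) hs (hα0 _) (fun c hc' => by rw [hα0 u c hc', mul_zero])
      fun i => ?_
    rw [← hαe]
    have e : (fun c => r * α u c * A (b c) i) = fun c => r * (α u c * A (b c) i) := by
      funext c
      ring
    rw [e, tsum_mul_left, ← hαe, map_smul]
    rfl
  let g : C → (E →L[ℝ] ℝ) := fun c =>
    LinearMap.mkContinuous
      { toFun := fun u => α u c
        map_add' := fun u v => by rw [hadd]
        map_smul' := fun r u => by rw [hsmul]; rfl } (m * (1 + ε)) fun u => by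
        refine le_trans ?_ ((hαb u).trans (le_of_eq (mul_assoc _ _ _).symm))
        exact (hαs u).le_tsum (c : ℕ) fun j _ => abs_nonneg _
  have hg : ∀ c u, g c u = α u c := fun c u => rfl
  have hself : ∀ c : C, α (b c) = fun c' => if c' = (c : ℕ) then 1 else 0 := fun c => by
    have hs : Summable fun c' => |(if c' = (c : ℕ) then (1 : ℝ) else 0)| := by
      refine summable_of_ne_finset_zero (s := {(c : ℕ)}) fun x hx => ?_
      rw [Finset.mem_singleton] at hx
      rw [if_neg hx, abs_zero]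
    refine hun (hαs _) hs (hα0 _) (fun c' hc' => ?_) fun i => ?_
    · rw [if_neg]
      rintro rfl
      exact hc' c.2
    · rw [← hαe, tsum_eq_single (c : ℕ) (fun x hx => by rw [if_neg hx, zero_mul]), if_pos rfl,
        one_mul]
  refine ⟨g, fun u => ?_, fun u => ?_, fun u => ?_, fun c => ?_, fun c c' hcc => ?_⟩
  · exact (hαs u).subtype C
  · simp_rw [hg]
    rw [tsum_abs_sub (hα0 u)]
    exact hαb u
  · have hsE : Summable fun c => α u c • b c := by
      refine Summable.of_norm_bounded (hαs u) fun c => ?_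
      rw [norm_smul, Real.norm_eq_abs]
      exact mul_le_of_le_one_right (abs_nonneg _) (hb c)
    have hv := hsE.hasSum
    have h1 : ∀ i, A (∑' c, α u c • b c) i = A u i := fun i => by
      have h2 := hv.mapL (cf A hA hc i)
      rw [cf_apply] at h2
      rw [hαe u i, ← h2.tsum_eq]
      refine tsum_congr fun c => ?_
      rw [map_smul, cf_apply, smul_eq_mul]
    have h2 : (∑' c, α u c • b c) = u := by
      have h3 := h (∑' c, α u c • b c)
      rw [funext h1] at h3
      exact h3.unique (h u)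
    rw [h2] at hv
    refine (hasSum_subtype_iff_of_support_subset (f := fun c => α u c • b c) ?_).2 hv
    intro c hc'
    by_contra h3
    exact hc' (by simp [hα0 u c h3])
  · rw [hg, hself]
    exact if_pos rfl
  · rw [hg, hself]
    exact if_neg fun h3 => hcc (Subtype.ext h3)

end Pool.Agent.H87.ZI
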