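import Mathlib

/-!
# Part F: exact factorisation (100 lines, Mathlib only)

`S u = ∑' n, A u n • b n` converges absolutely (`‖b n‖ ≤ 1`) and is a bounded linear operator with `‖1 - S‖ ≤ q < 1`. So `S`
is invertible (Neumann series: `Units.oneSub`, `ContinuousLinearMap` on a complete space), and `‖S⁻¹‖ ≤ 1/(1 - q)`
(`‖u‖ ≤ ‖S u‖ + ‖u - S u‖ ≤ ‖S u‖ + q ‖u‖`). Put `A' u = A (S⁻¹ u)`: `∑ |A' u n| ≤ c ‖S⁻¹ u‖ ≤ c/(1 - q) ‖u‖` (`0 ≤ c ‖·‖`), and
`∑ A' u n • b n = S (S⁻¹ u) = u`.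
-/

namespace Pool.Agent.H87.ZI

theorem neumann {E : Type} [NormedAddCommGroup E] [NormedSpace ℝ E] [CompleteSpace E]
    (A : E →ₗ[ℝ] (ℕ → ℝ)) (b : ℕ → E) {c q : ℝ} (hb : ∀ n, ‖b n‖ ≤ 1) (hc0 : 0 ≤ c)
    (hA : ∀ u, Summable fun n => |A u n|) (hc : ∀ u, ∑' n, |A u n| ≤ c * ‖u‖) (hq0 : 0 ≤ q)
    (hq : q < 1) (h : ∀ u, ‖u - ∑' n, A u n • b n‖ ≤ q * ‖u‖) :
    ∃ A' : E →ₗ[ℝ] (ℕ → ℝ), (∀ u, Summable fun n => |A' u n|) ∧
      (∀ u, ∑' n, |A' u n| ≤ c / (1 - q) * ‖u‖) ∧ ∀ u, HasSum (fun n => A' u n • b n) u := by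
  have hsum : ∀ u, Summable fun n => A u n • b n := by
    intro u
    refine Summable.of_norm_bounded (hA u) ?_
    intro n
    rw [norm_smul, Real.norm_eq_abs]
    calc |A u n| * ‖b n‖ ≤ |A u n| * 1 := mul_le_mul_of_nonneg_left (hb n) (abs_nonneg _)
      _ = |A u n| := mul_one _
  have hnorm : ∀ u, ‖∑' n, A u n • b n‖ ≤ c * ‖u‖ := by
    intro u
    have hs : Summable fun n => ‖A u n • b n‖ := by
      refine Summable.of_nonneg_of_le (fun n => norm_nonneg _) ?_ (hA u)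
      intro n
      rw [norm_smul, Real.norm_eq_abs]
      calc |A u n| * ‖b n‖ ≤ |A u n| * 1 := mul_le_mul_of_nonneg_left (hb n) (abs_nonneg _)
        _ = |A u n| := mul_one _
    refine (norm_tsum_le_tsum_norm hs).trans (le_trans ?_ (hc u))
    refine hs.tsum_le_tsum ?_ (hA u)
    intro n
    rw [norm_smul, Real.norm_eq_abs]
    calc |A u n| * ‖b n‖ ≤ |A u n| * 1 := mul_le_mul_of_nonneg_left (hb n) (abs_nonneg _)
      _ = |A u n| := mul_one _
  let S0 : E →ₗ[ℝ] E :=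
    { toFun := fun u => ∑' n, A u n • b n
      map_add' := by
        intro u v
        rw [← (hsum u).tsum_add (hsum v)]
        refine tsum_congr fun n => ?_
        rw [map_add, Pi.add_apply, add_smul]
      map_smul' := by
        intro r u
        rw [RingHom.id_apply, ← (hsum u).tsum_const_smul r]
        refine tsum_congr fun n => ?_
        rw [map_smul, Pi.smul_apply, smul_assoc] }
  let S : E →L[ℝ] E := S0.mkContinuous c hnorm
  have hS : ∀ u, S u = ∑' n, A u n • b n := fun u => rfl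
  have hT : ‖(1 : E →L[ℝ] E) - S‖ < 1 := by
    refine lt_of_le_of_lt (ContinuousLinearMap.opNorm_le_bound _ hq0 ?_) hq
    intro u
    have : ((1 : E →L[ℝ] E) - S) u = u - ∑' n, A u n • b n := by
      rw [sub_apply, hS, one_apply_eq_self]
    rw [this]
    exact h u
  let U := Units.oneSub ((1 : E →L[ℝ] E) - S) hT
  have hU : (U : E →L[ℝ] E) = S := by
    rw [Units.val_oneSub]
    exact sub_sub_cancel _ _
  let R : E →L[ℝ] E := ((U⁻¹ : (E →L[ℝ] E)ˣ) : E →L[ℝ] E)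
  have hSR : ∀ u, S (R u) = u := by
    intro u
    have h1 : (S * R : E →L[ℝ] E) = 1 := by
      rw [← hU]
      exact U.mul_inv
    have h2 := congrArg (fun f : E →L[ℝ] E => f u) h1
    exact h2
  have hR : ∀ u, ‖R u‖ ≤ 1 / (1 - q) * ‖u‖ := by
    intro u
    have h1 : ‖R u‖ ≤ ‖S (R u)‖ + ‖R u - S (R u)‖ := by
      have h3 : R u = S (R u) + (R u - S (R u)) := by abel
      calc ‖R u‖ = ‖S (R u) + (R u - S (R u))‖ := by rw [← h3]
        _ ≤ _ := norm_add_le _ _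
    have h2 : ‖R u - S (R u)‖ ≤ q * ‖R u‖ := h (R u)
    rw [hSR] at h1 h2
    have h4 : 0 < 1 - q := by linarith
    rw [div_mul_eq_mul_div, one_mul, le_div_iff₀ h4]
    nlinarith [h1, h2]
  refine ⟨A ∘ₗ (R : E →ₗ[ℝ] E), ?_, ?_, ?_⟩
  · intro u
    exact hA (R u)
  · intro u
    refine (hc (R u)).trans ?_
    calc c * ‖R u‖ ≤ c * (1 / (1 - q) * ‖u‖) := mul_le_mul_of_nonneg_left (hR u) hc0
      _ = c / (1 - q) * ‖u‖ := by ring
  · intro u
    have h1 := (hsum (R u)).hasSum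
    have h2 : ∑' n, A (R u) n • b n = u := hSR u
    rw [h2] at h1
    exact h1

end Pool.Agent.H87.ZI
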