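import Pool.Agent.H87.ZI.OutZ
import Pool.Agent.H87.ZI.FNL
import Pool.Agent.H87.ZI.FFac
import Pool.Agent.H87.ZI.FNeu
import Pool.Agent.H87.ZI.BDefs

/-!
# Part F: the dual has a nearly isometric `ℓ₁` basis
-/

namespace Pool.Agent.H87.ZI

open Pool.Agent.H87.CS

/-- There is `ε0 > 0` such that: if the dual of `X` is separable and the identity of `X` factors through `C(K)` with
constant `1 + l`, `l ≤ ε0`, then the dual of `X` has a basis indexed by a set of natural numbers, which is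
`(1 + 10⁻⁶)`-equivalent to the unit vector basis of `ℓ₁`. -/
theorem part_F : ∃ ε0 : ℝ, 0 < ε0 ∧ ε0 ≤ 1 / 1000000 ∧ ∀ (X K : Type) [NormedAddCommGroup X]
    [NormedSpace ℝ X] [TopologicalSpace K] [CompactSpace K] [T2Space K]
    (J : X →L[ℝ] C(K, ℝ)) (P : C(K, ℝ) →L[ℝ] X) (l : ℝ),
    TopologicalSpace.SeparableSpace (X →L[ℝ] ℝ) → ‖J‖ ≤ 1 → 0 ≤ l → l ≤ ε0 → ‖P‖ ≤ 1 + l →
    (∀ x, P (J x) = x) → ∃ (C : Set ℕ) (e : C → (X →L[ℝ] ℝ)) (g : C → (X →L[ℝ] ℝ) →L[ℝ] ℝ),
      NL1 e g (1 / 1000000) ∧ ∀ u, HasSum (fun c => g c u • e c) u := by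
  obtain ⟨ε1, h1, h2, hz⟩ := zippin (r := 1 / 20000000) (by norm_num) (by norm_num)
  refine ⟨ε1 / 4, by positivity, by linarith, ?_⟩
  intro X K _ _ _ _ _ J P l hsep hJ hl hl1 hP hPJ
  obtain ⟨A, b, hb, hA, hc, hx⟩ := exists_fac hsep J P hJ hl hP hPJ
    (θ := ε1 / 8) (by positivity)
  have hl2 : l ≤ 1 := by linarith
  -- the error of the approximate factorisation
  have hq : ∀ u, ‖u - ∑' n, A u n • b n‖ ≤ ε1 / 4 * ‖u‖ := by
    intro u
    have hs : Summable fun n => A u n • b n := by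
      refine Summable.of_norm_bounded (hA u) fun n => ?_
      rw [norm_smul, Real.norm_eq_abs]
      exact mul_le_of_le_one_right (abs_nonneg _) (hb n)
    refine ContinuousLinearMap.opNorm_le_bound _ (by positivity) fun x => ?_
    have h3 : (∑' n, A u n • b n) x = ∑' n, A u n * b n x := by
      have h4 := (hs.hasSum.mapL (ContinuousLinearMap.apply ℝ ℝ x)).tsum_eq
      rw [ContinuousLinearMap.apply_apply] at h4
      rw [← h4]
      rfl
    rw [sub_apply, h3, Real.norm_eq_abs]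
    refine (hx u x).trans ?_
    have h5 : ε1 / 8 * (1 + l) ≤ ε1 / 4 := by nlinarith
    have h6 := mul_le_mul_of_nonneg_right h5 (norm_nonneg u)
    exact mul_le_mul_of_nonneg_right h6 (norm_nonneg x)
  obtain ⟨A', hA', hc', hs'⟩ := neumann A b hb (by linarith) hA hc (by positivity)
    (by linarith) hq
  have hcc : (1 + l) / (1 - ε1 / 4) ≤ 1 + ε1 := by
    rw [div_le_iff₀ (by linarith)]
    nlinarith
  have hc'' : ∀ u, ∑' n, |A' u n| ≤ (1 + ε1) * ‖u‖ := fun u =>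
    (hc' u).trans (mul_le_mul_of_nonneg_right hcc (norm_nonneg u))
  have hT := proj_of_fac A' b h1.le (by linarith) hb hA' hc'' hs'
  obtain ⟨C, hC1, hC2⟩ := hz _ _ hT le_rfl
  obtain ⟨g, hg1, hg2, hg3, hg4, hg5⟩ := exists_basis A' b h1.le
    (κ := 1 - 3 * (1 / 20000000)) (m := 1 + 12 * (1 / 20000000)) (by norm_num) (by norm_num) hb
    hA' hc'' hs' C hC1 hC2
  refine ⟨C, fun c => b c, g, ⟨by norm_num, fun c => hb c, hg1, fun u => ?_, fun u x => ?_, hg4,
    hg5⟩, hg3⟩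
  · refine (hg2 u).trans ?_
    rw [← mul_assoc]
    exact mul_le_mul_of_nonneg_right (by nlinarith) (norm_nonneg u)
  · exact (hg3 u).mapL (ContinuousLinearMap.apply ℝ ℝ x)

end Pool.Agent.H87.ZI
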