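import Pool.Agent.H87.CS.Rie

/-!
# Part F: signed Riesz theorem with inner regular measures (40 lines)

The proof of `Pool.Agent.H87.CS.signed_riesz` (file `Pool/Agent/H87/CS/Rie.lean`, lemma `rie_signed_riesz`) takes for the
two measures `RealRMK.rieszMeasure` of two positive functionals; these measures are regular
(`RealRMK.regular_rieszMeasure`), hence inner regular, as they are finite. Repeat the proof with this remark
(everything in that file which is not private may be used; copy what is private).
-/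

namespace Pool.Agent.H87.ZI

open MeasureTheory

open CompactlySupportedContinuousMap in
theorem signed_riesz_reg {K : Type} [TopologicalSpace K] [CompactSpace K] [T2Space K]
    [MeasurableSpace K] [BorelSpace K] (Λ : C(K, ℝ) →L[ℝ] ℝ) :
    ∃ μ₁ μ₂ : Measure K, IsFiniteMeasure μ₁ ∧ IsFiniteMeasure μ₂ ∧ μ₁.InnerRegular ∧
      μ₂.InnerRegular ∧ ∀ f : C(K, ℝ), Λ f = ∫ t, f t ∂μ₁ - ∫ t, f t ∂μ₂ := by
  rcases isEmpty_or_nonempty K with h | ⟨⟨x0⟩⟩
  · refine ⟨0, 0, inferInstance, inferInstance, inferInstance, inferInstance, fun f => ?_⟩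
    have h0 : f = 0 := by
      ext x
      exact (h.false x).elim
    rw [h0, map_zero]
    simp
  let G : CompactlySupportedContinuousMap K ℝ →ₗ[ℝ] ℝ :=
    { toFun := fun f => Λ f.toContinuousMap
      map_add' := fun f g => by
        rw [← map_add]
        rfl
      map_smul' := fun c f => by
        rw [RingHom.id_apply, ← map_smul]
        rfl }
  have hG : ∀ f : CompactlySupportedContinuousMap K ℝ, ∀ b, (∀ x, |f x| ≤ b) → |G f| ≤ ‖Λ‖ * b := by
    intro f b hb
    have hb0 : 0 ≤ b := (abs_nonneg _).trans (hb x0)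
    have h1 : ‖f.toContinuousMap‖ ≤ b := (ContinuousMap.norm_le _ hb0).mpr fun x => hb x
    calc |G f| = ‖Λ f.toContinuousMap‖ := rfl
      _ ≤ ‖Λ‖ * ‖f.toContinuousMap‖ := Λ.le_opNorm _
      _ ≤ ‖Λ‖ * b := by gcongr
  have hr1 : (RealRMK.rieszMeasure
      (toRealPositiveLinear (Pool.Agent.H87.CS.rie_posLin G hG))).Regular :=
    RealRMK.regular_rieszMeasure _
  have hr2 : (RealRMK.rieszMeasure
      (toRealPositiveLinear (Pool.Agent.H87.CS.rie_negLin G hG))).Regular :=
    RealRMK.regular_rieszMeasure _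
  refine ⟨RealRMK.rieszMeasure (toRealPositiveLinear (Pool.Agent.H87.CS.rie_posLin G hG)),
    RealRMK.rieszMeasure (toRealPositiveLinear (Pool.Agent.H87.CS.rie_negLin G hG)),
    inferInstance, inferInstance, inferInstance, inferInstance, fun f => ?_⟩
  have h3 : ∀ f : CompactlySupportedContinuousMap K ℝ,
      G f = (∫ x, f x ∂(RealRMK.rieszMeasure
        (toRealPositiveLinear (Pool.Agent.H87.CS.rie_posLin G hG)))) -
        ∫ x, f x ∂(RealRMK.rieszMeasure
          (toRealPositiveLinear (Pool.Agent.H87.CS.rie_negLin G hG))) := by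
    intro f
    rw [RealRMK.integral_rieszMeasure, RealRMK.integral_rieszMeasure, toRealPositiveLinear_apply,
      toRealPositiveLinear_apply]
    have h1 : ∀ g, ((Pool.Agent.H87.CS.rie_posLin G hG g : NNReal) : ℝ) =
        Pool.Agent.H87.CS.rie_posPart G g := fun g => rfl
    have h2 : ∀ g, ((Pool.Agent.H87.CS.rie_negLin G hG g : NNReal) : ℝ) =
        Pool.Agent.H87.CS.rie_posPart G g - G g.toReal := fun g => rfl
    rw [h1, h1, h2, h2]
    have h3 : G f = G f.nnrealPart.toReal - G (-f).nnrealPart.toReal := by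
      rw [← map_sub, nnrealPart_sub_nnrealPart_neg]
    rw [h3]
    ring
  exact h3 ⟨f, HasCompactSupport.of_compactSpace f⟩

end Pool.Agent.H87.ZI
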