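import Pool.Agent.H87.ZI.BasH

/-!
# The grid (Z9, one column)

`x` a state, `0 < τ ≤ 1/10`, `γ_m = τ (1 + τ)^m` for `m = 0, …, N`, `G ≥ 0` with `γ_N ≥ 2 G`, `s = cn T j`. Suppose
`Hs T (G |x|) j ≤ κ` and `∑_{m ≤ N} ∑ₖ |T k j| Er T (γ_m |x|) j k ≤ τ`. Claim:
`∑ₖ |T k j| ∑ᵢ (|T i j| - |T i k|)⁺ ≤ 2.01 (τ + κ) + 1.01 τ + τ`; we only state the bound `5 τ + 3 κ`.

For an index `i` let `m(i)` be the largest `m ≤ N` with `γ_m |x i| < |T i j|`, if there is one. Then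
`(|T i j| - |T i k|)⁺ ≤ (|T i j| - γ_{m(i)} |x i|) + (γ_{m(i)} |x i| - |T i k|)⁺`. If `m(i) < N` the first term is at most
`τ γ_{m(i)} |x i| ≤ τ |T i j|` since `|T i j| ≤ γ_{m(i)+1} |x i|`. If `m(i) = N` then `|T i j| > 2 G |x i|`, so
`|T i j| ≤ 2 (|T i j| - G |x i|)⁺`. If there is no such `m` then `|T i j| ≤ τ |x i|`. So in all cases
`(|T i j| - |T i k|)⁺ ≤ τ |T i j| + 2 (|T i j| - G |x i|)⁺ + τ |x i| + ∑_{m ≤ N} (term number i of Er T (γ_m |x|) j k)`
(the terms of `Er` are nonnegative, and `(γ_{m(i)} |x i| - |T i k|)⁺` is the term number `i` for `m = m(i)`).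
Sum over `i`, then average over `k` against `|T k j|` (total mass `s ≤ 1 + ε ≤ 1.001`).
-/

namespace Pool.Agent.H87.ZI

variable {T : ℕ → ℕ → ℝ} {ε : ℝ}

private theorem GridA_pt {a b X τ G : ℝ} (ha : 0 ≤ a) (hb : 0 ≤ b) (hX : 0 ≤ X) (hτ : 0 < τ)
    (hG : 0 ≤ G) (N : ℕ) (hN : 2 * G ≤ τ * (1 + τ) ^ N) :
    max (a - b) 0 ≤ τ * a + 2 * max (a - G * X) 0 + τ * X +
      ∑ m ∈ Finset.range (N + 1), (if τ * (1 + τ) ^ m * X < a then max (τ * (1 + τ) ^ m * X - b) 0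
        else max (b - τ * (1 + τ) ^ m * X) 0) := by
  have hnn : ∀ m ∈ Finset.range (N + 1), 0 ≤ (if τ * (1 + τ) ^ m * X < a
      then max (τ * (1 + τ) ^ m * X - b) 0 else max (b - τ * (1 + τ) ^ m * X) 0) := by
    intro m _
    split_ifs <;> exact le_max_right _ _
  have hS := Finset.sum_nonneg hnn
  have h1 : 0 ≤ τ * a := mul_nonneg hτ.le ha
  have h2 : 0 ≤ max (a - G * X) 0 := le_max_right _ _
  have h3 : 0 ≤ τ * X := mul_nonneg hτ.le hX
  have h4 : a - G * X ≤ max (a - G * X) 0 := le_max_left _ _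
  by_cases hex : ∃ m, m ≤ N ∧ τ * (1 + τ) ^ m * X < a
  · classical
    obtain ⟨m0, hm0, hm0'⟩ := hex
    set m := Nat.findGreatest (fun m => τ * (1 + τ) ^ m * X < a) N with hm
    have hmN : m ≤ N := Nat.findGreatest_le N
    have hP : τ * (1 + τ) ^ m * X < a :=
      Nat.findGreatest_spec (P := fun m => τ * (1 + τ) ^ m * X < a) hm0 hm0'
    have hle := Finset.single_le_sum hnn (Finset.mem_range.2 (Nat.lt_succ_of_le hmN))
    rw [if_pos hP] at hle
    have h5 : τ * (1 + τ) ^ m * X - b ≤ max (τ * (1 + τ) ^ m * X - b) 0 := le_max_left _ _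
    have hw : 0 ≤ τ * (1 + τ) ^ m * X := by positivity
    rcases lt_or_eq_of_le hmN with hlt | heq
    · have hnot : ¬ τ * (1 + τ) ^ (m + 1) * X < a :=
        Nat.findGreatest_is_greatest (P := fun m => τ * (1 + τ) ^ m * X < a) (n := N)
          (k := m + 1) (Nat.lt_succ_self m) hlt
      push Not at hnot
      have h6 : τ * (1 + τ) ^ (m + 1) * X = (1 + τ) * (τ * (1 + τ) ^ m * X) := by ring
      rw [h6] at hnot
      have h7 : τ * (τ * (1 + τ) ^ m * X) ≤ τ * a := mul_le_mul_of_nonneg_left hP.le hτ.le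
      refine max_le ?_ (by linarith)
      linarith
    · rw [heq] at hP h5 hle hw
      have h8 : 2 * G * X ≤ τ * (1 + τ) ^ N * X := mul_le_mul_of_nonneg_right hN hX
      have h9 : 0 ≤ G * X := mul_nonneg hG hX
      refine max_le ?_ (by linarith)
      linarith
  · push Not at hex
    have h0 := hex 0 (Nat.zero_le _)
    rw [pow_zero, mul_one] at h0
    refine max_le ?_ (by linarith)
    linarith

private theorem GridA_k (hT : Proj T ε) {x : ℕ → ℝ} (hx : St T x) {τ G : ℝ} (hτ : 0 < τ)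
    (hG : 0 ≤ G) (N : ℕ) (hN : 2 * G ≤ τ * (1 + τ) ^ N) (j k : ℕ) :
    Summable (fun i => max (|T i j| - |T i k|) 0) ∧
    ∑' i, max (|T i j| - |T i k|) 0 ≤ τ * cn T j + 2 * Hs T (wt G x) j + τ +
      ∑ m ∈ Finset.range (N + 1), Er T (wt (τ * (1 + τ) ^ m) x) j k := by
  have hw : ∀ c : ℝ, 0 ≤ c → ∀ i, 0 ≤ wt c x i := fun c hc i => mul_nonneg hc (abs_nonneg _)
  have hs0 : Summable (fun i => max (|T i j| - |T i k|) 0) := by
    refine Summable.of_nonneg_of_le (fun i => le_max_right _ _) (fun i => ?_) (hT.summ j)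
    exact max_le (by linarith [abs_nonneg (T i k)]) (abs_nonneg _)
  have hs1 : Summable (fun i => τ * |T i j|) := (hT.summ j).mul_left τ
  have hs2 : Summable (fun i => 2 * max (|T i j| - wt G x i) 0) :=
    (Hs_summable hT (hw G hG) j).mul_left 2
  have hs3 : Summable (fun i => τ * |x i|) := hx.summ.mul_left τ
  have hγ : ∀ m : ℕ, 0 ≤ τ * (1 + τ) ^ m := fun m => by positivity
  have hs4 : ∀ m ∈ Finset.range (N + 1), Summable fun i =>
      if wt (τ * (1 + τ) ^ m) x i < |T i j| then max (wt (τ * (1 + τ) ^ m) x i - |T i k|) 0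
        else max (|T i k| - wt (τ * (1 + τ) ^ m) x i) 0 :=
    fun m _ => Er_summable hT (hw _ (hγ m)) j k
  have hs5 := summable_sum hs4
  refine ⟨hs0, ?_⟩
  have hs6 := (((hs1.add hs2).add hs3).add hs5)
  have hle : ∑' i, max (|T i j| - |T i k|) 0 ≤ ∑' i, (τ * |T i j| +
      2 * max (|T i j| - wt G x i) 0 + τ * |x i| + ∑ m ∈ Finset.range (N + 1),
      (if wt (τ * (1 + τ) ^ m) x i < |T i j| then max (wt (τ * (1 + τ) ^ m) x i - |T i k|) 0
        else max (|T i k| - wt (τ * (1 + τ) ^ m) x i) 0)) :=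
    hs0.tsum_le_tsum (fun i => GridA_pt (abs_nonneg (T i j)) (abs_nonneg (T i k))
    (abs_nonneg (x i)) hτ hG N hN) hs6
  refine hle.trans (le_of_eq ?_)
  rw [Summable.tsum_add ((hs1.add hs2).add hs3) hs5, Summable.tsum_add (hs1.add hs2) hs3,
    Summable.tsum_add hs1 hs2, tsum_mul_left, tsum_mul_left, tsum_mul_left, hx.one, mul_one,
    Summable.tsum_finsetSum hs4]
  rfl

theorem grid_col (hT : Proj T ε) {x : ℕ → ℝ} (hx : St T x) {τ κ G : ℝ} (hτ : 0 < τ)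
    (hτ1 : τ ≤ 1 / 10) (hG : 0 ≤ G) (N : ℕ) (hN : 2 * G ≤ τ * (1 + τ) ^ N) {j : ℕ}
    (hκ : Hs T (wt G x) j ≤ κ)
    (hE : ∑ m ∈ Finset.range (N + 1), ∑' k, |T k j| * Er T (wt (τ * (1 + τ) ^ m) x) j k ≤ τ) :
    ∑' k, |T k j| * ∑' i, max (|T i j| - |T i k|) 0 ≤ 5 * τ + 3 * κ := by
  have hw : ∀ c : ℝ, 0 ≤ c → ∀ i, 0 ≤ wt c x i := fun c hc i => mul_nonneg hc (abs_nonneg _)
  have hγ : ∀ m : ℕ, 0 ≤ τ * (1 + τ) ^ m := fun m => by positivity
  have he0 := hT.eps0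
  have he1 := hT.eps1
  have hcn := hT.cn_le j
  have hcn0 := hT.cn_nonneg j
  have hH0 := Hs_nonneg T (wt G x) j
  have hEs : ∀ m ∈ Finset.range (N + 1),
      Summable fun k => |T k j| * Er T (wt (τ * (1 + τ) ^ m) x) j k := fun m _ =>
    sum_av (a := fun k => T k j) (C := 3) (hT.summ j) fun k => by
      rw [abs_of_nonneg (Er_nonneg _ _ _ _)]
      exact Er_le hT (hw _ (hγ m)) j k
  have hEs' := summable_sum hEs
  have hs1 : Summable fun k => |T k j| * (τ * cn T j + 2 * Hs T (wt G x) j + τ) :=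
    (hT.summ j).mul_right _
  have hs0 : Summable fun k => |T k j| * ∑' i, max (|T i j| - |T i k|) 0 :=
    sum_av (a := fun k => T k j) (C := cn T j) (hT.summ j) fun k => by
      rw [abs_of_nonneg (tsum_nonneg fun i => le_max_right _ _)]
      refine (GridA_k hT hx hτ hG N hN j k).1.tsum_le_tsum (fun i => ?_) (hT.summ j)
      exact max_le (by linarith [abs_nonneg (T i k)]) (abs_nonneg _)
  have hle := hs0.tsum_le_tsum (g := fun k => |T k j| * (τ * cn T j + 2 * Hs T (wt G x) j + τ) +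
      ∑ m ∈ Finset.range (N + 1), |T k j| * Er T (wt (τ * (1 + τ) ^ m) x) j k) (fun k => by
    show |T k j| * ∑' i, max (|T i j| - |T i k|) 0 ≤ |T k j| * (τ * cn T j + 2 * Hs T (wt G x) j + τ) +
      ∑ m ∈ Finset.range (N + 1), |T k j| * Er T (wt (τ * (1 + τ) ^ m) x) j k
    rw [← Finset.mul_sum, ← mul_add]
    exact mul_le_mul_of_nonneg_left (GridA_k hT hx hτ hG N hN j k).2 (abs_nonneg _))
    (hs1.add hEs')
  rw [Summable.tsum_add hs1 hEs', Summable.tsum_finsetSum hEs, tsum_mul_right] at hle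
  have hκ0 : 0 ≤ κ := hH0.trans hκ
  have h1 : τ * cn T j ≤ τ * (1 + ε) := mul_le_mul_of_nonneg_left hcn hτ.le
  have h2 : τ * cn T j + 2 * Hs T (wt G x) j + τ ≤ τ * (1 + ε) + 2 * κ + τ := by linarith
  have h3 : 0 ≤ τ * cn T j + 2 * Hs T (wt G x) j + τ := by
    have := mul_nonneg hτ.le hcn0
    linarith
  have h4 : (∑' k, |T k j|) * (τ * cn T j + 2 * Hs T (wt G x) j + τ) ≤
      (1 + ε) * (τ * (1 + ε) + 2 * κ + τ) := by
    have h5 : (∑' k, |T k j|) ≤ 1 + ε := hT.norm j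
    exact mul_le_mul h5 h2 h3 (by linarith)
  have h6 : (1 + ε) * (τ * (1 + ε) + 2 * κ + τ) ≤ 4 * τ + 3 * κ := by
    have h7 : (1 + ε) ≤ 1001 / 1000 := by linarith
    have h8 : τ * (1 + ε) ≤ τ * (1001 / 1000) := mul_le_mul_of_nonneg_left h7 hτ.le
    have h9 : (1 + ε) * (τ * (1 + ε) + 2 * κ + τ) ≤
        (1001 / 1000) * (τ * (1001 / 1000) + 2 * κ + τ) := by
      refine mul_le_mul h7 (by linarith) ?_ (by norm_num)
      have := mul_nonneg hτ.le (show (0:ℝ) ≤ 1 + ε by linarith)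
      linarith
    nlinarith
  linarith

end Pool.Agent.H87.ZI
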