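import Pool.Agent.H87.ZI.FOut
import Pool.Agent.H87.ZI.FFin
import Pool.Agent.H87.ZI.BMain

/-!
# Nearly contractively complemented subspaces of `C(K)` with separable dual
-/

namespace Pool.Agent.H87.ZI

open Pool.Agent.H87.CS

/-- Reindexing of a basis by an infinite set of natural numbers. -/
theorem NL1.reindex {X : Type} [NormedAddCommGroup X] [NormedSpace ℝ X] {ι : Type}
    {e : ι → (X →L[ℝ] ℝ)} {g : ι → (X →L[ℝ] ℝ) →L[ℝ] ℝ} {δ : ℝ} (h : NL1 e g δ) (ν : ℕ ≃ ι) :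
    NL1 (fun n => e (ν n)) (fun n => g (ν n)) δ := by
  refine ⟨h.d0, fun n => h.norm_e _, fun u => ?_, fun u => ?_, fun u x => ?_,
    fun n => h.coord_self _, fun m n hmn => h.coord_ne _ _ fun hh => hmn (ν.injective hh)⟩
  · exact (ν.summable_iff (f := fun c => |g c u|)).2 (h.summ u)
  · have h1 : ∑' n, |g (ν n) u| = ∑' c, |g c u| := ν.tsum_eq fun c => |g c u|
    rw [h1]
    exact h.le u
  · exact (ν.hasSum_iff (f := fun c => g c u * e c x)).2 (h.expand u x)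

theorem main : ∃ ε₀ : ℝ, 0 < ε₀ ∧ ∀ (X K : Type) [NormedAddCommGroup X] [NormedSpace ℝ X]
    [TopologicalSpace K] [CompactSpace K] [T2Space K] (J : X →L[ℝ] C(K, ℝ))
    (P : C(K, ℝ) →L[ℝ] X), TopologicalSpace.SeparableSpace (X →L[ℝ] ℝ) →
    (∀ x, P (J x) = x) → ‖P‖ * ‖J‖ < 1 + ε₀ →
    ∃ (L : Type) (_ : TopologicalSpace L) (_ : CompactSpace L) (_ : T2Space L)
      (_ : Countable L), Nonempty (X ≃L[ℝ] C(L, ℝ)) := by
  obtain ⟨ε0, h0, h1, hF⟩ := part_F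
  refine ⟨ε0, h0, ?_⟩
  intro X K _ _ _ _ _ J P hsep hPJ hn
  by_cases hJ0 : ‖J‖ ≤ 0
  · -- the trivial space
    have hsub : ∀ x : X, x = 0 := fun x => by
      have h3 : ‖J x‖ ≤ 0 :=
        (J.le_opNorm x).trans (mul_nonpos_of_nonpos_of_nonneg hJ0 (norm_nonneg x))
      have h4 : J x = 0 := norm_le_zero_iff.1 h3
      rw [← hPJ x, h4, map_zero]
    have hfd : FiniteDimensional ℝ (X →L[ℝ] ℝ) := by
      have : Subsingleton (X →L[ℝ] ℝ) := ⟨fun u v => by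
        ext x
        rw [hsub x, map_zero, map_zero]⟩
      infer_instance
    exact fin_case hfd
  have hJp : 0 < ‖J‖ := not_le.1 hJ0
  -- normalisation
  obtain ⟨l, hl⟩ : ∃ l, l = max (‖P‖ * ‖J‖ - 1) 0 := ⟨_, rfl⟩
  have hl0 : 0 ≤ l := hl ▸ le_max_right _ _
  have hl1 : l ≤ ε0 := by
    rw [hl]
    exact max_le (by linarith) h0.le
  obtain ⟨J', hJ'⟩ : ∃ J' : X →L[ℝ] C(K, ℝ), J' = ‖J‖⁻¹ • J := ⟨_, rfl⟩
  obtain ⟨P', hP'⟩ : ∃ P' : C(K, ℝ) →L[ℝ] X, P' = ‖J‖ • P := ⟨_, rfl⟩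
  have hJn : ‖J'‖ ≤ 1 := by
    refine ContinuousLinearMap.opNorm_le_bound _ zero_le_one fun x => ?_
    have h1 : ‖J‖⁻¹ * ‖J x‖ ≤ ‖J‖⁻¹ * (‖J‖ * ‖x‖) :=
      mul_le_mul_of_nonneg_left (J.le_opNorm x) (inv_nonneg.2 hJp.le)
    rw [← mul_assoc, inv_mul_cancel₀ hJp.ne'] at h1
    rw [hJ']
    change ‖‖J‖⁻¹ • J x‖ ≤ 1 * ‖x‖
    rw [norm_smul, norm_inv, Real.norm_of_nonneg hJp.le]
    exact h1
  have hPn : ‖P'‖ ≤ 1 + l := by
    refine ContinuousLinearMap.opNorm_le_bound _ (by linarith) fun f => ?_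
    have h1 : ‖P‖ * ‖J‖ - 1 ≤ l := hl ▸ le_max_left _ _
    have h2 : ‖J‖ * ‖P f‖ ≤ ‖J‖ * (‖P‖ * ‖f‖) :=
      mul_le_mul_of_nonneg_left (P.le_opNorm f) hJp.le
    have h3 : (‖P‖ * ‖J‖) * ‖f‖ ≤ (1 + l) * ‖f‖ :=
      mul_le_mul_of_nonneg_right (by linarith) (norm_nonneg f)
    rw [hP']
    change ‖‖J‖ • P f‖ ≤ (1 + l) * ‖f‖
    rw [norm_smul, Real.norm_of_nonneg hJp.le]
    linarith
  have hPJ' : ∀ x, P' (J' x) = x := by
    intro x
    rw [hJ', hP']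
    change ‖J‖ • P (‖J‖⁻¹ • J x) = x
    rw [map_smul, hPJ, smul_smul, mul_inv_cancel₀ hJp.ne', one_smul]
  obtain ⟨C, e, g, hNL, hsum⟩ := hF X K J' P' l hsep hJn hl0 hl1 hPn hPJ'
  have hcomp : CompleteSpace X := complete_of_PJ J P hPJ
  rcases Set.finite_or_infinite C with hC | hC
  · -- the finite dimensional case
    have hfin : Finite C := hC.to_subtype
    classical
    have : Fintype C := Fintype.ofFinite C
    have hfd : FiniteDimensional ℝ (X →L[ℝ] ℝ) := by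
      refine ⟨⟨Finset.univ.image e, ?_⟩⟩
      rw [eq_top_iff]
      rintro u -
      have h1 : u = ∑ c, g c u • e c := (hsum u).unique (hasSum_fintype _)
      rw [h1]
      refine Submodule.sum_mem _ fun c _ => Submodule.smul_mem _ _ (Submodule.subset_span ?_)
      simp
    exact fin_case hfd
  · have hinf : Infinite C := hC.to_subtype
    obtain ⟨ν⟩ : Nonempty (ℕ ≃ C) := nonempty_equiv_of_countable
    exact part_B (e := fun n => e (ν n)) (g := fun n => g (ν n)) (J := J') (P := P') (l := l)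
      ⟨hNL.reindex ν, le_rfl, hl0, hl1.trans h1, hJn, hPn, hPJ'⟩

end Pool.Agent.H87.ZI
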