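import Pool.Agent.H87.ZI.Sgn

/-!
# Almost multiplicativity, the energy estimate (first half of Z5)

`y` a state, `σ i = sg (y i)`, `h` a function with `|h| ≤ 1 + ε` and `h k = ∑ᵢ T i k h i` for all `k`; put
`h~ i = σ i h i`. Then `W = ∑ₖ |y k| ∑ᵢ |T i k| (h~ i - h~ k)² ≤ 5 ε`:

expand the square, `W = ∑ᵢ cc T y i h~(i)² - 2 ∑ₖ |y k| h~ k ∑ᵢ |T i k| h~ i + ∑ₖ |y k| cn T k h~(k)²`. The first sum is at
most `av y (h~²) + ε (1 + ε)²` (`av_Kf`, `inv`, with `f = h~²`), the third one at most `(1 + ε) av y (h~²)`. In the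
middle `∑ᵢ |T i k| h~ i = h~ k + r k` with `|r k| ≤ (1 + ε) ∑ᵢ (|T i k| - σ i σ k T i k)`: indeed
`∑ᵢ (|T i k| σ i - σ k T i k) h i = r k`, and `| |T i k| σ i - σ k T i k | ≤ |T i k| - σ i σ k T i k` in both cases
`σ i = ± 1` (multiply by `σ i`) and `σ i = 0`. So by `sgn_coh` the middle is at most
`- 2 av y (h~²) + 2 (1 + ε)² ε`. Total `≤ 4 ε (1 + ε)² ≤ 5 ε` (here `av y (h~²) ≤ (1 + ε)²`).
-/

namespace Pool.Agent.H87.ZI

variable {T : ℕ → ℕ → ℝ} {ε : ℝ}

private theorem NceA_pt (t a b : ℝ) (ha : a = 1 ∨ a = 0 ∨ a = -1) (hb : |b| ≤ 1) :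
    |(|t| * a - b * t)| ≤ |t| - a * b * t := by
  have hbt : |b * t| ≤ |t| := by
    rw [abs_mul]
    exact mul_le_of_le_one_left (abs_nonneg t) hb
  rcases ha with rfl | rfl | rfl
  · have h1 : 0 ≤ |t| - b * t := sub_nonneg.2 ((le_abs_self _).trans hbt)
    rw [mul_one, one_mul, abs_of_nonneg h1]
  · simpa using hbt
  · have h1 : 0 ≤ |t| + b * t := by
      have := neg_abs_le (b * t)
      linarith
    have e : |t| * (-1) - b * t = -(|t| + b * t) := by ring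
    rw [e, abs_neg, abs_of_nonneg h1]
    apply le_of_eq
    ring

private theorem NceA_sg (a : ℝ) : sg a = 1 ∨ sg a = 0 ∨ sg a = -1 := by
  rcases sg_cases a with h | h | h
  · exact Or.inl h.2
  · exact Or.inr (Or.inl h.2)
  · exact Or.inr (Or.inr h.2)

/-- the remainder `r k` -/
private theorem NceA_rem (hT : Proj T ε) {y : ℕ → ℝ} {h : ℕ → ℝ} (hb : ∀ i, |h i| ≤ 1 + ε)
    (hh : ∀ k, h k = ∑' i, T i k * h i) (k : ℕ) :
    |Kf T (fun i => sg (y i) * h i) k - sg (y k) * h k| ≤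
      (1 + ε) * ∑' i, (|T i k| - sg (y i) * sg (y k) * T i k) := by
  have hs : Summable fun i => |T i k| := hT.summ k
  have hg : ∀ i, |sg (y i) * h i| ≤ 1 + ε := by
    intro i
    rw [abs_mul]
    calc |sg (y i)| * |h i| ≤ 1 * (1 + ε) :=
          mul_le_mul (abs_sg_le _) (hb i) (abs_nonneg _) zero_le_one
      _ = 1 + ε := one_mul _
  have s1 : Summable fun i => |T i k| * (sg (y i) * h i) := sum_av (a := fun i => T i k) hs hg
  have s2 : Summable fun i => T i k * h i := by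
    apply Summable.of_norm_bounded (g := fun i => (1 + ε) * |T i k|) (hs.mul_left _)
    intro i
    rw [Real.norm_eq_abs, abs_mul, mul_comm]
    exact mul_le_mul_of_nonneg_right (hb i) (abs_nonneg _)
  have e1 : Kf T (fun i => sg (y i) * h i) k - sg (y k) * h k =
      ∑' i, (|T i k| * sg (y i) - sg (y k) * T i k) * h i := by
    conv_lhs => rw [hh k]
    unfold Kf
    rw [← tsum_mul_left, ← Summable.tsum_sub s1 (s2.mul_left _)]
    apply tsum_congr
    intro i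
    ring
  rw [e1]
  have hsum := (sgn_summable hT y k).hasSum.mul_left (1 + ε)
  have := tsum_of_norm_bounded (f := fun i => (|T i k| * sg (y i) - sg (y k) * T i k) * h i) hsum
    (fun i => by
      rw [Real.norm_eq_abs, abs_mul, mul_comm]
      exact mul_le_mul (hb i) (NceA_pt (T i k) (sg (y i)) (sg (y k)) (NceA_sg _) (abs_sg_le _))
        (abs_nonneg _) ((abs_nonneg _).trans (hb i)))
  rwa [Real.norm_eq_abs] at this

private theorem NceA_cc (hT : Proj T ε) {y : ℕ → ℝ} (hy : St T y) {g : ℕ → ℝ}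
    (hg : ∀ i, |g i| ≤ 1 + ε) :
    av y (Kf T (fun i => g i ^ 2)) ≤ av y (fun i => g i ^ 2) + (1 + ε) ^ 2 * ε := by
  have hg2 : ∀ i, |g i ^ 2| ≤ (1 + ε) ^ 2 := by
    intro i
    rw [abs_pow]
    exact pow_le_pow_left₀ (abs_nonneg _) (hg i) 2
  rw [av_Kf hT hy.summ hg2]
  have hc := cc_summable hT hy.summ
  have s0 : Summable fun k => |y k| * g k ^ 2 := sum_av hy.summ hg2
  have s1 : Summable fun k => |y k| * g k ^ 2 + (1 + ε) ^ 2 * (cc T y k - |y k|) :=
    s0.add ((hc.sub hy.summ).mul_left _)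
  have hle : ∀ k, cc T y k * g k ^ 2 ≤ |y k| * g k ^ 2 + (1 + ε) ^ 2 * (cc T y k - |y k|) := by
    intro k
    have h1 := cc_ge hT hy k
    have h2 := (le_abs_self _).trans (hg2 k)
    nlinarith
  have s2 : Summable fun k => cc T y k * g k ^ 2 := by
    refine Summable.of_nonneg_of_le (fun k => mul_nonneg (cc_nonneg T y k) (sq_nonneg _)) hle s1
  refine (Summable.tsum_le_tsum hle s2 s1).trans ?_
  rw [Summable.tsum_add s0 ((hc.sub hy.summ).mul_left _), tsum_mul_left,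
    Summable.tsum_sub hc hy.summ, hy.one]
  have h3 := cc_sum_le hT hy
  have h4 : (1 + ε) ^ 2 * (∑' k, cc T y k - 1) ≤ (1 + ε) ^ 2 * ε :=
    mul_le_mul_of_nonneg_left (by linarith) (sq_nonneg _)
  have h5 : av y (fun i => g i ^ 2) = ∑' k, |y k| * g k ^ 2 := rfl
  rw [h5]
  linarith

theorem energy (hT : Proj T ε) {y : ℕ → ℝ} (hy : St T y) {h : ℕ → ℝ} (hb : ∀ i, |h i| ≤ 1 + ε)
    (hh : ∀ k, h k = ∑' i, T i k * h i) :
    av y (fun k => ∑' i, |T i k| * (sg (y i) * h i - sg (y k) * h k) ^ 2) ≤ 5 * ε := by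
  have he0 := hT.eps0
  have he1 := hT.eps1
  set g : ℕ → ℝ := fun i => sg (y i) * h i with hgdef
  have hg : ∀ i, |g i| ≤ 1 + ε := by
    intro i
    simp only [hgdef]
    rw [abs_mul]
    calc |sg (y i)| * |h i| ≤ 1 * (1 + ε) :=
          mul_le_mul (abs_sg_le _) (hb i) (abs_nonneg _) zero_le_one
      _ = 1 + ε := one_mul _
  have hg2 : ∀ i, |g i ^ 2| ≤ (1 + ε) ^ 2 := by
    intro i
    rw [abs_pow]
    exact pow_le_pow_left₀ (abs_nonneg _) (hg i) 2
  set D : ℕ → ℝ := fun k => ∑' i, (|T i k| - sg (y i) * sg (y k) * T i k) with hD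
  have hD0 : ∀ k, 0 ≤ D k := fun k => tsum_nonneg fun i => sgn_term_nonneg T y i k
  have hD3 : ∀ k, D k ≤ 3 := fun k => sgn_le hT y k
  -- expansion of the square
  have hA : ∀ k, (∑' i, |T i k| * (g i - g k) ^ 2) =
      Kf T (fun i => g i ^ 2) k - 2 * g k * Kf T g k + g k ^ 2 * cn T k := by
    intro k
    have hs : Summable fun i => |T i k| := hT.summ k
    have b1 : ∀ i, |g i ^ 2| ≤ 100 := fun i => (hg2 i).trans (by nlinarith)
    have s1 : Summable fun i => |T i k| * g i ^ 2 := sum_av (a := fun i => T i k) hs hg2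
    have s2 : Summable fun i => |T i k| * g i := sum_av (a := fun i => T i k) hs hg
    have e1 : ∀ i, |T i k| * (g i - g k) ^ 2 =
        |T i k| * g i ^ 2 - 2 * g k * (|T i k| * g i) + g k ^ 2 * |T i k| := by
      intro i; ring
    rw [tsum_congr e1, Summable.tsum_add (s1.sub (s2.mul_left _)) (hs.mul_left _),
      Summable.tsum_sub s1 (s2.mul_left _), tsum_mul_left, tsum_mul_left]
    rfl
  have hrem : ∀ k, |Kf T g k - g k| ≤ (1 + ε) * D k := fun k => NceA_rem hT hb hh k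
  have hmid : ∀ k, -(2 * g k * Kf T g k) ≤ -(2 * g k ^ 2) + 2 * (1 + ε) ^ 2 * D k := by
    intro k
    have h1 := hrem k
    have h2 := hg k
    have h3 : |g k * (Kf T g k - g k)| ≤ (1 + ε) * ((1 + ε) * D k) := by
      rw [abs_mul]
      exact mul_le_mul h2 h1 (abs_nonneg _) (by linarith)
    have h4 := neg_abs_le (g k * (Kf T g k - g k))
    nlinarith
  have hcn : ∀ k, cn T k ≤ 1 + ε := fun k => hT.norm k
  have hpt : ∀ k, (∑' i, |T i k| * (g i - g k) ^ 2) ≤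
      Kf T (fun i => g i ^ 2) k + ((-(1 - ε)) * g k ^ 2 + (2 * (1 + ε) ^ 2) * D k) := by
    intro k
    rw [hA k]
    have h1 := hmid k
    have h2 : g k ^ 2 * cn T k ≤ g k ^ 2 * (1 + ε) :=
      mul_le_mul_of_nonneg_left (hcn k) (sq_nonneg _)
    linarith
  -- bounds
  have hC2 : (1 + ε) ^ 2 ≤ 2 := by nlinarith
  have bK : ∀ k, |Kf T (fun i => g i ^ 2) k| ≤ 4 := by
    intro k
    refine (hT.Kf_bd hg2 k).trans ?_
    nlinarith
  have bD : ∀ k, |(2 * (1 + ε) ^ 2) * D k| ≤ 12 := by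
    intro k
    rw [abs_of_nonneg (mul_nonneg (by positivity) (hD0 k))]
    nlinarith [hD0 k, hD3 k]
  have bg : ∀ k, |(-(1 - ε)) * g k ^ 2| ≤ 12 := by
    intro k
    rw [abs_mul, abs_neg, abs_of_nonneg (by linarith : (0 : ℝ) ≤ 1 - ε)]
    have := hg2 k
    have h0 := abs_nonneg (g k ^ 2)
    nlinarith
  have bgD : ∀ k, |(-(1 - ε)) * g k ^ 2 + (2 * (1 + ε) ^ 2) * D k| ≤ 24 := fun k =>
    (abs_add_le _ _).trans (by linarith [bD k, bg k])
  have bK24 : ∀ k, |Kf T (fun i => g i ^ 2) k| ≤ 24 := fun k => (bK k).trans (by norm_num)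
  have bR : ∀ k, |Kf T (fun i => g i ^ 2) k +
      ((-(1 - ε)) * g k ^ 2 + (2 * (1 + ε) ^ 2) * D k)| ≤ 28 := fun k =>
    (abs_add_le _ _).trans (by linarith [bK k, bgD k])
  have bA : ∀ k, |∑' i, |T i k| * (g i - g k) ^ 2| ≤ 28 := by
    intro k
    have hnn : 0 ≤ ∑' i, |T i k| * (g i - g k) ^ 2 :=
      tsum_nonneg fun i => mul_nonneg (abs_nonneg _) (sq_nonneg _)
    rw [abs_of_nonneg hnn]
    exact (hpt k).trans ((le_abs_self _).trans (bR k))
  have W1 := av_mono hy.summ bA bR hpt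
  rw [av_add hy.summ bK24 bgD, av_add hy.summ bg bD, av_mul, av_mul] at W1
  have W2 := NceA_cc hT hy hg
  have W3 : av y D ≤ ε := sgn_coh hT hy
  have W4 : av y (fun k => g k ^ 2) ≤ (1 + ε) ^ 2 := by
    have := av_le_of_le hy.summ hg2 (c := (1 + ε) ^ 2) (fun j => (le_abs_self _).trans (hg2 j))
    rwa [hy.one, mul_one] at this
  have W5 : av y (Kf T (fun i => g i ^ 2)) + ((-(1 - ε)) * av y (fun k => g k ^ 2) +
      2 * (1 + ε) ^ 2 * av y D) ≤ 4 * (1 + ε) ^ 2 * ε := by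
    have h1 : 2 * (1 + ε) ^ 2 * av y D ≤ 2 * (1 + ε) ^ 2 * ε :=
      mul_le_mul_of_nonneg_left W3 (by positivity)
    have h2 : ε * av y (fun k => g k ^ 2) ≤ ε * (1 + ε) ^ 2 := mul_le_mul_of_nonneg_left W4 he0
    nlinarith
  refine (W1.trans W5).trans ?_
  have hC5 : (1 + ε) ^ 2 ≤ 5 / 4 := by nlinarith
  have h9 : (1 + ε) ^ 2 * ε ≤ 5 / 4 * ε := mul_le_mul_of_nonneg_right hC5 he0
  linarith

end Pool.Agent.H87.ZI
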