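import Pool.Agent.H87.ZI.NceA

/-!
# Almost multiplicativity (Z5)

`y` a state, `σ = sg y`, `|f| ≤ 1`, `β k = ∑ᵢ T i k σ i σ k f i` (`be T y f k`; `|β| ≤ 1 + ε`). Claim: `T (f y)` and
`T (β y)` differ by at most `3 √ε` in `ℓ₁`.

Let `d i = Tv T (f y) i - Tv T (β y) i` and `g i = sg (d i)`, so the norm is `∑ᵢ g i d i`. Put `h k = ∑ᵢ T i k g i`:
`|h| ≤ 1 + ε` and `∑ᵢ T i k h i = h k` (exchange of sums and `idem`). Then
`∑ᵢ g i Tv T (f y) i = ∑ₖ f k y k h k = ∑ᵢ f i y i h i`, and with `y i = ∑ₖ T i k y k`, `y k = |y k| σ k`: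
`= ∑ₖ |y k| ∑ᵢ σ k T i k f i h i = ∑ₖ |y k| ∑ᵢ σ k T i k σ i f i (σ i h i)`; the last step: if `σ i ≠ 0` then `σ i² = 1`, and if
`σ i = 0` then `y i = 0`, the total contribution of this `i` is `f i h i ∑ₖ T i k y k = f i h i y i = 0` on one
side and `0` on the other side. Also `∑ᵢ g i Tv T (β y) i = ∑ₖ β k y k h k = ∑ₖ |y k| ∑ᵢ σ k T i k σ i f i (σ k h k)`.
The difference is at most `∑ₖ |y k| ∑ᵢ |T i k| |σ i h i - σ k h k|`, and by Cauchy and Schwarz twice (or over
`ℕ × ℕ` at once) this is at most `√((1 + ε) · 5 ε) ≤ 3 √ε`, using `energy`.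
-/

namespace Pool.Agent.H87.ZI

variable {T : ℕ → ℕ → ℝ} {ε : ℝ}

/-- The conditional expectation of `f` along the transposed matrix, with signs. -/
noncomputable def be (T : ℕ → ℕ → ℝ) (y f : ℕ → ℝ) (k : ℕ) : ℝ :=
  ∑' i, T i k * (sg (y i) * sg (y k) * f i)

/-- exchange of the two sums, with signs -/
private theorem NceB_swap (hT : Proj T ε) {x : ℕ → ℝ} (hx : Summable fun j => |x j|)
    {F : ℕ → ℕ → ℝ} {C : ℝ} (hF : ∀ j k, |F j k| ≤ C) :
    (∑' j, ∑' k, x j * T k j * F j k) = ∑' k, ∑' j, x j * T k j * F j k := by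
  have h := tsum_swap hT hx (F := fun j k => sg (x j) * sg (T k j) * F j k) (C := C) (by
    intro j k
    rw [abs_mul, abs_mul]
    have h1 := abs_sg_le (x j)
    have h2 := abs_sg_le (T k j)
    have h3 : |sg (x j)| * |sg (T k j)| ≤ 1 := by
      calc |sg (x j)| * |sg (T k j)| ≤ 1 * 1 :=
            mul_le_mul h1 h2 (abs_nonneg _) zero_le_one
        _ = 1 := one_mul 1
    calc |sg (x j)| * |sg (T k j)| * |F j k| ≤ 1 * |F j k| :=
          mul_le_mul_of_nonneg_right h3 (abs_nonneg _)
      _ = |F j k| := one_mul _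
      _ ≤ C := hF j k)
  have e : ∀ j k, |x j| * |T k j| * (sg (x j) * sg (T k j) * F j k) = x j * T k j * F j k := by
    intro j k
    have h1 := sg_mul_abs (x j)
    have h2 := sg_mul_abs (T k j)
    calc |x j| * |T k j| * (sg (x j) * sg (T k j) * F j k)
        = (sg (x j) * |x j|) * (sg (T k j) * |T k j|) * F j k := by ring
      _ = x j * T k j * F j k := by rw [h1, h2]
  simp only [e] at h
  exact h

/-- a bounded function is summable against a column -/
private theorem NceB_sum (hT : Proj T ε) (k : ℕ) {f : ℕ → ℝ} {C : ℝ} (hf : ∀ i, |f i| ≤ C) :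
    Summable fun i => T i k * f i := by
  refine Summable.of_norm_bounded ((hT.summ k).mul_right C) fun i => ?_
  rw [Real.norm_eq_abs, abs_mul]
  exact mul_le_mul_of_nonneg_left (hf i) (abs_nonneg _)

/-- and the sum is at most `(1 + ε) C` -/
private theorem NceB_bd (hT : Proj T ε) (k : ℕ) {f : ℕ → ℝ} {C : ℝ} (hf : ∀ i, |f i| ≤ C) :
    |∑' i, T i k * f i| ≤ (1 + ε) * C := by
  have hC : 0 ≤ C := (abs_nonneg _).trans (hf 0)
  have h1 : ‖∑' i, T i k * f i‖ ≤ (∑' i, |T i k|) * C := by
    refine tsum_of_norm_bounded ((hT.summ k).hasSum.mul_right C) fun i => ?_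
    rw [Real.norm_eq_abs, abs_mul]
    exact mul_le_mul_of_nonneg_left (hf i) (abs_nonneg _)
  rw [Real.norm_eq_abs] at h1
  exact h1.trans (mul_le_mul_of_nonneg_right (hT.norm k) hC)

private theorem NceB_sgf {f : ℕ → ℝ} (hf : ∀ i, |f i| ≤ 1) (a b : ℝ) (i : ℕ) :
    |sg a * sg b * f i| ≤ 1 := by
  rw [abs_mul, abs_mul]
  have h1 := abs_sg_le a
  have h2 := abs_sg_le b
  have h3 : |sg a| * |sg b| ≤ 1 * 1 := mul_le_mul h1 h2 (abs_nonneg _) zero_le_one
  calc |sg a| * |sg b| * |f i| ≤ (1 * 1) * 1 :=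
        mul_le_mul h3 (hf i) (abs_nonneg _) (by norm_num)
    _ = 1 := by norm_num

theorem be_bd (hT : Proj T ε) (y : ℕ → ℝ) {f : ℕ → ℝ} (hf : ∀ i, |f i| ≤ 1) (k : ℕ) :
    |be T y f k| ≤ 1 + ε := by
  have h := NceB_bd hT k (f := fun i => sg (y i) * sg (y k) * f i) (C := 1)
    (fun i => NceB_sgf hf _ _ i)
  rw [mul_one] at h
  exact h

private theorem NceB_sg2 (a : ℝ) : sg a * sg a * a = a := by
  rw [mul_assoc, sg_mul_self, sg_mul_abs]

/-- multiplication by a bounded function keeps summability -/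
private theorem NceB_mul {y : ℕ → ℝ} (hy : Summable fun i => |y i|) {f : ℕ → ℝ} {C : ℝ}
    (hf : ∀ i, |f i| ≤ C) : Summable fun i => |f i * y i| := by
  refine Summable.of_norm_bounded (hy.mul_left C) fun i => ?_
  rw [Real.norm_eq_abs, abs_abs, abs_mul]
  exact mul_le_mul_of_nonneg_right (hf i) (abs_nonneg _)

/-- duality: `∑ᵢ g i (T v) i = ∑ₖ v k ∑ᵢ T i k g i` -/
private theorem NceB_dual (hT : Proj T ε) {v : ℕ → ℝ} (hv : Summable fun j => |v j|)
    {g : ℕ → ℝ} {C : ℝ} (hg : ∀ i, |g i| ≤ C) :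
    ∑' i, g i * Tv T v i = ∑' k, v k * ∑' i, T i k * g i := by
  have h := NceB_swap hT hv (F := fun _ i => g i) (C := C) (fun _ i => hg i)
  calc ∑' i, g i * Tv T v i = ∑' i, ∑' k, v k * T i k * g i := by
        refine tsum_congr fun i => ?_
        unfold Tv
        rw [← tsum_mul_left]
        exact tsum_congr fun k => by ring
    _ = ∑' k, ∑' i, v k * T i k * g i := h.symm
    _ = ∑' k, v k * ∑' i, T i k * g i := by
        refine tsum_congr fun k => ?_
        rw [← tsum_mul_left]
        exact tsum_congr fun i => by ring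

/-- the Cauchy and Schwarz step -/
private theorem NceB_cs (hT : Proj T ε) {y : ℕ → ℝ} (hy : St T y) {h : ℕ → ℝ}
    (hb : ∀ i, |h i| ≤ 1 + ε) (hh : ∀ k, h k = ∑' i, T i k * h i) :
    av y (fun k => ∑' i, |T i k| * |sg (y i) * h i - sg (y k) * h k|) ≤ 3 * √ε := by
  have e0 := hT.eps0
  have e1 := hT.eps1
  have hu : ∀ i k, |sg (y i) * h i - sg (y k) * h k| ≤ 3 := by
    intro i k
    have h1 : |sg (y i) * h i| ≤ 1 * (1 + ε) := by
      rw [abs_mul]
      exact mul_le_mul (abs_sg_le _) (hb i) (abs_nonneg _) zero_le_one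
    have h2 : |sg (y k) * h k| ≤ 1 * (1 + ε) := by
      rw [abs_mul]
      exact mul_le_mul (abs_sg_le _) (hb k) (abs_nonneg _) zero_le_one
    have h3 := abs_sub (sg (y i) * h i) (sg (y k) * h k)
    linarith
  have hu2 : ∀ i k, (sg (y i) * h i - sg (y k) * h k) ^ 2 ≤ 9 := by
    intro i k
    have h1 := hu i k
    rw [← sq_abs]
    nlinarith [abs_nonneg (sg (y i) * h i - sg (y k) * h k)]
  have s1 : ∀ k, Summable fun i => |T i k| * |sg (y i) * h i - sg (y k) * h k| := by
    intro k
    refine Summable.of_norm_bounded ((hT.summ k).mul_right 3) fun i => ?_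
    rw [Real.norm_eq_abs, abs_mul, abs_abs, abs_abs]
    exact mul_le_mul_of_nonneg_left (hu i k) (abs_nonneg _)
  have s2 : ∀ k, Summable fun i => |T i k| * (sg (y i) * h i - sg (y k) * h k) ^ 2 := by
    intro k
    refine Summable.of_norm_bounded ((hT.summ k).mul_right 9) fun i => ?_
    rw [Real.norm_eq_abs, abs_mul, abs_abs,
      abs_of_nonneg (sq_nonneg (sg (y i) * h i - sg (y k) * h k))]
    exact mul_le_mul_of_nonneg_left (hu2 i k) (abs_nonneg _)
  set P : ℕ → ℝ := fun k => ∑' i, |T i k| * |sg (y i) * h i - sg (y k) * h k| with hP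
  set Q : ℕ → ℝ := fun k => ∑' i, |T i k| * (sg (y i) * h i - sg (y k) * h k) ^ 2 with hQ
  have hQ5 : av y Q ≤ 5 * ε := energy hT hy hb hh
  have bP : ∀ k, |P k| ≤ 6 := by
    intro k
    have h1 : ‖P k‖ ≤ (∑' i, |T i k|) * 3 := by
      refine tsum_of_norm_bounded ((hT.summ k).hasSum.mul_right 3) fun i => ?_
      rw [Real.norm_eq_abs, abs_mul, abs_abs, abs_abs]
      exact mul_le_mul_of_nonneg_left (hu i k) (abs_nonneg _)
    rw [Real.norm_eq_abs] at h1
    have h2 := hT.norm k
    linarith
  have bQ : ∀ k, |Q k| ≤ 18 := by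
    intro k
    have h1 : ‖Q k‖ ≤ (∑' i, |T i k|) * 9 := by
      refine tsum_of_norm_bounded ((hT.summ k).hasSum.mul_right 9) fun i => ?_
      rw [Real.norm_eq_abs, abs_mul, abs_abs,
        abs_of_nonneg (sq_nonneg (sg (y i) * h i - sg (y k) * h k))]
      exact mul_le_mul_of_nonneg_left (hu2 i k) (abs_nonneg _)
    rw [Real.norm_eq_abs] at h1
    have h2 := hT.norm k
    linarith
  -- for every t
  have key : ∀ t : ℝ, 0 < t → 2 * t * av y P ≤ t ^ 2 * (1 + ε) + 5 * ε := by
    intro t ht
    have h1 : ∀ k, 2 * t * P k ≤ t ^ 2 * (1 + ε) + Q k := by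
      intro k
      have h2 : ∑' i, (2 * t) * (|T i k| * |sg (y i) * h i - sg (y k) * h k|) ≤
          ∑' i, (t ^ 2 * |T i k| + |T i k| * (sg (y i) * h i - sg (y k) * h k) ^ 2) := by
        refine Summable.tsum_le_tsum (fun i => ?_) ((s1 k).mul_left _)
          (((hT.summ k).mul_left _).add (s2 k))
        have h3 : 2 * t * |sg (y i) * h i - sg (y k) * h k| ≤
            t ^ 2 + (sg (y i) * h i - sg (y k) * h k) ^ 2 := by
          rw [← sq_abs (sg (y i) * h i - sg (y k) * h k)]
          nlinarith [sq_nonneg (t - |sg (y i) * h i - sg (y k) * h k|)]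
        have h4 := mul_le_mul_of_nonneg_left h3 (abs_nonneg (T i k))
        nlinarith [h4]
      rw [tsum_mul_left, Summable.tsum_add ((hT.summ k).mul_left _) (s2 k), tsum_mul_left] at h2
      have h5 := mul_le_mul_of_nonneg_left (hT.norm k) (sq_nonneg t)
      have h6 : P k = ∑' i, |T i k| * |sg (y i) * h i - sg (y k) * h k| := rfl
      have h7 : Q k = ∑' i, |T i k| * (sg (y i) * h i - sg (y k) * h k) ^ 2 := rfl
      rw [h6, h7]
      linarith
    have h8 : av y (fun k => (2 * t) * P k) ≤ av y (fun k => t ^ 2 * (1 + ε) + Q k) := by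
      refine av_mono hy.summ (C := 12 * t + t ^ 2 * 2 + 18) (fun k => ?_) (fun k => ?_) h1
      · rw [abs_mul, abs_of_pos (by linarith : (0 : ℝ) < 2 * t)]
        have := bP k
        nlinarith [sq_nonneg t, abs_nonneg (P k)]
      · have h9 := bQ k
        have h10 := abs_add_le (t ^ 2 * (1 + ε)) (Q k)
        have h11 : |t ^ 2 * (1 + ε)| = t ^ 2 * (1 + ε) := abs_of_nonneg (by positivity)
        nlinarith [sq_nonneg t]
    rw [av_mul, av_add hy.summ (C := t ^ 2 * 2 + 18) (f := fun _ => t ^ 2 * (1 + ε)) (g := Q)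
      (fun k => by
        show |t ^ 2 * (1 + ε)| ≤ _
        rw [abs_of_nonneg (by positivity)]
        nlinarith [sq_nonneg t])
      (fun k => by
        have := bQ k
        nlinarith [sq_nonneg t]), av_const, hy.one, mul_one] at h8
    linarith
  rcases e0.eq_or_lt with h | h
  · -- the case of zero
    have h0 : ∀ t : ℝ, 0 < t → av y P ≤ t := by
      intro t ht
      have h1 := key t ht
      rw [← h] at h1
      have h2 : 2 * t * av y P ≤ t * t := by nlinarith
      have h3 : t * (2 * av y P) ≤ t * t := by nlinarith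
      have h4 := le_of_mul_le_mul_left h3 ht
      linarith
    have h5 : av y P ≤ 0 := le_of_forall_pos_le_add fun t ht => by
      have := h0 t ht
      linarith
    rw [← h, Real.sqrt_zero, mul_zero]
    exact h5
  · have hs : 0 < √ε := Real.sqrt_pos.2 h
    have h1 := key (2 * √ε) (by positivity)
    have h2 : √ε * √ε = ε := Real.mul_self_sqrt e0
    have h3 : (2 * √ε) ^ 2 = 4 * ε := by nlinarith
    rw [h3] at h1
    have h4 : √ε * (4 * av y P) ≤ √ε * (12 * √ε) := by nlinarith
    have h5 := le_of_mul_le_mul_left h4 hs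
    linarith

theorem nce (hT : Proj T ε) {y : ℕ → ℝ} (hy : St T y) {f : ℕ → ℝ} (hf : ∀ i, |f i| ≤ 1) :
    ∑' i, |Tv T (fun k => f k * y k) i - Tv T (fun k => be T y f k * y k) i| ≤ 3 * √ε := by
  have e0 := hT.eps0
  have hb : ∀ k, |be T y f k| ≤ 1 + ε := be_bd hT y hf
  have hfy : Summable fun k => |f k * y k| := NceB_mul hy.summ hf
  have hby : Summable fun k => |be T y f k * y k| := NceB_mul hy.summ hb
  set v : ℕ → ℝ := fun k => f k * y k - be T y f k * y k with hv
  have hvs : Summable fun k => |v k| := by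
    refine Summable.of_norm_bounded (hfy.add hby) fun k => ?_
    rw [Real.norm_eq_abs, abs_abs]
    exact abs_sub _ _
  have hd : ∀ i, Tv T (fun k => f k * y k) i - Tv T (fun k => be T y f k * y k) i = Tv T v i :=
    fun i => (Tv_sub hT hfy hby i).symm
  simp only [hd]
  set g : ℕ → ℝ := fun i => sg (Tv T v i) with hg
  have hg1 : ∀ i, |g i| ≤ 1 := fun i => abs_sg_le _
  set h : ℕ → ℝ := fun k => ∑' i, T i k * g i with hh
  have hhb : ∀ k, |h k| ≤ 1 + ε := by
    intro k
    have := NceB_bd hT k hg1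
    rw [mul_one] at this
    exact this
  -- `h` is invariant
  have hinv : ∀ k, h k = ∑' i, T i k * h i := by
    intro k
    have h1 := NceB_swap hT (x := fun i => T i k) (hT.summ k) (F := fun _ l => g l) (C := 1)
      (fun _ l => hg1 l)
    calc h k = ∑' l, T l k * g l := rfl
      _ = ∑' l, ∑' i, T i k * T l i * g l := by
          refine tsum_congr fun l => ?_
          rw [hT.idem l k, ← tsum_mul_right]
          exact tsum_congr fun i => by ring
      _ = ∑' i, ∑' l, T i k * T l i * g l := h1.symm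
      _ = ∑' i, T i k * h i := by
          refine tsum_congr fun i => ?_
          show _ = T i k * ∑' l, T l i * g l
          rw [← tsum_mul_left]
          exact tsum_congr fun l => by ring
  -- the norm
  have n1 : ∑' i, |Tv T v i| = ∑' k, v k * h k := by
    rw [← NceB_dual hT hvs hg1]
    exact tsum_congr fun i => (sg_mul_self _).symm
  have bfh : ∀ k, |f k * h k| ≤ 1 + ε := by
    intro k
    rw [abs_mul]
    calc |f k| * |h k| ≤ 1 * (1 + ε) := mul_le_mul (hf k) (hhb k) (abs_nonneg _) zero_le_one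
      _ = 1 + ε := one_mul _
  have bsfh : ∀ k, |sg (y k) * sg (y k) * (f k * h k)| ≤ 1 + ε := by
    intro k
    rw [abs_mul, abs_mul]
    have h1 := abs_sg_le (y k)
    have h2 : |sg (y k)| * |sg (y k)| ≤ 1 := by
      calc |sg (y k)| * |sg (y k)| ≤ 1 * 1 := mul_le_mul h1 h1 (abs_nonneg _) zero_le_one
        _ = 1 := one_mul 1
    calc |sg (y k)| * |sg (y k)| * |f k * h k| ≤ 1 * (1 + ε) :=
          mul_le_mul h2 (bfh k) (abs_nonneg _) zero_le_one
      _ = 1 + ε := one_mul _
  -- the first sum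
  have A1 : ∑' k, f k * y k * h k =
      ∑' j, y j * ∑' k, T k j * (sg (y k) * sg (y k) * (f k * h k)) := by
    have h1 := NceB_swap hT (x := y) hy.summ (F := fun _ k => sg (y k) * sg (y k) * (f k * h k))
      (C := 1 + ε) (fun _ k => bsfh k)
    calc ∑' k, f k * y k * h k = ∑' k, (sg (y k) * sg (y k) * (f k * h k)) * y k := by
          refine tsum_congr fun k => ?_
          have := NceB_sg2 (y k)
          calc f k * y k * h k = f k * h k * y k := by ring
            _ = f k * h k * (sg (y k) * sg (y k) * y k) := by rw [this]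
            _ = _ := by ring
      _ = ∑' k, ∑' j, y j * T k j * (sg (y k) * sg (y k) * (f k * h k)) := by
          refine tsum_congr fun k => ?_
          have hk := hy.fix k
          calc (sg (y k) * sg (y k) * (f k * h k)) * y k
              = (sg (y k) * sg (y k) * (f k * h k)) * ∑' j, T k j * y j := by rw [← hk]
            _ = _ := by
                rw [← tsum_mul_left]
                exact tsum_congr fun j => by ring
      _ = ∑' j, ∑' k, y j * T k j * (sg (y k) * sg (y k) * (f k * h k)) := h1.symm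
      _ = _ := by
          refine tsum_congr fun j => ?_
          rw [← tsum_mul_left]
          exact tsum_congr fun k => by ring
  -- the second sum
  have B1 : ∀ j, be T y f j * y j * h j =
      y j * ∑' k, T k j * (sg (y k) * sg (y j) * f k * h j) := by
    intro j
    unfold be
    calc (∑' i, T i j * (sg (y i) * sg (y j) * f i)) * y j * h j
        = y j * ((∑' i, T i j * (sg (y i) * sg (y j) * f i)) * h j) := by ring
      _ = y j * ∑' k, T k j * (sg (y k) * sg (y j) * f k * h j) := by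
          rw [← tsum_mul_right]
          congr 1
          exact tsum_congr fun k => by ring
  have bsj : ∀ k j, |sg (y k) * sg (y j) * f k * h j| ≤ 1 + ε := by
    intro k j
    rw [abs_mul]
    calc |sg (y k) * sg (y j) * f k| * |h j| ≤ 1 * (1 + ε) :=
          mul_le_mul (NceB_sgf hf _ _ k) (hhb j) (abs_nonneg _) zero_le_one
      _ = 1 + ε := one_mul _
  -- summability of the outer sums
  have SA : Summable fun k => f k * y k * h k := by
    refine Summable.of_norm_bounded (hfy.mul_right (1 + ε)) fun k => ?_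
    rw [Real.norm_eq_abs, abs_mul]
    exact mul_le_mul_of_nonneg_left (hhb k) (abs_nonneg _)
  have SB : Summable fun k => be T y f k * y k * h k := by
    refine Summable.of_norm_bounded (hby.mul_right (1 + ε)) fun k => ?_
    rw [Real.norm_eq_abs, abs_mul]
    exact mul_le_mul_of_nonneg_left (hhb k) (abs_nonneg _)
  have SA' : Summable fun j => y j * ∑' k, T k j * (sg (y k) * sg (y k) * (f k * h k)) := by
    refine Summable.of_norm_bounded (hy.summ.mul_right ((1 + ε) * (1 + ε))) fun j => ?_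
    rw [Real.norm_eq_abs, abs_mul]
    exact mul_le_mul_of_nonneg_left (NceB_bd hT j bsfh) (abs_nonneg _)
  have SB' : Summable fun j => y j * ∑' k, T k j * (sg (y k) * sg (y j) * f k * h j) := by
    refine Summable.of_norm_bounded (hy.summ.mul_right ((1 + ε) * (1 + ε))) fun j => ?_
    rw [Real.norm_eq_abs, abs_mul]
    exact mul_le_mul_of_nonneg_left (NceB_bd hT j (fun k => bsj k j)) (abs_nonneg _)
  have n2 : ∑' k, v k * h k =
      ∑' j, y j * ∑' k, T k j * (sg (y k) * f k * (sg (y k) * h k - sg (y j) * h j)) := by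
    calc ∑' k, v k * h k = ∑' k, (f k * y k * h k - be T y f k * y k * h k) :=
          tsum_congr fun k => by
            show (f k * y k - be T y f k * y k) * h k = _
            ring
      _ = ∑' k, f k * y k * h k - ∑' k, be T y f k * y k * h k := SA.tsum_sub SB
      _ = ∑' j, y j * (∑' k, T k j * (sg (y k) * sg (y k) * (f k * h k))) -
          ∑' j, y j * (∑' k, T k j * (sg (y k) * sg (y j) * f k * h j)) := by
          rw [A1]
          congr 1
          exact tsum_congr fun j => B1 j
      _ = ∑' j, (y j * (∑' k, T k j * (sg (y k) * sg (y k) * (f k * h k))) -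
          y j * (∑' k, T k j * (sg (y k) * sg (y j) * f k * h j))) := (SA'.tsum_sub SB').symm
      _ = _ := by
          refine tsum_congr fun j => ?_
          rw [← mul_sub, ← Summable.tsum_sub (NceB_sum hT j bsfh)
            (NceB_sum hT j (fun k => bsj k j))]
          congr 1
          exact tsum_congr fun k => by ring
  rw [n1, n2]
  refine le_trans ?_ (NceB_cs hT hy hhb hinv)
  have e1 := hT.eps1
  have hu : ∀ i k, |sg (y i) * h i - sg (y k) * h k| ≤ 3 := by
    intro i k
    have h1 : |sg (y i) * h i| ≤ 1 * (1 + ε) := by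
      rw [abs_mul]
      exact mul_le_mul (abs_sg_le _) (hhb i) (abs_nonneg _) zero_le_one
    have h2 : |sg (y k) * h k| ≤ 1 * (1 + ε) := by
      rw [abs_mul]
      exact mul_le_mul (abs_sg_le _) (hhb k) (abs_nonneg _) zero_le_one
    have h3 := abs_sub (sg (y i) * h i) (sg (y k) * h k)
    linarith
  have s1 : ∀ k, Summable fun i => |T i k| * |sg (y i) * h i - sg (y k) * h k| := by
    intro k
    refine Summable.of_norm_bounded ((hT.summ k).mul_right 3) fun i => ?_
    rw [Real.norm_eq_abs, abs_mul, abs_abs, abs_abs]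
    exact mul_le_mul_of_nonneg_left (hu i k) (abs_nonneg _)
  have ub : ∀ i k, |sg (y i) * f i * (sg (y i) * h i - sg (y k) * h k)| ≤
      |sg (y i) * h i - sg (y k) * h k| := by
    intro i k
    rw [abs_mul, abs_mul]
    have h1 : |sg (y i)| * |f i| ≤ 1 * 1 :=
      mul_le_mul (abs_sg_le _) (hf i) (abs_nonneg _) zero_le_one
    calc |sg (y i)| * |f i| * |sg (y i) * h i - sg (y k) * h k|
        ≤ (1 * 1) * |sg (y i) * h i - sg (y k) * h k| :=
          mul_le_mul_of_nonneg_right h1 (abs_nonneg _)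
      _ = _ := by ring
  unfold av
  have inner : ∀ j, ∑' k, T k j * (sg (y k) * f k * (sg (y k) * h k - sg (y j) * h j)) ≤
      ∑' k, |T k j| * |sg (y k) * h k - sg (y j) * h j| ∧
      -(∑' k, T k j * (sg (y k) * f k * (sg (y k) * h k - sg (y j) * h j))) ≤
      ∑' k, |T k j| * |sg (y k) * h k - sg (y j) * h j| := by
    intro j
    have h1 : ‖∑' k, T k j * (sg (y k) * f k * (sg (y k) * h k - sg (y j) * h j))‖ ≤
        ∑' k, |T k j| * |sg (y k) * h k - sg (y j) * h j| := by
      refine tsum_of_norm_bounded (s1 j).hasSum fun k => ?_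
      rw [Real.norm_eq_abs, abs_mul]
      exact mul_le_mul_of_nonneg_left (ub k j) (abs_nonneg _)
    rw [Real.norm_eq_abs] at h1
    exact ⟨(le_abs_self _).trans h1, (neg_le_abs _).trans h1⟩
  have bI : ∀ j, |(∑' k, |T k j| * |sg (y k) * h k - sg (y j) * h j|)| ≤ 6 := by
    intro j
    have h1 : ‖∑' k, |T k j| * |sg (y k) * h k - sg (y j) * h j|‖ ≤ (∑' i, |T i j|) * 3 := by
      refine tsum_of_norm_bounded ((hT.summ j).hasSum.mul_right 3) fun i => ?_
      rw [Real.norm_eq_abs, abs_mul, abs_abs, abs_abs]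
      exact mul_le_mul_of_nonneg_left (hu i j) (abs_nonneg _)
    rw [Real.norm_eq_abs] at h1
    have h2 := hT.norm j
    linarith
  have key : ∀ j, y j * ∑' k, T k j * (sg (y k) * f k * (sg (y k) * h k - sg (y j) * h j)) ≤
      |y j| * ∑' k, |T k j| * |sg (y k) * h k - sg (y j) * h j| := by
    intro j
    refine (le_abs_self _).trans ?_
    rw [abs_mul]
    exact mul_le_mul_of_nonneg_left (abs_le.2 ⟨by linarith [(inner j).2], (inner j).1⟩)
      (abs_nonneg _)
  have S1 : Summable fun j => |y j| * ∑' k, |T k j| * |sg (y k) * h k - sg (y j) * h j| :=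
    sum_av hy.summ bI
  have S0 : Summable fun j => y j *
      ∑' k, T k j * (sg (y k) * f k * (sg (y k) * h k - sg (y j) * h j)) := by
    refine Summable.of_norm_bounded S1 fun j => ?_
    rw [Real.norm_eq_abs, abs_mul]
    exact mul_le_mul_of_nonneg_left (abs_le.2 ⟨by linarith [(inner j).2], (inner j).1⟩)
      (abs_nonneg _)
  exact S0.tsum_le_tsum key S1

end Pool.Agent.H87.ZI
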