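import Pool.Agent.H87.ZI.BasT

/-!
# A column which charges a cluster is near a multiple of its centre (Z13)

`p_j = ∑ₖ T k j p_k` (`idem`). Let `D = D_c`, for `k ∈ D` choose `e k = ± 1` with `∑ᵢ |T i k - e k T i c| ≤ r`, and
`θ = ∑_{k ∈ D} T k j e k` (`|θ| ≤ 1 + ε`). Then `p_j - θ p_c = ∑_{k ∉ D} T k j p_k + ∑_{k ∈ D} T k j (p_k - e k p_c)` has norm
at most `(1 + ε) (cn T j - ms (column j) D) + (1 + ε) r ≤ (1 + ε)(ε + 5 r) + (1 + ε) r ≤ 8 r` (`ε ≤ r`).
-/

namespace Pool.Agent.H87.ZI

variable {T : ℕ → ℕ → ℝ} {ε : ℝ}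

theorem near_centre (hT : Proj T ε) {r : ℝ} (hr : 0 < r) (hr1 : r ≤ 1 / 100) (hε : ε ≤ r) {j c : ℕ}
    (h : 1 - 5 * r ≤ ms (fun i => T i j) (Dc T r c)) :
    ∃ θ : ℝ, |θ| ≤ 1 + ε ∧ ∑' i, |T i j - θ * T i c| ≤ 8 * r := by
  classical
  -- the signs, extended by zero
  have hch : ∀ k, ∃ e : ℝ, |e| ≤ 1 ∧ ((k ∈ Dc T r c ∧ ∑' i, |T i k - e * T i c| ≤ r) ∨
      (k ∉ Dc T r c ∧ e = 0)) := by
    intro k
    by_cases hk : k ∈ Dc T r c
    · have hk' := hk
      obtain ⟨e, he, hs⟩ := hk'
      refine ⟨e, ?_, Or.inl ⟨hk, hs⟩⟩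
      rcases he with he | he <;> rw [he] <;> norm_num
    · exact ⟨0, by norm_num, Or.inr ⟨hk, rfl⟩⟩
  choose e he1 he2 using hch
  have hTj := hT.summ j
  have hTc := hT.summ c
  have hs1 : Summable fun k => |T k j| * |e k| := by
    refine Summable.of_nonneg_of_le (fun k => by positivity) (fun k => ?_) hTj
    exact mul_le_of_le_one_right (abs_nonneg _) (he1 k)
  have hs1' : Summable fun k => T k j * e k := by
    refine Summable.of_norm ?_
    simpa only [Real.norm_eq_abs, abs_mul] using hs1
  have hε0 := hT.eps0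
  have hε1 := hT.eps1
  refine ⟨∑' k, T k j * e k, ?_, ?_⟩
  · have h1 : |∑' k, T k j * e k| ≤ ∑' k, |T k j| * |e k| := by
      have h2 := norm_tsum_le_tsum_norm (f := fun k => T k j * e k) (by
        simpa only [Real.norm_eq_abs, abs_mul] using hs1)
      simpa only [Real.norm_eq_abs, abs_mul] using h2
    have h2 : ∑' k, |T k j| * |e k| ≤ ∑' k, |T k j| :=
      hs1.tsum_le_tsum (fun k => mul_le_of_le_one_right (abs_nonneg _) (he1 k)) hTj
    exact h1.trans (h2.trans (hT.norm j))
  · -- the double series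
    have hN : ∀ k, Summable fun i => |T i k - e k * T i c| := by
      intro k
      have h1 : Summable fun i => |T i k| + |T i c| := (hT.summ k).add hTc
      refine Summable.of_nonneg_of_le (fun i => abs_nonneg _) (fun i => ?_) h1
      calc |T i k - e k * T i c| ≤ |T i k| + |e k * T i c| := abs_sub _ _
        _ ≤ |T i k| + |T i c| := by
            rw [abs_mul]
            have := mul_le_of_le_one_left (abs_nonneg (T i c)) (he1 k)
            linarith
    have hNle : ∀ k, ∑' i, |T i k - e k * T i c| ≤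
        (if k ∈ Dc T r c then r else 1 + ε) := by
      intro k
      rcases he2 k with ⟨hk, hs⟩ | ⟨hk, hs⟩
      · rw [if_pos hk]
        exact hs
      · rw [if_neg hk, hs]
        simp only [zero_mul, sub_zero]
        exact hT.norm k
    have hNle2 : ∀ k, ∑' i, |T i k - e k * T i c| ≤ 1 + ε := by
      intro k
      refine (hNle k).trans ?_
      split_ifs
      · linarith
      · exact le_refl _
    set F : ℕ → ℕ → ℝ := fun k i => |T k j| * |T i k - e k * T i c| with hF
    have hF0 : ∀ k i, 0 ≤ F k i := fun k i => mul_nonneg (abs_nonneg _) (abs_nonneg _)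
    have hFi : ∀ k, ∑' i, F k i = |T k j| * ∑' i, |T i k - e k * T i c| := fun k => tsum_mul_left
    have hsum : Summable (Function.uncurry F) := by
      rw [summable_prod_of_nonneg (f := Function.uncurry F) (fun p => hF0 p.1 p.2)]
      refine ⟨fun k => ?_, ?_⟩
      · have h1 : Summable fun i => |T k j| * |T i k - e k * T i c| := (hN k).mul_left _
        exact h1
      · have h1 : (fun k => ∑' i, Function.uncurry F (k, i)) =
            fun k => |T k j| * ∑' i, |T i k - e k * T i c| := by
          funext k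
          exact hFi k
        rw [h1]
        refine Summable.of_nonneg_of_le (fun k => mul_nonneg (abs_nonneg _)
          (tsum_nonneg (fun i => abs_nonneg _))) (fun k => ?_) (hTj.mul_right (1 + ε))
        exact mul_le_mul_of_nonneg_left (hNle2 k) (abs_nonneg _)
    have hswap : (∑' i, ∑' k, F k i) = ∑' k, ∑' i, F k i := hsum.tsum_comm
    have hFs : ∀ i, Summable fun k => F k i := fun i => (hsum.prod_symm).prod_factor i
    have hsg : Summable fun i => ∑' k, F k i := (hsum.prod_symm).prod
    have hpt : ∀ i, |T i j - (∑' k, T k j * e k) * T i c| ≤ ∑' k, F k i := by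
      intro i
      have h1 : Summable fun k => T i k * T k j := by
        refine Summable.of_norm ?_
        simpa only [Real.norm_eq_abs, abs_mul] using hT.sum_idem i j
      have h2 : Summable fun k => T k j * e k * T i c := hs1'.mul_right _
      have h3 : T i j - (∑' k, T k j * e k) * T i c =
          ∑' k, T k j * (T i k - e k * T i c) := by
        rw [← tsum_mul_right, hT.idem i j, ← h1.tsum_sub h2]
        refine tsum_congr (fun k => ?_)
        ring
      rw [h3]
      have h4 := norm_tsum_le_tsum_norm (f := fun k => T k j * (T i k - e k * T i c)) (by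
        simpa only [Real.norm_eq_abs, abs_mul] using hFs i)
      simpa only [Real.norm_eq_abs, abs_mul] using h4
    have hle : ∑' i, |T i j - (∑' k, T k j * e k) * T i c| ≤ ∑' i, ∑' k, F k i := by
      refine Summable.tsum_le_tsum hpt ?_ hsg
      exact Summable.of_nonneg_of_le (fun i => abs_nonneg _) hpt hsg
    have hms : Summable fun k => (Dc T r c).indicator (fun k => |T k j|) k := hTj.indicator _
    have hmsd : ms (fun i => T i j) (Dc T r c) =
        ∑' k, (Dc T r c).indicator (fun k => |T k j|) k := rfl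
    have hfin : ∑' k, ∑' i, F k i ≤
        (1 + ε) * ∑' k, |T k j| - (1 + ε - r) * ms (fun i => T i j) (Dc T r c) := by
      rw [hmsd, ← tsum_mul_left, ← tsum_mul_left,
        ← (hTj.mul_left (1 + ε)).tsum_sub (hms.mul_left (1 + ε - r))]
      refine Summable.tsum_le_tsum (fun k => ?_) hsum.prod
        ((hTj.mul_left (1 + ε)).sub (hms.mul_left (1 + ε - r)))
      rw [hFi]
      have h5 := mul_le_mul_of_nonneg_left (hNle k) (abs_nonneg (T k j))
      by_cases hk : k ∈ Dc T r c
      · rw [if_pos hk] at h5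
        rw [Set.indicator_of_mem hk]
        linarith
      · rw [if_neg hk] at h5
        rw [Set.indicator_of_notMem hk]
        linarith
    rw [hswap] at hle
    have h9 := hT.norm j
    have h10 : (1 + ε - r) * (1 - 5 * r) ≤ (1 + ε - r) * ms (fun i => T i j) (Dc T r c) :=
      mul_le_mul_of_nonneg_left h (by linarith)
    have h11 : (1 + ε) * ∑' k, |T k j| ≤ (1 + ε) * (1 + ε) :=
      mul_le_mul_of_nonneg_left h9 (by linarith)
    have h12 : (1 + ε) * (1 + ε) - (1 + ε - r) * (1 - 5 * r) ≤ 8 * r := by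
      nlinarith [mul_nonneg hε0 hr.le, mul_nonneg hr.le hr.le, mul_nonneg hε0 hε0]
    linarith

end Pool.Agent.H87.ZI
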