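import Pool.Agent.H87.ZI.Exh
import Pool.Agent.H87.ZI.BiA
import Pool.Agent.H87.ZI.BiC

/-!
# Infinite dimensional Zippin theorem for `ℓ₁`

The range of a projection of norm `1 + ε` on `ℓ₁` has a basis which is nearly isometrically equivalent to the unit
vector basis of `ℓ₁(C)`, consisting of some of the columns of the projection.
-/

namespace Pool.Agent.H87.ZI

theorem zippin {r : ℝ} (hr : 0 < r) (hr1 : r ≤ 1 / 1000) : ∃ ε0 : ℝ, 0 < ε0 ∧ ε0 ≤ r ∧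
    ∀ (T : ℕ → ℕ → ℝ) (ε : ℝ), Proj T ε → ε ≤ ε0 → ∃ C : Set ℕ,
      (∀ α : ℕ → ℝ, (Summable fun c => |α c|) → (∀ c, c ∉ C → α c = 0) →
        (1 - 3 * r) * ∑' c, |α c| ≤ ∑' i, |∑' c, α c * T i c|) ∧
      ∀ y : ℕ → ℝ, (Summable fun i => |y i|) → (∀ i, y i = ∑' k, T i k * y k) →
        ∃ α : ℕ → ℝ, (∀ c, c ∉ C → α c = 0) ∧ (Summable fun c => |α c|) ∧
          ∑' c, |α c| ≤ (1 + 12 * r) * ∑' i, |y i| ∧ ∀ i, y i = ∑' c, α c * T i c := by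
  obtain ⟨ε0, h0, h1, h⟩ := exhaust hr (by linarith)
  refine ⟨ε0, h0, h1, fun T ε hT hε => ?_⟩
  obtain ⟨C, hC, hx⟩ := h T ε hT hε
  refine ⟨C, fun α hα hs => lower hT hr (by linarith) (hε.trans h1) hC hα hs, fun y hy hf => ?_⟩
  exact iter hT hr hr1 (hε.trans h1) hx hy hf

end Pool.Agent.H87.ZI
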