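import Pool.Agent.H87.ZI.BasT

/-!
# Overlapping atoms are close (Z10)

`v k = sg (T k j) min |T k j| |T k j'|`, `ω = ∑ |v k| ≥ 1/4`, `ω' = ∑ₖ v k sg (T k j')` (`|ω'| ≤ ω ≤ 1 + ε`). With `p_j` for column
`j`: `T v - ω p_j = ∑ₖ |v k| (sg (v k) p_k - p_j)` has norm at most `∑ₖ |v k| |p_k - sg (T k j) p_j| ≤ δ` (`|v k| ≤ |T k j|`;
if `v k ≠ 0` then `sg (v k) = sg (T k j) = ± 1`); also `T v - ω' p_j' = ∑ₖ v k (p_k - sg (T k j') p_j')` up to the `k`
with `v k = 0`, of norm at most `δ` (`|v k| ≤ |T k j'|`; when `v k ≠ 0`, `sg (T k j')² = 1`). So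
`|ω p_j - ω' p_j'| ≤ 2 δ`, `ω (1 - δ) ≤ ω cn T j ≤ |ω'| (1 + ε) + 2 δ`, hence `ω - |ω'| ≤ 4 δ` and `ω' ≠ 0`. With
`e = sg ω'`: `|ω p_j - e ω p_j'| ≤ 2 δ + (ω - |ω'|) (1 + ε) ≤ 6.1 δ`; divide by `ω ≥ 1/4`.
-/

namespace Pool.Agent.H87.ZI

variable {T : ℕ → ℕ → ℝ} {ε : ℝ}

private theorem ov_tri {f g : ℕ → ℝ} (hf : Summable fun i => |f i|) (hg : Summable fun i => |g i|) :
    (Summable fun i => |f i - g i|) ∧ ∑' i, |f i - g i| ≤ ∑' i, |f i| + ∑' i, |g i| := by
  have h1 : ∀ i, |f i - g i| ≤ |f i| + |g i| := fun i => abs_sub _ _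
  have h2 : Summable fun i => |f i - g i| :=
    Summable.of_nonneg_of_le (fun i => abs_nonneg _) h1 (hf.add hg)
  refine ⟨h2, ?_⟩
  rw [← hf.tsum_add hg]
  exact h2.tsum_le_tsum h1 (hf.add hg)

private theorem ov_mul {f : ℕ → ℝ} (c : ℝ) (hf : Summable fun i => |f i|) :
    (Summable fun i => |c * f i|) ∧ ∑' i, |c * f i| = |c| * ∑' i, |f i| := by
  simp only [abs_mul]
  exact ⟨hf.mul_left _, tsum_mul_left⟩

private theorem ov_comb (hT : Proj T ε) {j : ℕ} {v s : ℕ → ℝ} (hv : ∀ k, |v k| ≤ |T k j|)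
    (hs : ∀ k, |s k| ≤ 1) :
    ∑' i, |Tv T v i - (∑' k, v k * s k) * T i j| ≤
      ∑' k, |T k j| * ∑' i, |T i k - s k * T i j| := by
  have hcol := hT.summ
  have hv' : Summable fun k => |v k| :=
    Summable.of_nonneg_of_le (fun _ => abs_nonneg _) hv (hcol j)
  have hε := hT.eps0
  -- inner sums
  have hin : ∀ k, Summable fun i => |T i k - s k * T i j| := fun k =>
    (ov_tri (hcol k) (ov_mul (s k) (hcol j)).1).1
  have hG : ∀ k, ∑' i, |T i k - s k * T i j| ≤ 2 * (1 + ε) := by
    intro k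
    have h1 := (ov_tri (hcol k) (ov_mul (s k) (hcol j)).1).2
    rw [(ov_mul (s k) (hcol j)).2] at h1
    have h2 := hT.norm k
    have h3 := hT.norm j
    have h4 : 0 ≤ ∑' i, |T i j| := tsum_nonneg fun _ => abs_nonneg _
    have h5 := hs k
    have h6 : |s k| * ∑' i, |T i j| ≤ 1 * ∑' i, |T i j| := mul_le_mul_of_nonneg_right h5 h4
    linarith
  have hG0 : ∀ k, 0 ≤ ∑' i, |T i k - s k * T i j| := fun k => tsum_nonneg fun _ => abs_nonneg _
  -- the double sum
  have hF : Summable fun p : ℕ × ℕ => |v p.1| * |T p.2 p.1 - s p.1 * T p.2 j| := by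
    have hfst : ∀ k, Summable fun i => |v k| * |T i k - s k * T i j| :=
      fun k => (hin k).mul_left |v k|
    rw [summable_prod_of_nonneg (fun p => mul_nonneg (abs_nonneg _) (abs_nonneg _))]
    refine ⟨hfst, ?_⟩
    have e0 : (fun k : ℕ => ∑' i : ℕ, |v (k, i).1| * |T (k, i).2 (k, i).1 - s (k, i).1 *
        T (k, i).2 j|) = fun k => |v k| * ∑' i, |T i k - s k * T i j| := by
      funext k
      change ∑' i, |v k| * |T i k - s k * T i j| = _
      rw [tsum_mul_left]
    rw [e0]
    exact Summable.of_nonneg_of_le (fun k => mul_nonneg (abs_nonneg _) (hG0 k))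
      (fun k => mul_le_mul_of_nonneg_left (hG k) (abs_nonneg _)) (hv'.mul_right (2 * (1 + ε)))
  have hbd : ∀ i k, |T i k - s k * T i j| ≤ 2 * (1 + ε) := by
    intro i k
    have h1 := abs_sub (T i k) (s k * T i j)
    rw [abs_mul] at h1
    have h2 := hT.entry_le i k
    have h3 := hT.entry_le i j
    have h4 : |s k| * |T i j| ≤ 1 * |T i j| := mul_le_mul_of_nonneg_right (hs k) (abs_nonneg _)
    linarith
  have hk : ∀ i, Summable fun k => |v k| * |T i k - s k * T i j| := by
    intro i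
    refine Summable.of_nonneg_of_le (fun k => mul_nonneg (abs_nonneg _) (abs_nonneg _))
      (fun k => mul_le_mul_of_nonneg_left (hbd i k) (abs_nonneg _)) (hv'.mul_right _)
  have hpt : ∀ i, |Tv T v i - (∑' k, v k * s k) * T i j| ≤
      ∑' k, |v k| * |T i k - s k * T i j| := by
    intro i
    have s1 : Summable fun k => T i k * v k := by
      refine Summable.of_norm_bounded (g := fun k => (1 + ε) * |v k|) (hv'.mul_left _) fun k => ?_
      rw [Real.norm_eq_abs, abs_mul]
      exact mul_le_mul_of_nonneg_right (hT.entry_le i k) (abs_nonneg _)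
    have s2 : Summable fun k => v k * s k := by
      refine Summable.of_norm_bounded (g := fun k => |v k|) hv' fun k => ?_
      rw [Real.norm_eq_abs, abs_mul]
      have := hs k
      have h0 := abs_nonneg (v k)
      nlinarith
    have e : Tv T v i - (∑' k, v k * s k) * T i j = ∑' k, v k * (T i k - s k * T i j) := by
      unfold Tv
      rw [← tsum_mul_right, ← s1.tsum_sub (s2.mul_right _)]
      refine tsum_congr fun k => ?_
      ring
    rw [e]
    have s3 : Summable fun k => |v k * (T i k - s k * T i j)| := by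
      simp only [abs_mul]
      exact hk i
    have h1 := norm_tsum_le_tsum_norm (f := fun k => v k * (T i k - s k * T i j)) s3
    simp only [Real.norm_eq_abs, abs_mul] at h1
    exact h1
  have hout : Summable fun i => ∑' k, |v k| * |T i k - s k * T i j| := by
    have := hF.prod_symm.prod
    exact this
  calc ∑' i, |Tv T v i - (∑' k, v k * s k) * T i j|
      ≤ ∑' i, ∑' k, |v k| * |T i k - s k * T i j| := by
        refine Summable.tsum_le_tsum hpt ?_ hout
        exact Summable.of_nonneg_of_le (fun _ => abs_nonneg _) hpt hout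
    _ = ∑' k, ∑' i, |v k| * |T i k - s k * T i j| := by
        exact Summable.tsum_comm (f := fun k i => |v k| * |T i k - s k * T i j|) hF
    _ ≤ ∑' k, |T k j| * ∑' i, |T i k - s k * T i j| := by
        simp only [tsum_mul_left]
        refine Summable.tsum_le_tsum (fun k => mul_le_mul_of_nonneg_right (hv k) (hG0 k)) ?_ ?_
        · exact Summable.of_nonneg_of_le (fun k => mul_nonneg (abs_nonneg _) (hG0 k))
            (fun k => mul_le_mul_of_nonneg_left (hG k) (abs_nonneg _)) (hv'.mul_right _)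
        · exact Summable.of_nonneg_of_le (fun k => mul_nonneg (abs_nonneg _) (hG0 k))
            (fun k => mul_le_mul_of_nonneg_left (hG k) (abs_nonneg _)) ((hcol j).mul_right _)

theorem overlap (hT : Proj T ε) {δ : ℝ} (hε : ε ≤ δ / 100) (hδ0 : 0 < δ) (hδ : δ ≤ 1 / 100) {j j' : ℕ}
    (hj : Atom T δ j) (hj' : Atom T δ j') (ho : 1 / 4 ≤ ∑' i, min |T i j| |T i j'|) :
    ∃ e : ℝ, (e = 1 ∨ e = -1) ∧ ∑' i, |T i j - e * T i j'| ≤ 27 * δ := by
  set v : ℕ → ℝ := fun k => sg (T k j) * min |T k j| |T k j'| with hv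
  have hcol := hT.summ
  have hε0 := hT.eps0
  have hε1 := hT.eps1
  have hmin0 : ∀ k, 0 ≤ min |T k j| |T k j'| := fun k => le_min (abs_nonneg _) (abs_nonneg _)
  have hvabs : ∀ k, |v k| = min |T k j| |T k j'| := by
    intro k
    rw [hv]
    simp only
    rw [abs_mul, abs_of_nonneg (hmin0 k)]
    rcases sg_cases (T k j) with h | h | h
    · rw [h.2, abs_one, one_mul]
    · rw [h.1, abs_zero, min_eq_left (abs_nonneg _), mul_zero]
    · rw [h.2, abs_neg, abs_one, one_mul]
  have hv1 : ∀ k, |v k| ≤ |T k j| := fun k => by rw [hvabs]; exact min_le_left _ _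
  have hv2 : ∀ k, |v k| ≤ |T k j'| := fun k => by rw [hvabs]; exact min_le_right _ _
  have hvs : ∀ k, v k * sg (T k j) = |v k| := by
    intro k
    rw [hvabs, hv]
    simp only
    rcases sg_cases (T k j) with h | h | h
    · rw [h.2]; ring
    · rw [h.1, abs_zero, min_eq_left (abs_nonneg _)]; ring
    · rw [h.2]; ring
  have hvsum : Summable fun k => |v k| :=
    Summable.of_nonneg_of_le (fun _ => abs_nonneg _) hv1 (hcol j)
  set w : ℝ := ∑' k, |v k| with hw
  set w' : ℝ := ∑' k, v k * sg (T k j') with hw'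
  have hw4 : 1 / 4 ≤ w := by
    rw [hw]
    simp only [hvabs]
    exact ho
  have hw1 : w ≤ 1 + ε := (hvsum.tsum_le_tsum hv1 (hcol j)).trans (hT.norm j)
  have hw'w : |w'| ≤ w := by
    have s1 : Summable fun k => ‖v k * sg (T k j')‖ := by
      refine Summable.of_nonneg_of_le (fun _ => norm_nonneg _) (fun k => ?_) hvsum
      rw [Real.norm_eq_abs, abs_mul]
      have := abs_sg_le (T k j')
      have h0 := abs_nonneg (v k)
      nlinarith
    have h1 := norm_tsum_le_tsum_norm s1
    rw [Real.norm_eq_abs] at h1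
    refine h1.trans (s1.tsum_le_tsum (fun k => ?_) hvsum)
    rw [Real.norm_eq_abs, abs_mul]
    have := abs_sg_le (T k j')
    have h0 := abs_nonneg (v k)
    nlinarith
  have hA := (ov_comb hT hv1 fun k => abs_sg_le (T k j)).trans hj.2
  have hB := (ov_comb hT hv2 fun k => abs_sg_le (T k j')).trans hj'.2
  simp only [hvs] at hA
  rw [← hw] at hA
  rw [← hw'] at hB
  have hTv := Tv_summable hT hvsum
  have sA := (ov_tri hTv (ov_mul w (hcol j)).1).1
  have sB := (ov_tri hTv (ov_mul w' (hcol j')).1).1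
  have hAB := (ov_tri sB sA).2
  have hD : ∑' i, |w * T i j - w' * T i j'| ≤ 2 * δ := by
    have e : ∀ i, |w * T i j - w' * T i j'| =
        |(Tv T v i - w' * T i j') - (Tv T v i - w * T i j)| := by
      intro i
      congr 1
      ring
    simp only [e]
    linarith
  have s1 := (ov_mul w (hcol j))
  have s2 := (ov_mul w' (hcol j'))
  have sD := (ov_tri s1.1 s2.1).1
  -- `w cn T j ≤ |w'| cn T j' + 2 δ`
  have hcmp : w * cn T j ≤ |w'| * cn T j' + 2 * δ := by
    have h1 := (ov_tri sD (f := fun i => w * T i j - w' * T i j') (g := fun i => - (w' * T i j'))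
      (by simpa only [abs_neg] using s2.1)).2
    have e : ∀ i, |w * T i j - w' * T i j' - -(w' * T i j')| = |w * T i j| := by
      intro i
      congr 1
      ring
    simp only [e, abs_neg] at h1
    rw [s1.2, s2.2, abs_of_nonneg (by linarith : (0 : ℝ) ≤ w)] at h1
    unfold cn
    linarith
  have hcj := hj.1
  have hcj' := hT.cn_le j'
  have hw'0 : 0 ≤ |w'| := abs_nonneg _
  have hdiff : w - |w'| ≤ 3.02 * δ := by
    have h1 : w * (1 - δ) ≤ w * cn T j := mul_le_mul_of_nonneg_left hcj (by linarith)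
    have h2 : |w'| * cn T j' ≤ |w'| * (1 + ε) := mul_le_mul_of_nonneg_left hcj' hw'0
    have h3 : w * δ ≤ 1.001 * δ := mul_le_mul_of_nonneg_right (by linarith) hδ0.le
    have h4 : |w'| * ε ≤ 1.001 * (δ / 100) :=
      mul_le_mul (by linarith) hε hε0 (by norm_num)
    linarith
  have hw'ne : w' ≠ 0 := by
    intro h
    rw [h, abs_zero] at hdiff
    linarith
  obtain ⟨e, he, hew⟩ : ∃ e : ℝ, (e = 1 ∨ e = -1) ∧ w' = e * |w'| := by
    rcases lt_or_gt_of_ne hw'ne with h | h
    · exact ⟨-1, Or.inr rfl, by rw [abs_of_neg h]; ring⟩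
    · exact ⟨1, Or.inl rfl, by rw [abs_of_pos h]; ring⟩
  have heabs : |e| = 1 := by rcases he with rfl | rfl <;> norm_num
  refine ⟨e, he, ?_⟩
  have s3 := ov_mul (e * w - w') (hcol j')
  have h5 := (ov_tri sD s3.1).2
  have e5 : ∀ i, |w * T i j - w' * T i j' - (e * w - w') * T i j'| = |w * (T i j - e * T i j')| := by
    intro i
    congr 1
    ring
  simp only [e5] at h5
  have s4 := ov_mul w (f := fun i => T i j - e * T i j')
    (ov_tri (hcol j) (ov_mul e (hcol j')).1).1
  rw [s4.2, s3.2, abs_of_nonneg (by linarith : (0 : ℝ) ≤ w)] at h5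
  have h6 : |e * w - w'| = w - |w'| := by
    have : e * w - w' = e * (w - |w'|) := by
      conv_lhs => rw [hew]
      ring
    rw [this, abs_mul, heabs, one_mul, abs_of_nonneg (by linarith)]
  rw [h6] at h5
  have h7 : (w - |w'|) * ∑' i, |T i j'| ≤ (w - |w'|) * (1 + ε) :=
    mul_le_mul_of_nonneg_left (hT.norm j') (by linarith)
  have h8 : (w - |w'|) * (1 + ε) ≤ 3.02 * δ * 1.001 :=
    mul_le_mul hdiff (by linarith) (by linarith) (by linarith)
  set S := ∑' i, |T i j - e * T i j'| with hS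
  have hS0 : 0 ≤ S := tsum_nonneg fun _ => abs_nonneg _
  have h9 : 1 / 4 * S ≤ w * S := mul_le_mul_of_nonneg_right hw4 hS0
  linarith

end Pool.Agent.H87.ZI
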