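import Pool.Agent.H87.ZI.BasT

/-!
# The largest mass in a cluster (Z11, Z12)

`Sf T r C j = sup_{c ∈ C} ms (column j) (D_c)`, `0` if `C` is empty (`Real.iSup_of_isEmpty`). All masses lie in
`[0, 1 + ε]`.

`Sf_sub`: `ms (column j) D = ∑_{i ∈ D} |T i j| ≤ ∑_{i ∈ D} ∑ₖ |T i k| |T k j| = ∑ₖ |T k j| ms (column k) D ≤ K S (j)`.
`Sf_D`: for `l ∈ D_c`: `S l ≥ ms (column l) D_c ≥ 1 - 2 r`.
`Sf_ex`: property of the supremum.
-/

namespace Pool.Agent.H87.ZI

variable {T : ℕ → ℕ → ℝ} {ε : ℝ} {δ r : ℝ} {C : Set ℕ}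

theorem Sf_nonneg (T : ℕ → ℕ → ℝ) (r : ℝ) (C : Set ℕ) (j : ℕ) : 0 ≤ Sf T r C j :=
  Real.iSup_nonneg fun _ => ms_nonneg _ _

theorem Sf_le (hT : Proj T ε) (r : ℝ) (C : Set ℕ) (j : ℕ) : Sf T r C j ≤ 1 + ε :=
  Real.iSup_le (fun _ => (ms_le (hT.summ j) _).trans (hT.norm j)) (by linarith [hT.eps0])

theorem le_Sf (hT : Proj T ε) {r : ℝ} {C : Set ℕ} {c : ℕ} (hc : c ∈ C) (j : ℕ) :
    ms (fun i => T i j) (Dc T r c) ≤ Sf T r C j := by
  have hb : BddAbove (Set.range fun c : C => ms (fun i => T i j) (Dc T r c)) := by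
    refine ⟨1 + ε, ?_⟩
    rintro _ ⟨c', rfl⟩
    exact (ms_le (hT.summ j) _).trans (hT.norm j)
  exact le_ciSup hb ⟨c, hc⟩

theorem Sf_sub (hT : Proj T ε) (r : ℝ) (C : Set ℕ) (j : ℕ) : Sf T r C j ≤ Kf T (Sf T r C) j := by
  have hK0 : 0 ≤ Kf T (Sf T r C) j := av_nonneg fun k => Sf_nonneg T r C k
  refine Real.iSup_le (fun c => ?_) hK0
  set D : Set ℕ := Dc T r c with hD
  set F : ℕ → ℕ → ℝ := fun _ i => D.indicator (fun _ => (1 : ℝ)) i with hFdef
  have hF : ∀ k i, |F k i| ≤ 1 := by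
    intro k i
    by_cases h : i ∈ D <;> simp [hFdef, h]
  have hx : Summable fun k => |(fun k => T k j) k| := hT.summ j
  have hdbl := sum_double hT hx (F := fun p : ℕ × ℕ => F p.1 p.2) (C := 1) fun p => hF p.1 p.2
  have hswap := tsum_swap hT hx hF
  have hsumI : Summable fun i => ∑' k, |T k j| * |T i k| * F k i := hdbl.prod_symm.prod
  have h1 : ms (fun i => T i j) D ≤ ∑' i, ∑' k, |T k j| * |T i k| * F k i := by
    refine Summable.tsum_le_tsum (fun i => ?_) (sum_ms (hT.summ j) D) hsumI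
    by_cases h : i ∈ D
    · have h2 := hT.abs_idem_le i j
      have h3 : (∑' k, |T k j| * |T i k| * F k i) = ∑' k, |T i k| * |T k j| :=
        tsum_congr fun k => by simp only [hFdef, Set.indicator_of_mem h]; ring
      rw [Set.indicator_of_mem h, h3]
      exact h2
    · have h3 : (∑' k, |T k j| * |T i k| * F k i) = 0 := by
        have : (fun k => |T k j| * |T i k| * F k i) = fun _ => (0 : ℝ) := by
          funext k
          simp only [hFdef, Set.indicator_of_notMem h]; ring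
        rw [this, tsum_zero]
      rw [Set.indicator_of_notMem h, h3]
  have h4 : (∑' k, ∑' i, |T k j| * |T i k| * F k i) ≤ Kf T (Sf T r C) j := by
    have h5 : ∀ k, (∑' i, |T k j| * |T i k| * F k i) = |T k j| * ms (fun i => T i k) D := by
      intro k
      unfold ms
      rw [← tsum_mul_left]
      refine tsum_congr fun i => ?_
      by_cases h : i ∈ D
      · simp only [hFdef, Set.indicator_of_mem h]; ring
      · simp only [hFdef, Set.indicator_of_notMem h]; ring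
    simp only [h5]
    have hb1 : ∀ k, |ms (fun i => T i k) D| ≤ 1 + ε := fun k => by
      rw [abs_of_nonneg (ms_nonneg _ _)]
      exact (ms_le (hT.summ k) _).trans (hT.norm k)
    have hb2 : ∀ k, |Sf T r C k| ≤ 1 + ε := fun k => by
      rw [abs_of_nonneg (Sf_nonneg T r C k)]
      exact Sf_le hT r C k
    exact av_mono (hT.summ j) hb1 hb2 fun k => le_Sf hT c.2 k
  exact h1.trans (hswap.symm.le.trans h4)

theorem Sf_D (hT : Proj T ε) (hC : Clus T δ r C) {c l : ℕ} (hc : c ∈ C) (hl : l ∈ Dc T r c) :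
    1 - 2 * r ≤ Sf T r C l :=
  (hC.massD c hc l hl).trans (le_Sf hT hc l)

theorem Sf_atom (hT : Proj T ε) (hC : Clus T δ r C) {j : ℕ} (hj : Atom T δ j) :
    1 - 2 * r ≤ Sf T r C j := by
  obtain ⟨c, hc, hjc⟩ := hC.cover j hj
  exact Sf_D hT hC hc hjc

theorem Sf_ex {t : ℝ} (ht : 0 ≤ t) {j : ℕ} (h : t < Sf T r C j) :
    ∃ c ∈ C, t < ms (fun i => T i j) (Dc T r c) := by
  by_contra hcon
  push Not at hcon
  exact absurd (Real.iSup_le (fun c : C => hcon c c.2) ht) (not_le.mpr h)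

end Pool.Agent.H87.ZI
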