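import Pool.Agent.H87.ZI.BasT

/-!
# Sign coherence (Z4)

`y` a state, `σ i = sg (y i)`. `∑ₖ |y k| ∑ᵢ σ i σ k T i k = ∑ᵢ σ i ∑ₖ T i k y k = ∑ᵢ σ i y i = ∑ |y i| = 1` (exchange of
sums: the double series is dominated by `|y k| |T i k|`, see `sum_double`; `|y k| σ k = y k`), and
`∑ₖ |y k| cn T k ≤ 1 + ε`. Subtract: the average over `k` (against `|y|`) of `∑ᵢ (|T i k| - σ i σ k T i k)` is at most
`ε`. All terms are nonnegative since `|σ i σ k| ≤ 1`.

`sg_col`: the same for `y = ` column `j` divided by `s = cn T j > 0` (a state by `st_col`), multiplied by `s`: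
the signs of `y` are those of the column, and `s ε ≤ 2 ε`.
-/

namespace Pool.Agent.H87.ZI

variable {T : ℕ → ℕ → ℝ} {ε : ℝ}

private theorem sgn_bd (a b c : ℝ) : |sg a * sg b * c| ≤ |c| := by
  rw [abs_mul, abs_mul]
  have h1 := abs_sg_le a
  have h2 := abs_sg_le b
  have h3 : |sg a| * |sg b| ≤ 1 * 1 :=
    mul_le_mul h1 h2 (abs_nonneg _) zero_le_one
  calc |sg a| * |sg b| * |c| ≤ 1 * 1 * |c| := mul_le_mul_of_nonneg_right h3 (abs_nonneg _)
    _ = |c| := by ring

theorem sgn_term_nonneg (T : ℕ → ℕ → ℝ) (y : ℕ → ℝ) (i k : ℕ) :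
    0 ≤ |T i k| - sg (y i) * sg (y k) * T i k := by
  have := (abs_le.mp (sgn_bd (y i) (y k) (T i k))).2
  linarith

private theorem sgn_term_le (T : ℕ → ℕ → ℝ) (y : ℕ → ℝ) (i k : ℕ) :
    |T i k| - sg (y i) * sg (y k) * T i k ≤ 2 * |T i k| := by
  have := (abs_le.mp (sgn_bd (y i) (y k) (T i k))).1
  linarith

theorem sgn_summable (hT : Proj T ε) (y : ℕ → ℝ) (k : ℕ) :
    Summable fun i => |T i k| - sg (y i) * sg (y k) * T i k :=
  Summable.of_nonneg_of_le (fun i => sgn_term_nonneg T y i k) (fun i => sgn_term_le T y i k)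
    ((hT.summ k).mul_left 2)

theorem sgn_le (hT : Proj T ε) (y : ℕ → ℝ) (k : ℕ) :
    ∑' i, (|T i k| - sg (y i) * sg (y k) * T i k) ≤ 3 := by
  have h := (sgn_summable hT y k).tsum_le_tsum (fun i => sgn_term_le T y i k)
    ((hT.summ k).mul_left 2)
  rw [tsum_mul_left] at h
  have h1 := hT.norm k
  have h2 := hT.eps1
  linarith

private theorem sgn_s2 (hT : Proj T ε) (y : ℕ → ℝ) (k : ℕ) :
    Summable fun i => sg (y i) * sg (y k) * T i k :=
  Summable.of_norm_bounded (hT.summ k) (fun i => by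
    rw [Real.norm_eq_abs]
    exact sgn_bd _ _ _)

private theorem sgn_FF (a b c : ℝ) : |a| * |b| * (sg c * sg a * sg b) = sg c * (b * a) := by
  have h1 : |a| * sg a = a := by rw [mul_comm]; exact sg_mul_abs a
  have h2 : |b| * sg b = b := by rw [mul_comm]; exact sg_mul_abs b
  calc |a| * |b| * (sg c * sg a * sg b) = sg c * ((|b| * sg b) * (|a| * sg a)) := by ring
    _ = sg c * (b * a) := by rw [h1, h2]

theorem sgn_coh (hT : Proj T ε) {y : ℕ → ℝ} (hy : St T y) :
    av y (fun k => ∑' i, (|T i k| - sg (y i) * sg (y k) * T i k)) ≤ ε := by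
  have hys := hy.summ
  have hF : ∀ k i, |sg (y i) * sg (y k) * sg (T i k)| ≤ 1 := fun k i =>
    (sgn_bd _ _ _).trans (abs_sg_le _)
  have hsw := tsum_swap hT hys (F := fun k i => sg (y i) * sg (y k) * sg (T i k)) (C := 1) hF
  have hR : (∑' i, ∑' k, |y k| * |T i k| * (sg (y i) * sg (y k) * sg (T i k))) = 1 := by
    rw [← hy.one]
    refine tsum_congr fun i => ?_
    rw [tsum_congr (fun k => sgn_FF (y k) (T i k) (y i)), tsum_mul_left, ← hy.fix i]
    exact sg_mul_self _
  have hL : ∀ k, ∑' i, |y k| * |T i k| * (sg (y i) * sg (y k) * sg (T i k)) =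
      |y k| * ∑' i, sg (y i) * sg (y k) * T i k := by
    intro k
    rw [← tsum_mul_left]
    refine tsum_congr fun i => ?_
    have h2 : |T i k| * sg (T i k) = T i k := by rw [mul_comm]; exact sg_mul_abs _
    calc |y k| * |T i k| * (sg (y i) * sg (y k) * sg (T i k)) =
        |y k| * (sg (y i) * sg (y k) * (|T i k| * sg (T i k))) := by ring
      _ = _ := by rw [h2]
  have hbd : ∀ k, |∑' i, sg (y i) * sg (y k) * T i k| ≤ 2 := by
    intro k
    have h1 : ‖∑' i, sg (y i) * sg (y k) * T i k‖ ≤ ∑' i, |T i k| :=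
      tsum_of_norm_bounded (hT.summ k).hasSum (fun i => by
        rw [Real.norm_eq_abs]
        exact sgn_bd _ _ _)
    rw [Real.norm_eq_abs] at h1
    have h2 := hT.norm k
    have h3 := hT.eps1
    linarith
  have hcn : ∀ k, |cn T k| ≤ 2 := by
    intro k
    rw [abs_of_nonneg (hT.cn_nonneg k)]
    have h2 := hT.cn_le k
    have h3 := hT.eps1
    linarith
  have e1 : (fun k => ∑' i, (|T i k| - sg (y i) * sg (y k) * T i k)) =
      fun k => cn T k - ∑' i, sg (y i) * sg (y k) * T i k := by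
    funext k
    rw [(hT.summ k).tsum_sub (sgn_s2 hT y k)]
    rfl
  rw [e1, av_sub hys hcn hbd]
  have e2 : av y (fun k => ∑' i, sg (y i) * sg (y k) * T i k) = 1 := by
    unfold av
    rw [← hR, ← hsw]
    exact tsum_congr fun k => (hL k).symm
  have e3 : av y (cn T) ≤ 1 + ε := by
    have := cc_sum_le hT hy
    rw [cc_sum hT hys] at this
    exact this
  have e4 : av y (fun k => cn T k) = av y (cn T) := rfl
  rw [e2, e4]
  linarith

private theorem sg_div {a c : ℝ} (hc : 0 < c) : sg (a / c) = sg a := by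
  rcases sg_cases a with h | h | h <;> rcases sg_cases (a / c) with h' | h' | h'
  · rw [h.2, h'.2]
  · exact absurd h'.1 (div_pos h.1 hc).ne'
  · exact absurd h'.1 (not_lt.mpr (div_pos h.1 hc).le)
  · rw [h.1, zero_div]
  · rw [h.1, zero_div]
  · rw [h.1, zero_div]
  · exact absurd h'.1 (not_lt.mpr (div_neg_of_neg_of_pos h.1 hc).le)
  · exact absurd h'.1 (div_neg_of_neg_of_pos h.1 hc).ne
  · rw [h.2, h'.2]

theorem sgn_col (hT : Proj T ε) {j : ℕ} (hj : 0 < cn T j) :
    ∑' k, |T k j| * ∑' i, (|T i k| - sg (T i j) * sg (T k j) * T i k) ≤ 2 * ε := by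
  have h := sgn_coh hT (st_col hT hj)
  have e : av (fun i => T i j / cn T j) (fun k => ∑' i, (|T i k| -
      sg (T i j / cn T j) * sg (T k j / cn T j) * T i k)) =
      (cn T j)⁻¹ * ∑' k, |T k j| * ∑' i, (|T i k| - sg (T i j) * sg (T k j) * T i k) := by
    unfold av
    rw [← tsum_mul_left]
    refine tsum_congr fun k => ?_
    have e1 : ∀ i, |T i k| - sg (T i j / cn T j) * sg (T k j / cn T j) * T i k =
        |T i k| - sg (T i j) * sg (T k j) * T i k := by
      intro i
      rw [sg_div hj, sg_div hj]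
    change |T k j / cn T j| * ∑' i, (|T i k| - sg (T i j / cn T j) * sg (T k j / cn T j) * T i k) = _
    rw [tsum_congr e1, abs_div, abs_of_pos hj]
    ring
  rw [e, inv_mul_le_iff₀ hj] at h
  have h0 := hT.eps0
  have h1 := hT.eps1
  have h2 := hT.cn_le j
  have h3 : cn T j * ε ≤ 2 * ε := mul_le_mul_of_nonneg_right (by linarith) h0
  linarith

end Pool.Agent.H87.ZI
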