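import Pool.Agent.H87.ZI.NI
import Pool.Agent.H87.ZI.HsK

/-!
# Zero-one law, the exceptional set (Z6)

`x` a state, `w = γ |x|`, `Φ = Hs T w`. The four nonnegative bounded functions
`gap = K Φ - Φ + 2 ε` (nonnegative by `Hs_Kf`), `V = Vr T Φ`, `q = K (K 1_J)` with `J = {i | 2 |x i| < cc T x i}`, and
`|1 - cn T j|` have averages at most `4 ε` (`av_gap`), `16 ε` (`av_Vr`, with `Hs_Kf`), `4 ε` and `2 ε` (`inv_cn`).
For `q`: `av x q ≤ av x (K 1_J) + ε (1 + ε)` (`inv`) and `av x (K 1_J) = ∑_{k ∈ J} cc T x k ≤ 2 ε` (`av_Kf`,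
`sum_ccJ`). Total `26 ε ≤ 26 η⁴`; by `markov` the set where the sum of the four exceeds `η²` has mass at most `26 η²`.
-/

namespace Pool.Agent.H87.ZI

variable {T : ℕ → ℕ → ℝ} {ε : ℝ}

/-- The set where `cc T x` is more than twice `|x|`. -/
def JJ (T : ℕ → ℕ → ℝ) (x : ℕ → ℝ) : Set ℕ := {i | 2 * |x i| < cc T x i}

private theorem zoa_wt {γ : ℝ} (hγ : 0 ≤ γ) (x : ℕ → ℝ) (i : ℕ) : 0 ≤ wt γ x i :=
  mul_nonneg hγ (abs_nonneg _)

private theorem zoa_K (hT : Proj T ε) {w : ℕ → ℝ} (hw : ∀ i, 0 ≤ w i) (j : ℕ) :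
    Hs T w j ≤ Kf T (Hs T w) j + 2 * ε := by
  have h := Hs_Kf hT hw j
  have h2 : 0 ≤ ∑' k, |T k j| * Er T w j k :=
    tsum_nonneg fun k => mul_nonneg (abs_nonneg _) (Er_nonneg T w j k)
  linarith

theorem bad_set (hT : Proj T ε) {x : ℕ → ℝ} (hx : St T x) {γ η : ℝ} (hγ : 0 ≤ γ) (hη : 0 < η)
    (hε : ε ≤ η ^ 4) : ∃ B : Set ℕ, ms x B ≤ 26 * η ^ 2 ∧ ∀ j ∉ B,
      |1 - cn T j| ≤ η ^ 2 ∧ Vr T (Hs T (wt γ x)) j ≤ η ^ 2 ∧
      Kf T (Hs T (wt γ x)) j - Hs T (wt γ x) j + 2 * ε ≤ η ^ 2 ∧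
      Kf T (Kf T ((JJ T x).indicator fun _ => 1)) j ≤ η ^ 2 := by
  have hw := zoa_wt hγ x
  have e0 := hT.eps0
  have e1 := hT.eps1
  set Φ := Hs T (wt γ x) with hΦ
  have h0 : ∀ j, 0 ≤ Φ j := fun j => Hs_nonneg T _ j
  have h2 : ∀ j, Φ j ≤ 2 := fun j => (Hs_le hT hw j).trans ((hT.cn_le j).trans (by linarith))
  have habs : ∀ j, |Φ j| ≤ 2 := fun j => by rw [abs_of_nonneg (h0 j)]; exact h2 j
  have hK : ∀ j, Φ j ≤ Kf T Φ j + 2 * ε := zoa_K hT hw
  -- the four functions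
  set f1 : ℕ → ℝ := fun j => |1 - cn T j| with hf1
  set f2 : ℕ → ℝ := Vr T Φ with hf2
  set f3 : ℕ → ℝ := fun j => Kf T Φ j - Φ j + 2 * ε with hf3
  set u : ℕ → ℝ := (JJ T x).indicator fun _ => 1 with hu
  set f4 : ℕ → ℝ := Kf T (Kf T u) with hf4
  have hu0 : ∀ k, 0 ≤ u k := fun k => Set.indicator_nonneg (fun _ _ => zero_le_one) k
  have hu1 : ∀ k, |u k| ≤ 1 := by
    intro k
    rw [abs_of_nonneg (hu0 k)]
    by_cases hk : k ∈ JJ T x
    · simp [hu, hk]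
    · simp [hu, hk]
  have hKu : ∀ k, |Kf T u k| ≤ 1 + ε := fun k => by simpa using hT.Kf_bd hu1 k
  have p1 : ∀ j, 0 ≤ f1 j := fun j => abs_nonneg _
  have p2 : ∀ j, 0 ≤ f2 j := fun j => Vr_nonneg T Φ j
  have p3 : ∀ j, 0 ≤ f3 j := fun j => by have := hK j; simp only [hf3]; linarith
  have hKu0 : ∀ k, 0 ≤ Kf T u k := fun k =>
    tsum_nonneg fun i => mul_nonneg (abs_nonneg _) (hu0 i)
  have p4 : ∀ j, 0 ≤ f4 j := fun j =>
    tsum_nonneg fun i => mul_nonneg (abs_nonneg _) (hKu0 i)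
  have b1 : ∀ j, |f1 j| ≤ 20 := by
    intro j
    have h3 := hT.cn_le j
    have h4 := hT.cn_nonneg j
    simp only [hf1, abs_abs]
    rw [abs_le]; constructor <;> linarith
  have b2 : ∀ j, |f2 j| ≤ 20 := by
    intro j
    rw [abs_of_nonneg (p2 j)]
    have := Vr_le hT h0 h2 j
    simp only [hf2]; linarith
  have b3 : ∀ j, |f3 j| ≤ 20 := by
    intro j
    rw [abs_of_nonneg (p3 j)]
    have h3 := abs_le.mp (hT.Kf_bd habs j)
    have h4 := h0 j
    simp only [hf3]; nlinarith [h3.2]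
  have b4 : ∀ j, |f4 j| ≤ 20 := by
    intro j
    have h3 := hT.Kf_bd hKu j
    refine h3.trans ?_
    nlinarith
  have a1 : av x f1 ≤ 2 * ε := inv_cn hT hx
  have a2 : av x f2 ≤ 16 * ε := av_Vr hT hx h0 h2 hK
  have a3 : av x f3 ≤ 4 * ε := av_gap hT hx h0 h2
  have a4 : av x f4 ≤ 4 * ε := by
    have h3 := abs_le.mp (inv hT hx hKu)
    have h4 : av x (Kf T u) = ∑' k, cc T x k * u k := av_Kf hT hx.summ hu1
    have h5 : (∑' k, cc T x k * u k) =
        ∑' k, {k | 2 * |x k| < cc T x k}.indicator (fun k => cc T x k) k := by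
      refine tsum_congr fun k => ?_
      by_cases hk : 2 * |x k| < cc T x k
      · have : k ∈ JJ T x := hk
        simp [hu, this, hk]
      · have : k ∉ JJ T x := hk
        simp [hu, this, hk]
    have h6 := sum_ccJ hT hx
    rw [← h5, ← h4] at h6
    have h7 := h3.2
    nlinarith
  -- sums
  have c12 : ∀ j, |f1 j + f2 j| ≤ 40 := fun j =>
    (abs_add_le _ _).trans (by have := b1 j; have := b2 j; linarith)
  have c123 : ∀ j, |f1 j + f2 j + f3 j| ≤ 60 := fun j =>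
    (abs_add_le _ _).trans (by have := c12 j; have := b3 j; linarith)
  have c1234 : ∀ j, |f1 j + f2 j + f3 j + f4 j| ≤ 80 := fun j =>
    (abs_add_le _ _).trans (by have := c123 j; have := b4 j; linarith)
  have s12 : av x (fun j => f1 j + f2 j) = av x f1 + av x f2 := av_add hx.summ b1 b2
  have s123 : av x (fun j => f1 j + f2 j + f3 j) = av x (fun j => f1 j + f2 j) + av x f3 :=
    av_add (f := fun j => f1 j + f2 j) (C := 40) hx.summ c12 (fun j => (b3 j).trans (by norm_num))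
  have s1234 : av x (fun j => f1 j + f2 j + f3 j + f4 j) =
      av x (fun j => f1 j + f2 j + f3 j) + av x f4 :=
    av_add (f := fun j => f1 j + f2 j + f3 j) (C := 60) hx.summ c123
      (fun j => (b4 j).trans (by norm_num))
  have hη2 : 0 < η ^ 2 := by positivity
  refine ⟨{j | η ^ 2 < f1 j + f2 j + f3 j + f4 j}, ?_, ?_⟩
  · have hm := markov (f := fun j => f1 j + f2 j + f3 j + f4 j) hx.summ c1234
      (fun j => by have := p1 j; have := p2 j; have := p3 j; have := p4 j; positivity) hη2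
    refine hm.trans ?_
    rw [div_le_iff₀ hη2]
    nlinarith
  · intro j hj
    have hj' : f1 j + f2 j + f3 j + f4 j ≤ η ^ 2 := not_lt.mp hj
    have q1 := p1 j
    have q2 := p2 j
    have q3 := p3 j
    have q4 := p4 j
    refine ⟨?_, ?_, ?_, ?_⟩
    · change f1 j ≤ _; linarith
    · change f2 j ≤ _; linarith
    · change f3 j ≤ _; linarith
    · change f4 j ≤ _; linarith

end Pool.Agent.H87.ZI
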