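import Pool.Agent.H87.ZI.ZoA
import Pool.Agent.H87.ZI.NceB

/-!
# Zero-one law, cutting a column (Z6)

`w ≥ 0` a weight, `Φ = Hs T w`, `s = cn T j` with `|1 - s| ≤ η²`, `Vr T Φ j ≤ η²`, `KΦ(j) - Φ(j) + 2 ε ≤ η²`,
`ε ≤ η⁴`, `η ≤ 1/1000`. Let `y = ` column `j` divided by `s` (a state), `U = {i | w i < |T i j|}`, `π = ` mass of column
`j` on `U`. Claim: `T (1_U y)` is within `(11/10) η` of `π y`.

By `mass_diff`: `∑ₖ |T k j| |mass of column k on U - π| ≤ ∑ₖ |T k j| |Φ k - Φ j| + ∑ₖ |T k j| Er(j, k) ≤ √((1 + ε) η²) + η²`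
(`Vr_cs`, `Hs_Kf`) `≤ 1.005 η`. For `f = 1_U`: `|be T y f k - mass of column k on U| ≤ ∑ᵢ (|T i k| - σ i σ k T i k)`, so by
`sgn_coh` the average (against `|y| = |T k j| / s`) of `|be T y f k - π|` is at most `ε + 1.005 η / s ≤ 1.02 η`.
By `nce`: `T (1_U y)` is within `3 √ε ≤ 3 η²` of `T (be y)`, and `T (be y) - π y = T ((be - π) y)` (as `T y = y`) has norm
at most `(1 + ε) 1.02 η`. Total at most `1.1 η`.
-/

namespace Pool.Agent.H87.ZI

variable {T : ℕ → ℕ → ℝ} {ε : ℝ}

private theorem zob_be_ms (hT : Proj T ε) (y : ℕ → ℝ) (U : Set ℕ) (k : ℕ) :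
    |be T y (U.indicator fun _ => 1) k - ms (fun i => T i k) U| ≤
      ∑' i, (|T i k| - sg (y i) * sg (y k) * T i k) := by
  have hs1 : Summable fun i => T i k * (sg (y i) * sg (y k) * U.indicator (fun _ => (1 : ℝ)) i) := by
    refine Summable.of_norm_bounded (hT.summ k) fun i => ?_
    rw [Real.norm_eq_abs, abs_mul, abs_mul, abs_mul]
    have h1 := abs_sg_le (y i)
    have h2 := abs_sg_le (y k)
    have h3 : |U.indicator (fun _ => (1 : ℝ)) i| ≤ 1 := by
      by_cases hi : i ∈ U <;> simp [hi]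
    have h4 : |sg (y i)| * |sg (y k)| ≤ 1 := mul_le_one₀ h1 (abs_nonneg _) h2
    have h5 : |sg (y i)| * |sg (y k)| * |U.indicator (fun _ => (1 : ℝ)) i| ≤ 1 :=
      mul_le_one₀ h4 (abs_nonneg _) h3
    exact mul_le_of_le_one_right (abs_nonneg _) h5
  have hs2 : Summable fun i => U.indicator (fun i => |T i k|) i := sum_ms (hT.summ k) U
  have hs3 := sgn_summable hT y k
  unfold be ms
  rw [← hs1.tsum_sub hs2]
  rw [abs_le]
  have key : ∀ i, |T i k * (sg (y i) * sg (y k) * U.indicator (fun _ => (1 : ℝ)) i) -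
      U.indicator (fun i => |T i k|) i| ≤ |T i k| - sg (y i) * sg (y k) * T i k := by
    intro i
    have h0 := sgn_term_nonneg T y i k
    by_cases hi : i ∈ U
    · simp only [hi, Set.indicator_of_mem, mul_one]
      rw [abs_sub_comm, abs_of_nonneg]
      · apply le_of_eq; ring
      · have : |T i k| - T i k * (sg (y i) * sg (y k)) = |T i k| - sg (y i) * sg (y k) * T i k := by
          ring
        rw [this]; exact h0
    · simp only [hi, not_false_eq_true, Set.indicator_of_notMem, mul_zero, sub_zero, abs_zero]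
      exact h0
  constructor
  · rw [← tsum_neg]
    exact hs3.neg.tsum_le_tsum (fun i => (abs_le.mp (key i)).1) (hs1.sub hs2)
  · exact (hs1.sub hs2).tsum_le_tsum (fun i => (abs_le.mp (key i)).2) hs3

/-- Averages of `|m k - π|` under column `j`. -/
private theorem zob_mass (hT : Proj T ε) {η : ℝ}
    {w : ℕ → ℝ} (hw : ∀ i, 0 ≤ w i) {j : ℕ}
    (hV : Vr T (Hs T w) j ≤ η ^ 2) (hg : Kf T (Hs T w) j - Hs T w j + 2 * ε ≤ η ^ 2) :
    (∑' k, |T k j| * |ms (fun i => T i k) {i | w i < |T i j|} -
      ms (fun i => T i j) {i | w i < |T i j|}|) ≤ √((1 + ε) * η ^ 2) + η ^ 2 := by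
  have e0 := hT.eps0
  have e1 := hT.eps1
  have h0 : ∀ j, 0 ≤ Hs T w j := fun j => Hs_nonneg T _ j
  have h2 : ∀ j, Hs T w j ≤ 2 := fun j => (Hs_le hT hw j).trans ((hT.cn_le j).trans (by linarith))
  have hcs := Vr_cs hT h0 h2 j hV
  have hK := Hs_Kf hT hw j
  have s1 : Summable fun k => |T k j| * |Hs T w k - Hs T w j| :=
    sum_av (a := fun k => T k j) (f := fun k => |Hs T w k - Hs T w j|) (C := 2) (hT.summ j)
      (fun k => by
        rw [abs_abs, abs_le]
        have := h0 k; have := h0 j; have := h2 k; have := h2 j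
        constructor <;> linarith)
  have s2 : Summable fun k => |T k j| * Er T w j k :=
    sum_av (a := fun k => T k j) (f := fun k => Er T w j k) (C := 3) (hT.summ j)
      (fun k => by rw [abs_of_nonneg (Er_nonneg T w j k)]; exact Er_le hT hw j k)
  have s3 : Summable fun k => |T k j| * |ms (fun i => T i k) {i | w i < |T i j|} -
      ms (fun i => T i j) {i | w i < |T i j|}| := by
    refine Summable.of_nonneg_of_le (fun k => mul_nonneg (abs_nonneg _) (abs_nonneg _)) (fun k => ?_)
      (s1.add s2)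
    rw [← mul_add]
    exact mul_le_mul_of_nonneg_left (mass_diff hT hw j k) (abs_nonneg _)
  have h3 : (∑' k, |T k j| * |ms (fun i => T i k) {i | w i < |T i j|} -
      ms (fun i => T i j) {i | w i < |T i j|}|) ≤
      ∑' k, (|T k j| * |Hs T w k - Hs T w j| + |T k j| * Er T w j k) := by
    refine s3.tsum_le_tsum (fun k => ?_) (s1.add s2)
    rw [← mul_add]
    exact mul_le_mul_of_nonneg_left (mass_diff hT hw j k) (abs_nonneg _)
  rw [s1.tsum_add s2] at h3
  linarith

theorem cut_near (hT : Proj T ε) {η : ℝ} (hη : 0 < η) (hη1 : η ≤ 1 / 1000) (hε : ε ≤ η ^ 4)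
    {w : ℕ → ℝ} (hw : ∀ i, 0 ≤ w i) {j : ℕ} (hs : |1 - cn T j| ≤ η ^ 2)
    (hV : Vr T (Hs T w) j ≤ η ^ 2) (hg : Kf T (Hs T w) j - Hs T w j + 2 * ε ≤ η ^ 2) :
    ∑' i, |Tv T ({i | w i < |T i j|}.indicator fun i => T i j / cn T j) i -
      ms (fun i => T i j) {i | w i < |T i j|} * (T i j / cn T j)| ≤ 11 / 10 * η := by
  have e0 := hT.eps0
  have e1 := hT.eps1
  have hη2 : η ^ 2 ≤ 1 / 1000 * η := by nlinarith
  have hη2' : η ^ 2 ≤ 1 / 1000000 := by nlinarith
  have hη4 : η ^ 4 ≤ 1 / 1000000 * η ^ 2 := by nlinarith [sq_nonneg η, mul_nonneg (sq_nonneg η) (sq_nonneg η)]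
  have hs' := abs_le.mp hs
  set s := cn T j with hsdef
  have hs0 : 0 < s := by linarith [hs'.2]
  have hs1 : 1 - η ^ 2 ≤ s := by linarith [hs'.2]
  set U : Set ℕ := {i | w i < |T i j|} with hU
  set m : ℝ := ms (fun i => T i j) U with hm
  set y : ℕ → ℝ := fun i => T i j / s with hy
  have hst : St T y := st_col hT hs0
  set f : ℕ → ℝ := U.indicator fun _ => 1 with hf
  have hf1 : ∀ i, |f i| ≤ 1 := by
    intro i
    by_cases hi : i ∈ U <;> simp [hf, hi]
  set β : ℕ → ℝ := be T y f with hβ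
  have hnce := nce hT hst hf1
  -- bounds
  have hm0 : 0 ≤ m := ms_nonneg _ _
  have hm2 : m ≤ 2 := (ms_le (hT.summ j) U).trans ((hT.norm j).trans (by linarith))
  have hβ2 : ∀ k, |β k| ≤ 1 + ε := be_bd hT y hf1
  have hβm : ∀ k, |β k - m| ≤ 4 := by
    intro k
    have h1 := abs_le.mp (hβ2 k)
    rw [abs_le]; constructor <;> linarith [h1.1, h1.2]
  -- the average of |β - m|
  have hδ3 : ∀ k, |∑' i, (|T i k| - sg (y i) * sg (y k) * T i k)| ≤ 3 := by
    intro k
    rw [abs_of_nonneg (tsum_nonneg fun i => sgn_term_nonneg T y i k)]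
    exact sgn_le hT y k
  have hmk : ∀ k, |ms (fun i => T i k) U - m| ≤ 4 := by
    intro k
    have h1 := ms_nonneg (fun i => T i k) U
    have h2 : ms (fun i => T i k) U ≤ 2 := (ms_le (hT.summ k) U).trans ((hT.norm k).trans (by linarith))
    rw [abs_le]; constructor <;> linarith
  have hav : av y (fun k => |β k - m|) ≤ ε + (√((1 + ε) * η ^ 2) + η ^ 2) / s := by
    have h1 : av y (fun k => |β k - m|) ≤
        av y (fun k => (∑' i, (|T i k| - sg (y i) * sg (y k) * T i k)) +
          |ms (fun i => T i k) U - m|) := by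
      refine av_mono (C := 7) hst.summ (fun k => ?_) (fun k => ?_) (fun k => ?_)
      · rw [abs_abs]; exact (hβm k).trans (by norm_num)
      · refine (abs_add_le _ _).trans ?_
        rw [abs_abs]
        have := hδ3 k; have := hmk k; linarith
      · have h2 := zob_be_ms hT y U k
        calc |β k - m| = |(β k - ms (fun i => T i k) U) + (ms (fun i => T i k) U - m)| := by ring_nf
          _ ≤ _ := (abs_add_le _ _).trans (add_le_add h2 le_rfl)
    have h2 := av_add (a := y) (f := fun k => ∑' i, (|T i k| - sg (y i) * sg (y k) * T i k))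
      (g := fun k => |ms (fun i => T i k) U - m|) (C := 4) hst.summ
      (fun k => (hδ3 k).trans (by norm_num)) (fun k => by rw [abs_abs]; exact hmk k)
    rw [h2] at h1
    have h3 := sgn_coh hT hst
    have h4 : av y (fun k => |ms (fun i => T i k) U - m|) ≤ (√((1 + ε) * η ^ 2) + η ^ 2) / s := by
      have h5 : av y (fun k => |ms (fun i => T i k) U - m|) =
          (∑' k, |T k j| * |ms (fun i => T i k) U - m|) / s := by
        unfold av
        rw [← tsum_div_const]
        refine tsum_congr fun k => ?_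
        simp only [hy, abs_div, abs_of_pos hs0]
        ring
      rw [h5]
      gcongr
      exact zob_mass hT hw hV hg
    linarith
  -- summability
  have hfy : Summable fun k => |f k * y k| := by
    refine Summable.of_nonneg_of_le (fun k => abs_nonneg _) (fun k => ?_) hst.summ
    rw [abs_mul]
    exact mul_le_of_le_one_left (abs_nonneg _) (hf1 k)
  have hβy : Summable fun k => |β k * y k| := by
    refine Summable.of_nonneg_of_le (fun k => abs_nonneg _) (fun k => ?_) (hst.summ.mul_left (1 + ε))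
    rw [abs_mul]
    exact mul_le_mul_of_nonneg_right (hβ2 k) (abs_nonneg _)
  have hmy : Summable fun k => |m * y k| := by
    simp only [abs_mul]
    exact hst.summ.mul_left _
  have hdy : Summable fun k => |β k * y k - m * y k| := by
    refine Summable.of_nonneg_of_le (fun k => abs_nonneg _) (fun k => ?_) (hβy.add hmy)
    exact abs_sub _ _
  have hid : ∀ i, Tv T (U.indicator fun i => T i j / s) i - m * (T i j / s) =
      (Tv T (fun k => f k * y k) i - Tv T (fun k => β k * y k) i) +
        Tv T (fun k => β k * y k - m * y k) i := by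
    intro i
    have h1 : (U.indicator fun i => T i j / s) = fun k => f k * y k := by
      funext k
      by_cases hk : k ∈ U <;> simp [hf, hk, hy]
    have h2 : Tv T (fun k => m * y k) i = m * (T i j / s) := by
      have h3 := hst.fix i
      change _ = m * y i
      rw [h3]
      unfold Tv
      rw [← tsum_mul_left]
      exact tsum_congr fun k => by ring
    rw [h1, Tv_sub hT hβy hmy, h2]
    ring
  have hsum1 : Summable fun i => |Tv T (fun k => f k * y k) i - Tv T (fun k => β k * y k) i| := by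
    refine Summable.of_nonneg_of_le (fun k => abs_nonneg _) (fun k => ?_)
      ((Tv_summable hT hfy).add (Tv_summable hT hβy))
    exact abs_sub _ _
  have hsum2 := Tv_summable hT hdy
  have hmain : (∑' i, |Tv T (U.indicator fun i => T i j / s) i - m * (T i j / s)|) ≤
      (∑' i, |Tv T (fun k => f k * y k) i - Tv T (fun k => β k * y k) i|) +
        ∑' i, |Tv T (fun k => β k * y k - m * y k) i| := by
    rw [← hsum1.tsum_add hsum2]
    refine Summable.tsum_le_tsum (fun i => ?_) ?_ (hsum1.add hsum2)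
    · rw [hid i]; exact abs_add_le _ _
    · refine Summable.of_nonneg_of_le (fun k => abs_nonneg _) (fun i => ?_) (hsum1.add hsum2)
      rw [hid i]; exact abs_add_le _ _
  have hT2 := Tv_norm hT hdy
  have hT3 : (∑' k, |β k * y k - m * y k|) = av y (fun k => |β k - m|) := by
    unfold av
    refine tsum_congr fun k => ?_
    rw [← sub_mul, abs_mul, mul_comm]
  rw [hT3] at hT2
  -- numbers
  have hsq : √((1 + ε) * η ^ 2) ≤ 10001 / 10000 * η := by
    rw [show (10001 / 10000 * η : ℝ) = √((10001 / 10000 * η) ^ 2) by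
      rw [Real.sqrt_sq]; positivity]
    apply Real.sqrt_le_sqrt
    nlinarith [sq_nonneg η]
  have hsε : √ε ≤ η ^ 2 := by
    rw [show (η ^ 2 : ℝ) = √((η ^ 2) ^ 2) by rw [Real.sqrt_sq]; positivity]
    apply Real.sqrt_le_sqrt
    rw [← pow_mul]; exact hε
  have hdiv : (√((1 + ε) * η ^ 2) + η ^ 2) / s ≤ 101 / 100 * η := by
    rw [div_le_iff₀ hs0]
    nlinarith
  have hεη : ε ≤ 1 / 1000 * η := by nlinarith
  nlinarith

end Pool.Agent.H87.ZI
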